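import Mathlib

/-! Numerical lemmas for MP_0f9677_co. -/

namespace Pool.Agent.X47.MadNumeric

/-! ### Numerical part -/

/-- A finite check for small `n`. -/
def chk (n a b : ℕ) : Bool :=
  Nat.ble (n * (b * ((b - 1) * (b - 1))))
    (a * (((4 * n + 6) / 7 - 1) * ((n - (4 * n + 6) / 7) * (n + (4 * n + 6) / 7 - 1)))) ||
  (Nat.ble (n + 1) (a + b) &&
    Nat.ble (n * ((n * (n - 1) - 2 * ((n - a) * (n - b))) * (n * (n - 1) - 2 * ((n - a) * (n - b)))))
      (4 * (a * b) * (((4 * n + 6) / 7 - 1) * ((n - (4 * n + 6) / 7) * (n + (4 * n + 6) / 7 - 1)))))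

/-- All checks for `n < 64`. -/
def allchk : Bool :=
  (List.range 64).all fun n => Nat.ble n 2 || (List.range (n + 1)).all fun a =>
    (List.range (a + 1)).all fun b => Nat.ble a 0 || Nat.ble b 0 || chk n a b

lemma allchk_true : allchk = true := by decide +kernel

lemma chk_true (n a b : ℕ) (hn : 3 ≤ n) (hn' : n < 64) (ha : 1 ≤ a) (han : a ≤ n) (hb : 1 ≤ b)
    (hba : b ≤ a) : chk n a b = true := by
  have h := allchk_true
  unfold allchk at h
  rw [List.all_eq_true] at h
  have h1 := h n (List.mem_range.2 hn')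
  rw [Bool.or_eq_true] at h1
  rcases h1 with h1 | h1
  · have := Nat.le_of_ble_eq_true h1
    omega
  · rw [List.all_eq_true] at h1
    have h2 := h1 a (List.mem_range.2 (by omega))
    rw [List.all_eq_true] at h2
    have h3 := h2 b (List.mem_range.2 (by omega))
    rw [Bool.or_eq_true, Bool.or_eq_true] at h3
    rcases h3 with (h3 | h3) | h3
    · have := Nat.le_of_ble_eq_true h3
      omega
    · have := Nat.le_of_ble_eq_true h3
      omega
    · exact h3

/-- The product function (times `n`). -/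
def h (n x : ℝ) : ℝ := (x - 1) * ((n - x) * (n + x - 1))

/-- The analytic part of the interior case, in normalised variables. -/
lemma claimA (α β : ℝ) (h0 : 0 < β) (hβα : β ≤ α) (hα1 : α ≤ 1) (hc : 9 / 25 * α < β ^ 3) :
    (1 - 2 * (1 - α) * (1 - β)) ^ 2 ≤ 36 / 25 * α * β := by
  have hβ : 3 / 5 < β := by
    by_contra hcon
    push Not at hcon
    nlinarith [mul_nonneg h0.le (mul_nonneg (by linarith : (0 : ℝ) ≤ 3 / 5 - β)
      (by linarith : (0 : ℝ) ≤ 3 / 5 + β))]
  have hβ1 : β ≤ 1 := hβα.trans hα1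
  have HB : (1 - 2 * (1 - β) * (1 - β)) ^ 2 ≤ 36 / 25 * β * β := by
    have e1 : 0 ≤ 2 * β ^ 2 - 14 / 5 * β + 1 := by nlinarith [sq_nonneg (β - 7 / 10)]
    have e2 : 0 ≤ -2 * β ^ 2 + 26 / 5 * β - 1 := by nlinarith
    nlinarith [mul_nonneg e1 e2]
  have key : ∀ A : ℝ, α ≤ A → (1 - 2 * (1 - A) * (1 - β)) ^ 2 ≤ 36 / 25 * A * β →
      (1 - 2 * (1 - α) * (1 - β)) ^ 2 ≤ 36 / 25 * α * β := by
    intro A hA HA
    rcases eq_or_lt_of_le hβα with h1 | h1
    · rw [← h1]; exact HB
    · have hAβ : 0 < A - β := by linarith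
      have e : (36 / 25 * α * β - (1 - 2 * (1 - α) * (1 - β)) ^ 2) * (A - β) =
          (A - α) * (36 / 25 * β * β - (1 - 2 * (1 - β) * (1 - β)) ^ 2) +
          (α - β) * (36 / 25 * A * β - (1 - 2 * (1 - A) * (1 - β)) ^ 2) +
          4 * (1 - β) ^ 2 * ((α - β) * (A - α)) * (A - β) := by ring
      have e1 : 0 ≤ (A - α) * (36 / 25 * β * β - (1 - 2 * (1 - β) * (1 - β)) ^ 2) :=
        mul_nonneg (by linarith) (by linarith)
      have e2 : 0 ≤ (α - β) * (36 / 25 * A * β - (1 - 2 * (1 - A) * (1 - β)) ^ 2) :=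
        mul_nonneg (by linarith) (by linarith)
      have e3 : 0 ≤ 4 * (1 - β) ^ 2 * ((α - β) * (A - α)) * (A - β) :=
        mul_nonneg (mul_nonneg (by positivity) (mul_nonneg (by linarith) (by linarith))) hAβ.le
      have e4 : 0 ≤ (36 / 25 * α * β - (1 - 2 * (1 - α) * (1 - β)) ^ 2) * (A - β) := by
        rw [e]; linarith
      have := nonneg_of_mul_nonneg_left e4 hAβ
      linarith
  by_cases hcase : 9 / 25 ≤ β ^ 3
  · apply key 1 hα1
    have hβ7 : 7 / 10 ≤ β := by
      by_contra hcon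
      push Not at hcon
      have : β ^ 3 < (7 / 10) ^ 3 := pow_lt_pow_left₀ hcon h0.le (by norm_num)
      norm_num at this
      linarith
    nlinarith
  · push Not at hcase
    apply key (25 / 9 * β ^ 3) (by linarith)
    have hβ7 : β < 18 / 25 := by
      by_contra hcon
      push Not at hcon
      have : (18 / 25 : ℝ) ^ 3 ≤ β ^ 3 := pow_le_pow_left₀ (by norm_num) hcon 3
      norm_num at this
      linarith
    have hA1 : 25 / 9 * β ^ 3 < 1 := by linarith
    have hA0 : 0 < 25 / 9 * β ^ 3 := by positivity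
    have h1 : 1 - 2 * (1 - 25 / 9 * β ^ 3) * (1 - β) ≤ 2 * β ^ 2 := by
      nlinarith [sq_nonneg (β ^ 2 - β / 2 - 1224 / 10000), sq_nonneg (β - 68 / 100)]
    have h2 : 0 ≤ 1 - 2 * (1 - 25 / 9 * β ^ 3) * (1 - β) := by nlinarith
    have h3 := mul_self_le_mul_self h2 h1
    nlinarith

/-- The analytic part of the interior case. -/
lemma large (n a b : ℝ) (hn : 0 < n) (hb : 0 < b) (hba : b ≤ a) (han : a ≤ n)
    (hc : 9 / 25 * n ^ 2 * a < b ^ 3) :
    3 / 5 * n < b ∧ (n ^ 2 - 2 * ((n - a) * (n - b))) ^ 2 ≤ 36 / 25 * n ^ 2 * (a * b) := by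
  have h1 := claimA (a / n) (b / n) (by positivity) (by gcongr) ((div_le_one hn).2 han) (by
    rw [div_pow, lt_div_iff₀ (by positivity)]
    calc 9 / 25 * (a / n) * n ^ 3 = 9 / 25 * n ^ 2 * a := by field_simp
      _ < b ^ 3 := hc)
  constructor
  · by_contra hcon
    push Not at hcon
    have h2 : b ^ 2 ≤ (3 / 5 * n) ^ 2 := pow_le_pow_left₀ hb.le hcon 2
    have h3 : b ^ 2 * b ≤ (3 / 5 * n) ^ 2 * a := mul_le_mul h2 hba hb.le (by positivity)
    nlinarith
  · have e1 : (1 - 2 * (1 - a / n) * (1 - b / n)) ^ 2 * n ^ 4 =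
        (n ^ 2 - 2 * ((n - a) * (n - b))) ^ 2 := by field_simp
    have e2 : 36 / 25 * (a / n) * (b / n) * n ^ 4 = 36 / 25 * n ^ 2 * (a * b) := by field_simp
    rw [← e1, ← e2]
    exact mul_le_mul_of_nonneg_right h1 (by positivity)

/-- The case in which the parabola is decreasing. -/
lemma case1 (n a b c τ : ℝ) (hb1 : 1 ≤ b) (hbn : b ≤ n) (ha1 : 1 ≤ a) (han : a ≤ n)
    (hc : c = 0 ∨ 1 ≤ c) (hca : c ≤ a) (habc : a + b ≤ n + c) (hτ0 : 0 ≤ τ)
    (hcase : b * (b - 1) ≤ a * (a - 1) - c * (c - 1)) (hsb : b ≤ n - a ∨ n - a + 1 ≤ b) :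
    n * ((a * (a - 1) - c * (c - 1) + τ) * (b * (b - 1) - τ)) ≤ a * b * h n b := by
  have hn : 1 ≤ n := hb1.trans hbn
  have hR : 0 ≤ c * (c - 1) := by
    rcases hc with rfl | hc
    · simp
    · exact mul_nonneg (by linarith) (by linarith)
  have h1 : (a * (a - 1) - c * (c - 1) + τ) * (b * (b - 1) - τ) ≤
      (a * (a - 1) - c * (c - 1)) * (b * (b - 1)) := by
    nlinarith [mul_nonneg hτ0 (sub_nonneg.2 hcase), mul_nonneg hτ0 hτ0]
  have h2 : n * (a * (a - 1) - c * (c - 1)) ≤ a * (n * (n - 1) - b * (b - 1)) := by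
    rcases hsb with hsb | hsb
    · have e1 : b * (b - 1) ≤ (n - a) * n := by
        apply mul_le_mul hsb (by linarith) (by linarith) (by linarith)
      nlinarith [mul_nonneg (by linarith : (0 : ℝ) ≤ a) (sub_nonneg.2 e1),
        mul_nonneg (by linarith : (0 : ℝ) ≤ n) hR]
    · have hc' : a + b - n ≤ c := by linarith
      have e1 : (a + b - n) * (a + b - n - 1) ≤ c * (c - 1) :=
        mul_le_mul hc' (by linarith) (by linarith) (by linarith)
      have e2 : 0 ≤ (n - a) * ((n - b) * (n - b) + (n - b)) :=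
        mul_nonneg (by linarith) (add_nonneg (mul_self_nonneg _) (by linarith))
      nlinarith [mul_le_mul_of_nonneg_left e1 (by linarith : (0 : ℝ) ≤ n)]
  have h3 : 0 ≤ b * (b - 1) := mul_nonneg (by linarith) (by linarith)
  calc n * ((a * (a - 1) - c * (c - 1) + τ) * (b * (b - 1) - τ))
      ≤ n * ((a * (a - 1) - c * (c - 1)) * (b * (b - 1))) :=
        mul_le_mul_of_nonneg_left h1 (by linarith)
    _ = (n * (a * (a - 1) - c * (c - 1))) * (b * (b - 1)) := by ring
    _ ≤ (a * (n * (n - 1) - b * (b - 1))) * (b * (b - 1)) := mul_le_mul_of_nonneg_right h2 h3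
    _ = a * b * h n b := by unfold h; ring

set_option maxHeartbeats 1000000 in
/-- The interior case. -/
lemma case3 (n a b c : ℕ) (hn : 3 ≤ n) (ha : 1 ≤ a) (han : a ≤ n) (hb : 1 ≤ b) (hba : b ≤ a)
    (hcb : c ≤ b) (habc : a + b ≤ n + c) (τ : ℝ)
    (hcase : (a : ℝ) * (a - 1) - c * (c - 1) < b * (b - 1)) :
    (n : ℝ) * (((a : ℝ) * (a - 1) - c * (c - 1) + τ) * (b * (b - 1) - τ)) ≤
      a * b * h n (((4 * n + 6) / 7 : ℕ) : ℝ) := by
  obtain ⟨x, hx⟩ : ∃ x, (4 * n + 6) / 7 = x := ⟨_, rfl⟩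
  have haR : (1 : ℝ) ≤ a := by exact_mod_cast ha
  have hbR : (1 : ℝ) ≤ b := by exact_mod_cast hb
  have hanR : (a : ℝ) ≤ n := by exact_mod_cast han
  have hbaR : (b : ℝ) ≤ a := by exact_mod_cast hba
  have hcbR : (c : ℝ) ≤ b := by exact_mod_cast hcb
  have hnR : (3 : ℝ) ≤ n := by exact_mod_cast hn
  have habcR : (a : ℝ) + b ≤ n + c := by exact_mod_cast habc
  set P : ℝ := (a : ℝ) * (a - 1) with hP
  set Q : ℝ := (b : ℝ) * (b - 1) with hQ
  set R : ℝ := (c : ℝ) * (c - 1) with hR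
  have hRP : R ≤ P := by
    rcases Nat.eq_zero_or_pos c with h0 | h0
    · rw [hR, h0]
      simp only [Nat.cast_zero, zero_mul]
      exact mul_nonneg (by linarith) (by linarith)
    · have : (1 : ℝ) ≤ c := by exact_mod_cast h0
      exact mul_le_mul (by linarith) (by linarith) (by linarith) (by linarith)
  have hR0 : 0 ≤ R := by
    rcases Nat.eq_zero_or_pos c with h0 | h0
    · rw [hR, h0]; simp
    · have : (1 : ℝ) ≤ c := by exact_mod_cast h0
      exact mul_nonneg (by linarith) (by linarith)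
  have hQ0 : 0 ≤ Q := mul_nonneg (by linarith) (by linarith)
  -- completing the square
  have h1 : 4 * ((P - R + τ) * (Q - τ)) ≤ (P + Q - R) ^ 2 := by
    nlinarith [sq_nonneg (P - R + τ - (Q - τ))]
  have hS0 : 0 ≤ P + Q - R := by linarith
  have h2 : P + Q - R ≤ 2 * Q := by linarith
  have h3 : n + 1 ≤ a + b → P + Q - R ≤ n * (n - 1) - 2 * ((n - a) * (n - b)) := by
    intro hab
    have habR : (n : ℝ) + 1 ≤ a + b := by exact_mod_cast hab
    have e1 : ((a : ℝ) + b - n) * (a + b - n - 1) ≤ c * (c - 1) :=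
      mul_le_mul (by linarith) (by linarith) (by linarith) (by linarith)
    rw [hP, hQ, hR]
    nlinarith
  have hhx0 : (x : ℝ) ≤ n := by
    have : x ≤ n := by omega
    exact_mod_cast this
  have hhx1 : (1 : ℝ) ≤ x := by
    have : 1 ≤ x := by omega
    exact_mod_cast this
  have hcasth : (((x - 1) * ((n - x) * (n + x - 1)) : ℕ) : ℝ) = h n x := by
    unfold h
    have e1 : 1 ≤ x := by omega
    have e2 : x ≤ n := by omega
    rw [Nat.cast_mul, Nat.cast_mul, Nat.cast_sub e1, Nat.cast_sub e2,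
      Nat.cast_sub (by omega : 1 ≤ n + x)]
    push_cast
    ring
  -- it suffices to bound the square
  have suff : (n : ℝ) * (P + Q - R) ^ 2 ≤ 4 * (a * b) * h n x := by
    by_cases hsmall : n < 64
    · have hchk := chk_true n a b hn hsmall ha han hb hba
      unfold chk at hchk
      rw [hx, Bool.or_eq_true, Bool.and_eq_true] at hchk
      rcases hchk with h4 | ⟨h4, h5⟩
      · have h6 := Nat.le_of_ble_eq_true h4
        have h7 : ((n * (b * ((b - 1) * (b - 1))) : ℕ) : ℝ) ≤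
            ((a * ((x - 1) * ((n - x) * (n + x - 1))) : ℕ) : ℝ) := by exact_mod_cast h6
        rw [Nat.cast_mul a, hcasth, Nat.cast_mul, Nat.cast_mul, Nat.cast_mul,
          Nat.cast_sub hb, Nat.cast_one] at h7
        have h8 : (P + Q - R) ^ 2 ≤ (2 * Q) ^ 2 := pow_le_pow_left₀ hS0 h2 2
        have h9 : (n : ℝ) * (P + Q - R) ^ 2 ≤ n * (2 * Q) ^ 2 :=
          mul_le_mul_of_nonneg_left h8 (by linarith)
        refine h9.trans ?_
        have h10 := mul_le_mul_of_nonneg_left h7 (by linarith : (0 : ℝ) ≤ 4 * b)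
        calc (n : ℝ) * (2 * Q) ^ 2 = 4 * b * (n * (b * ((b - 1) * (b - 1)))) := by rw [hQ]; ring
          _ ≤ 4 * b * (a * h n x) := h10
          _ = 4 * (a * b) * h n x := by ring
      · have h4' := Nat.le_of_ble_eq_true h4
        have h6 := Nat.le_of_ble_eq_true h5
        have hsub : 2 * ((n - a) * (n - b)) ≤ n * (n - 1) := by
          have e1 : (n - a) ≤ n - 1 := by omega
          have e2 : 2 * (n - b) ≤ n ∨ 2 * (n - a) ≤ n := by omega
          rcases e2 with e2 | e2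
          · calc 2 * ((n - a) * (n - b)) = (2 * (n - b)) * (n - a) := by ring
              _ ≤ n * (n - 1) := Nat.mul_le_mul e2 e1
          · calc 2 * ((n - a) * (n - b)) = (2 * (n - a)) * (n - b) := by ring
              _ ≤ n * (n - 1) := Nat.mul_le_mul e2 (by omega)
        have h7 : ((n * ((n * (n - 1) - 2 * ((n - a) * (n - b))) *
            (n * (n - 1) - 2 * ((n - a) * (n - b)))) : ℕ) : ℝ) ≤
            ((4 * (a * b) * ((x - 1) * ((n - x) * (n + x - 1))) : ℕ) : ℝ) := by exact_mod_cast h6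
        rw [Nat.cast_mul (4 * (a * b)), hcasth, Nat.cast_mul n, Nat.cast_mul (n * (n - 1) - _),
          Nat.cast_sub hsub, Nat.cast_mul n, Nat.cast_sub (by omega : 1 ≤ n), Nat.cast_mul 2,
          Nat.cast_mul (n - a), Nat.cast_sub han, Nat.cast_sub (hba.trans han)] at h7
        push_cast at h7
        have h8 : (P + Q - R) ^ 2 ≤ (n * (n - 1) - 2 * ((n - a) * (n - b))) ^ 2 :=
          pow_le_pow_left₀ hS0 (h3 h4') 2
        have h9 := mul_le_mul_of_nonneg_left h8 (by linarith : (0 : ℝ) ≤ n)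
        refine h9.trans (le_trans (le_of_eq ?_) (h7.trans (le_of_eq ?_)))
        · ring
        · ring
    · have hn64 : 64 ≤ n := by omega
      have hn64R : (64 : ℝ) ≤ n := by exact_mod_cast hn64
      -- the value of h
      have hh : 9 / 25 * (n : ℝ) ^ 3 ≤ h n x := by
        have x1 : 4 * (n : ℝ) ≤ 7 * x := by
          have : 4 * n ≤ 7 * x := by omega
          exact_mod_cast this
        have x2 : 7 * (x : ℝ) ≤ 4 * n + 6 := by
          have : 7 * x ≤ 4 * n + 6 := by omega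
          exact_mod_cast this
        have e1 : (x : ℝ) * (x - 1) ≤ (4 * n + 6) / 7 * ((4 * n - 1) / 7) :=
          mul_le_mul (by linarith) (by linarith) (by linarith) (by linarith)
        have e2 : h n x = (x - 1) * (n * (n - 1) - x * (x - 1)) := by unfold h; ring
        have e3 : (33 * (n : ℝ) ^ 2 - 69 * n + 6) / 49 ≤ n * (n - 1) - x * (x - 1) := by
          nlinarith
        have e4 : (0 : ℝ) ≤ (33 * (n : ℝ) ^ 2 - 69 * n + 6) / 49 := by nlinarith
        have e5 : (4 * (n : ℝ) - 7) / 7 ≤ x - 1 := by linarith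
        have e6 : (4 * (n : ℝ) - 7) / 7 * ((33 * (n : ℝ) ^ 2 - 69 * n + 6) / 49) ≤
            (x - 1) * (n * (n - 1) - x * (x - 1)) :=
          mul_le_mul e5 e3 e4 (by linarith)
        rw [e2]
        refine le_trans ?_ e6
        have e7 : (4 * (n : ℝ) - 7) / 7 * ((33 * (n : ℝ) ^ 2 - 69 * n + 6) / 49) =
            9 / 25 * (n : ℝ) ^ 3 + ((213 / 25) * n ^ 3 - 507 * n ^ 2 + 507 * n - 42) / 343 := by
          ring
        rw [e7]
        have e8 : 0 ≤ (213 / 25) * (n : ℝ) ^ 3 - 507 * n ^ 2 + 507 * n - 42 := by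
          nlinarith [mul_nonneg (sub_nonneg.2 hn64R) (sq_nonneg (n : ℝ))]
        linarith
      by_cases hF1 : (b : ℝ) ^ 3 ≤ 9 / 25 * n ^ 2 * a
      · have h8 : (P + Q - R) ^ 2 ≤ (2 * Q) ^ 2 := pow_le_pow_left₀ hS0 h2 2
        have h9 := mul_le_mul_of_nonneg_left h8 (by linarith : (0 : ℝ) ≤ n)
        refine h9.trans ?_
        have e1 : Q ^ 2 ≤ b * (b : ℝ) ^ 3 := by
          have : Q ≤ (b : ℝ) * b := mul_le_mul_of_nonneg_left (by linarith) (by linarith)
          calc Q ^ 2 ≤ ((b : ℝ) * b) ^ 2 := pow_le_pow_left₀ hQ0 this 2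
            _ = b * (b : ℝ) ^ 3 := by ring
        calc (n : ℝ) * (2 * Q) ^ 2 = 4 * n * Q ^ 2 := by ring
          _ ≤ 4 * n * (b * (b : ℝ) ^ 3) := mul_le_mul_of_nonneg_left e1 (by positivity)
          _ ≤ 4 * n * (b * (9 / 25 * n ^ 2 * a)) := by gcongr
          _ = 4 * (a * b) * (9 / 25 * (n : ℝ) ^ 3) := by ring
          _ ≤ 4 * (a * b) * h n x := mul_le_mul_of_nonneg_left hh (by positivity)
      · push Not at hF1
        obtain ⟨hb5, hF2⟩ := large n a b (by linarith) (by linarith) hbaR hanR hF1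
        have hab : n + 1 ≤ a + b := by
          have : (n : ℝ) + 1 ≤ a + b := by linarith
          exact_mod_cast this
        have h4 : P + Q - R ≤ n ^ 2 - 2 * ((n - a) * (n - b)) := by
          have := h3 hab
          nlinarith
        have h8 : (P + Q - R) ^ 2 ≤ (n ^ 2 - 2 * ((n - a) * (n - b))) ^ 2 :=
          pow_le_pow_left₀ hS0 h4 2
        calc (n : ℝ) * (P + Q - R) ^ 2 ≤ n * (36 / 25 * n ^ 2 * (a * b)) :=
              mul_le_mul_of_nonneg_left (h8.trans hF2) (by linarith)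
          _ = 4 * (a * b) * (9 / 25 * (n : ℝ) ^ 3) := by ring
          _ ≤ 4 * (a * b) * h n x := mul_le_mul_of_nonneg_left hh (by positivity)
  rw [hx]
  have h11 := mul_le_mul_of_nonneg_left h1 (by linarith : (0 : ℝ) ≤ n)
  linarith

/-- The numerical core: the product is at most `h n x / n` for some `x`. -/
lemma numeric (n a b c : ℕ) (hn : 3 ≤ n) (ha : 1 ≤ a) (han : a ≤ n) (hb : 1 ≤ b) (hbn : b ≤ n)
    (hca : c ≤ a) (hcb : c ≤ b) (habc : a + b ≤ n + c) (τ : ℝ) (hτ0 : 0 ≤ τ)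
    (hτ : τ ≤ (c : ℝ) * (c - 1)) :
    ∃ x : ℕ, 1 ≤ x ∧ x ≤ n ∧
      (n : ℝ) * (((a : ℝ) * (a - 1) - c * (c - 1) + τ) * (b * (b - 1) - τ)) ≤
        a * b * h n x := by
  have haR : (1 : ℝ) ≤ a := by exact_mod_cast ha
  have hbR : (1 : ℝ) ≤ b := by exact_mod_cast hb
  have hanR : (a : ℝ) ≤ n := by exact_mod_cast han
  have hbnR : (b : ℝ) ≤ n := by exact_mod_cast hbn
  have hcaR : (c : ℝ) ≤ a := by exact_mod_cast hca
  have hcbR : (c : ℝ) ≤ b := by exact_mod_cast hcb
  have habcR : (a : ℝ) + b ≤ n + c := by exact_mod_cast habc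
  have hc01 : (c : ℝ) = 0 ∨ (1 : ℝ) ≤ c := by
    rcases Nat.eq_zero_or_pos c with h0 | h0
    · left; rw [h0]; simp
    · right; exact_mod_cast h0
  by_cases h1 : (b : ℝ) * (b - 1) ≤ a * (a - 1) - c * (c - 1)
  · refine ⟨b, hb, hbn, ?_⟩
    apply case1 n a b c τ hbR hbnR haR hanR hc01 hcaR habcR hτ0 h1
    rcases (by omega : a + b ≤ n ∨ n + 1 ≤ a + b) with h2 | h2
    · left
      have : (a : ℝ) + b ≤ n := by exact_mod_cast h2
      linarith
    · right
      have : (n : ℝ) + 1 ≤ a + b := by exact_mod_cast h2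
      linarith
  · by_cases h2 : (a : ℝ) * (a - 1) ≤ b * (b - 1) - c * (c - 1)
    · refine ⟨a, ha, han, ?_⟩
      have := case1 n b a c (c * (c - 1) - τ) haR hanR hbR hbnR hc01 hcbR (by linarith)
        (by linarith) h2 (by
          rcases (by omega : a + b ≤ n ∨ n + 1 ≤ a + b) with h3 | h3
          · left
            have : (a : ℝ) + b ≤ n := by exact_mod_cast h3
            linarith
          · right
            have : (n : ℝ) + 1 ≤ a + b := by exact_mod_cast h3
            linarith)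
      calc (n : ℝ) * (((a : ℝ) * (a - 1) - c * (c - 1) + τ) * (b * (b - 1) - τ))
          = n * ((b * (b - 1) - c * (c - 1) + (c * (c - 1) - τ)) *
            (a * (a - 1) - (c * (c - 1) - τ))) := by ring
        _ ≤ b * a * h n a := this
        _ = a * b * h n a := by ring
    · push Not at h1 h2
      refine ⟨(4 * n + 6) / 7, by omega, by omega, ?_⟩
      rcases le_total b a with hba | hba
      · exact case3 n a b c hn ha han hb hba hcb habc τ h1
      · have := case3 n b a c hn hb hbn ha hba hca (by omega) (c * (c - 1) - τ) h2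
        calc (n : ℝ) * (((a : ℝ) * (a - 1) - c * (c - 1) + τ) * (b * (b - 1) - τ))
          = n * ((b * (b - 1) - c * (c - 1) + (c * (c - 1) - τ)) *
            (a * (a - 1) - (c * (c - 1) - τ))) := by ring
        _ ≤ b * a * h n (((4 * n + 6) / 7 : ℕ) : ℝ) := this
        _ = a * b * h n (((4 * n + 6) / 7 : ℕ) : ℝ) := by ring

end Pool.Agent.X47.MadNumeric
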