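import Mathlib
import Pool.Agent.Y902.FB.ExR

/-!
# The Fermat-Catalan equation: basic facts used for special families of bases

Consequences of the bound `exp_bound_real` for the exponents (linear forms in two logarithms).
-/

set_option autoImplicit false

namespace Pool.Agent.X47.FC

/-- `(x, y, z, p, q, r)` is a solution of the Fermat-Catalan equation: `x`, `y`, `z` are positive
integers with `gcd (x, y, z) = 1`, the exponents `p`, `q`, `r` are positive integers with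
`1/p + 1/q + 1/r ≤ 1`, and `x ^ p + y ^ q = z ^ r`. -/
def Solution (x y z p q r : ℕ) : Prop :=
  0 < x ∧ 0 < y ∧ 0 < z ∧ Nat.gcd x (Nat.gcd y z) = 1 ∧ 0 < p ∧ 0 < q ∧ 0 < r ∧
    (1 : ℚ) / p + 1 / q + 1 / r ≤ 1 ∧ x ^ p + y ^ q = z ^ r

theorem Solution.two_le {x y z p q r : ℕ} (h : Solution x y z p q r) : 2 ≤ p ∧ 2 ≤ q ∧ 2 ≤ r := by
  obtain ⟨-, -, -, -, hp, hq, hr, hs, -⟩ := h
  have h1 : ∀ a b c : ℕ, 0 < a → 0 < b → 0 < c → (1 : ℚ) / a + 1 / b + 1 / c ≤ 1 → 2 ≤ a := by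
    intro a b c ha hb hc h
    by_contra hlt
    have ha1 : a = 1 := by omega
    rw [ha1] at h
    have hb' : (0 : ℚ) < 1 / b := by positivity
    have hc' : (0 : ℚ) < 1 / c := by positivity
    norm_num at h
    have hb'' : (0 : ℚ) < (b : ℚ)⁻¹ := by positivity
    have hc'' : (0 : ℚ) < (c : ℚ)⁻¹ := by positivity
    linarith
  refine ⟨h1 p q r hp hq hr hs, h1 q p r hq hp hr (by linarith), h1 r p q hr hp hq (by linarith)⟩

/-- The three bases of a solution are pairwise coprime. -/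
theorem Solution.coprimes {x y z p q r : ℕ} (h : Solution x y z p q r) :
    Nat.Coprime x y ∧ Nat.Coprime x z ∧ Nat.Coprime y z := by
  obtain ⟨-, -, -, hg, hp, hq, hr, -, he⟩ := h
  have key : ∀ l : ℕ, l.Prime → ¬ (l ∣ x ∧ l ∣ y ∧ l ∣ z) := by
    rintro l hl ⟨h1, h2, h3⟩
    have h4 : l ∣ Nat.gcd x (Nat.gcd y z) := Nat.dvd_gcd h1 (Nat.dvd_gcd h2 h3)
    rw [hg] at h4
    exact hl.one_lt.ne' (Nat.dvd_one.1 h4)
  refine ⟨?_, ?_, ?_⟩
  · refine Nat.Coprime.symm (Nat.coprime_of_dvd fun l hl h1 h2 => key l hl ⟨h2, h1, ?_⟩)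
    have h3 : l ∣ z ^ r := he ▸ (Nat.dvd_add (h2.trans (dvd_pow_self x hp.ne'))
      (h1.trans (dvd_pow_self y hq.ne')))
    exact hl.dvd_of_dvd_pow h3
  · refine Nat.Coprime.symm (Nat.coprime_of_dvd fun l hl h1 h2 => key l hl ⟨h2, ?_, h1⟩)
    have h3 : l ∣ x ^ p + y ^ q := he ▸ (h1.trans (dvd_pow_self z hr.ne'))
    exact hl.dvd_of_dvd_pow ((Nat.dvd_add_right (h2.trans (dvd_pow_self x hp.ne'))).1 h3)
  · refine Nat.Coprime.symm (Nat.coprime_of_dvd fun l hl h1 h2 => key l hl ⟨?_, h2, h1⟩)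
    have h3 : l ∣ x ^ p + y ^ q := he ▸ (h1.trans (dvd_pow_self z hr.ne'))
    exact hl.dvd_of_dvd_pow ((Nat.dvd_add_left (h2.trans (dvd_pow_self y hq.ne'))).1 h3)

theorem Solution.two_le_z {x y z p q r : ℕ} (h : Solution x y z p q r) : 2 ≤ z := by
  obtain ⟨hx, hy, hz, -, -, -, -, -, he⟩ := h
  by_contra hlt
  have h1 : z = 1 := by omega
  rw [h1, one_pow] at he
  have h2 : 0 < x ^ p := Nat.pow_pos hx
  have h3 : 0 < y ^ q := Nat.pow_pos hy
  omega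

/-- The exponents of the bases `≥ 2` are bounded by a power of the logarithm of the largest base. -/
theorem exp_bound : ∃ (C : ℝ) (κ : ℕ), 0 < C ∧ ∀ x y z p q r : ℕ, Solution x y z p q r →
    ∀ H : ℝ, (x : ℝ) ≤ H → (y : ℝ) ≤ H → (z : ℝ) ≤ H →
      (2 ≤ x → (p : ℝ) ≤ C * Real.log H ^ κ) ∧ (2 ≤ y → (q : ℝ) ≤ C * Real.log H ^ κ) ∧
      (r : ℝ) ≤ C * Real.log H ^ κ := by
  obtain ⟨C, κ, hC, h⟩ := Pool.Agent.Y902.FB.exp_bound_real
  refine ⟨C, κ, hC, fun x y z p q r hs H hx hy hz => ?_⟩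
  obtain ⟨h1, h2, h3⟩ := hs.coprimes
  obtain ⟨g1, g2, g3⟩ := hs.two_le
  have hz2 := hs.two_le_z
  obtain ⟨k1, k2, k3⟩ := h x y z p q r hs.1 hs.2.1 hs.2.2.1 h1 h2 h3 g1 g2 g3 hs.2.2.2.2.2.2.2.2
  have hmax : ((max x (max y z) : ℕ) : ℝ) ≤ H := by
    push_cast
    exact max_le hx (max_le hy hz)
  have hzm : 2 ≤ max x (max y z) := le_trans hz2 ((le_max_right _ _).trans (le_max_right _ _))
  have hlog0 : 0 ≤ Real.log ((max x (max y z) : ℕ) : ℝ) :=
    Real.log_nonneg (by exact_mod_cast (show 1 ≤ max x (max y z) by omega))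
  have hlog : Real.log ((max x (max y z) : ℕ) : ℝ) ≤ Real.log H :=
    Real.log_le_log (by exact_mod_cast (show 0 < max x (max y z) by omega)) hmax
  have hle : C * Real.log ((max x (max y z) : ℕ) : ℝ) ^ κ ≤ C * Real.log H ^ κ :=
    mul_le_mul_of_nonneg_left (pow_le_pow_left₀ hlog0 hlog κ) hC.le
  exact ⟨fun hh => (k1 hh).trans hle, fun hh => (k2 hh).trans hle, k3.trans hle⟩

/-- The solutions with bounded bases have finitely many value triples. -/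
theorem finite_values (H : ℕ) : {v : ℕ × ℕ × ℕ | ∃ x y z p q r : ℕ, Solution x y z p q r ∧
    x ≤ H ∧ y ≤ H ∧ z ≤ H ∧ v = (x ^ p, y ^ q, z ^ r)}.Finite := by
  obtain ⟨C, κ, hC, h⟩ := exp_bound
  obtain ⟨E, hE⟩ : ∃ E : ℕ, C * Real.log H ^ κ ≤ E := exists_nat_ge _
  let F : Finset (ℕ × ℕ) := Finset.range (H + 1) ×ˢ Finset.range (E + 1)
  let φ : ((ℕ × ℕ) × (ℕ × ℕ) × (ℕ × ℕ)) → ℕ × ℕ × ℕ :=
    fun w => (w.1.1 ^ w.1.2, w.2.1.1 ^ w.2.1.2, w.2.2.1 ^ w.2.2.2)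
  refine Set.Finite.subset ((F ×ˢ F ×ˢ F).image φ).finite_toSet ?_
  rintro v ⟨x, y, z, p, q, r, hs, hx, hy, hz, rfl⟩
  obtain ⟨k1, k2, k3⟩ := h x y z p q r hs H (by exact_mod_cast hx) (by exact_mod_cast hy)
    (by exact_mod_cast hz)
  have key : ∀ u e : ℕ, 0 < u → u ≤ H → (2 ≤ u → (e : ℝ) ≤ C * Real.log H ^ κ) →
      ∃ w ∈ F, u ^ e = w.1 ^ w.2 := by
    intro u e hu hu2 hb
    rcases Nat.lt_or_ge u 2 with h1 | h1
    · refine ⟨(1, 0), ?_, ?_⟩
      · simp only [F, Finset.mem_product, Finset.mem_range]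
        omega
      · have : u = 1 := by omega
        simp [this]
    · refine ⟨(u, e), ?_, rfl⟩
      simp only [F, Finset.mem_product, Finset.mem_range]
      have h2 : (e : ℝ) ≤ E := (hb h1).trans hE
      have h3 : e ≤ E := by exact_mod_cast h2
      omega
  obtain ⟨w1, hw1, e1⟩ := key x p hs.1 hx k1
  obtain ⟨w2, hw2, e2⟩ := key y q hs.2.1 hy k2
  obtain ⟨w3, hw3, e3⟩ := key z r hs.2.2.1 hz (fun _ => k3)
  simp only [Finset.coe_image, Set.mem_image, Finset.mem_coe, Finset.mem_product]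
  exact ⟨(w1, w2, w3), ⟨hw1, hw2, hw3⟩, by simp only [φ, e1, e2, e3]⟩

/-- Powers of nearly equal numbers. -/
theorem pow_near {A B η : ℝ} {e : ℕ} (hB : 0 < B) (h : |A - B| ≤ η * B) (hη : 0 ≤ η)
    (he : (e : ℝ) * η ≤ 1 / 2) : |A ^ e - B ^ e| ≤ 2 * e * η * B ^ e := by
  rcases Nat.eq_zero_or_pos e with h0 | h0
  · subst h0; simp
  have he1 : (1 : ℝ) ≤ e := by exact_mod_cast h0
  have hη2 : η ≤ 1 / 2 := by nlinarith
  obtain ⟨u, hu⟩ : ∃ u, u = (A - B) / B := ⟨_, rfl⟩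
  have hA : A = B * (1 + u) := by rw [hu]; field_simp; ring
  have hua : |u| ≤ η := by
    rw [hu, abs_div, abs_of_pos hB, div_le_iff₀ hB]
    exact h
  have hu1 := abs_le.1 hua
  have hlow : 1 + (e : ℝ) * u ≤ (1 + u) ^ e := one_add_mul_le_pow (by linarith) e
  have hup : (1 + u) ^ e ≤ Real.exp (e * u) := by
    have : 1 + u ≤ Real.exp u := by linarith [Real.add_one_le_exp u]
    calc (1 + u) ^ e ≤ (Real.exp u) ^ e := pow_le_pow_left₀ (by linarith) this e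
      _ = Real.exp (e * u) := by rw [← Real.exp_nat_mul]
  have heu : |(e : ℝ) * u| ≤ e * η := by
    rw [abs_mul, abs_of_nonneg (by positivity : (0 : ℝ) ≤ e)]
    exact mul_le_mul_of_nonneg_left hua (by positivity)
  have hexp : |Real.exp (e * u) - 1| ≤ 2 * |(e : ℝ) * u| := Real.abs_exp_sub_one_le (by linarith)
  have h1 := abs_le.1 (hexp)
  have h2 := abs_le.1 heu
  have hkey : |(1 + u) ^ e - 1| ≤ 2 * e * η := by
    rw [abs_le]
    constructor
    · nlinarith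
    · nlinarith
  have hBe : 0 < B ^ e := by positivity
  rw [hA, mul_pow]
  have : B ^ e * (1 + u) ^ e - B ^ e = B ^ e * ((1 + u) ^ e - 1) := by ring
  rw [this, abs_mul, abs_of_pos hBe]
  calc B ^ e * |(1 + u) ^ e - 1| ≤ B ^ e * (2 * e * η) := mul_le_mul_of_nonneg_left hkey hBe.le
    _ = _ := by ring

end Pool.Agent.X47.FC
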