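import Mathlib
import Pool.Agent.X47.FCBase

/-!
# The Fermat-Catalan equation along polynomial curves with a balanced finite point
-/

set_option autoImplicit false

namespace Pool.Agent.X47.FC

open Polynomial Filter Topology

/-- A solution of `± F ^ P ± G ^ Q ± H ^ R = 0` with coprime positive bases. -/
def Gen (F G H P Q R : ℕ) : Prop :=
  (0 < F ∧ 0 < G ∧ 0 < H) ∧ (Nat.Coprime F G ∧ Nat.Coprime F H ∧ Nat.Coprime G H) ∧
    (0 < P ∧ 0 < Q ∧ 0 < R) ∧ (1 : ℚ) / P + 1 / Q + 1 / R ≤ 1 ∧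
    (F ^ P + G ^ Q = H ^ R ∨ F ^ P + H ^ R = G ^ Q ∨ G ^ Q + H ^ R = F ^ P)

theorem gen_exp : ∃ (C : ℝ) (κ : ℕ), 0 < C ∧ ∀ F G H P Q R : ℕ, Gen F G H P Q R →
    ∀ M : ℝ, (F : ℝ) ≤ M → (G : ℝ) ≤ M → (H : ℝ) ≤ M →
      (2 ≤ F → (P : ℝ) ≤ C * Real.log M ^ κ) ∧ (2 ≤ G → (Q : ℝ) ≤ C * Real.log M ^ κ) ∧
      (2 ≤ H → (R : ℝ) ≤ C * Real.log M ^ κ) := by
  obtain ⟨C, κ, hC, h⟩ := exp_bound
  refine ⟨C, κ, hC, ?_⟩
  rintro F G H P Q R ⟨⟨f0, g0, h0⟩, ⟨c1, c2, c3⟩, ⟨p0, q0, r0⟩, hs, he⟩ M hF hG hH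
  have hg : ∀ a b c : ℕ, Nat.Coprime a b → Nat.gcd a (Nat.gcd b c) = 1 := by
    intro a b c hab
    exact Nat.Coprime.coprime_dvd_right (Nat.gcd_dvd_left b c) hab
  rcases he with he | he | he
  · obtain ⟨k1, k2, k3⟩ := h F G H P Q R ⟨f0, g0, h0, hg _ _ _ c1, p0, q0, r0, hs, he⟩ M hF hG hH
    exact ⟨k1, k2, fun _ => k3⟩
  · obtain ⟨k1, k2, k3⟩ := h F H G P R Q
      ⟨f0, h0, g0, hg _ _ _ c2, p0, r0, q0, by linarith, he⟩ M hF hH hG
    exact ⟨k1, fun _ => k3, k2⟩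
  · obtain ⟨k1, k2, k3⟩ := h G H F Q R P
      ⟨g0, h0, f0, hg _ _ _ c3, q0, r0, p0, by linarith, he⟩ M hG hH hF
    exact ⟨fun _ => k3, k1, k2⟩

/-- `(1 + s α) ^ P ≡ 1 + P α s` modulo `s ^ 2`. -/
theorem one_add_pow (s α : ℤ) (P : ℕ) : s ^ 2 ∣ (1 + s * α) ^ P - (1 + P * α * s) := by
  induction P with
  | zero => simp
  | succ n ih =>
    obtain ⟨k, hk⟩ := ih
    refine ⟨k * (1 + s * α) + n * α ^ 2, ?_⟩
    have h1 : (1 + s * α) ^ n = s ^ 2 * k + (1 + n * α * s) := by linarith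
    rw [pow_succ, h1]
    push_cast
    ring

/-- `(Y + D) ^ N ≡ Y ^ N + N Y ^ (N - 1) D` modulo `D ^ 2`. -/
theorem add_pow_mod (Y D : ℤ) (N : ℕ) :
    D ^ 2 ∣ (Y + D) ^ (N + 1) - (Y ^ (N + 1) + (N + 1) * Y ^ N * D) := by
  induction N with
  | zero => simp
  | succ n ih =>
    obtain ⟨k, hk⟩ := ih
    refine ⟨k * (Y + D) + (n + 1) * Y ^ n, ?_⟩
    have h1 : (Y + D) ^ (n + 1) = D ^ 2 * k + (Y ^ (n + 1) + (n + 1) * Y ^ n * D) := by linarith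
    rw [pow_succ, h1]
    push_cast
    ring

/-- Lower bound for the difference of two powers. -/
theorem diff_low {u w X Y : ℤ} {m N : ℕ} (hw : 0 ≤ w) (hwu : w < u) (hm : 0 < m) (hN : 0 < N)
    (hY : 0 ≤ Y) (hXY : Y < X) (hu : u ^ m = X ^ N) (hw' : w ^ m = Y ^ N) :
    u ≤ m * X * (u - w) := by
  have hX : 0 < X := by omega
  have hu0 : 0 < u := by omega
  obtain ⟨m', rfl⟩ : ∃ m', m = m' + 1 := ⟨m - 1, by omega⟩
  obtain ⟨N', rfl⟩ : ∃ N', N = N' + 1 := ⟨N - 1, by omega⟩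
  have h1 : X ^ N' ≤ X ^ (N' + 1) - Y ^ (N' + 1) := by
    have h2 : Y ^ (N' + 1) ≤ X ^ N' * Y := by
      rw [pow_succ]
      exact mul_le_mul_of_nonneg_right (pow_le_pow_left₀ hY hXY.le N') hY
    have h3 : 0 < X ^ N' := by positivity
    have h4 : X ^ (N' + 1) - X ^ N' * Y = X ^ N' * (X - Y) := by ring
    have h5 : X ^ N' * 1 ≤ X ^ N' * (X - Y) := mul_le_mul_of_nonneg_left (by omega) h3.le
    linarith
  have h2 : u ^ (m' + 1) - w ^ (m' + 1) ≤ (m' + 1 : ℕ) * u ^ m' * (u - w) := by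
    have h3 := (Commute.all u w).geom_sum₂_mul (m' + 1)
    rw [← h3]
    refine mul_le_mul_of_nonneg_right ?_ (by omega)
    calc ∑ i ∈ Finset.range (m' + 1), u ^ i * w ^ (m' + 1 - 1 - i)
        ≤ ∑ i ∈ Finset.range (m' + 1), u ^ m' := by
          apply Finset.sum_le_sum
          intro i hi
          rw [Finset.mem_range] at hi
          calc u ^ i * w ^ (m' + 1 - 1 - i) ≤ u ^ i * u ^ (m' + 1 - 1 - i) :=
                mul_le_mul_of_nonneg_left (pow_le_pow_left₀ hw hwu.le _) (by positivity)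
            _ = u ^ m' := by rw [← pow_add]; congr 1; omega
      _ = _ := by rw [Finset.sum_const, Finset.card_range, nsmul_eq_mul]
  have h3 : X ^ N' ≤ (m' + 1 : ℕ) * u ^ m' * (u - w) := by
    rw [hu, hw'] at h2
    exact h1.trans h2
  have h4 : u ^ m' * u ≤ u ^ m' * (((m' + 1 : ℕ) : ℤ) * X * (u - w)) := by
    calc u ^ m' * u = X ^ N' * X := by rw [← pow_succ, hu, pow_succ]
      _ ≤ ((m' + 1 : ℕ) * u ^ m' * (u - w)) * X := mul_le_mul_of_nonneg_right h3 hX.le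
      _ = _ := by ring
  exact le_of_mul_le_mul_left h4 (by positivity)

theorem exp1 {t v α a : ℤ} {i : ℕ} (P : ℕ) (hi : 1 ≤ i) (hv : v = 1 + t ^ i * α)
    (hα : t ∣ α - a) : t ^ (i + 1) ∣ v ^ P - (1 + P * a * t ^ i) := by
  have h1 := one_add_pow (t ^ i) α P
  have h2 : t ^ (i + 1) ∣ (t ^ i) ^ 2 := by
    rw [← pow_mul]
    exact pow_dvd_pow t (by omega)
  obtain ⟨k, hk⟩ := hα
  have h3 : v ^ P - (1 + P * a * t ^ i) =
      ((1 + t ^ i * α) ^ P - (1 + P * α * t ^ i)) + t ^ (i + 1) * (P * k) := by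
    have h4 : α = a + t * k := by linarith
    rw [hv]
    have h5 : (P : ℤ) * α * t ^ i = P * a * t ^ i + t ^ (i + 1) * (P * k) := by
      rw [h4]; ring
    linarith
  rw [h3]
  exact dvd_add (h2.trans h1) (Dvd.intro _ rfl)

/-- The integers behind the core argument. -/
theorem core1 {t v w α β a b : ℤ} {i P Q E : ℕ} (hi : 1 ≤ i) (hv : v = 1 + t ^ i * α)
    (hw : w = 1 + t ^ i * β) (hα : t ∣ α - a) (hβ : t ∣ β - b) (ε₁ ε₂ : ℤ)
    (he1 : ε₁ = 1 ∨ ε₁ = -1) (he2 : ε₂ = 1 ∨ ε₂ = -1)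
    (hd : t ^ (i + 1) ∣ ε₁ * v ^ P + ε₂ * w ^ Q) (ht : 2 < |t|)
    (hE1 : a ≠ 0 → P ≤ E) (hE2 : b ≠ 0 → Q ≤ E) (hE : (|a| + |b|) * E < |t|) :
    (P : ℤ) * a = Q * b ∧ ∀ M : ℕ, t ^ M ∣ ε₁ * v ^ P + ε₂ * w ^ Q → t ^ M ∣ v ^ P - w ^ Q := by
  have ht0 : t ≠ 0 := by rintro rfl; simp at ht
  have h1 := exp1 P hi hv hα
  have h2 := exp1 Q hi hw hβ
  have h3 : t ^ (i + 1) ∣ (ε₁ + ε₂) + (ε₁ * (P * a) + ε₂ * (Q * b)) * t ^ i := by
    have h4 : (ε₁ + ε₂) + (ε₁ * (P * a) + ε₂ * (Q * b)) * t ^ i =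
        (ε₁ * v ^ P + ε₂ * w ^ Q) - ε₁ * (v ^ P - (1 + P * a * t ^ i)) -
          ε₂ * (w ^ Q - (1 + Q * b * t ^ i)) := by ring
    rw [h4]
    exact dvd_sub (dvd_sub hd (h1.mul_left _)) (h2.mul_left _)
  have h5 : t ∣ ε₁ + ε₂ := by
    have h6 : t ∣ t ^ i := dvd_pow_self t (by omega)
    have h7 : t ∣ t ^ (i + 1) := dvd_pow_self t (by omega)
    have h8 := h7.trans h3
    exact (dvd_add_left (h6.mul_left _)).1 h8
  have h6 : ε₂ = -ε₁ := by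
    have h7 : ε₁ + ε₂ = 0 := by
      apply Int.eq_zero_of_abs_lt_dvd ((abs_dvd t _).2 h5)
      rcases he1 with rfl | rfl <;> rcases he2 with rfl | rfl <;> norm_num <;> omega
    omega
  subst h6
  have he : ε₁ * ε₁ = 1 := by rcases he1 with rfl | rfl <;> norm_num
  have h7 : t ∣ (P : ℤ) * a - Q * b := by
    have h8 : t ^ i * t ∣ t ^ i * ((P : ℤ) * a - Q * b) := by
      have h9 : t ^ i * ((P : ℤ) * a - Q * b) =
          ε₁ * ((ε₁ + -ε₁) + (ε₁ * (P * a) + -ε₁ * (Q * b)) * t ^ i) := by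
        have : ε₁ * ((ε₁ + -ε₁) + (ε₁ * (P * a) + -ε₁ * (Q * b)) * t ^ i) =
          (ε₁ * ε₁) * (t ^ i * ((P : ℤ) * a - Q * b)) := by ring
        rw [this, he, one_mul]
      rw [h9, ← pow_succ]
      exact h3.mul_left _
    exact (mul_dvd_mul_iff_left (pow_ne_zero i ht0)).1 h8
  refine ⟨?_, fun M hM => ?_⟩
  · have h8 : (P : ℤ) * a - Q * b = 0 := by
      apply Int.eq_zero_of_abs_lt_dvd ((abs_dvd t _).2 h7)
      refine lt_of_le_of_lt ?_ hE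
      have h9 : |(P : ℤ) * a| ≤ |a| * E := by
        rcases eq_or_ne a 0 with h | h
        · simp [h]
        · rw [abs_mul, Nat.abs_cast, mul_comm]
          exact mul_le_mul_of_nonneg_left (by exact_mod_cast hE1 h) (abs_nonneg _)
      have h10 : |(Q : ℤ) * b| ≤ |b| * E := by
        rcases eq_or_ne b 0 with h | h
        · simp [h]
        · rw [abs_mul, Nat.abs_cast, mul_comm]
          exact mul_le_mul_of_nonneg_left (by exact_mod_cast hE2 h) (abs_nonneg _)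
      calc |(P : ℤ) * a - Q * b| ≤ |(P : ℤ) * a| + |(Q : ℤ) * b| := abs_sub _ _
        _ ≤ |a| * E + |b| * E := add_le_add h9 h10
        _ = _ := by ring
    omega
  · have h8 : v ^ P - w ^ Q = ε₁ * (ε₁ * v ^ P + -ε₁ * w ^ Q) := by
      have : ε₁ * (ε₁ * v ^ P + -ε₁ * w ^ Q) = (ε₁ * ε₁) * (v ^ P - w ^ Q) := by ring
      rw [this, he, one_mul]
    rw [h8]
    exact hM.mul_left _

/-- The exponent of the base which vanishes is bounded. -/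
theorem core2 {t X Y k k0 : ℤ} {j N M : ℕ} (hj : 1 ≤ j) (hXY : X = Y + t ^ j * k)
    (hY : t ∣ Y - 1) (hk : t ∣ k - k0) (hk0 : k0 ≠ 0) (hN : 0 < N) (hNb : N * |k0| < |t|)
    (hM : t ^ M ∣ X ^ N - Y ^ N) : M ≤ j := by
  by_contra hlt
  have hlt : j < M := not_le.1 hlt
  have ht0 : t ≠ 0 := by
    rintro rfl
    rw [abs_zero] at hNb
    have : 0 ≤ (N : ℤ) * |k0| := by positivity
    omega
  obtain ⟨N', rfl⟩ : ∃ N', N = N' + 1 := ⟨N - 1, by omega⟩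
  have h1 := add_pow_mod Y (t ^ j * k) N'
  rw [← hXY] at h1
  have h2 : t ^ (j + 1) ∣ (t ^ j * k) ^ 2 := by
    have : (t ^ j * k) ^ 2 = t ^ (j * 2) * k ^ 2 := by ring
    rw [this]
    exact (pow_dvd_pow t (by omega)).mul_right _
  have h3 : t ^ (j + 1) ∣ X ^ (N' + 1) - Y ^ (N' + 1) := (pow_dvd_pow t (by omega)).trans hM
  have h4 : t ^ (j + 1) ∣ (N' + 1) * Y ^ N' * (t ^ j * k) := by
    have h5 : (N' + 1) * Y ^ N' * (t ^ j * k) = (X ^ (N' + 1) - Y ^ (N' + 1)) -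
        (X ^ (N' + 1) - (Y ^ (N' + 1) + (N' + 1) * Y ^ N' * (t ^ j * k))) := by ring
    rw [h5]
    exact dvd_sub h3 (h2.trans h1)
  have h5 : t ^ j * t ∣ t ^ j * ((N' + 1) * Y ^ N' * k) := by
    rw [← pow_succ]
    have : t ^ j * ((N' + 1) * Y ^ N' * k) = (N' + 1) * Y ^ N' * (t ^ j * k) := by ring
    rw [this]
    exact h4
  have h6 : t ∣ (N' + 1) * Y ^ N' * k := (mul_dvd_mul_iff_left (pow_ne_zero j ht0)).1 h5
  have h7 : t ∣ Y ^ N' - 1 := by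
    have := sub_dvd_pow_sub_pow Y 1 N'
    rw [one_pow] at this
    exact hY.trans this
  have h8 : t ∣ ((N' + 1 : ℕ) : ℤ) * k0 := by
    obtain ⟨c, hc⟩ := h7
    obtain ⟨d, hd⟩ := hk
    obtain ⟨e, he⟩ := h6
    refine ⟨e - (N' + 1) * c * k - (N' + 1) * d, ?_⟩
    have e1 : Y ^ N' = 1 + t * c := by linarith
    have e2 : k0 = k - t * d := by linarith
    rw [e1] at he
    push_cast
    rw [e2]
    linear_combination he
  have h9 : ((N' + 1 : ℕ) : ℤ) * k0 = 0 := by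
    apply Int.eq_zero_of_abs_lt_dvd ((abs_dvd t _).2 h8)
    rw [abs_mul, Nat.abs_cast]
    exact hNb
  rcases mul_eq_zero.1 h9 with h | h
  · have : (0 : ℤ) < ((N' + 1 : ℕ) : ℤ) := by positivity
    omega
  · exact hk0 h

theorem core3 {x y P Q N α β : ℕ} {Z : ℤ} (hx : 2 ≤ x) (hy : 2 ≤ y) (hxy : Nat.Coprime x y)
    (hα : 0 < α) (hβ : 0 < β) (hN : 0 < N) (hP : P * α = N) (hQ : Q * β = N)
    (hZ : |(x : ℤ) ^ P - (y : ℤ) ^ Q| ≤ Z) :
    (x : ℤ) ^ P ≤ (α * β : ℕ) * (x ^ β + y ^ α : ℕ) * Z ∧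
      (y : ℤ) ^ Q ≤ (α * β : ℕ) * (x ^ β + y ^ α : ℕ) * Z := by
  have hm : 0 < α * β := Nat.mul_pos hα hβ
  have hu : ((x : ℤ) ^ P) ^ (α * β) = ((x : ℤ) ^ β) ^ N := by
    rw [← pow_mul, ← pow_mul, ← hP]; congr 1; ring
  have hw : ((y : ℤ) ^ Q) ^ (α * β) = ((y : ℤ) ^ α) ^ N := by
    rw [← pow_mul, ← pow_mul, ← hQ]; congr 1; ring
  have hZ0 : 0 ≤ Z := (abs_nonneg _).trans hZ
  have hne : x ^ β ≠ y ^ α := by
    intro h
    have h1 : x ∣ y ^ α := h ▸ dvd_pow_self x hβ.ne'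
    have h2 : Nat.Coprime x (y ^ α) := Nat.Coprime.pow_right α hxy
    have := Nat.Coprime.eq_one_of_dvd h2 h1
    omega
  rcases lt_or_gt_of_ne hne with hlt | hgt
  · have hlt' : (x : ℤ) ^ β < (y : ℤ) ^ α := by exact_mod_cast hlt
    have hpq : (x : ℤ) ^ P < (y : ℤ) ^ Q := by
      have : ((x : ℤ) ^ P) ^ (α * β) < ((y : ℤ) ^ Q) ^ (α * β) := by
        rw [hu, hw]
        exact pow_lt_pow_left₀ hlt' (by positivity) hN.ne'
      exact lt_of_pow_lt_pow_left₀ _ (by positivity) this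
    have h1 := diff_low (by positivity) hpq hm hN (by positivity) hlt' hw hu
    have h2 : (y : ℤ) ^ Q - (x : ℤ) ^ P ≤ Z := by
      rw [abs_sub_comm] at hZ
      exact (le_abs_self _).trans hZ
    have h3 : (y : ℤ) ^ Q ≤ (α * β : ℕ) * (x ^ β + y ^ α : ℕ) * Z := by
      refine h1.trans ?_
      apply mul_le_mul _ h2 (by omega) (by positivity)
      apply mul_le_mul_of_nonneg_left _ (by positivity)
      push_cast
      have : (0 : ℤ) ≤ (x : ℤ) ^ β := by positivity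
      omega
    exact ⟨hpq.le.trans h3, h3⟩
  · have hlt' : (y : ℤ) ^ α < (x : ℤ) ^ β := by exact_mod_cast hgt
    have hpq : (y : ℤ) ^ Q < (x : ℤ) ^ P := by
      have : ((y : ℤ) ^ Q) ^ (α * β) < ((x : ℤ) ^ P) ^ (α * β) := by
        rw [hu, hw]
        exact pow_lt_pow_left₀ hlt' (by positivity) hN.ne'
      exact lt_of_pow_lt_pow_left₀ _ (by positivity) this
    have h1 := diff_low (by positivity) hpq hm hN (by positivity) hlt' hu hw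
    have h2 : (x : ℤ) ^ P - (y : ℤ) ^ Q ≤ Z := (le_abs_self _).trans hZ
    have h3 : (x : ℤ) ^ P ≤ (α * β : ℕ) * (x ^ β + y ^ α : ℕ) * Z := by
      refine h1.trans ?_
      apply mul_le_mul _ h2 (by omega) (by positivity)
      apply mul_le_mul_of_nonneg_left _ (by positivity)
      push_cast
      have : (0 : ℤ) ≤ (y : ℤ) ^ α := by positivity
      omega
    exact ⟨h3, hpq.le.trans h3⟩

/-- Exponents from sizes. -/
theorem core4 {τ x P K D : ℕ} (hτ : 4 ≤ τ) (hx : τ - 1 ≤ x) (hK : K ≤ τ)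
    (h : x ^ P ≤ K * τ ^ D) : P ≤ 2 * (D + 1) := by
  have h1 : (τ - 1) ^ P ≤ (τ - 1) ^ (2 * (D + 1)) := by
    calc (τ - 1) ^ P ≤ x ^ P := Nat.pow_le_pow_left hx P
      _ ≤ K * τ ^ D := h
      _ ≤ τ * τ ^ D := Nat.mul_le_mul_right _ hK
      _ = τ ^ (D + 1) := by ring
      _ ≤ ((τ - 1) ^ 2) ^ (D + 1) := by
          apply Nat.pow_le_pow_left
          obtain ⟨s, rfl⟩ : ∃ s, τ = s + 1 := ⟨τ - 1, by omega⟩
          simp only [Nat.add_sub_cancel]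
          nlinarith
      _ = _ := by rw [← pow_mul]
  exact (Nat.pow_le_pow_iff_right (by omega)).1 h1

/-- Polynomial growth. -/
theorem growth (f : ℤ[X]) : ∃ A : ℕ, 1 ≤ A ∧ ∀ t : ℤ, 1 ≤ |t| →
    (f.eval t).natAbs ≤ A * t.natAbs ^ f.natDegree := by
  refine ⟨(∑ i ∈ Finset.range (f.natDegree + 1), (f.coeff i).natAbs) + 1, by omega, ?_⟩
  intro t ht
  have ht1 : 1 ≤ t.natAbs := by
    rw [Int.abs_eq_natAbs] at ht
    omega
  rw [eval_eq_sum_range]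
  calc (∑ i ∈ Finset.range (f.natDegree + 1), f.coeff i * t ^ i).natAbs
      ≤ ∑ i ∈ Finset.range (f.natDegree + 1), (f.coeff i * t ^ i).natAbs :=
        Int.natAbs_sum_le _ _
    _ ≤ ∑ i ∈ Finset.range (f.natDegree + 1), (f.coeff i).natAbs * t.natAbs ^ f.natDegree := by
        apply Finset.sum_le_sum
        intro i hi
        rw [Int.natAbs_mul, Int.natAbs_pow]
        apply Nat.mul_le_mul_left
        exact Nat.pow_le_pow_right ht1 (by have := Finset.mem_range.1 hi; omega)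
    _ = (∑ i ∈ Finset.range (f.natDegree + 1), (f.coeff i).natAbs) * t.natAbs ^ f.natDegree := by
        rw [Finset.sum_mul]
    _ ≤ _ := Nat.mul_le_mul_right _ (by omega)

theorem size_low {t v α a : ℤ} {i : ℕ} (hi : 1 ≤ i) (hv : v = 1 + t ^ i * α)
    (hα : t ∣ α - a) (ha : a ≠ 0) (hat : |a| < |t|) : t.natAbs - 1 ≤ v.natAbs := by
  have hα0 : α ≠ 0 := by
    rintro rfl
    rw [zero_sub, dvd_neg] at hα
    exact ha (Int.eq_zero_of_abs_lt_dvd ((abs_dvd t _).2 hα) hat)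
  have h1 : t.natAbs ≤ (t ^ i * α).natAbs := by
    rw [Int.natAbs_mul, Int.natAbs_pow]
    have h2 : 1 ≤ α.natAbs := Int.natAbs_pos.2 hα0
    have h3 : 1 ≤ t.natAbs := by
      rw [Int.abs_eq_natAbs, Int.abs_eq_natAbs] at hat
      omega
    calc t.natAbs = t.natAbs ^ 1 * 1 := by simp
      _ ≤ t.natAbs ^ i * α.natAbs :=
        Nat.mul_le_mul (Nat.pow_le_pow_right h3 hi) h2
  omega

theorem natAbs_pow_sign (v : ℤ) (P : ℕ) : ∃ σ : ℤ, (σ = 1 ∨ σ = -1) ∧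
    (((v.natAbs : ℕ) : ℤ)) ^ P = σ * v ^ P := by
  rcases Int.natAbs_eq v with h | h
  · exact ⟨1, Or.inl rfl, by rw [one_mul, ← h]⟩
  · refine ⟨(-1) ^ P, ?_, ?_⟩
    · exact neg_one_pow_eq_or ℤ P
    · rw [← mul_pow]
      congr 1
      omega

theorem gen_signs {v w : ℤ} {H P Q R : ℕ} (h : v.natAbs ^ P + w.natAbs ^ Q = H ^ R ∨
    v.natAbs ^ P + H ^ R = w.natAbs ^ Q ∨ w.natAbs ^ Q + H ^ R = v.natAbs ^ P) :
    ∃ ε₁ ε₂ ε₃ : ℤ, (ε₁ = 1 ∨ ε₁ = -1) ∧ (ε₂ = 1 ∨ ε₂ = -1) ∧ (ε₃ = 1 ∨ ε₃ = -1) ∧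
      ε₁ * v ^ P + ε₂ * w ^ Q = ε₃ * (H : ℤ) ^ R := by
  obtain ⟨σ, hσ, e1⟩ := natAbs_pow_sign v P
  obtain ⟨ρ, hρ, e2⟩ := natAbs_pow_sign w Q
  have hneg : ∀ σ : ℤ, (σ = 1 ∨ σ = -1) → (-σ = 1 ∨ -σ = -1) := by
    rintro σ (rfl | rfl) <;> simp
  rcases h with h | h | h
  · refine ⟨σ, ρ, 1, hσ, hρ, Or.inl rfl, ?_⟩
    rw [← e1, ← e2, one_mul]
    exact_mod_cast h
  · refine ⟨σ, -ρ, -1, hσ, hneg _ hρ, Or.inr rfl, ?_⟩
    have : (((v.natAbs : ℕ) : ℤ)) ^ P + (H : ℤ) ^ R = (((w.natAbs : ℕ) : ℤ)) ^ Q := by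
      exact_mod_cast h
    rw [e1, e2] at this
    linarith
  · refine ⟨-σ, ρ, -1, hneg _ hσ, hρ, Or.inr rfl, ?_⟩
    have : (((w.natAbs : ℕ) : ℤ)) ^ Q + (H : ℤ) ^ R = (((v.natAbs : ℕ) : ℤ)) ^ P := by
      exact_mod_cast h
    rw [e1, e2] at this
    linarith

theorem core (f g h f1 g1 h1 : ℤ[X]) (i e : ℕ) (hi : 1 ≤ i) (he : 1 ≤ e)
    (hf : f = 1 + X ^ i * f1) (hg : g = 1 + X ^ i * g1) (hh : h = X ^ e * h1)
    (hab : f1.eval 0 ≠ 0 ∨ g1.eval 0 ≠ 0) :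
    ∃ K T B : ℕ, ∀ t : ℤ, T ≤ t.natAbs → ∀ E : ℕ, K * E < t.natAbs → ∀ P Q R : ℕ,
      Gen (f.eval t).natAbs (g.eval t).natAbs (h.eval t).natAbs P Q R → i < e * R →
      (2 ≤ (f.eval t).natAbs → P ≤ E) → (2 ≤ (g.eval t).natAbs → Q ≤ E) →
        P ≤ B ∧ Q ≤ B ∧ R ≤ B := by
  obtain ⟨a, ha⟩ : ∃ a, a = f1.eval 0 := ⟨_, rfl⟩
  obtain ⟨b, hb⟩ : ∃ b, b = g1.eval 0 := ⟨_, rfl⟩
  rw [← ha, ← hb] at hab
  obtain ⟨α, hα⟩ : ∃ α, α = a.natAbs := ⟨_, rfl⟩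
  obtain ⟨β, hβ⟩ : ∃ β, β = b.natAbs := ⟨_, rfl⟩
  obtain ⟨W, hW⟩ : ∃ W, W = f ^ β - g ^ α := ⟨_, rfl⟩
  have hfac : ∃ (j : ℕ) (k : ℤ[X]), k.eval 0 ≠ 0 ∧ (W ≠ 0 → W = X ^ j * k) := by
    rcases eq_or_ne W 0 with h0 | h0
    · exact ⟨0, 1, by simp, fun h => absurd h0 h⟩
    · obtain ⟨q, hq1, hq2⟩ := exists_eq_pow_rootMultiplicity_mul_and_not_dvd W h0 0
      refine ⟨rootMultiplicity 0 W, q, ?_, fun _ => ?_⟩
      · intro h1
        exact hq2 (dvd_iff_isRoot.2 h1)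
      · simpa using hq1
  obtain ⟨j, k, hk0, hWk⟩ := hfac
  obtain ⟨A1, hA1, gr1⟩ := growth f
  obtain ⟨A2, hA2, gr2⟩ := growth g
  obtain ⟨A3, hA3, gr3⟩ := growth h
  obtain ⟨A, hA⟩ : ∃ A, A = A1 + A2 + A3 := ⟨_, rfl⟩
  obtain ⟨D, hD⟩ : ∃ D, D = f.natDegree + g.natDegree + h.natDegree := ⟨_, rfl⟩
  refine ⟨α + β + α * (k.eval 0).natAbs, 4 + α + β + 2 * (α * β) * A ^ (α + β + j),
    j + 2 * (D * (α + β + j) + 1), ?_⟩
  intro t ht E hE P Q R hgen hiR hP hQ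
  obtain ⟨τ, hτ⟩ : ∃ τ, τ = t.natAbs := ⟨_, rfl⟩
  rw [← hτ] at ht hE
  have hτ4 : 4 ≤ τ := by omega
  have habs : |t| = (τ : ℤ) := by rw [hτ, Int.abs_eq_natAbs]
  obtain ⟨v, hv⟩ : ∃ v, v = f.eval t := ⟨_, rfl⟩
  obtain ⟨w, hw⟩ : ∃ w, w = g.eval t := ⟨_, rfl⟩
  obtain ⟨H, hH⟩ : ∃ H, H = (h.eval t).natAbs := ⟨_, rfl⟩
  have hv1 : v = 1 + t ^ i * f1.eval t := by rw [hv, hf]; simp
  have hw1 : w = 1 + t ^ i * g1.eval t := by rw [hw, hg]; simp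
  have hfa : t ∣ f1.eval t - a := by
    have := sub_dvd_eval_sub t 0 f1
    rwa [sub_zero, ← ha] at this
  have hgb : t ∣ g1.eval t - b := by
    have := sub_dvd_eval_sub t 0 g1
    rwa [sub_zero, ← hb] at this
  rw [← hv] at hP
  rw [← hw] at hQ
  rw [← hv, ← hw, ← hH] at hgen
  obtain ⟨⟨f0, g0, h0⟩, ⟨c1, c2, c3⟩, ⟨p0, q0, r0⟩, hs, heq⟩ := hgen
  have hat : |a| < |t| := by rw [habs, Int.abs_eq_natAbs, ← hα]; omega
  have hbt : |b| < |t| := by rw [habs, Int.abs_eq_natAbs, ← hβ]; omega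
  have hP' : a ≠ 0 → P ≤ E := fun h0' => hP (by
    have := size_low hi hv1 hfa h0' hat
    omega)
  have hQ' : b ≠ 0 → Q ≤ E := fun h0' => hQ (by
    have := size_low hi hw1 hgb h0' hbt
    omega)
  obtain ⟨ε₁, ε₂, ε₃, he1, he2, he3, hsum⟩ := gen_signs heq
  have hdH : t ^ (e * R) ∣ (H : ℤ) ^ R := by
    rw [pow_mul]
    apply pow_dvd_pow_of_dvd
    rw [hH]
    have : t ^ e ∣ h.eval t := by
      rw [hh]; simp
    exact (Int.dvd_natAbs).2 this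
  have hd1 : t ^ (e * R) ∣ ε₁ * v ^ P + ε₂ * w ^ Q := by
    rw [hsum]; exact hdH.mul_left _
  have hd2 : t ^ (i + 1) ∣ ε₁ * v ^ P + ε₂ * w ^ Q := (pow_dvd_pow t hiR).trans hd1
  obtain ⟨hPQ, htr⟩ := core1 (E := E) hi hv1 hw1 hfa hgb ε₁ ε₂ he1 he2 hd2
    (by rw [habs]; omega) hP' hQ' (by
      rw [habs, Int.abs_eq_natAbs, Int.abs_eq_natAbs, ← hα, ← hβ]
      have : (α + β) * E ≤ (α + β + α * (k.eval 0).natAbs) * E :=
        Nat.mul_le_mul_right _ (by omega)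
      have h2 : (α + β) * E < τ := by omega
      exact_mod_cast h2)
  have hd3 := htr (e * R) hd1
  have ha0 : a ≠ 0 := by
    intro h
    rw [h, mul_zero] at hPQ
    have hb0 : b ≠ 0 := hab.resolve_left (by simp [h])
    have : (Q : ℤ) ≠ 0 := by exact_mod_cast q0.ne'
    exact mul_ne_zero this hb0 hPQ.symm
  have hb0 : b ≠ 0 := by
    intro h
    rw [h, mul_zero] at hPQ
    have : (P : ℤ) ≠ 0 := by exact_mod_cast p0.ne'
    exact mul_ne_zero this ha0 hPQ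
  have hα0 : 0 < α := by rw [hα]; exact Int.natAbs_pos.2 ha0
  have hβ0 : 0 < β := by rw [hβ]; exact Int.natAbs_pos.2 hb0
  have hN : P * α = Q * β := by
    have := congrArg Int.natAbs hPQ
    rw [Int.natAbs_mul, Int.natAbs_mul, Int.natAbs_natCast, Int.natAbs_natCast, ← hα, ← hβ] at this
    exact this
  have hvl : τ - 1 ≤ v.natAbs := hτ ▸ size_low hi hv1 hfa ha0 hat
  have hwl : τ - 1 ≤ w.natAbs := hτ ▸ size_low hi hw1 hgb hb0 hbt
  have hPE := hP' ha0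
  have hXYne : v ^ β ≠ w ^ α := by
    intro h
    have h2 := congrArg Int.natAbs h
    rw [Int.natAbs_pow, Int.natAbs_pow] at h2
    have h3 : v.natAbs ∣ w.natAbs ^ α := h2 ▸ dvd_pow_self _ hβ0.ne'
    have := Nat.Coprime.eq_one_of_dvd (Nat.Coprime.pow_right α c1) h3
    omega
  have hWeval : W.eval t = v ^ β - w ^ α := by rw [hW, hv, hw]; simp
  have hW0 : W ≠ 0 := by
    rintro h
    rw [h, eval_zero] at hWeval
    exact hXYne (by linarith)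
  have hWjk := hWk hW0
  have hj : 1 ≤ j := by
    by_contra hj0
    have hj1 : j = 0 := by omega
    have h2 : W.eval 0 = 0 := by
      rw [hW, hf, hg]
      simp [show i ≠ 0 by omega]
    rw [hWjk, hj1] at h2
    simp at h2
    exact hk0 h2
  have hXY : v ^ β = w ^ α + t ^ j * k.eval t := by
    have h2 := hWeval
    rw [hWjk, eval_mul, eval_pow, eval_X] at h2
    linarith
  have hwY : t ∣ w ^ α - 1 := by
    have h2 : t ∣ w - 1 := by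
      rw [hw1, add_sub_cancel_left]
      exact (dvd_pow_self t (by omega)).mul_right _
    have := sub_dvd_pow_sub_pow w 1 α
    rw [one_pow] at this
    exact h2.trans this
  have hkt : t ∣ k.eval t - k.eval 0 := by
    have := sub_dvd_eval_sub t 0 k
    rwa [sub_zero] at this
  have hd4 : t ^ (e * R) ∣ (v ^ β) ^ (P * α) - (w ^ α) ^ (P * α) := by
    have h2 : (v ^ β) ^ (P * α) - (w ^ α) ^ (P * α) = (v ^ P) ^ (α * β) - (w ^ Q) ^ (α * β) := by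
      have e1 : (v ^ β) ^ (P * α) = (v ^ P) ^ (α * β) := by
        rw [← pow_mul, ← pow_mul]; congr 1; ring
      have e2 : (w ^ α) ^ (P * α) = (w ^ Q) ^ (α * β) := by
        rw [hN, ← pow_mul, ← pow_mul]; congr 1; ring
      rw [e1, e2]
    rw [h2]
    exact hd3.trans (sub_dvd_pow_sub_pow _ _ _)
  have hR : e * R ≤ j := by
    refine core2 hj hXY hwY hkt hk0 (Nat.mul_pos p0 hα0) ?_ hd4
    rw [habs, Int.abs_eq_natAbs]
    have h2 : P * α * (k.eval 0).natAbs ≤ (α + β + α * (k.eval 0).natAbs) * E := by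
      calc P * α * (k.eval 0).natAbs = (α * (k.eval 0).natAbs) * P := by ring
        _ ≤ (α * (k.eval 0).natAbs) * E := Nat.mul_le_mul_left _ hPE
        _ ≤ _ := Nat.mul_le_mul_right _ (by omega)
    have h3 : P * α * (k.eval 0).natAbs < τ := by omega
    exact_mod_cast h3
  have hRj : R ≤ j := le_trans (Nat.le_mul_of_pos_left R he) hR
  -- sizes
  have ht1 : 1 ≤ |t| := by rw [habs]; omega
  have hτ1 : 1 ≤ τ := by omega
  have hApos : 1 ≤ A := by omega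
  obtain ⟨V, hV⟩ : ∃ V, V = A * τ ^ D := ⟨_, rfl⟩
  have hV1 : 1 ≤ V := by
    rw [hV]; exact Nat.mul_pos hApos (Nat.pow_pos hτ1)
  have hvV : v.natAbs ≤ V := by
    have h2 := gr1 t ht1
    rw [← hv, ← hτ] at h2
    rw [hV]
    exact h2.trans (Nat.mul_le_mul (by omega) (Nat.pow_le_pow_right hτ1 (by omega)))
  have hwV : w.natAbs ≤ V := by
    have h2 := gr2 t ht1
    rw [← hw, ← hτ] at h2
    rw [hV]
    exact h2.trans (Nat.mul_le_mul (by omega) (Nat.pow_le_pow_right hτ1 (by omega)))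
  have hHV : H ≤ V := by
    have h2 := gr3 t ht1
    rw [← hH, ← hτ] at h2
    rw [hV]
    exact h2.trans (Nat.mul_le_mul (by omega) (Nat.pow_le_pow_right hτ1 (by omega)))
  have hZ : |((v.natAbs : ℕ) : ℤ) ^ P - ((w.natAbs : ℕ) : ℤ) ^ Q| ≤ (H : ℤ) ^ R := by
    have hp1 : (0 : ℤ) ≤ ((v.natAbs : ℕ) : ℤ) ^ P := by positivity
    have hp2 : (0 : ℤ) ≤ ((w.natAbs : ℕ) : ℤ) ^ Q := by positivity
    have hp3 : (0 : ℤ) ≤ (H : ℤ) ^ R := by positivity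
    rw [abs_le]
    rcases heq with h | h | h
    · have h' : ((v.natAbs : ℕ) : ℤ) ^ P + ((w.natAbs : ℕ) : ℤ) ^ Q = (H : ℤ) ^ R := by
        exact_mod_cast h
      constructor <;> linarith
    · have h' : ((v.natAbs : ℕ) : ℤ) ^ P + (H : ℤ) ^ R = ((w.natAbs : ℕ) : ℤ) ^ Q := by
        exact_mod_cast h
      constructor <;> linarith
    · have h' : ((w.natAbs : ℕ) : ℤ) ^ Q + (H : ℤ) ^ R = ((v.natAbs : ℕ) : ℤ) ^ P := by
        exact_mod_cast h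
      constructor <;> linarith
  obtain ⟨s1, s2⟩ := core3 (α := α) (β := β) (N := P * α) (by omega : 2 ≤ v.natAbs)
    (by omega : 2 ≤ w.natAbs) c1 hα0 hβ0 (Nat.mul_pos p0 hα0) rfl hN.symm hZ
  have hfin : (α * β) * (v.natAbs ^ β + w.natAbs ^ α) * H ^ R ≤
      (2 * (α * β) * A ^ (α + β + j)) * τ ^ (D * (α + β + j)) := by
    have e1 : v.natAbs ^ β ≤ V ^ (α + β) :=
      (Nat.pow_le_pow_left hvV β).trans (Nat.pow_le_pow_right hV1 (by omega))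
    have e2 : w.natAbs ^ α ≤ V ^ (α + β) :=
      (Nat.pow_le_pow_left hwV α).trans (Nat.pow_le_pow_right hV1 (by omega))
    have e3 : H ^ R ≤ V ^ j := (Nat.pow_le_pow_left hHV R).trans (Nat.pow_le_pow_right hV1 hRj)
    calc (α * β) * (v.natAbs ^ β + w.natAbs ^ α) * H ^ R
        ≤ (α * β) * (V ^ (α + β) + V ^ (α + β)) * V ^ j := by gcongr
      _ = 2 * (α * β) * V ^ (α + β + j) := by rw [pow_add V (α + β) j]; ring
      _ = _ := by rw [hV, mul_pow, ← pow_mul]; ring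
  have hK : 2 * (α * β) * A ^ (α + β + j) ≤ τ := by omega
  have t1 : v.natAbs ^ P ≤ (2 * (α * β) * A ^ (α + β + j)) * τ ^ (D * (α + β + j)) := by
    refine le_trans ?_ hfin
    exact_mod_cast s1
  have t2 : w.natAbs ^ Q ≤ (2 * (α * β) * A ^ (α + β + j)) * τ ^ (D * (α + β + j)) := by
    refine le_trans ?_ hfin
    exact_mod_cast s2
  have u1 := core4 hτ4 hvl hK t1
  have u2 := core4 hτ4 hwl hK t2
  omega

end Pool.Agent.X47.FC
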