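import Mathlib
import Pool.Agent.X47.FCTrail

/-!
# The Fermat-Catalan equation along polynomial curves with a balanced finite point: conclusion
-/

set_option autoImplicit false

namespace Pool.Agent.X47.FC

open Polynomial Filter Topology

theorem root_bound (p : ℤ[X]) (hp : p ≠ 0) : ∃ T : ℕ, ∀ t : ℤ, T ≤ t.natAbs → p.eval t ≠ 0 := by
  refine ⟨p.roots.toFinset.sup Int.natAbs + 1, fun t ht h0 => ?_⟩
  have h1 : t ∈ p.roots.toFinset := by
    rw [Multiset.mem_toFinset, mem_roots hp]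
    exact h0
  have h2 : t.natAbs ≤ p.roots.toFinset.sup Int.natAbs := Finset.le_sup (f := Int.natAbs) h1
  omega

theorem large_bound (p : ℤ[X]) (hp : 0 < p.natDegree) (c : ℕ) :
    ∃ T : ℕ, ∀ t : ℤ, T ≤ t.natAbs → c < (p.eval t).natAbs := by
  have h1 : (∏ s ∈ Finset.Icc (-(c : ℤ)) c, (p - C s)) ≠ 0 := by
    rw [Finset.prod_ne_zero_iff]
    intro s _ h0
    have : p = C s := sub_eq_zero.1 h0
    rw [this, natDegree_C] at hp
    exact lt_irrefl _ hp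
  obtain ⟨T, hT⟩ := root_bound _ h1
  refine ⟨T, fun t ht => ?_⟩
  have h2 := hT t ht
  rw [eval_prod, Finset.prod_ne_zero_iff] at h2
  by_contra hlt
  have h3 : p.eval t ∈ Finset.Icc (-(c : ℤ)) c := by
    rw [Finset.mem_Icc]
    omega
  exact h2 _ h3 (by simp)

theorem int_mult (p : ℚ[X]) : ∃ (b : ℤ) (q : ℤ[X]), b ≠ 0 ∧
    q.map (Int.castRingHom ℚ) = C (b : ℚ) * p := by
  obtain ⟨b, hb0, hb⟩ := IsLocalization.integerNormalization_spec (nonZeroDivisors ℤ) p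
  refine ⟨b, IsLocalization.integerNormalization (nonZeroDivisors ℤ) p,
    nonZeroDivisors.ne_zero hb0, ?_⟩
  have h1 : algebraMap ℤ ℚ = Int.castRingHom ℚ := rfl
  rw [← h1, hb]
  ext n
  simp [Algebra.smul_def]

theorem not_coprime (f g : ℤ[X]) (hf : f ≠ 0)
    (h : ¬ IsCoprime (f.map (Int.castRingHom ℚ)) (g.map (Int.castRingHom ℚ))) :
    ∃ T : ℕ, ∀ t : ℤ, T ≤ t.natAbs → ¬ Nat.Coprime (f.eval t).natAbs (g.eval t).natAbs := by
  have hinj : Function.Injective (Int.castRingHom ℚ) := Int.cast_injective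
  have hfq : f.map (Int.castRingHom ℚ) ≠ 0 := by
    rwa [Ne, Polynomial.map_eq_zero_iff hinj]
  have h1 : ¬ IsRelPrime (f.map (Int.castRingHom ℚ)) (g.map (Int.castRingHom ℚ)) :=
    fun hh => h hh.isCoprime
  rw [IsRelPrime] at h1
  push Not at h1
  obtain ⟨d, ⟨u, hu⟩, ⟨w, hw⟩, hd⟩ := h1
  have hd0 : d ≠ 0 := by
    rintro rfl
    rw [zero_mul] at hu
    exact hfq hu
  obtain ⟨b, d', hb, hd'⟩ := int_mult d
  obtain ⟨b1, u', hb1, hu'⟩ := int_mult u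
  obtain ⟨b2, w', hb2, hw'⟩ := int_mult w
  have e1 : C (b * b1) * f = d' * u' := by
    apply Polynomial.map_injective _ hinj
    rw [Polynomial.map_mul, Polynomial.map_mul, hd', hu', hu, map_C]
    simp only [eq_intCast, Int.cast_mul, C_mul]
    ring
  have e2 : C (b * b2) * g = d' * w' := by
    apply Polynomial.map_injective _ hinj
    rw [Polynomial.map_mul, Polynomial.map_mul, hd', hw', hw, map_C]
    simp only [eq_intCast, Int.cast_mul, C_mul]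
    ring
  have hdeg : 0 < d'.natDegree := by
    have h2 : d'.natDegree = d.natDegree := by
      rw [← natDegree_map_eq_of_injective hinj d', hd']
      exact natDegree_C_mul (by exact_mod_cast hb)
    rw [h2]
    by_contra h3
    have h4 : d.natDegree = 0 := by omega
    exact hd (isUnit_iff_degree_eq_zero.2 (by rw [degree_eq_natDegree hd0, h4]; rfl))
  obtain ⟨T, hT⟩ := large_bound d' hdeg (b * b1 * b2).natAbs
  refine ⟨T, fun t ht hco => ?_⟩
  have h2 := hT t ht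
  have h3 : d'.eval t ∣ b * b1 * b2 * f.eval t := by
    have h5 := congrArg (eval t) e1
    rw [eval_mul, eval_mul, eval_C] at h5
    exact ⟨u'.eval t * b2, by linear_combination b2 * h5⟩
  have h4 : d'.eval t ∣ b * b1 * b2 * g.eval t := by
    have h5 := congrArg (eval t) e2
    rw [eval_mul, eval_mul, eval_C] at h5
    exact ⟨w'.eval t * b1, by linear_combination b1 * h5⟩
  have h5 : d'.eval t ∣ b * b1 * b2 := by
    have hco' : IsCoprime (f.eval t) (g.eval t) := Int.isCoprime_iff_gcd_eq_one.2 hco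
    obtain ⟨r, s, hrs⟩ := hco'
    have : b * b1 * b2 = r * (b * b1 * b2 * f.eval t) + s * (b * b1 * b2 * g.eval t) := by
      linear_combination (-(b * b1 * b2)) * hrs
    rw [this]
    exact dvd_add (h3.mul_left _) (h4.mul_left _)
  have h6 : (d'.eval t).natAbs ≤ (b * b1 * b2).natAbs :=
    Nat.le_of_dvd (Int.natAbs_pos.2 (mul_ne_zero (mul_ne_zero hb hb1) hb2))
      (Int.natAbs_dvd_natAbs.2 h5)
  omega

theorem ident (f g h : ℤ[X]) (hf : f ≠ 0) (hg : g ≠ 0) (hh : 0 < h.natDegree)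
    (hc : IsCoprime (f.map (Int.castRingHom ℚ)) (g.map (Int.castRingHom ℚ))) {p q r : ℕ}
    (hp : 0 < p) (hq : 0 < q) (hr : 0 < r) (hpqr : (1 : ℚ) / p + 1 / q + 1 / r ≤ 1)
    (u v w : ℤ) (hu : u ≠ 0) (hv : v ≠ 0) (hw : w ≠ 0) :
    C u * f ^ p + C v * g ^ q + C w * h ^ r ≠ 0 := by
  intro h0
  have hinj : Function.Injective (Int.castRingHom ℚ) := Int.cast_injective
  have hh0 : h ≠ 0 := by rintro rfl; simp at hh
  have hineq : q * r + r * p + p * q ≤ p * q * r := by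
    have hp' : (0 : ℚ) < p := by exact_mod_cast hp
    have hq' : (0 : ℚ) < q := by exact_mod_cast hq
    have hr' : (0 : ℚ) < r := by exact_mod_cast hr
    have h2 : (q * r + r * p + p * q : ℚ) ≤ p * q * r := by
      have h3 : (1 : ℚ) / p + 1 / q + 1 / r = (q * r + r * p + p * q) / (p * q * r) := by
        field_simp
      rw [h3, div_le_one (by positivity)] at hpqr
      exact hpqr
    exact_mod_cast h2
  have hne : ∀ P : ℤ[X], P ≠ 0 → P.map (Int.castRingHom ℚ) ≠ 0 := fun P hP => by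
    rwa [Ne, Polynomial.map_eq_zero_iff hinj]
  have h1 := congrArg (Polynomial.map (Int.castRingHom ℚ)) h0
  simp only [Polynomial.map_add, Polynomial.map_mul, Polynomial.map_pow, map_C,
    Polynomial.map_zero] at h1
  have := Polynomial.flt_catalan (k := ℚ) hp.ne' hq.ne' hr.ne' hineq
    (by exact_mod_cast hp.ne') (by exact_mod_cast hq.ne') (by exact_mod_cast hr.ne')
    (hne f hf) (hne g hg) (hne h hh0) hc
    (u := (Int.castRingHom ℚ) u) (v := (Int.castRingHom ℚ) v) (w := (Int.castRingHom ℚ) w)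
    (by simpa using hu) (by simpa using hv) (by simpa using hw) h1
  have h2 := this.2.2
  rw [natDegree_map_eq_of_injective hinj] at h2
  omega

theorem small_log (C A : ℝ) (D κ K : ℕ) (hC : 0 < C) (hA : 1 ≤ A) : ∃ T : ℕ, ∀ τ : ℕ, T ≤ τ →
    K * ⌊C * Real.log (A * (τ : ℝ) ^ D) ^ κ⌋₊ < τ := by
  obtain ⟨c, hc⟩ : ∃ c : ℝ, c = K * C * (Real.log A + D) ^ κ + 1 := ⟨_, rfl⟩
  have hlogA : 0 ≤ Real.log A := Real.log_nonneg hA
  have hc1 : 1 ≤ c := by
    have : 0 ≤ K * C * (Real.log A + D) ^ κ := by positivity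
    linarith
  have ho : (fun x : ℝ => Real.log x ^ κ) =o[atTop] (id : ℝ → ℝ) :=
    Real.isLittleO_pow_log_id_atTop
  have hcc : 0 < 1 / (2 * c) := by positivity
  obtain ⟨X0, hX0⟩ := eventually_atTop.1 (ho.bound hcc)
  obtain ⟨T, hT⟩ : ∃ T : ℕ, max X0 3 ≤ T := exists_nat_ge _
  refine ⟨T, fun τ hτ => ?_⟩
  have hτ' : max X0 3 ≤ (τ : ℝ) := hT.trans (by exact_mod_cast hτ)
  have hτX : X0 ≤ (τ : ℝ) := (le_max_left _ _).trans hτ'
  have hτ3 : (3 : ℝ) ≤ (τ : ℝ) := (le_max_right _ _).trans hτ'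
  have hτ0 : (0 : ℝ) < τ := by linarith
  have hlog1 : 1 ≤ Real.log τ := by
    rw [Real.le_log_iff_exp_le hτ0]
    linarith [Real.exp_one_lt_d9]
  have h1 := hX0 τ hτX
  rw [Real.norm_of_nonneg (by positivity), id, Real.norm_of_nonneg (by positivity)] at h1
  have h2 : Real.log (A * (τ : ℝ) ^ D) ≤ (Real.log A + D) * Real.log τ := by
    rw [Real.log_mul (by positivity) (by positivity), Real.log_pow]
    nlinarith
  have h3 : 0 ≤ Real.log (A * (τ : ℝ) ^ D) := by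
    apply Real.log_nonneg
    have : (1 : ℝ) ≤ (τ : ℝ) ^ D := one_le_pow₀ (by linarith)
    nlinarith
  have h4 : (⌊C * Real.log (A * (τ : ℝ) ^ D) ^ κ⌋₊ : ℝ) ≤ C * Real.log (A * (τ : ℝ) ^ D) ^ κ :=
    Nat.floor_le (by positivity)
  have h5 : (K : ℝ) * ⌊C * Real.log (A * (τ : ℝ) ^ D) ^ κ⌋₊ < τ := by
    calc (K : ℝ) * ⌊C * Real.log (A * (τ : ℝ) ^ D) ^ κ⌋₊
        ≤ K * (C * Real.log (A * (τ : ℝ) ^ D) ^ κ) := mul_le_mul_of_nonneg_left h4 (by positivity)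
      _ ≤ K * (C * ((Real.log A + D) * Real.log τ) ^ κ) := by gcongr
      _ = (K * C * (Real.log A + D) ^ κ) * Real.log τ ^ κ := by rw [mul_pow]; ring
      _ ≤ c * Real.log τ ^ κ := by
          apply mul_le_mul_of_nonneg_right _ (by positivity)
          linarith
      _ ≤ c * (1 / (2 * c) * τ) := mul_le_mul_of_nonneg_left h1 (by linarith)
      _ = τ / 2 := by field_simp
      _ < τ := by linarith
  exact_mod_cast h5

theorem trail0 (f g h f1 g1 h1 : ℤ[X]) (i e : ℕ) (hi : 1 ≤ i) (he : 1 ≤ e)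
    (hf : f = 1 + X ^ i * f1) (hg : g = 1 + X ^ i * g1) (hh : h = X ^ e * h1)
    (hab : f1.eval 0 ≠ 0 ∨ g1.eval 0 ≠ 0) :
    ∃ T : ℕ, ∀ t : ℤ, T ≤ t.natAbs → ∀ P Q R : ℕ,
      Gen (f.eval t).natAbs (g.eval t).natAbs (h.eval t).natAbs P Q R → ¬ i < e * R := by
  have hf0 : f ≠ 0 := by
    intro h0
    have := congrArg (eval 0) hf
    rw [h0] at this
    simp [show i ≠ 0 by omega] at this
  have hg0 : g ≠ 0 := by
    intro h0
    have := congrArg (eval 0) hg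
    rw [h0] at this
    simp [show i ≠ 0 by omega] at this
  rcases eq_or_ne h 0 with hh0 | hh0
  · refine ⟨0, fun t _ P Q R hgen _ => ?_⟩
    have := hgen.1.2.2
    rw [hh0] at this
    simp at this
  have hdeg : 0 < h.natDegree := by
    have h2 : h1 ≠ 0 := by rintro rfl; exact hh0 (by rw [hh, mul_zero])
    rw [hh, natDegree_mul (pow_ne_zero _ X_ne_zero) h2, natDegree_X_pow]
    omega
  by_cases hco : IsCoprime (f.map (Int.castRingHom ℚ)) (g.map (Int.castRingHom ℚ))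
  swap
  · obtain ⟨T, hT⟩ := not_coprime f g hf0 hco
    exact ⟨T, fun t ht P Q R hgen _ => hT t ht hgen.2.1.1⟩
  obtain ⟨K, T1, B, hcore⟩ := core f g h f1 g1 h1 i e hi he hf hg hh hab
  obtain ⟨C, κ, hC, hexp⟩ := gen_exp
  obtain ⟨A1, hA1, gr1⟩ := growth f
  obtain ⟨A2, hA2, gr2⟩ := growth g
  obtain ⟨A3, hA3, gr3⟩ := growth h
  obtain ⟨A, hA⟩ : ∃ A, A = A1 + A2 + A3 := ⟨_, rfl⟩
  obtain ⟨D, hD⟩ : ∃ D, D = f.natDegree + g.natDegree + h.natDegree := ⟨_, rfl⟩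
  obtain ⟨T2, hT2⟩ := small_log C A D κ K hC (by exact_mod_cast (show 1 ≤ A by omega))
  classical
  let S : Finset ℤ := {1, -1}
  let I := (Finset.range (B + 1) ×ˢ Finset.range (B + 1) ×ˢ Finset.range (B + 1)) ×ˢ (S ×ˢ S ×ˢ S)
  let Z : ((ℕ × ℕ × ℕ) × (ℤ × ℤ × ℤ)) → ℤ[X] := fun u =>
    Polynomial.C u.2.1 * f ^ u.1.1 + Polynomial.C u.2.2.1 * g ^ u.1.2.1 + Polynomial.C u.2.2.2 * h ^ u.1.2.2
  have hprod : (∏ u ∈ I, (if Z u = 0 then 1 else Z u)) ≠ 0 := by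
    rw [Finset.prod_ne_zero_iff]
    intro u _
    split_ifs with hz
    · exact one_ne_zero
    · exact hz
  obtain ⟨T3, hT3⟩ := root_bound _ hprod
  refine ⟨T1 + T2 + T3 + 1, fun t ht P Q R hgen hiR => ?_⟩
  have ht1 : 1 ≤ |t| := by rw [Int.abs_eq_natAbs]; omega
  have hτ1 : 1 ≤ t.natAbs := by omega
  have hb : ∀ (p : ℤ[X]) (A' : ℕ), A' ≤ A → p.natDegree ≤ D →
      (p.eval t).natAbs ≤ A' * t.natAbs ^ p.natDegree →
      (((p.eval t).natAbs : ℕ) : ℝ) ≤ A * (t.natAbs : ℝ) ^ D := by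
    intro p A' hA' hp hle
    have h2 : (p.eval t).natAbs ≤ A * t.natAbs ^ D :=
      hle.trans (Nat.mul_le_mul hA' (Nat.pow_le_pow_right hτ1 hp))
    exact_mod_cast h2
  obtain ⟨x1, x2, x3⟩ := hexp _ _ _ _ _ _ hgen (A * (t.natAbs : ℝ) ^ D)
    (hb f A1 (by omega) (by omega) (gr1 t ht1)) (hb g A2 (by omega) (by omega) (gr2 t ht1))
    (hb h A3 (by omega) (by omega) (gr3 t ht1))
  have hE := hT2 t.natAbs (by omega)
  obtain ⟨b1, b2, b3⟩ := hcore t (by omega) _ hE P Q R hgen hiR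
    (fun hh' => Nat.le_floor (x1 hh')) (fun hh' => Nat.le_floor (x2 hh'))
  have hz := hT3 t (by omega)
  rw [eval_prod, Finset.prod_ne_zero_iff] at hz
  obtain ⟨-, -, ⟨p0, q0, r0⟩, hs, heq⟩ := hgen
  obtain ⟨ε₁, ε₂, ε₃, he1, he2, he3, hsum⟩ := gen_signs heq
  obtain ⟨σ, hσ, e3⟩ := natAbs_pow_sign (h.eval t) R
  have hmem : ∀ ε : ℤ, (ε = 1 ∨ ε = -1) → ε ∈ S := by
    rintro ε (rfl | rfl) <;> simp [S]
  have hprodsign : (-(ε₃ * σ) = 1 ∨ -(ε₃ * σ) = -1) := by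
    rcases he3 with rfl | rfl <;> rcases hσ with rfl | rfl <;> norm_num
  have hne : ∀ ε : ℤ, (ε = 1 ∨ ε = -1) → ε ≠ 0 := by
    rintro ε (rfl | rfl) <;> norm_num
  have hmemI : ((P, Q, R), (ε₁, ε₂, -(ε₃ * σ))) ∈ I := by
    simp only [I, Finset.mem_product, Finset.mem_range]
    exact ⟨⟨by omega, by omega, by omega⟩, hmem _ he1, hmem _ he2, hmem _ hprodsign⟩
  have hZ0 : Z ((P, Q, R), (ε₁, ε₂, -(ε₃ * σ))) ≠ 0 :=
    ident f g h hf0 hg0 hdeg hco p0 q0 r0 hs _ _ _ (hne _ he1) (hne _ he2) (hne _ hprodsign)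
  have h3 := hz _ hmemI
  rw [if_neg hZ0] at h3
  apply h3
  simp only [Z, eval_add, eval_mul, eval_C, eval_pow]
  rw [e3] at hsum
  linear_combination hsum

/-- Three pairs (base, exponent) in some order. -/
def Arranged (u v w u' v' w' : ℕ × ℕ) : Prop :=
  (u', v', w') = (u, v, w) ∨ (u', v', w') = (u, w, v) ∨ (u', v', w') = (v, u, w) ∨
    (u', v', w') = (v, w, u) ∨ (u', v', w') = (w, u, v) ∨ (u', v', w') = (w, v, u)

theorem gen_of {F G H P Q R x y z p q r : ℕ} (hs : Solution x y z p q r)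
    (ha : Arranged (F, P) (G, Q) (H, R) (x, p) (y, q) (z, r)) : Gen F G H P Q R := by
  obtain ⟨c1, c2, c3⟩ := hs.coprimes
  obtain ⟨x0, y0, z0, -, p0, q0, r0, hs1, he⟩ := hs
  simp only [Arranged, Prod.mk.injEq] at ha
  rcases ha with h | h | h | h | h | h <;>
    obtain ⟨⟨rfl, rfl⟩, ⟨rfl, rfl⟩, ⟨rfl, rfl⟩⟩ := h
  · exact ⟨⟨x0, y0, z0⟩, ⟨c1, c2, c3⟩, ⟨p0, q0, r0⟩, hs1, Or.inl he⟩
  · exact ⟨⟨x0, z0, y0⟩, ⟨c2, c1, c3.symm⟩, ⟨p0, r0, q0⟩, by linarith, Or.inr (Or.inl he)⟩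
  · exact ⟨⟨y0, x0, z0⟩, ⟨c1.symm, c3, c2⟩, ⟨q0, p0, r0⟩, by linarith,
      Or.inl (by rw [add_comm]; exact he)⟩
  · exact ⟨⟨z0, x0, y0⟩, ⟨c2.symm, c3.symm, c1⟩, ⟨r0, p0, q0⟩, by linarith,
      Or.inr (Or.inr he)⟩
  · exact ⟨⟨y0, z0, x0⟩, ⟨c3, c1.symm, c2.symm⟩, ⟨q0, r0, p0⟩, by linarith,
      Or.inr (Or.inl (by rw [add_comm]; exact he))⟩
  · exact ⟨⟨z0, y0, x0⟩, ⟨c3.symm, c2.symm, c1.symm⟩, ⟨r0, q0, p0⟩, by linarith,
      Or.inr (Or.inr (by rw [add_comm]; exact he))⟩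

end Pool.Agent.X47.FC
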