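import Mathlib
import Pool.Agent.X47.FCBase

/-!
# The Fermat-Catalan equation along polynomial curves
-/

set_option autoImplicit false

namespace Pool.Agent.X47.FC

open Polynomial Filter Topology

theorem eval_bound (P : ℝ[X]) : ∃ A : ℝ, 0 < A ∧ ∀ N : ℝ, 1 ≤ N → ∀ t : ℝ, |t| ≤ N →
    |P.eval t| ≤ A * N ^ P.natDegree := by
  refine ⟨(∑ i ∈ Finset.range (P.natDegree + 1), |P.coeff i|) + 1, by positivity, ?_⟩
  intro N hN t ht
  rw [eval_eq_sum_range]
  have hN0 : 0 < N ^ P.natDegree := by positivity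
  calc |∑ i ∈ Finset.range (P.natDegree + 1), P.coeff i * t ^ i|
      ≤ ∑ i ∈ Finset.range (P.natDegree + 1), |P.coeff i * t ^ i| := Finset.abs_sum_le_sum_abs _ _
    _ ≤ ∑ i ∈ Finset.range (P.natDegree + 1), |P.coeff i| * N ^ P.natDegree := by
        apply Finset.sum_le_sum
        intro i hi
        rw [abs_mul, abs_pow]
        apply mul_le_mul_of_nonneg_left _ (abs_nonneg _)
        calc |t| ^ i ≤ N ^ i := pow_le_pow_left₀ (abs_nonneg _) ht i
          _ ≤ N ^ P.natDegree := pow_le_pow_right₀ hN (by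
              have := Finset.mem_range.1 hi; omega)
    _ = (∑ i ∈ Finset.range (P.natDegree + 1), |P.coeff i|) * N ^ P.natDegree := by
        rw [Finset.sum_mul]
    _ ≤ _ := by nlinarith

theorem lead (P : ℝ[X]) (hP : 0 < P.natDegree) : ∃ K : ℝ, 0 < K ∧ ∀ t : ℝ, 1 ≤ t →
    |P.eval t - P.leadingCoeff * t ^ P.natDegree| ≤ K * t ^ (P.natDegree - 1) := by
  obtain ⟨A, hA, h⟩ := eval_bound P.eraseLead
  refine ⟨A, hA, fun t ht => ?_⟩
  have h1 : P.eval t = P.eraseLead.eval t + P.leadingCoeff * t ^ P.natDegree := by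
    have h0 := congrArg (eval t) (eraseLead_add_C_mul_X_pow P)
    rw [eval_add, eval_mul, eval_C, eval_pow, eval_X] at h0
    exact h0.symm
  rw [h1, add_sub_cancel_right]
  have h2 := h t ht t (by rw [abs_of_nonneg (by linarith)])
  refine h2.trans (mul_le_mul_of_nonneg_left ?_ hA.le)
  exact pow_le_pow_right₀ ht (eraseLead_natDegree_le P)

theorem near (P : ℝ[X]) (hP : 0 < P.natDegree) (τ : ℝ) (hτ : 0 < τ)
    (hl : P.leadingCoeff = τ ^ P.natDegree) : ∃ K : ℝ, 0 < K ∧ ∀ t : ℝ, 1 ≤ t →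
      |P.eval t - (τ * t) ^ P.natDegree| ≤ (K / t) * (τ * t) ^ P.natDegree := by
  obtain ⟨K, hK, h⟩ := lead P hP
  refine ⟨K / τ ^ P.natDegree, by positivity, fun t ht => ?_⟩
  have h1 := h t ht
  rw [hl, ← mul_pow] at h1
  refine h1.trans (le_of_eq ?_)
  have ht0 : t ≠ 0 := by positivity
  have h2 : t ^ P.natDegree = t ^ (P.natDegree - 1) * t := by
    rw [← pow_succ]; congr 1; omega
  rw [mul_pow, h2]
  field_simp

theorem unif (P : ℝ[X]) (hP : 0 < P.natDegree) (τ : ℝ) (hτ : 0 < τ)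
    (hl : P.leadingCoeff = τ ^ P.natDegree) (C : ℝ) (hC : 0 < C) (κ : ℕ) (ε : ℝ) (hε : 0 < ε) :
    ∃ T : ℝ, 1 ≤ T ∧ ∀ t : ℝ, T ≤ t → ∀ e : ℕ, (e : ℝ) ≤ C * Real.log t ^ κ →
      |P.eval t ^ e - (τ * t) ^ (P.natDegree * e)| ≤ ε * (τ * t) ^ (P.natDegree * e) := by
  obtain ⟨K, hK, h⟩ := near P hP τ hτ hl
  have ho : (fun x : ℝ => Real.log x ^ κ) =o[atTop] (id : ℝ → ℝ) :=
    Real.isLittleO_pow_log_id_atTop
  have hc : 0 < min (1 / 2) (ε / 2) / (C * K) := by positivity
  obtain ⟨T₀, hT₀⟩ := eventually_atTop.1 (ho.bound hc)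
  refine ⟨max T₀ 1, le_max_right _ _, fun t ht e he => ?_⟩
  have ht0 : T₀ ≤ t := (le_max_left _ _).trans ht
  have ht1 : 1 ≤ t := (le_max_right _ _).trans ht
  have h1 := hT₀ t ht0
  have hlog : 0 ≤ Real.log t := Real.log_nonneg ht1
  rw [Real.norm_of_nonneg (by positivity), id, Real.norm_of_nonneg (by positivity)] at h1
  have h2 : (e : ℝ) * (K / t) ≤ min (1 / 2) (ε / 2) := by
    have h3 : C * Real.log t ^ κ ≤ min (1 / 2) (ε / 2) / K * t := by
      calc C * Real.log t ^ κ ≤ C * (min (1 / 2) (ε / 2) / (C * K) * t) :=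
            mul_le_mul_of_nonneg_left h1 hC.le
        _ = _ := by field_simp
    calc (e : ℝ) * (K / t) ≤ (min (1 / 2) (ε / 2) / K * t) * (K / t) :=
          mul_le_mul_of_nonneg_right (he.trans h3) (by positivity)
      _ = _ := by field_simp
  have h4 := pow_near (e := e) (by positivity : 0 < (τ * t) ^ P.natDegree) (h t ht1)
    (by positivity) (h2.trans (min_le_left _ _))
  rw [← pow_mul] at h4
  refine h4.trans (mul_le_mul_of_nonneg_right ?_ (by positivity))
  have h5 := h2.trans (min_le_right _ _)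
  calc 2 * (e : ℝ) * (K / t) = 2 * (e * (K / t)) := by ring
    _ ≤ ε := by linarith

/-- `t` is a parameter of a solution on the curve `(f, g, h)`, with bases `x`, `y`, `z`. -/
def OnCurve (f g h : ℝ[X]) (t : ℝ) (x y z : ℕ) : Prop :=
  f.eval t = x ∧ g.eval t = y ∧ h.eval t = z

/-- The exponents of the solutions with parameter `|t| ≤ N`. -/
theorem exp_curve (f g h : ℝ[X]) : ∃ (C : ℝ) (κ : ℕ), 0 < C ∧ ∀ N : ℝ, 2 ≤ N →
    ∀ t : ℝ, |t| ≤ N → ∀ x y z p q r : ℕ, Solution x y z p q r → OnCurve f g h t x y z →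
      (2 ≤ x → (p : ℝ) ≤ C * Real.log N ^ κ) ∧ (2 ≤ y → (q : ℝ) ≤ C * Real.log N ^ κ) ∧
      (r : ℝ) ≤ C * Real.log N ^ κ := by
  obtain ⟨C, κ, hC, hb⟩ := exp_bound
  obtain ⟨A1, hA1, h1⟩ := eval_bound f
  obtain ⟨A2, hA2, h2⟩ := eval_bound g
  obtain ⟨A3, hA3, h3⟩ := eval_bound h
  obtain ⟨A, hA⟩ : ∃ A, A = A1 + A2 + A3 + 1 := ⟨_, rfl⟩
  obtain ⟨D, hD⟩ : ∃ D, D = f.natDegree + g.natDegree + h.natDegree := ⟨_, rfl⟩
  have hA0 : 1 ≤ A := by linarith
  have hlog2 : 0 < Real.log 2 := Real.log_pos (by norm_num)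
  have hlogA : 0 ≤ Real.log A := Real.log_nonneg hA0
  refine ⟨C * (Real.log A / Real.log 2 + D + 1) ^ κ, κ, by positivity, ?_⟩
  intro N hN t ht x y z p q r hs hc
  have hN1 : 1 ≤ N := by linarith
  have hbound : ∀ (P : ℝ[X]) (B : ℝ), 0 < B → B ≤ A → P.natDegree ≤ D →
      (∀ N : ℝ, 1 ≤ N → ∀ t : ℝ, |t| ≤ N → |P.eval t| ≤ B * N ^ P.natDegree) →
      ∀ u : ℕ, P.eval t = u → (u : ℝ) ≤ A * N ^ D := by
    intro P B hB0 hB hP hh u hu
    have h4 := hh N hN1 t ht
    rw [hu, abs_of_nonneg (by positivity)] at h4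
    refine h4.trans (mul_le_mul hB (pow_le_pow_right₀ hN1 hP) (by positivity) (by linarith))
  obtain ⟨k1, k2, k3⟩ := hb x y z p q r hs (A * N ^ D)
    (hbound f A1 hA1 (by linarith) (by omega) h1 x hc.1)
    (hbound g A2 hA2 (by linarith) (by omega) h2 y hc.2.1)
    (hbound h A3 hA3 (by linarith) (by omega) h3 z hc.2.2)
  have hlogN : Real.log 2 ≤ Real.log N := Real.log_le_log (by norm_num) hN
  have hle : Real.log (A * N ^ D) ≤ (Real.log A / Real.log 2 + D + 1) * Real.log N := by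
    rw [Real.log_mul (by positivity) (by positivity), Real.log_pow]
    have h5 : Real.log A ≤ Real.log A / Real.log 2 * Real.log N := by
      calc Real.log A = Real.log A / Real.log 2 * Real.log 2 := by field_simp
        _ ≤ _ := mul_le_mul_of_nonneg_left hlogN (by positivity)
    nlinarith
  have hge : 0 ≤ Real.log (A * N ^ D) := by
    apply Real.log_nonneg
    have : 1 ≤ N ^ D := one_le_pow₀ hN1
    nlinarith
  have hfin : C * Real.log (A * N ^ D) ^ κ ≤
      C * (Real.log A / Real.log 2 + D + 1) ^ κ * Real.log N ^ κ := by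
    rw [mul_assoc, ← mul_pow]
    exact mul_le_mul_of_nonneg_left (pow_le_pow_left₀ hge hle κ) hC.le
  exact ⟨fun hh => (k1 hh).trans hfin, fun hh => (k2 hh).trans hfin, k3.trans hfin⟩

/-- The polynomial identity is impossible (Mason-Stothers). -/
theorem identity_ne (f g h : ℝ[X]) (hf : 0 < f.natDegree) (hg : g ≠ 0) (hh : h ≠ 0)
    (hc : ∀ d : ℝ[X], d ∣ f → d ∣ g → d ∣ h → IsUnit d) {x y z p q r : ℕ}
    (hs : Solution x y z p q r) : f ^ p + g ^ q - h ^ r ≠ 0 := by
  intro h0
  obtain ⟨-, -, -, -, hp, hq, hr, hpqr, -⟩ := hs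
  have hf0 : f ≠ 0 := by rintro rfl; simp at hf
  have heq : f ^ p + g ^ q = h ^ r := sub_eq_zero.1 h0
  have hco : IsCoprime f g := by
    apply IsRelPrime.isCoprime
    intro d hd1 hd2
    by_contra hnu
    have hd0 : d ≠ 0 := by
      rintro rfl
      exact hf0 (zero_dvd_iff.1 hd1)
    obtain ⟨π, hπ, hπd⟩ := WfDvdMonoid.exists_irreducible_factor hnu hd0
    have h1 : π ∣ h ^ r := by
      rw [← heq]
      exact dvd_add ((hπd.trans hd1).trans (dvd_pow_self f hp.ne'))
        ((hπd.trans hd2).trans (dvd_pow_self g hq.ne'))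
    exact hπ.not_isUnit (hc π (hπd.trans hd1) (hπd.trans hd2) (hπ.prime.dvd_of_dvd_pow h1))
  have hineq : q * r + r * p + p * q ≤ p * q * r := by
    have hp' : (0 : ℚ) < p := by exact_mod_cast hp
    have hq' : (0 : ℚ) < q := by exact_mod_cast hq
    have hr' : (0 : ℚ) < r := by exact_mod_cast hr
    have h2 : (q * r + r * p + p * q : ℚ) ≤ p * q * r := by
      have h3 : (1 : ℚ) / p + 1 / q + 1 / r = (q * r + r * p + p * q) / (p * q * r) := by
        field_simp
      rw [h3, div_le_one (by positivity)] at hpqr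
      exact hpqr
    exact_mod_cast h2
  have := Polynomial.flt_catalan (k := ℝ) hp.ne' hq.ne' hr.ne' hineq
    (by exact_mod_cast hp.ne') (by exact_mod_cast hq.ne') (by exact_mod_cast hr.ne')
    hf0 hg hh hco (u := 1) (v := 1) (w := -1) one_ne_zero one_ne_zero (by norm_num)
    (by simp only [map_one, one_mul, map_neg, neg_mul]; rw [heq]; ring)
  omega

/-- The parameters of solutions with bounded exponents are covered by few real numbers. -/
theorem cover (f g h : ℝ[X]) (hf : 0 < f.natDegree) (hg : 0 < g.natDegree) (hh : 0 < h.natDegree)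
    (hc : ∀ d : ℝ[X], d ∣ f → d ∣ g → d ∣ h → IsUnit d) (M : ℕ) :
    ∃ T : Finset ℝ, T.card ≤ 3 * (f.natDegree + g.natDegree + h.natDegree) * (M + 1) ^ 4 ∧
      ∀ (t : ℝ) (x y z p q r : ℕ), Solution x y z p q r → OnCurve f g h t x y z →
        (2 ≤ x → p ≤ M) → (2 ≤ y → q ≤ M) → r ≤ M → t ∈ T := by
  classical
  obtain ⟨D, hD⟩ : ∃ D, D = f.natDegree + g.natDegree + h.natDegree := ⟨_, rfl⟩
  let I := Finset.range (M + 1) ×ˢ Finset.range (M + 1) ×ˢ Finset.range (M + 1)
  let W : ℕ × ℕ × ℕ → Finset ℝ := fun w => (f ^ w.1 + g ^ w.2.1 - h ^ w.2.2).roots.toFinset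
  have hW : ∀ w ∈ I, (W w).card ≤ D * M := by
    rintro ⟨p, q, r⟩ hw
    simp only [I, Finset.mem_product, Finset.mem_range] at hw
    obtain ⟨hp, hq, hr⟩ := hw
    refine (Multiset.toFinset_card_le _).trans ((card_roots' _).trans ?_)
    refine (natDegree_sub_le _ _).trans (max_le ((natDegree_add_le _ _).trans (max_le ?_ ?_)) ?_)
    · refine natDegree_pow_le.trans ?_
      nlinarith
    · refine natDegree_pow_le.trans ?_
      nlinarith
    · refine natDegree_pow_le.trans ?_
      nlinarith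
  refine ⟨(f - 1).roots.toFinset ∪ (g - 1).roots.toFinset ∪ I.biUnion W, ?_, ?_⟩
  · have h1 : (f - 1).roots.toFinset.card ≤ D := by
      refine (Multiset.toFinset_card_le _).trans ((card_roots' _).trans ?_)
      refine (natDegree_sub_le _ _).trans (max_le (by omega) (by simp))
    have h2 : (g - 1).roots.toFinset.card ≤ D := by
      refine (Multiset.toFinset_card_le _).trans ((card_roots' _).trans ?_)
      refine (natDegree_sub_le _ _).trans (max_le (by omega) (by simp))
    have h3 : (I.biUnion W).card ≤ I.card * (D * M) := Finset.card_biUnion_le_card_mul _ _ _ hW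
    have h4 : I.card = (M + 1) ^ 3 := by
      simp only [I, Finset.card_product, Finset.card_range]; ring
    rw [h4] at h3
    rw [← hD]
    calc _ ≤ (f - 1).roots.toFinset.card + (g - 1).roots.toFinset.card + (I.biUnion W).card :=
          (Finset.card_union_le _ _).trans (Nat.add_le_add_right (Finset.card_union_le _ _) _)
      _ ≤ D + D + (M + 1) ^ 3 * (D * M) := by omega
      _ ≤ 3 * D * (M + 1) ^ 4 := by
          have h5 : 1 ≤ (M + 1) ^ 4 := Nat.one_le_pow _ _ (by omega)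
          have h6 : (M + 1) ^ 3 * (D * M) ≤ D * (M + 1) ^ 4 := by
            calc (M + 1) ^ 3 * (D * M) ≤ (M + 1) ^ 3 * (D * (M + 1)) := by gcongr; omega
              _ = _ := by ring
          nlinarith
  · intro t x y z p q r hs ht hp hq hr
    obtain ⟨e1, e2, e3⟩ := ht
    have hx := hs.1
    have hy := hs.2.1
    simp only [Finset.mem_union, Finset.mem_biUnion]
    rcases Nat.lt_or_ge x 2 with h1 | h1
    · left; left
      have hx1 : x = 1 := by omega
      rw [Multiset.mem_toFinset, mem_roots']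
      refine ⟨?_, by simp [IsRoot, e1, hx1]⟩
      intro h0
      have : f = 1 := sub_eq_zero.1 h0
      rw [this] at hf
      simp at hf
    rcases Nat.lt_or_ge y 2 with h2 | h2
    · left; right
      have hy1 : y = 1 := by omega
      rw [Multiset.mem_toFinset, mem_roots']
      refine ⟨?_, by simp [IsRoot, e2, hy1]⟩
      intro h0
      have : g = 1 := sub_eq_zero.1 h0
      rw [this] at hg
      simp at hg
    right
    refine ⟨(p, q, r), ?_, ?_⟩
    · simp only [I, Finset.mem_product, Finset.mem_range]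
      have := hp h1
      have := hq h2
      omega
    · simp only [W]
      rw [Multiset.mem_toFinset, mem_roots']
      refine ⟨identity_ne f g h hf (by rintro rfl; simp at hg) (by rintro rfl; simp at hh) hc hs, ?_⟩
      have h5 : (x : ℝ) ^ p + (y : ℝ) ^ q = (z : ℝ) ^ r := by
        exact_mod_cast hs.2.2.2.2.2.2.2.2
      simp only [IsRoot, eval_sub, eval_add, eval_pow, e1, e2, e3]
      linarith

end Pool.Agent.X47.FC
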