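import Mathlib
import Pool.Agent.X47.FCPoly

/-!
# The Fermat-Catalan equation along polynomial curves with balanced leading terms
-/

set_option autoImplicit false

namespace Pool.Agent.X47.FC

open Polynomial Filter Topology

theorem count (f g h : ℝ[X]) (hf : 0 < f.natDegree) (hg : 0 < g.natDegree) (hh : 0 < h.natDegree)
    (hc : ∀ d : ℝ[X], d ∣ f → d ∣ g → d ∣ h → IsUnit d) :
    ∃ (C : ℝ) (K : ℕ), ∀ N : ℝ, 2 ≤ N →
      {t : ℝ | |t| ≤ N ∧ ∃ x y z p q r : ℕ, Solution x y z p q r ∧ OnCurve f g h t x y z}.Finite ∧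
      (({t : ℝ | |t| ≤ N ∧ ∃ x y z p q r : ℕ, Solution x y z p q r ∧
        OnCurve f g h t x y z}.ncard : ℕ) : ℝ) ≤ C * Real.log N ^ K := by
  obtain ⟨C, κ, hC, hb⟩ := exp_curve f g h
  obtain ⟨D, hD⟩ : ∃ D, D = f.natDegree + g.natDegree + h.natDegree := ⟨_, rfl⟩
  have hlog2 : 0 < Real.log 2 := Real.log_pos (by norm_num)
  refine ⟨3 * D * (C + 1 / Real.log 2 ^ κ) ^ 4, κ * 4, ?_⟩
  intro N hN
  have hlogN : Real.log 2 ≤ Real.log N := Real.log_le_log (by norm_num) hN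
  have hlog0 : 0 ≤ C * Real.log N ^ κ := by
    have : 0 ≤ Real.log N := by linarith
    positivity
  obtain ⟨T, hT1, hT2⟩ := cover f g h hf hg hh hc ⌊C * Real.log N ^ κ⌋₊
  have hsub : {t : ℝ | |t| ≤ N ∧ ∃ x y z p q r : ℕ, Solution x y z p q r ∧
      OnCurve f g h t x y z} ⊆ (T : Set ℝ) := by
    rintro t ⟨ht, x, y, z, p, q, r, hs, hcu⟩
    obtain ⟨k1, k2, k3⟩ := hb N hN t ht x y z p q r hs hcu
    exact hT2 t x y z p q r hs hcu (fun hx => Nat.le_floor (k1 hx)) (fun hy => Nat.le_floor (k2 hy))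
      (Nat.le_floor k3)
  refine ⟨T.finite_toSet.subset hsub, ?_⟩
  have h1 := Set.ncard_le_ncard hsub T.finite_toSet
  rw [Set.ncard_coe_finset] at h1
  have h2 : ((⌊C * Real.log N ^ κ⌋₊ : ℕ) : ℝ) + 1 ≤ (C + 1 / Real.log 2 ^ κ) * Real.log N ^ κ := by
    have h3 := Nat.floor_le hlog0
    have h4 : 1 ≤ 1 / Real.log 2 ^ κ * Real.log N ^ κ := by
      rw [one_div, inv_mul_eq_div, le_div_iff₀ (by positivity), one_mul]
      exact pow_le_pow_left₀ hlog2.le hlogN κ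
    nlinarith
  have h5 : (((⌊C * Real.log N ^ κ⌋₊ : ℕ) : ℝ) + 1) ^ 4 ≤
      ((C + 1 / Real.log 2 ^ κ) * Real.log N ^ κ) ^ 4 :=
    pow_le_pow_left₀ (by positivity) h2 4
  calc (({t : ℝ | |t| ≤ N ∧ ∃ x y z p q r : ℕ, Solution x y z p q r ∧
        OnCurve f g h t x y z}.ncard : ℕ) : ℝ)
      ≤ ((3 * (f.natDegree + g.natDegree + h.natDegree) *
          (⌊C * Real.log N ^ κ⌋₊ + 1) ^ 4 : ℕ) : ℝ) := by exact_mod_cast h1.trans hT1
    _ = 3 * D * (((⌊C * Real.log N ^ κ⌋₊ : ℕ) : ℝ) + 1) ^ 4 := by rw [hD]; push_cast; ring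
    _ ≤ 3 * D * ((C + 1 / Real.log 2 ^ κ) * Real.log N ^ κ) ^ 4 :=
        mul_le_mul_of_nonneg_left h5 (by positivity)
    _ = _ := by rw [mul_pow, ← pow_mul]; ring

theorem aux_low {a b : ℝ} (ha : 0 < a) (hb : 0 < b) :
    1 / 2 * (a * b) ≤ (15 / 16 * a) * (15 / 16 * b) := by
  have h := mul_pos ha hb
  have e : (15 / 16 * a) * (15 / 16 * b) = 225 / 256 * (a * b) := by ring
  rw [e]; linarith

theorem aux_up {a b : ℝ} (ha : 0 < a) (hb : 0 < b) :
    (17 / 16 * a) * (17 / 16 * b) ≤ 2 * (a * b) := by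
  have h := mul_pos ha hb
  have e : (17 / 16 * a) * (17 / 16 * b) = 289 / 256 * (a * b) := by ring
  rw [e]; linarith

theorem aux_one {a X Y : ℝ} (hY : 0 < Y) (h : a * (Y * X) ≤ Y) : a * X ≤ 1 := by
  have h1 : (a * X) * Y ≤ 1 * Y := by linarith [show a * (Y * X) = (a * X) * Y by ring]
  exact le_of_mul_le_mul_right h1 hY

theorem aux_two {b X Y : ℝ} (hY : 0 < Y) (h : Y * X ≤ b * Y) : X ≤ b := by
  have h1 : X * Y ≤ b * Y := by linarith [mul_comm X Y]
  exact le_of_mul_le_mul_right h1 hY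

theorem aux_three {c s X : ℝ} (hc : 0 < c) (hX : 0 < X) (hs : 1 ≤ s) (h : 5 / c < X) :
    1 < c * s / 5 * X := by
  rw [div_lt_iff₀ hc] at h
  have h1 : c * X ≤ c * s * X := by
    have h2 : c ≤ c * s := le_mul_of_one_le_right hc.le hs
    exact mul_le_mul_of_nonneg_right h2 hX.le
  have h3 : c * s / 5 * X = c * s * X / 5 := by ring
  rw [h3]
  linarith [mul_comm c X]

/-- The exponents are bounded when the terms `x ^ p` and `z ^ r` have the same order. -/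
theorem key (f g h : ℝ[X]) (hf : 0 < f.natDegree) (hg : 0 < g.natDegree) (hh : 0 < h.natDegree)
    (τ : ℝ) (hτ : 0 < τ) (lf : f.leadingCoeff = τ ^ f.natDegree)
    (lg : g.leadingCoeff = τ ^ g.natDegree) (lh : h.leadingCoeff = τ ^ h.natDegree)
    (C : ℝ) (hC : 0 < C) (κ : ℕ) :
    ∃ (T : ℝ) (B : ℕ), ∀ t : ℝ, T ≤ t → ∀ x y z p q r : ℕ, 0 < y → 0 < p → 0 < q → 0 < r →
      x ^ p + y ^ q = z ^ r → OnCurve f g h t x y z → (p : ℝ) ≤ C * Real.log t ^ κ →
      (q : ℝ) ≤ C * Real.log t ^ κ → (r : ℝ) ≤ C * Real.log t ^ κ →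
      f.natDegree * p = h.natDegree * r → p ≤ B ∧ q ≤ B ∧ r ≤ B := by
  obtain ⟨a', c', hco, ha', hc'⟩ := Nat.exists_coprime f.natDegree h.natDegree
  obtain ⟨d, hd⟩ : ∃ d, d = Nat.gcd f.natDegree h.natDegree := ⟨_, rfl⟩
  rw [← hd] at ha' hc'
  have hd0 : 0 < d := by rw [hd]; exact Nat.gcd_pos_of_pos_left _ hf
  have ha0 : 0 < a' := Nat.pos_of_ne_zero (by rintro rfl; omega)
  have hc0 : 0 < c' := Nat.pos_of_ne_zero (by rintro rfl; omega)
  -- the exponents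
  have hexp : ∀ p r : ℕ, 0 < r → f.natDegree * p = h.natDegree * r →
      ∃ s, 0 < s ∧ p = c' * s ∧ r = a' * s := by
    intro p r hr he
    rw [ha', hc'] at he
    have h1 : a' * p = c' * r := by
      apply Nat.eq_of_mul_eq_mul_left hd0
      calc d * (a' * p) = a' * d * p := by ring
        _ = c' * d * r := he
        _ = _ := by ring
    have h2 : a' ∣ r := hco.dvd_of_dvd_mul_left (h1 ▸ Dvd.intro _ rfl)
    obtain ⟨s, rfl⟩ := h2
    refine ⟨s, Nat.pos_of_mul_pos_left hr, ?_, rfl⟩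
    apply Nat.eq_of_mul_eq_mul_left ha0
    rw [h1]; ring
  obtain ⟨m, hm⟩ : ∃ m, m = f.natDegree * c' := ⟨_, rfl⟩
  have hm2 : m = h.natDegree * a' := by rw [hm, ha', hc']; ring
  obtain ⟨P, hP⟩ : ∃ P, P = h ^ a' - f ^ c' := ⟨_, rfl⟩
  rcases eq_or_ne P 0 with hP0 | hP0
  · refine ⟨0, 0, ?_⟩
    intro t _ x y z p q r hy hp hq hr heq hcu _ _ _ hdeg
    exfalso
    obtain ⟨s, hs, rfl, rfl⟩ := hexp p r hr hdeg
    obtain ⟨e1, e2, e3⟩ := hcu
    have h1 : (x : ℝ) ^ c' = (z : ℝ) ^ a' := by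
      have h2 : (h ^ a' - f ^ c').eval t = 0 := by rw [← hP, hP0, eval_zero]
      rw [eval_sub, eval_pow, eval_pow, e1, e3] at h2
      linarith
    have h3 : x ^ c' = z ^ a' := by exact_mod_cast h1
    rw [pow_mul, pow_mul, h3] at heq
    have : 0 < y ^ q := Nat.pow_pos hy
    omega
  obtain ⟨m', hm'⟩ : ∃ m', m' = P.natDegree := ⟨_, rfl⟩
  obtain ⟨δ, hδ⟩ : ∃ δ, δ = P.leadingCoeff := ⟨_, rfl⟩
  have hδ0 : δ ≠ 0 := by rw [hδ]; exact leadingCoeff_ne_zero.2 hP0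
  obtain ⟨c0, hc0'⟩ : ∃ c0, c0 = |δ| / τ ^ m' := ⟨_, rfl⟩
  have hc0p : 0 < c0 := by rw [hc0']; have := abs_pos.2 hδ0; positivity
  -- thresholds
  obtain ⟨T1, hT1, hu1⟩ := unif f hf τ hτ lf C hC κ (1 / 16) (by norm_num)
  obtain ⟨T2, hT2, hu2⟩ := unif g hg τ hτ lg C hC κ (1 / 16) (by norm_num)
  obtain ⟨T3, hT3, hu3⟩ := unif h hh τ hτ lh C hC κ (1 / 16) (by norm_num)
  have hev1 : ∀ᶠ t in atTop, |P.eval t - δ * t ^ m'| ≤ 1 / 2 * |δ * t ^ m'| := by
    have := (Polynomial.isEquivalent_atTop_lead P).isLittleO.bound (by norm_num : (0 : ℝ) < 1 / 2)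
    filter_upwards [this] with t ht
    rw [hδ, hm']
    exact ht
  obtain ⟨T4, hT4⟩ := eventually_atTop.1 hev1
  have hev2 : ∀ᶠ t in atTop, 4 * c0 * (C * Real.log t ^ κ) < τ * t := by
    have ho : (fun x : ℝ => Real.log x ^ κ) =o[atTop] (id : ℝ → ℝ) :=
      Real.isLittleO_pow_log_id_atTop
    have hcc : 0 < τ / (8 * c0 * C) := by positivity
    filter_upwards [ho.bound hcc, eventually_ge_atTop (1 : ℝ)] with t ht ht1
    have hlog : 0 ≤ Real.log t := Real.log_nonneg ht1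
    rw [Real.norm_of_nonneg (by positivity), id, Real.norm_of_nonneg (by positivity)] at ht
    calc 4 * c0 * (C * Real.log t ^ κ) ≤ 4 * c0 * (C * (τ / (8 * c0 * C) * t)) := by gcongr
      _ = τ * t / 2 := by field_simp; norm_num
      _ < τ * t := by have : 0 < τ * t := by positivity
                      linarith
  obtain ⟨T5, hT5⟩ := eventually_atTop.1 hev2
  obtain ⟨S0, hS0⟩ : ∃ S0 : ℕ, 5 / c0 ≤ S0 := exists_nat_ge _
  refine ⟨max (max (max T1 T2) (max T3 T4)) (max T5 (max (1 / τ) ((5 / c0 + 1) / τ))),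
    c' * S0 + a' * S0 + m' + m * S0, ?_⟩
  intro t ht x y z p q r hy hp hq hr heq hcu hpb hqb hrb hdeg
  have ht1 : T1 ≤ t := ((le_max_left _ _).trans ((le_max_left _ _).trans (le_max_left _ _))).trans ht
  have ht2 : T2 ≤ t := ((le_max_right _ _).trans ((le_max_left _ _).trans (le_max_left _ _))).trans ht
  have ht3 : T3 ≤ t := ((le_max_left _ _).trans ((le_max_right _ _).trans (le_max_left _ _))).trans ht
  have ht4 : T4 ≤ t := ((le_max_right _ _).trans ((le_max_right _ _).trans (le_max_left _ _))).trans ht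
  have ht5 : T5 ≤ t := ((le_max_left _ _).trans (le_max_right _ _)).trans ht
  have ht6 : 1 / τ ≤ t :=
    ((le_max_left _ _).trans ((le_max_right _ _).trans (le_max_right _ _))).trans ht
  have ht7 : (5 / c0 + 1) / τ ≤ t :=
    ((le_max_right _ _).trans ((le_max_right _ _).trans (le_max_right _ _))).trans ht
  have ht0 : 1 ≤ t := hT1.trans ht1
  obtain ⟨s, hs, rfl, rfl⟩ := hexp p r hr hdeg
  obtain ⟨e1, e2, e3⟩ := hcu
  obtain ⟨X, hX⟩ : ∃ X, X = τ * t := ⟨_, rfl⟩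
  have hX1 : 1 ≤ X := by rw [hX]; rw [div_le_iff₀ hτ] at ht6; linarith
  have hX5 : 5 / c0 < X := by
    rw [hX]; rw [div_le_iff₀ hτ] at ht7; linarith
  have hX0 : 0 < X := by linarith
  have hXs : 4 * c0 * s < X := by
    have h1 := hT5 t ht5
    rw [← hX] at h1
    have h2 : (s : ℝ) ≤ C * Real.log t ^ κ := by
      refine le_trans ?_ hrb
      exact_mod_cast Nat.le_mul_of_pos_left s ha0
    calc 4 * c0 * s ≤ 4 * c0 * (C * Real.log t ^ κ) := by gcongr
      _ < X := h1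
  -- the sum
  obtain ⟨Z, hZ⟩ : ∃ Z, Z = h.eval t := ⟨_, rfl⟩
  obtain ⟨U, hU⟩ : ∃ U, U = f.eval t := ⟨_, rfl⟩
  have hZb : ∀ e : ℕ, e ≤ a' * s → 15 / 16 * X ^ (h.natDegree * e) ≤ Z ^ e ∧
      Z ^ e ≤ 17 / 16 * X ^ (h.natDegree * e) := by
    intro e he
    have h1 := hu3 t ht3 e (le_trans (by exact_mod_cast he) hrb)
    rw [← hX, ← hZ] at h1
    have h2 := abs_le.1 h1
    constructor <;> linarith
  have hUb : ∀ e : ℕ, e ≤ c' * s → 15 / 16 * X ^ (f.natDegree * e) ≤ U ^ e ∧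
      U ^ e ≤ 17 / 16 * X ^ (f.natDegree * e) := by
    intro e he
    have h1 := hu1 t ht1 e (le_trans (by exact_mod_cast he) hpb)
    rw [← hX, ← hU] at h1
    have h2 := abs_le.1 h1
    constructor <;> linarith
  obtain ⟨G, hG⟩ : ∃ G, G = ∑ i ∈ Finset.range s, (Z ^ a') ^ i * (U ^ c') ^ (s - 1 - i) := ⟨_, rfl⟩
  have hterm : ∀ i ∈ Finset.range s, 1 / 2 * X ^ (m * (s - 1)) ≤
      (Z ^ a') ^ i * (U ^ c') ^ (s - 1 - i) ∧ (Z ^ a') ^ i * (U ^ c') ^ (s - 1 - i) ≤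
        2 * X ^ (m * (s - 1)) := by
    intro i hi
    rw [Finset.mem_range] at hi
    rw [← pow_mul, ← pow_mul]
    obtain ⟨g1, g2⟩ := hZb (a' * i) (Nat.mul_le_mul_left _ hi.le)
    obtain ⟨g3, g4⟩ := hUb (c' * (s - 1 - i)) (Nat.mul_le_mul_left _ (by omega))
    have hpw : X ^ (m * (s - 1)) = X ^ (h.natDegree * (a' * i)) *
        X ^ (f.natDegree * (c' * (s - 1 - i))) := by
      rw [← pow_add]
      congr 1
      rw [← mul_assoc, ← mul_assoc, ← hm, ← hm2, ← mul_add]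
      congr 1
      omega
    rw [hpw]
    obtain ⟨X1, hX1'⟩ : ∃ X1, X1 = X ^ (h.natDegree * (a' * i)) := ⟨_, rfl⟩
    obtain ⟨X2, hX2'⟩ : ∃ X2, X2 = X ^ (f.natDegree * (c' * (s - 1 - i))) := ⟨_, rfl⟩
    have hX1p : 0 < X1 := by rw [hX1']; positivity
    have hX2p : 0 < X2 := by rw [hX2']; positivity
    rw [← hX1'] at g1 g2 ⊢
    rw [← hX2'] at g3 g4 ⊢
    obtain ⟨V, hV⟩ : ∃ V, V = Z ^ (a' * i) := ⟨_, rfl⟩
    obtain ⟨W, hW⟩ : ∃ W, W = U ^ (c' * (s - 1 - i)) := ⟨_, rfl⟩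
    rw [← hV] at g1 g2 ⊢
    rw [← hW] at g3 g4 ⊢
    constructor
    · calc 1 / 2 * (X1 * X2) ≤ (15 / 16 * X1) * (15 / 16 * X2) := aux_low hX1p hX2p
        _ ≤ V * W := mul_le_mul g1 g3 (by positivity) (le_trans (by positivity) g1)
    · calc V * W ≤ (17 / 16 * X1) * (17 / 16 * X2) :=
            mul_le_mul g2 g4 (le_trans (by positivity) g3) (by positivity)
        _ ≤ 2 * (X1 * X2) := aux_up hX1p hX2p
  have hXm : 0 < X ^ (m * (s - 1)) := by positivity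
  have hs1 : (1 : ℝ) ≤ s := by exact_mod_cast hs
  have hG1 : s * (1 / 2 * X ^ (m * (s - 1))) ≤ G := by
    rw [hG]
    calc (s : ℝ) * (1 / 2 * X ^ (m * (s - 1)))
        = ∑ i ∈ Finset.range s, (1 / 2 * X ^ (m * (s - 1))) := by
          rw [Finset.sum_const, Finset.card_range, nsmul_eq_mul]
      _ ≤ _ := Finset.sum_le_sum fun i hi => (hterm i hi).1
  have hG2 : G ≤ s * (2 * X ^ (m * (s - 1))) := by
    rw [hG]
    calc _ ≤ ∑ i ∈ Finset.range s, (2 * X ^ (m * (s - 1))) :=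
          Finset.sum_le_sum fun i hi => (hterm i hi).2
      _ = _ := by rw [Finset.sum_const, Finset.card_range, nsmul_eq_mul]
  have hG0 : 0 < G := lt_of_lt_of_le (by positivity) hG1
  -- the equation
  obtain ⟨Q, hQ⟩ : ∃ Q, Q = P.eval t := ⟨_, rfl⟩
  have hQG : G * Q = (y : ℝ) ^ q := by
    have h1 := geom_sum₂_mul (Z ^ a') (U ^ c') s
    have h2 : (x : ℝ) ^ (c' * s) + (y : ℝ) ^ q = (z : ℝ) ^ (a' * s) := by exact_mod_cast heq
    have h3 : Q = Z ^ a' - U ^ c' := by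
      rw [hQ, hP, hZ, hU, eval_sub, eval_pow, eval_pow]
    rw [h3, hG, h1, ← pow_mul, ← pow_mul, hZ, hU, e1, e3]
    linarith
  have hy0 : (0 : ℝ) < (y : ℝ) ^ q := by positivity
  have hQ0 : 0 < Q := by
    by_contra hneg
    have : G * Q ≤ 0 := mul_nonpos_of_nonneg_of_nonpos hG0.le (not_lt.1 hneg)
    linarith
  have hQb := hT4 t ht4
  rw [← hQ] at hQb
  have htm : (0 : ℝ) < t ^ m' := by positivity
  have hδp : 0 < δ := by
    by_contra hneg
    have h1 : δ < 0 := lt_of_le_of_ne (not_lt.1 hneg) hδ0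
    have h2 : δ * t ^ m' < 0 := mul_neg_of_neg_of_pos h1 htm
    rw [abs_of_neg h2] at hQb
    have := abs_le.1 hQb
    linarith
  have hδt : δ * t ^ m' = c0 * X ^ m' := by
    rw [hc0', abs_of_pos hδp, hX, mul_pow]
    field_simp
  have hXm' : 0 < X ^ m' := by positivity
  rw [abs_of_pos (mul_pos hδp htm), hδt] at hQb
  have hQb' := abs_le.1 hQb
  -- the size of `y ^ q`
  have hyb : 15 / 16 * X ^ (g.natDegree * q) ≤ (y : ℝ) ^ q ∧
      (y : ℝ) ^ q ≤ 17 / 16 * X ^ (g.natDegree * q) := by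
    have h1 := hu2 t ht2 q hqb
    rw [← hX, e2] at h1
    have h2 := abs_le.1 h1
    constructor <;> linarith
  obtain ⟨E, hE⟩ : ∃ E, E = m' + m * (s - 1) := ⟨_, rfl⟩
  have hXE : X ^ m' * X ^ (m * (s - 1)) = X ^ E := by rw [hE, pow_add]
  have hXE0 : 0 < X ^ E := by positivity
  have hlow : c0 * s / 5 * X ^ E ≤ X ^ (g.natDegree * q) := by
    have h1 : (s * (1 / 2 * X ^ (m * (s - 1)))) * (1 / 2 * (c0 * X ^ m')) ≤ G * Q :=
      mul_le_mul hG1 (by linarith) (by positivity) hG0.le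
    rw [hQG] at h1
    have h2 : (s * (1 / 2 * X ^ (m * (s - 1)))) * (1 / 2 * (c0 * X ^ m')) = c0 * s / 4 * X ^ E := by
      rw [← hXE]; ring
    rw [h2] at h1
    have h3 : 0 < c0 * s * X ^ E := by positivity
    linarith [hyb.2]
  have hup : X ^ (g.natDegree * q) ≤ 4 * c0 * s * X ^ E := by
    have h1 : G * Q ≤ (s * (2 * X ^ (m * (s - 1)))) * (3 / 2 * (c0 * X ^ m')) :=
      mul_le_mul hG2 (by linarith) hQ0.le (by positivity)
    rw [hQG] at h1
    have h2 : (s * (2 * X ^ (m * (s - 1)))) * (3 / 2 * (c0 * X ^ m')) = 3 * (c0 * s * X ^ E) := by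
      rw [← hXE]; ring
    rw [h2] at h1
    have h3 : 0 < c0 * s * X ^ E := by positivity
    linarith [hyb.1]
  have hE2 : g.natDegree * q = E := by
    rcases lt_trichotomy (g.natDegree * q) E with hlt | heq' | hgt
    · exfalso
      have h1 : X ^ (g.natDegree * q) * X ≤ X ^ E := by
        rw [← pow_succ]; exact pow_le_pow_right₀ hX1 hlt
      have h2 : 0 < X ^ (g.natDegree * q) := by positivity
      have h3 : c0 * s / 5 * (X ^ (g.natDegree * q) * X) ≤ X ^ (g.natDegree * q) :=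
        (mul_le_mul_of_nonneg_left h1 (by positivity)).trans hlow
      exact absurd (aux_one h2 h3) (not_le.2 (aux_three hc0p hX0 hs1 hX5))
    · exact heq'
    · exfalso
      have h1 : X ^ E * X ≤ X ^ (g.natDegree * q) := by
        rw [← pow_succ]; exact pow_le_pow_right₀ hX1 hgt
      have h2 : X ^ E * X ≤ 4 * c0 * s * X ^ E := h1.trans hup
      exact absurd (aux_two hXE0 h2) (not_le.2 hXs)
  have hsb : s ≤ S0 := by
    rw [hE2] at hlow
    have h1 : c0 * s / 5 ≤ 1 := by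
      have h0 : c0 * s / 5 * X ^ E ≤ 1 * X ^ E := by rw [one_mul]; exact hlow
      exact le_of_mul_le_mul_right h0 hXE0
    have h2 : (s : ℝ) ≤ 5 / c0 := by
      rw [le_div_iff₀ hc0p]; linarith
    exact_mod_cast h2.trans hS0
  have hqE : q ≤ E := by
    rw [← hE2]
    exact Nat.le_mul_of_pos_left q hg
  have hEb : E ≤ m' + m * S0 := by
    rw [hE]
    have : m * (s - 1) ≤ m * S0 := Nat.mul_le_mul_left _ (by omega)
    omega
  have h1 : c' * s ≤ c' * S0 := Nat.mul_le_mul_left _ hsb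
  have h2 : a' * s ≤ a' * S0 := Nat.mul_le_mul_left _ hsb
  refine ⟨?_, ?_, ?_⟩ <;> omega

/-- All exponents are bounded for large parameters. -/
theorem balanced (f g h : ℝ[X]) (hf : 0 < f.natDegree) (hg : 0 < g.natDegree)
    (hh : 0 < h.natDegree) (τ : ℝ) (hτ : 0 < τ) (lf : f.leadingCoeff = τ ^ f.natDegree)
    (lg : g.leadingCoeff = τ ^ g.natDegree) (lh : h.leadingCoeff = τ ^ h.natDegree) :
    ∃ (T : ℝ) (B : ℕ), ∀ t : ℝ, T ≤ t → ∀ x y z p q r : ℕ, Solution x y z p q r →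
      OnCurve f g h t x y z → p ≤ B ∧ q ≤ B ∧ r ≤ B := by
  obtain ⟨C₀, κ, hC₀, hb⟩ := exp_curve f g h
  obtain ⟨C, hCdef⟩ : ∃ C, C = C₀ + 1 := ⟨_, rfl⟩
  have hC : 0 < C := by linarith
  obtain ⟨Ta, Ba, ha⟩ := key f g h hf hg hh τ hτ lf lg lh C hC κ
  obtain ⟨Tb, Bb, hbb⟩ := key g f h hg hf hh τ hτ lg lf lh C hC κ
  obtain ⟨T1, hT1, hu1⟩ := unif f hf τ hτ lf C hC κ (1 / 16) (by norm_num)
  obtain ⟨T2, hT2, hu2⟩ := unif g hg τ hτ lg C hC κ (1 / 16) (by norm_num)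
  obtain ⟨T3, hT3, hu3⟩ := unif h hh τ hτ lh C hC κ (1 / 16) (by norm_num)
  refine ⟨max (max (max T1 T2) (max T3 Ta)) (max Tb (max (4 / τ) (Real.exp 1))), Ba + Bb, ?_⟩
  intro t ht x y z p q r hs hcu
  have ht1 : T1 ≤ t := ((le_max_left _ _).trans ((le_max_left _ _).trans (le_max_left _ _))).trans ht
  have ht2 : T2 ≤ t := ((le_max_right _ _).trans ((le_max_left _ _).trans (le_max_left _ _))).trans ht
  have ht3 : T3 ≤ t := ((le_max_left _ _).trans ((le_max_right _ _).trans (le_max_left _ _))).trans ht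
  have ht4 : Ta ≤ t := ((le_max_right _ _).trans ((le_max_right _ _).trans (le_max_left _ _))).trans ht
  have ht5 : Tb ≤ t := ((le_max_left _ _).trans (le_max_right _ _)).trans ht
  have ht6 : 4 / τ ≤ t :=
    ((le_max_left _ _).trans ((le_max_right _ _).trans (le_max_right _ _))).trans ht
  have ht7 : Real.exp 1 ≤ t :=
    ((le_max_right _ _).trans ((le_max_right _ _).trans (le_max_right _ _))).trans ht
  have htp : 0 < t := lt_of_lt_of_le (Real.exp_pos 1) ht7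
  have hlog1 : 1 ≤ Real.log t := by
    rw [Real.le_log_iff_exp_le htp]; exact ht7
  have hlogκ : 1 ≤ Real.log t ^ κ := one_le_pow₀ hlog1
  have ht2' : 2 ≤ t := by linarith [Real.exp_one_gt_d9]
  have h1b : ((1 : ℕ) : ℝ) ≤ C * Real.log t ^ κ := by
    push_cast
    nlinarith
  obtain ⟨X, hX⟩ : ∃ X, X = τ * t := ⟨_, rfl⟩
  have hX4 : 4 ≤ X := by rw [hX]; rw [div_le_iff₀ hτ] at ht6; linarith
  have hX0 : 0 < X := by linarith
  have hX1 : 1 ≤ X := by linarith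
  obtain ⟨e1, e2, e3⟩ := hcu
  have hx2 : 2 ≤ x := by
    have h1 := hu1 t ht1 1 h1b
    rw [← hX, e1, pow_one, mul_one] at h1
    have h2 := (abs_le.1 h1).1
    have h3 : X ≤ X ^ f.natDegree := le_self_pow₀ hX1 hf.ne'
    have h4 : (1 : ℝ) < x := by linarith
    exact_mod_cast h4
  have hy2 : 2 ≤ y := by
    have h1 := hu2 t ht2 1 h1b
    rw [← hX, e2, pow_one, mul_one] at h1
    have h2 := (abs_le.1 h1).1
    have h3 : X ≤ X ^ g.natDegree := le_self_pow₀ hX1 hg.ne'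
    have h4 : (1 : ℝ) < y := by linarith
    exact_mod_cast h4
  obtain ⟨k1, k2, k3⟩ := hb t ht2' t (by rw [abs_of_pos htp]) x y z p q r hs ⟨e1, e2, e3⟩
  have hmono : C₀ * Real.log t ^ κ ≤ C * Real.log t ^ κ := by
    apply mul_le_mul_of_nonneg_right (by linarith) (by positivity)
  have hp := (k1 hx2).trans hmono
  have hq := (k2 hy2).trans hmono
  have hr := k3.trans hmono
  have hxb := abs_le.1 (hu1 t ht1 p hp)
  have hyb := abs_le.1 (hu2 t ht2 q hq)
  have hzb := abs_le.1 (hu3 t ht3 r hr)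
  rw [← hX, e1] at hxb
  rw [← hX, e2] at hyb
  rw [← hX, e3] at hzb
  have heq : (x : ℝ) ^ p + (y : ℝ) ^ q = (z : ℝ) ^ r := by exact_mod_cast hs.2.2.2.2.2.2.2.2
  have hx0 : (0 : ℝ) < X ^ (f.natDegree * p) := by positivity
  have hy0 : (0 : ℝ) < X ^ (g.natDegree * q) := by positivity
  have hz0 : (0 : ℝ) < X ^ (h.natDegree * r) := by positivity
  have hcmp : ∀ i j : ℕ, i < j → 4 * X ^ i ≤ X ^ j := by
    intro i j hij
    calc 4 * X ^ i ≤ X * X ^ i := by gcongr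
      _ = X ^ (i + 1) := by ring
      _ ≤ X ^ j := pow_le_pow_right₀ hX1 hij
  have hcase : f.natDegree * p = h.natDegree * r ∨ g.natDegree * q = h.natDegree * r := by
    rcases lt_trichotomy (f.natDegree * p) (h.natDegree * r) with h1 | h1 | h1
    · rcases lt_trichotomy (g.natDegree * q) (h.natDegree * r) with h2 | h2 | h2
      · exfalso
        have := hcmp _ _ h1
        have := hcmp _ _ h2
        linarith
      · exact Or.inr h2
      · exfalso
        have := hcmp _ _ h2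
        linarith
    · exact Or.inl h1
    · exfalso
      have := hcmp _ _ h1
      linarith
  obtain ⟨g1, g2, g3⟩ := hs.two_le
  rcases hcase with h1 | h1
  · obtain ⟨b1, b2, b3⟩ := ha t ht4 x y z p q r hs.2.1 (by omega) (by omega) (by omega)
      hs.2.2.2.2.2.2.2.2 ⟨e1, e2, e3⟩ hp hq hr h1
    omega
  · obtain ⟨b1, b2, b3⟩ := hbb t ht5 y x z q p r hs.1 (by omega) (by omega) (by omega)
      (by rw [add_comm]; exact hs.2.2.2.2.2.2.2.2) ⟨e2, e1, e3⟩ hq hp hr h1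
    omega

end Pool.Agent.X47.FC
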