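import Mathlib

/-!
# A one-dimensional inequality for sumsets of down-sets
-/

set_option autoImplicit false

namespace Pool.Agent.X47.DS

open Finset

theorem poly_ineq {p q : ℝ} (hp : 0 ≤ p) (hq : 0 ≤ q) : 5 * p * q ^ 4 ≤ p ^ 5 + 4 * q ^ 5 := by
  have h : p ^ 5 + 4 * q ^ 5 - 5 * p * q ^ 4 =
      (p - q) ^ 2 * (p ^ 3 + 2 * p ^ 2 * q + 3 * p * q ^ 2 + 4 * q ^ 3) := by ring
  have h2 : 0 ≤ (p - q) ^ 2 * (p ^ 3 + 2 * p ^ 2 * q + 3 * p * q ^ 2 + 4 * q ^ 3) := by positivity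
  linarith

theorem y_ineq {y : ℝ} (hy : 0 ≤ y) : y ^ 8 ≤ 3 / 5 * (y ^ 5) ^ 2 + 2 / 5 * y ^ 5 := by
  have h : 3 / 5 * (y ^ 5) ^ 2 + 2 / 5 * y ^ 5 - y ^ 8 =
      y ^ 5 * ((y - 1) ^ 2 * (3 * y ^ 3 + 6 * y ^ 2 + 4 * y + 2)) / 5 := by ring
  have h2 : 0 ≤ y ^ 5 * ((y - 1) ^ 2 * (3 * y ^ 3 + 6 * y ^ 2 + 4 * y + 2)) / 5 := by positivity
  linarith

/-- the fifth root -/
noncomputable def rt (k : ℕ) : ℝ := (k : ℝ) ^ (1 / 5 : ℝ)

theorem rt_pow (k : ℕ) : rt k ^ 5 = k := by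
  unfold rt
  rw [← Real.rpow_natCast, ← Real.rpow_mul (by positivity)]
  norm_num

theorem rt_pos {k : ℕ} (hk : 0 < k) : 0 < rt k := by
  unfold rt
  positivity

theorem rt_nonneg (k : ℕ) : 0 ≤ rt k := by
  unfold rt
  positivity

theorem harm (x : ℕ → ℝ) (hx : ∀ i, x i ≤ 1) (n : ℕ) :
    ∑ i ∈ range (n + 1), x i / rt (i + 1) ≤ 5 / 4 * rt (n + 1) ^ 4 := by
  have key : ∀ n : ℕ, 1 / rt (n + 1) ≤ 5 / 4 * rt (n + 1) ^ 4 - 5 / 4 * rt n ^ 4 := by
    intro n
    have hp := rt_pos (Nat.succ_pos n)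
    have hq := rt_nonneg n
    have h1 := poly_ineq hp.le hq
    have h2 := rt_pow (n + 1)
    have h3 := rt_pow n
    push_cast at h2
    rw [Nat.succ_eq_add_one] at h1 hp
    rw [div_le_iff₀ hp]
    nlinarith
  induction n with
  | zero =>
    have h := key 0
    have h0 : rt 0 = 0 := by unfold rt; norm_num
    rw [h0] at h
    simp only [zero_add, range_one, sum_singleton]
    rw [zero_add] at h
    have h2 : x 0 / rt 1 ≤ 1 / rt 1 := by
      apply div_le_div_of_nonneg_right (hx 0) (rt_nonneg 1)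
    linarith
  | succ n ih =>
    rw [sum_range_succ]
    have h := key (n + 1)
    have h2 : x (n + 1) / rt (n + 1 + 1) ≤ 1 / rt (n + 1 + 1) :=
      div_le_div_of_nonneg_right (hx _) (rt_nonneg _)
    linarith

theorem five_fourths (x : ℕ → ℝ) (hx0 : ∀ i, 0 ≤ x i) (hx : ∀ i, x i ≤ 1) (n : ℕ) :
    ∃ s : ℝ, 0 ≤ s ∧ s ^ 4 = ∑ i ∈ range (n + 1), x i / rt (i + 1) ∧
      s ^ 5 ≤ 1 + 4 / 3 * ∑ i ∈ range n, x (i + 1) := by
  have hS : ∀ n : ℕ, 0 ≤ ∑ i ∈ range (n + 1), x i / rt (i + 1) := fun n =>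
    sum_nonneg fun i _ => div_nonneg (hx0 i) (rt_nonneg _)
  obtain ⟨s, hs⟩ : ∃ s : ℕ → ℝ, ∀ n, s n = (∑ i ∈ range (n + 1), x i / rt (i + 1)) ^ (1 / 4 : ℝ) :=
    ⟨_, fun _ => rfl⟩
  have hs0 : ∀ n, 0 ≤ s n := fun n => by
    rw [hs]; exact Real.rpow_nonneg (hS n) _
  have hs4 : ∀ n, s n ^ 4 = ∑ i ∈ range (n + 1), x i / rt (i + 1) := fun n => by
    rw [hs, ← Real.rpow_natCast, ← Real.rpow_mul (hS n)]
    norm_num
  refine ⟨s n, hs0 n, hs4 n, ?_⟩
  induction n with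
  | zero =>
    have h1 : s 0 ^ 4 ≤ 1 := by
      rw [hs4]
      have : rt 1 = 1 := by unfold rt; norm_num
      simp only [zero_add, range_one, sum_singleton, this, div_one]
      exact hx 0
    have h2 : s 0 ≤ 1 := by
      by_contra hlt
      push Not at hlt
      have := one_lt_pow₀ hlt (by norm_num : 4 ≠ 0)
      linarith
    have := pow_le_one₀ (n := 5) (hs0 0) h2
    simpa using this
  | succ n ih =>
    rw [sum_range_succ]
    obtain ⟨t, ht⟩ : ∃ t, t = rt (n + 1 + 1) := ⟨_, rfl⟩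
    have htp : 0 < t := by rw [ht]; exact rt_pos (Nat.succ_pos _)
    have h1 : s (n + 1) ^ 4 = s n ^ 4 + x (n + 1) / t := by
      rw [hs4, hs4, sum_range_succ, ht]
    have h2 : s (n + 1) ≤ 16 / 15 * t := by
      have h3 := harm x hx (n + 1)
      rw [← hs4, ← ht] at h3
      have h4 : s (n + 1) ^ 4 ≤ (16 / 15 * t) ^ 4 := by
        have h5 : 0 ≤ t ^ 4 := by positivity
        calc s (n + 1) ^ 4 ≤ 5 / 4 * t ^ 4 := h3
          _ ≤ (16 / 15) ^ 4 * t ^ 4 := by nlinarith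
          _ = (16 / 15 * t) ^ 4 := by ring
      exact le_of_pow_le_pow_left₀ (by norm_num) (by positivity) h4
    have h3 := poly_ineq (hs0 (n + 1)) (hs0 n)
    -- 5 p q^4 ≤ p^5 + 4 q^5, with q^4 = p^4 - x/t
    have h4 : s n ^ 4 = s (n + 1) ^ 4 - x (n + 1) / t := by linarith
    rw [h4] at h3
    have h5 : 5 * s (n + 1) * (x (n + 1) / t) ≤ 16 / 3 * x (n + 1) := by
      have h6 : 5 * s (n + 1) * (x (n + 1) / t) ≤ 5 * (16 / 15 * t) * (x (n + 1) / t) := by
        apply mul_le_mul_of_nonneg_right _ (div_nonneg (hx0 _) htp.le)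
        linarith
      have h7 : 5 * (16 / 15 * t) * (x (n + 1) / t) = 16 / 3 * x (n + 1) := by
        field_simp
        ring
      linarith
    have h6 : 4 * s (n + 1) ^ 5 ≤ 4 * s n ^ 5 + 16 / 3 * x (n + 1) := by nlinarith
    linarith

theorem merge (N : ℕ) : ∀ (n m : ℕ) (φ γ h : ℕ → ℝ), n + m = N → Antitone φ → Antitone γ →
    (∀ i, 0 ≤ φ i) → (∀ i, 0 ≤ γ i) → φ 0 = 1 → γ 0 = 1 →
    (∀ i ≤ n, ∀ j ≤ m, φ i * γ j ≤ h (i + j)) →
      ∑ i ∈ range n, φ (i + 1) ^ 2 + ∑ j ∈ range m, γ (j + 1) ^ 2 ≤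
        ∑ k ∈ range N, h (k + 1) := by
  have h1le : ∀ φ : ℕ → ℝ, Antitone φ → φ 0 = 1 → ∀ i, φ i ≤ 1 := fun φ ha h0 i => by
    rw [← h0]; exact ha (Nat.zero_le i)
  induction N with
  | zero =>
    intro n m φ γ h hnm _ _ _ _ _ _ _
    have hn : n = 0 := by omega
    have hm : m = 0 := by omega
    subst hn hm
    simp
  | succ N ih =>
    intro n m φ γ h hnm ha hb hφ hγ h0 g0 hh
    rw [sum_range_succ]
    rcases Nat.eq_zero_or_pos n with hn | hn
    · subst hn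
      have hm : m = N + 1 := by omega
      subst hm
      rw [← sum_range_succ]
      simp only [range_zero, sum_empty, zero_add]
      apply sum_le_sum
      intro k hk
      rw [mem_range] at hk
      have h2 := hh 0 le_rfl (k + 1) (by omega)
      rw [h0, one_mul, zero_add] at h2
      have h3 := h1le γ hb g0 (k + 1)
      have h4 := hγ (k + 1)
      nlinarith
    rcases Nat.eq_zero_or_pos m with hm | hm
    · subst hm
      have hn' : n = N + 1 := by omega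
      subst hn'
      rw [← sum_range_succ]
      simp only [range_zero, sum_empty, add_zero]
      apply sum_le_sum
      intro k hk
      rw [mem_range] at hk
      have h2 := hh (k + 1) (by omega) 0 le_rfl
      rw [g0, mul_one, add_zero] at h2
      have h3 := h1le φ ha h0 (k + 1)
      have h4 := hφ (k + 1)
      nlinarith
    have hlast := hh n le_rfl m le_rfl
    rw [hnm] at hlast
    rcases le_total (φ n) (γ m) with hle | hle
    · obtain ⟨n', rfl⟩ : ∃ n', n = n' + 1 := ⟨n - 1, by omega⟩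
      have h2 := ih n' m φ γ h (by omega) ha hb hφ hγ h0 g0
        (fun i hi j hj => hh i (by omega) j hj)
      rw [sum_range_succ]
      have h3 : φ (n' + 1) ^ 2 ≤ φ (n' + 1) * γ m := by
        rw [sq]; exact mul_le_mul_of_nonneg_left hle (hφ _)
      linarith
    · obtain ⟨m', rfl⟩ : ∃ m', m = m' + 1 := ⟨m - 1, by omega⟩
      have h2 := ih n m' φ γ h (by omega) ha hb hφ hγ h0 g0
        (fun i hi j hj => hh i hi j (by omega))
      rw [sum_range_succ (fun j => γ (j + 1) ^ 2)]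
      have h3 : γ (m' + 1) ^ 2 ≤ φ n * γ (m' + 1) := by
        rw [sq]; exact mul_le_mul_of_nonneg_right hle (hγ _)
      linarith

/-- The inequality for normalized sequences. -/
theorem normalized (n m : ℕ) (y z h : ℕ → ℝ) (hy : Antitone y) (hz : Antitone z)
    (y0 : ∀ i, 0 ≤ y i) (z0 : ∀ i, 0 ≤ z i) (hy1 : y 0 = 1) (hz1 : z 0 = 1)
    (hh : ∀ i ≤ n, ∀ j ≤ m, y i ^ 5 * z j ^ 5 ≤ h (i + j)) :
    (∑ i ∈ range (n + 1), y i ^ 8 / rt (i + 1)) ^ 5 *
      (∑ j ∈ range (m + 1), z j ^ 8 / rt (j + 1)) ^ 5 ≤ (∑ k ∈ range (n + m + 1), h k) ^ 8 := by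
  have yle : ∀ i, y i ≤ 1 := fun i => by rw [← hy1]; exact hy (Nat.zero_le i)
  have zle : ∀ i, z i ≤ 1 := fun i => by rw [← hz1]; exact hz (Nat.zero_le i)
  obtain ⟨s, hs0, hs4, hs5⟩ := five_fourths (fun i => y i ^ 8) (fun i => by have := y0 i; positivity)
    (fun i => pow_le_one₀ (y0 i) (yle i)) n
  obtain ⟨r, hr0, hr4, hr5⟩ := five_fourths (fun i => z i ^ 8) (fun i => by have := z0 i; positivity)
    (fun i => pow_le_one₀ (z0 i) (zle i)) m
  rw [← hs4, ← hr4]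
  have hφa : Antitone fun i => y i ^ 5 := fun i j hij => pow_le_pow_left₀ (y0 j) (hy hij) 5
  have hγa : Antitone fun i => z i ^ 5 := fun i j hij => pow_le_pow_left₀ (z0 j) (hz hij) 5
  have hm := merge (n + m) n m (fun i => y i ^ 5) (fun i => z i ^ 5) h rfl hφa hγa
    (fun i => by have := y0 i; positivity) (fun i => by have := z0 i; positivity)
    (by simp [hy1]) (by simp [hz1]) hh
  have hh0 : ∀ k, k ≤ n + m → 0 ≤ h k := by
    intro k hk
    rcases le_total k n with h1 | h1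
    · have h2 := hh k h1 0 (Nat.zero_le _)
      rw [add_zero] at h2
      have h3 := y0 k
      have h4 := z0 0
      exact le_trans (by positivity) h2
    · have h2 := hh n le_rfl (k - n) (by omega)
      rw [show n + (k - n) = k by omega] at h2
      have h3 := y0 n
      have h4 := z0 (k - n)
      exact le_trans (by positivity) h2
  have hL1 : ∑ i ∈ range n, y (i + 1) ^ 5 ≤ ∑ k ∈ range (n + m), h (k + 1) := by
    calc ∑ i ∈ range n, y (i + 1) ^ 5 ≤ ∑ i ∈ range n, h (i + 1) := by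
          apply sum_le_sum
          intro i hi
          rw [mem_range] at hi
          have h2 := hh (i + 1) (by omega) 0 (Nat.zero_le _)
          rw [hz1, one_pow, mul_one, add_zero] at h2
          exact h2
      _ ≤ ∑ k ∈ range (n + m), h (k + 1) := by
          apply sum_le_sum_of_subset_of_nonneg
          · intro i hi; rw [mem_range] at hi ⊢; omega
          · intro i hi _; rw [mem_range] at hi; exact hh0 _ (by omega)
  have hL2 : ∑ j ∈ range m, z (j + 1) ^ 5 ≤ ∑ k ∈ range (n + m), h (k + 1) := by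
    calc ∑ j ∈ range m, z (j + 1) ^ 5 ≤ ∑ j ∈ range m, h (j + 1) := by
          apply sum_le_sum
          intro i hi
          rw [mem_range] at hi
          have h2 := hh 0 (Nat.zero_le _) (i + 1) (by omega)
          rw [hy1, one_pow, one_mul, zero_add] at h2
          exact h2
      _ ≤ ∑ k ∈ range (n + m), h (k + 1) := by
          apply sum_le_sum_of_subset_of_nonneg
          · intro i hi; rw [mem_range] at hi ⊢; omega
          · intro i hi _; rw [mem_range] at hi; exact hh0 _ (by omega)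
  have hY : ∑ i ∈ range n, y (i + 1) ^ 8 ≤ 3 / 5 * ∑ i ∈ range n, (y (i + 1) ^ 5) ^ 2 +
      2 / 5 * ∑ i ∈ range n, y (i + 1) ^ 5 := by
    rw [mul_sum, mul_sum, ← sum_add_distrib]
    exact sum_le_sum fun i _ => y_ineq (y0 _)
  have hZ : ∑ i ∈ range m, z (i + 1) ^ 8 ≤ 3 / 5 * ∑ i ∈ range m, (z (i + 1) ^ 5) ^ 2 +
      2 / 5 * ∑ i ∈ range m, z (i + 1) ^ 5 := by
    rw [mul_sum, mul_sum, ← sum_add_distrib]
    exact sum_le_sum fun i _ => y_ineq (z0 _)
  have hQ1 : 0 ≤ ∑ i ∈ range n, (y (i + 1) ^ 5) ^ 2 := sum_nonneg fun i _ => by positivity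
  have hQ2 : 0 ≤ ∑ i ∈ range m, (z (i + 1) ^ 5) ^ 2 := sum_nonneg fun i _ => by positivity
  have h0 : 1 ≤ h 0 := by
    have h2 := hh 0 (Nat.zero_le _) 0 (Nat.zero_le _)
    simpa [hy1, hz1] using h2
  have hsum : ∑ k ∈ range (n + m + 1), h k = ∑ k ∈ range (n + m), h (k + 1) + h 0 :=
    sum_range_succ' _ _
  have hfin : (s ^ 5 + r ^ 5) / 2 ≤ ∑ k ∈ range (n + m + 1), h k := by
    rw [hsum]
    linarith
  have hprod : s ^ 5 * r ^ 5 ≤ ((s ^ 5 + r ^ 5) / 2) ^ 2 := by nlinarith [sq_nonneg (s ^ 5 - r ^ 5)]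
  calc (s ^ 4) ^ 5 * (r ^ 4) ^ 5 = (s ^ 5 * r ^ 5) ^ 4 := by ring
    _ ≤ (((s ^ 5 + r ^ 5) / 2) ^ 2) ^ 4 := pow_le_pow_left₀ (by positivity) hprod 4
    _ = ((s ^ 5 + r ^ 5) / 2) ^ 8 := by ring
    _ ≤ (∑ k ∈ range (n + m + 1), h k) ^ 8 := pow_le_pow_left₀ (by positivity) hfin 8

/-- monotone envelope -/
noncomputable def env (w : ℕ → ℝ) (n i : ℕ) : ℝ :=
  (range (n + 1)).sup' ⟨0, by simp⟩ (fun k => if i ≤ k then w k else 0)

theorem env_nonneg {w : ℕ → ℝ} (hw : ∀ k, 0 ≤ w k) (n i : ℕ) : 0 ≤ env w n i := by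
  unfold env
  have h : (if i ≤ 0 then w 0 else 0) ≤ (range (n + 1)).sup' ⟨0, by simp⟩
      (fun k => if i ≤ k then w k else 0) :=
    le_sup' (fun k => if i ≤ k then w k else 0) (by simp : 0 ∈ range (n + 1))
  refine le_trans ?_ h
  split_ifs
  · exact hw 0
  · exact le_rfl

theorem env_anti {w : ℕ → ℝ} (hw : ∀ k, 0 ≤ w k) (n : ℕ) : Antitone (env w n) := by
  intro i j hij
  unfold env
  apply sup'_le
  intro k hk
  refine le_trans ?_ (le_sup' (fun k => if i ≤ k then w k else 0) hk)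
  split_ifs with h1 h2
  · exact le_rfl
  · omega
  · exact hw k
  · exact le_rfl

theorem le_env {w : ℕ → ℝ} {n i : ℕ} (hi : i ≤ n) : w i ≤ env w n i := by
  unfold env
  have h := le_sup' (fun k => if i ≤ k then w k else 0) (by simp; omega : i ∈ range (n + 1))
  simp only [le_refl, if_true] at h
  exact h

theorem env_attained (w : ℕ → ℝ) (n i : ℕ) :
    env w n i = 0 ∨ ∃ k ≤ n, i ≤ k ∧ env w n i = w k := by
  unfold env
  obtain ⟨k, hk, h⟩ := exists_mem_eq_sup' (⟨0, by simp⟩ : (range (n + 1)).Nonempty)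
    (fun k => if i ≤ k then w k else 0)
  rw [mem_range] at hk
  rw [h]
  split_ifs with h1
  · exact Or.inr ⟨k, by omega, h1, rfl⟩
  · exact Or.inl rfl

/-- **The one-dimensional inequality.** -/
theorem one_dim (n m : ℕ) (a b H : ℕ → ℝ) (ha : ∀ i, 0 ≤ a i) (hb : ∀ i, 0 ≤ b i)
    (hH : Antitone H) (hH0 : ∀ k, 0 ≤ H k)
    (h : ∀ i ≤ n, ∀ j ≤ m, (a i * b j) ^ 5 * ((i + 1) * (j + 1)) ≤ H (i + j) ^ 8) :
    ((∑ i ∈ range (n + 1), a i) * ∑ j ∈ range (m + 1), b j) ^ 5 ≤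
      (∑ k ∈ range (n + m + 1), H k) ^ 8 := by
  obtain ⟨w, hw⟩ : ∃ w : ℕ → ℝ, ∀ i, w i = (a i ^ 5 * (i + 1)) ^ (1 / 40 : ℝ) := ⟨_, fun _ => rfl⟩
  obtain ⟨w', hw'⟩ : ∃ w : ℕ → ℝ, ∀ i, w i = (b i ^ 5 * (i + 1)) ^ (1 / 40 : ℝ) := ⟨_, fun _ => rfl⟩
  have hwp : ∀ i, w i ^ 40 = a i ^ 5 * (i + 1) := fun i => by
    have := ha i
    rw [hw, ← Real.rpow_natCast, ← Real.rpow_mul (by positivity)]
    norm_num
  have hwp' : ∀ i, w' i ^ 40 = b i ^ 5 * (i + 1) := fun i => by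
    have := hb i
    rw [hw', ← Real.rpow_natCast, ← Real.rpow_mul (by positivity)]
    norm_num
  have hw0 : ∀ i, 0 ≤ w i := fun i => by
    have := ha i
    rw [hw]; exact Real.rpow_nonneg (by positivity) _
  have hw0' : ∀ i, 0 ≤ w' i := fun i => by
    have := hb i
    rw [hw']; exact Real.rpow_nonneg (by positivity) _
  have hbnd : ∀ (c v : ℕ → ℝ) (n : ℕ), (∀ i, 0 ≤ c i) → (∀ i, 0 ≤ v i) →
      (∀ i, v i ^ 40 = c i ^ 5 * (i + 1)) → ∀ i ≤ n, c i ≤ env v n i ^ 8 / rt (i + 1) := by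
    intro c v n hc hv hvp i hi
    have h1 : v i ≤ env v n i := le_env hi
    have h2 : (c i * rt (i + 1)) ^ 5 ≤ (env v n i ^ 8) ^ 5 := by
      have h3 : (c i * rt (i + 1)) ^ 5 = v i ^ 40 := by
        rw [mul_pow, rt_pow, hvp]; push_cast; ring
      rw [h3, ← pow_mul]
      exact pow_le_pow_left₀ (hv i) h1 40
    have h3 : c i * rt (i + 1) ≤ env v n i ^ 8 := by
      apply le_of_pow_le_pow_left₀ (by norm_num : 5 ≠ 0) _ h2
      have := env_nonneg hv n i
      positivity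
    rw [le_div_iff₀ (rt_pos (Nat.succ_pos i))]
    exact h3
  have hsumH0 : 0 ≤ ∑ k ∈ range (n + m + 1), H k := sum_nonneg fun k _ => hH0 k
  -- trivial cases
  rcases eq_or_lt_of_le (env_nonneg hw0 n 0) with hE | hE
  · have hz : ∀ i ∈ range (n + 1), a i = 0 := by
      intro i hi
      rw [mem_range] at hi
      have h1 := hbnd a w n ha hw0 hwp i (by omega)
      have h2 : env w n i ≤ 0 := by rw [hE]; exact env_anti hw0 n (Nat.zero_le i)
      have h3 : env w n i = 0 := le_antisymm h2 (env_nonneg hw0 n i)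
      rw [h3] at h1
      have h4 := ha i
      norm_num at h1
      linarith
    rw [sum_eq_zero hz, zero_mul, zero_pow (by norm_num)]
    exact pow_nonneg hsumH0 8
  rcases eq_or_lt_of_le (env_nonneg hw0' m 0) with hE' | hE'
  · have hz : ∀ i ∈ range (m + 1), b i = 0 := by
      intro i hi
      rw [mem_range] at hi
      have h1 := hbnd b w' m hb hw0' hwp' i (by omega)
      have h2 : env w' m i ≤ 0 := by rw [hE']; exact env_anti hw0' m (Nat.zero_le i)
      have h3 : env w' m i = 0 := le_antisymm h2 (env_nonneg hw0' m i)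
      rw [h3] at h1
      have h4 := hb i
      norm_num at h1
      linarith
    rw [sum_eq_zero hz, mul_zero, zero_pow (by norm_num)]
    exact pow_nonneg hsumH0 8
  obtain ⟨E, hEd⟩ : ∃ E, E = env w n 0 := ⟨_, rfl⟩
  obtain ⟨E', hEd'⟩ : ∃ E', E' = env w' m 0 := ⟨_, rfl⟩
  rw [← hEd] at hE
  rw [← hEd'] at hE'
  have hprod : ∀ i ≤ n, ∀ j ≤ m, env w n i ^ 5 * env w' m j ^ 5 ≤ H (i + j) := by
    intro i _ j _
    rcases env_attained w n i with h1 | ⟨k, hk, hik, h1⟩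
    · rw [h1]; simpa using hH0 _
    rcases env_attained w' m j with h2 | ⟨l, hl, hjl, h2⟩
    · rw [h2]; simpa using hH0 _
    rw [h1, h2]
    refine le_trans ?_ (hH (by omega : i + j ≤ k + l))
    have h3 := h k hk l hl
    have h4 : (w k ^ 5 * w' l ^ 5) ^ 8 ≤ H (k + l) ^ 8 := by
      have : (w k ^ 5 * w' l ^ 5) ^ 8 = w k ^ 40 * w' l ^ 40 := by ring
      rw [this, hwp, hwp']
      calc _ = (a k * b l) ^ 5 * (((k : ℝ) + 1) * ((l : ℝ) + 1)) := by ring
        _ ≤ _ := h3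
    exact le_of_pow_le_pow_left₀ (by norm_num) (hH0 _) h4
  have hnorm := normalized n m (fun i => env w n i / E) (fun j => env w' m j / E')
    (fun k => H k / (E ^ 5 * E' ^ 5))
    (fun i j hij => div_le_div_of_nonneg_right (env_anti hw0 n hij) hE.le)
    (fun i j hij => div_le_div_of_nonneg_right (env_anti hw0' m hij) hE'.le)
    (fun i => div_nonneg (env_nonneg hw0 n i) hE.le)
    (fun i => div_nonneg (env_nonneg hw0' m i) hE'.le)
    (by rw [← hEd]; exact div_self hE.ne') (by rw [← hEd']; exact div_self hE'.ne')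
    (by
      intro i hi j hj
      rw [div_pow, div_pow, div_mul_div_comm]
      exact div_le_div_of_nonneg_right (hprod i hi j hj) (by positivity))
  have e1 : ∑ i ∈ range (n + 1), (env w n i / E) ^ 8 / rt (i + 1) =
      (∑ i ∈ range (n + 1), env w n i ^ 8 / rt (i + 1)) / E ^ 8 := by
    rw [sum_div]
    apply sum_congr rfl
    intro i _
    rw [div_pow]; field_simp
  have e2 : ∑ i ∈ range (m + 1), (env w' m i / E') ^ 8 / rt (i + 1) =
      (∑ i ∈ range (m + 1), env w' m i ^ 8 / rt (i + 1)) / E' ^ 8 := by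
    rw [sum_div]
    apply sum_congr rfl
    intro i _
    rw [div_pow]; field_simp
  rw [e1, e2, ← sum_div, div_pow, div_pow, div_pow, div_mul_div_comm] at hnorm
  have hden : (E ^ 8) ^ 5 * (E' ^ 8) ^ 5 = (E ^ 5 * E' ^ 5) ^ 8 := by ring
  rw [hden, div_le_div_iff_of_pos_right (by positivity)] at hnorm
  refine le_trans ?_ hnorm
  rw [mul_pow]
  have s1 : ∑ i ∈ range (n + 1), a i ≤ ∑ i ∈ range (n + 1), env w n i ^ 8 / rt (i + 1) :=
    sum_le_sum fun i hi => hbnd a w n ha hw0 hwp i (by rw [mem_range] at hi; omega)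
  have s2 : ∑ i ∈ range (m + 1), b i ≤ ∑ i ∈ range (m + 1), env w' m i ^ 8 / rt (i + 1) :=
    sum_le_sum fun i hi => hbnd b w' m hb hw0' hwp' i (by rw [mem_range] at hi; omega)
  have s3 : 0 ≤ ∑ i ∈ range (n + 1), a i := sum_nonneg fun i _ => ha i
  have s4 : 0 ≤ ∑ i ∈ range (m + 1), b i := sum_nonneg fun i _ => hb i
  exact mul_le_mul (pow_le_pow_left₀ s3 s1 5) (pow_le_pow_left₀ s4 s2 5) (by positivity)
    (pow_nonneg (s3.trans s1) 5)

end Pool.Agent.X47.DS
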