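import Mathlib
import Pool.Agent.X47.DS1

/-!
# Sumsets of down-sets: the inequality in all dimensions
-/

set_option autoImplicit false

namespace Pool.Agent.X47.DS

open Finset Pointwise

/-- a down-set of `ℕ ^ d` -/
def IsDown {d : ℕ} (A : Finset (Fin d → ℕ)) : Prop := ∀ x ∈ A, ∀ y, y ≤ x → y ∈ A

/-- the number of elements of the box `[0, x]` -/
def vol {d : ℕ} (x : Fin d → ℕ) : ℕ := ∏ i, (x i + 1)

/-- the size of the largest box contained in the down-set `A` -/
def V {d : ℕ} (A : Finset (Fin d → ℕ)) : ℕ := A.sup vol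

theorem vol_pos {d : ℕ} (x : Fin d → ℕ) : 0 < vol x := prod_pos fun i _ => Nat.succ_pos _

theorem IsDown.add {d : ℕ} {A B : Finset (Fin d → ℕ)} (hA : IsDown A) (hB : IsDown B) :
    IsDown (A + B) := by
  intro s hs z hz
  obtain ⟨x, hx, y, hy, rfl⟩ := mem_add.1 hs
  refine mem_add.2 ⟨fun i => min (x i) (z i), hA x hx _ (fun i => min_le_left _ _),
    fun i => z i - min (x i) (z i), hB y hy _ (fun i => ?_), ?_⟩
  · have h := hz i
    simp only [Pi.add_apply] at h
    show z i - min (x i) (z i) ≤ y i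
    omega
  · funext i
    show min (x i) (z i) + (z i - min (x i) (z i)) = z i
    omega

/-- slices -/
def sl {d : ℕ} (A : Finset (Fin (d + 1) → ℕ)) (k : ℕ) : Finset (Fin d → ℕ) :=
  (A.filter (fun x => x 0 = k)).image Fin.tail

theorem mem_sl {d : ℕ} {A : Finset (Fin (d + 1) → ℕ)} {k : ℕ} {y : Fin d → ℕ} :
    y ∈ sl A k ↔ (Fin.cons k y : Fin (d + 1) → ℕ) ∈ A := by
  unfold sl
  rw [mem_image]
  constructor
  · rintro ⟨x, hx, rfl⟩
    rw [mem_filter] at hx
    obtain ⟨h1, rfl⟩ := hx
    rw [Fin.cons_self_tail]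
    exact h1
  · intro h
    exact ⟨Fin.cons k y, mem_filter.2 ⟨h, by simp⟩, by simp⟩

theorem card_sl {d : ℕ} (A : Finset (Fin (d + 1) → ℕ)) (k : ℕ) :
    (sl A k).card = (A.filter (fun x => x 0 = k)).card := by
  unfold sl
  apply card_image_of_injOn
  intro x hx y hy hxy
  have h1 := (mem_filter.1 hx).2
  have h2 := (mem_filter.1 hy).2
  rw [← Fin.cons_self_tail x, ← Fin.cons_self_tail y, hxy, h1, h2]

theorem card_eq {d : ℕ} (A : Finset (Fin (d + 1) → ℕ)) (n : ℕ) (h : ∀ x ∈ A, x 0 ≤ n) :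
    A.card = ∑ k ∈ range (n + 1), (sl A k).card := by
  rw [card_eq_sum_card_fiberwise (f := fun x => x 0) (t := range (n + 1))]
  · exact sum_congr rfl fun k _ => (card_sl A k).symm
  · intro x hx
    have := h x hx
    simp only [coe_range, Set.mem_Iio]
    omega

theorem sl_down {d : ℕ} {A : Finset (Fin (d + 1) → ℕ)} (hA : IsDown A) (k : ℕ) :
    IsDown (sl A k) := by
  intro x hx y hy
  rw [mem_sl] at hx ⊢
  refine hA _ hx _ fun i => ?_
  refine Fin.cases ?_ (fun i => ?_) i
  · simp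
  · simpa using hy i

theorem sl_anti {d : ℕ} {A : Finset (Fin (d + 1) → ℕ)} (hA : IsDown A) {k l : ℕ} (h : k ≤ l) :
    sl A l ⊆ sl A k := by
  intro x hx
  rw [mem_sl] at hx ⊢
  refine hA _ hx _ fun i => ?_
  refine Fin.cases ?_ (fun i => ?_) i
  · simpa using h
  · simp

theorem sl_add {d : ℕ} (A B : Finset (Fin (d + 1) → ℕ)) (i j : ℕ) :
    sl A i + sl B j ⊆ sl (A + B) (i + j) := by
  intro s hs
  obtain ⟨x, hx, y, hy, rfl⟩ := mem_add.1 hs
  rw [mem_sl] at hx hy ⊢
  refine mem_add.2 ⟨_, hx, _, hy, ?_⟩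
  funext k
  refine Fin.cases ?_ (fun k => ?_) k
  · simp
  · simp

theorem vol_cons {d : ℕ} (k : ℕ) (y : Fin d → ℕ) :
    vol (Fin.cons k y : Fin (d + 1) → ℕ) = (k + 1) * vol y := by
  unfold vol
  rw [Fin.prod_univ_succ]
  simp

theorem V_sl {d : ℕ} (A : Finset (Fin (d + 1) → ℕ)) (k : ℕ) : (k + 1) * V (sl A k) ≤ V A := by
  rcases (sl A k).eq_empty_or_nonempty with h | h
  · rw [h]; simp [V]
  · obtain ⟨y, hy, hyV⟩ := exists_mem_eq_sup (sl A k) h vol
    have h1 : V (sl A k) = vol y := hyV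
    rw [h1, ← vol_cons]
    exact le_sup (f := vol) (mem_sl.1 hy)

theorem V_pos {d : ℕ} {A : Finset (Fin d → ℕ)} (hA : A.Nonempty) : 0 < V A := by
  obtain ⟨x, hx⟩ := hA
  exact (vol_pos x).trans_le (le_sup (f := vol) hx)

/-- **The inequality for sumsets of down-sets.** -/
theorem main_ineq (d : ℕ) : ∀ A B : Finset (Fin d → ℕ), IsDown A → IsDown B →
    (A.card * B.card) ^ 5 ≤ (A + B).card ^ 8 * (V A * V B) := by
  induction d with
  | zero =>
    intro A B _ _
    rcases A.eq_empty_or_nonempty with rfl | hA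
    · simp
    rcases B.eq_empty_or_nonempty with rfl | hB
    · simp
    have h1 : A.card = 1 := le_antisymm (card_le_one_of_subsingleton A) (card_pos.2 hA)
    have h2 : B.card = 1 := le_antisymm (card_le_one_of_subsingleton B) (card_pos.2 hB)
    have h3 : 1 ≤ (A + B).card := card_pos.2 (hA.add hB)
    rw [h1, h2]
    have h4 := V_pos hA
    have h5 := V_pos hB
    calc (1 * 1) ^ 5 = 1 := by norm_num
      _ ≤ (A + B).card ^ 8 * (V A * V B) :=
        Nat.mul_pos (Nat.pow_pos h3) (Nat.mul_pos h4 h5)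
  | succ d ih =>
    intro A B hA hB
    rcases A.eq_empty_or_nonempty with rfl | hAn
    · simp
    rcases B.eq_empty_or_nonempty with rfl | hBn
    · simp
    obtain ⟨n, hn⟩ : ∃ n, n = A.sup (fun x => x 0) := ⟨_, rfl⟩
    obtain ⟨m, hm⟩ : ∃ m, m = B.sup (fun x => x 0) := ⟨_, rfl⟩
    have hnA : ∀ x ∈ A, x 0 ≤ n := fun x hx => by rw [hn]; exact le_sup (f := fun x => x 0) hx
    have hmB : ∀ x ∈ B, x 0 ≤ m := fun x hx => by rw [hm]; exact le_sup (f := fun x => x 0) hx
    have hVA := V_pos hAn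
    have hVB := V_pos hBn
    have cA := card_eq A n hnA
    have cB := card_eq B m hmB
    have cAB := card_eq (A + B) (n + m) (by
      intro s hs
      obtain ⟨x, hx, y, hy, rfl⟩ := mem_add.1 hs
      have := hnA x hx
      have := hmB y hy
      simp only [Pi.add_apply]
      omega)
    have hdown := hA.add hB
    have key : ∀ i j : ℕ, ((sl A i).card * (sl B j).card) ^ 5 * ((i + 1) * (j + 1)) ≤
        (sl (A + B) (i + j)).card ^ 8 * (V A * V B) := by
      intro i j
      have h1 := ih (sl A i) (sl B j) (sl_down hA i) (sl_down hB j)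
      have h2 : (sl A i + sl B j).card ≤ (sl (A + B) (i + j)).card := card_le_card (sl_add A B i j)
      have h3 := V_sl A i
      have h4 := V_sl B j
      calc ((sl A i).card * (sl B j).card) ^ 5 * ((i + 1) * (j + 1))
          ≤ ((sl A i + sl B j).card ^ 8 * (V (sl A i) * V (sl B j))) * ((i + 1) * (j + 1)) :=
            Nat.mul_le_mul_right _ h1
        _ = (sl A i + sl B j).card ^ 8 * (((i + 1) * V (sl A i)) * ((j + 1) * V (sl B j))) := by
            ring
        _ ≤ (sl (A + B) (i + j)).card ^ 8 * (V A * V B) := by gcongr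
    have hod := one_dim n m (fun i => ((sl A i).card : ℝ) / rt (V A))
      (fun j => ((sl B j).card : ℝ) / rt (V B)) (fun k => ((sl (A + B) k).card : ℝ))
      (fun i => div_nonneg (by positivity) (rt_nonneg _))
      (fun i => div_nonneg (by positivity) (rt_nonneg _))
      (fun k l hkl => by
        show ((sl (A + B) l).card : ℝ) ≤ ((sl (A + B) k).card : ℝ)
        exact_mod_cast card_le_card (sl_anti hdown hkl))
      (fun k => by positivity)
      (by
        intro i _ j _
        have h1 : (((sl A i).card : ℝ) / rt (V A) * (((sl B j).card : ℝ) / rt (V B))) ^ 5 *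
            (((i : ℝ) + 1) * ((j : ℝ) + 1)) =
            (((sl A i).card * (sl B j).card : ℕ) : ℝ) ^ 5 * (((i : ℝ) + 1) * ((j : ℝ) + 1)) /
              ((V A : ℝ) * (V B : ℝ)) := by
          rw [div_mul_div_comm, div_pow, mul_pow (rt (V A)), rt_pow, rt_pow]
          push_cast
          ring
        rw [h1, div_le_iff₀ (by positivity)]
        exact_mod_cast key i j)
    rw [← sum_div, ← sum_div] at hod
    have e1 : (∑ i ∈ range (n + 1), ((sl A i).card : ℝ)) = (A.card : ℝ) := by
      rw [cA]; push_cast; rfl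
    have e2 : (∑ i ∈ range (m + 1), ((sl B i).card : ℝ)) = (B.card : ℝ) := by
      rw [cB]; push_cast; rfl
    have e3 : (∑ i ∈ range (n + m + 1), ((sl (A + B) i).card : ℝ)) = ((A + B).card : ℝ) := by
      rw [cAB]; push_cast; rfl
    rw [e1, e2, e3, div_mul_div_comm, div_pow, mul_pow (rt (V A)), rt_pow, rt_pow,
      div_le_iff₀ (by positivity)] at hod
    exact_mod_cast hod

end Pool.Agent.X47.DS
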