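import Mathlib
import Pool.Agent.X47.DS2

/-!
# The polynomial Freiman-Ruzsa theorem for down-sets
-/

set_option autoImplicit false

namespace Pool.Agent.X47.DS

open Finset Pointwise

/-- A down-set with doubling `K` contains a large box with few nontrivial sides. -/
theorem big_box {d : ℕ} (D : Finset (Fin d → ℕ)) (hD : IsDown D) (hne : D.Nonempty) (K : ℝ)
    (hK : ((D + D).card : ℝ) ≤ K * D.card) :
    ∃ x ∈ D, (D.card : ℝ) ≤ K ^ 4 * vol x ∧
      (3 / 2 : ℝ) ^ (univ.filter (fun i => x i ≠ 0)).card ≤ K ^ 5 := by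
  obtain ⟨x, hx, hxV⟩ := exists_mem_eq_sup D hne vol
  have hV : V D = vol x := hxV
  have hc : (0 : ℝ) < D.card := by exact_mod_cast card_pos.2 hne
  have hDD : D.card ≤ (D + D).card := card_le_card_add_right hne
  have hK1 : 1 ≤ K := by
    by_contra hlt
    have h1 : (D.card : ℝ) ≤ K * D.card := le_trans (by exact_mod_cast hDD) hK
    nlinarith
  have hK0 : 0 < K := by linarith
  have hvp : (0 : ℝ) < vol x := by exact_mod_cast vol_pos x
  have h1 : ((D.card : ℝ) * D.card) ^ 5 ≤ (D + D).card ^ 8 * ((vol x : ℝ) * vol x) := by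
    have := main_ineq d D D hD hD
    rw [hV] at this
    exact_mod_cast this
  have h2 : (D.card : ℝ) ≤ K ^ 4 * vol x := by
    have h3 : ((D.card : ℝ) * D.card) ^ 5 ≤ (K * D.card) ^ 8 * ((vol x : ℝ) * vol x) := by
      refine h1.trans ?_
      gcongr
    have h4 : (D.card : ℝ) ^ 8 * (D.card : ℝ) ^ 2 ≤ (D.card : ℝ) ^ 8 * (K ^ 4 * vol x) ^ 2 := by
      calc (D.card : ℝ) ^ 8 * (D.card : ℝ) ^ 2 = ((D.card : ℝ) * D.card) ^ 5 := by ring
        _ ≤ _ := h3
        _ = _ := by ring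
    have h5 := le_of_mul_le_mul_left h4 (by positivity)
    exact le_of_pow_le_pow_left₀ (by norm_num) (by positivity) h5
  refine ⟨x, hx, h2, ?_⟩
  -- the box `[0, 2 x]` is contained in `D + D`
  have hsub : Finset.Icc (0 : Fin d → ℕ) (fun i => 2 * x i) ⊆ D + D := by
    intro z hz
    rw [Finset.mem_Icc] at hz
    refine mem_add.2 ⟨fun i => min (x i) (z i), hD x hx _ (fun i => min_le_left _ _),
      fun i => z i - min (x i) (z i), hD x hx _ (fun i => ?_), ?_⟩
    · have h := hz.2 i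
      show z i - min (x i) (z i) ≤ x i
      simp only at h
      omega
    · funext i
      show min (x i) (z i) + (z i - min (x i) (z i)) = z i
      omega
  have hcard : (Finset.Icc (0 : Fin d → ℕ) (fun i => 2 * x i)).card = ∏ i, (2 * x i + 1) := by
    rw [Pi.card_Icc]
    apply prod_congr rfl
    intro i _
    simp
  have h6 : ((∏ i, (2 * x i + 1) : ℕ) : ℝ) ≤ K ^ 5 * vol x := by
    rw [← hcard]
    calc ((Finset.Icc (0 : Fin d → ℕ) (fun i => 2 * x i)).card : ℝ) ≤ ((D + D).card : ℝ) := by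
          exact_mod_cast card_le_card hsub
      _ ≤ K * D.card := hK
      _ ≤ K * (K ^ 4 * vol x) := by gcongr
      _ = _ := by ring
  have h7 : (3 / 2 : ℝ) ^ (univ.filter (fun i => x i ≠ 0)).card * vol x ≤
      ((∏ i, (2 * x i + 1) : ℕ) : ℝ) := by
    have h8 : (3 / 2 : ℝ) ^ (univ.filter (fun i => x i ≠ 0)).card =
        ∏ i, (if x i ≠ 0 then (3 / 2 : ℝ) else 1) := by
      rw [prod_ite, prod_const, prod_const_one, mul_one]
    rw [h8]
    unfold vol
    push_cast
    rw [← prod_mul_distrib]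
    apply prod_le_prod
    · intro i _
      split_ifs <;> positivity
    · intro i _
      split_ifs with h
      · have h9 : (1 : ℝ) ≤ x i := by exact_mod_cast Nat.one_le_iff_ne_zero.2 h
        linarith
      · have : (0 : ℝ) ≤ x i := by positivity
        linarith
  exact le_of_mul_le_mul_right (h7.trans h6) hvp

/-- the integer vector of a vector of natural numbers -/
def cst {d : ℕ} (x : Fin d → ℕ) : Fin d → ℤ := fun i => (x i : ℤ)

theorem cst_inj {d : ℕ} : Function.Injective (cst (d := d)) := by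
  intro x y h
  funext i
  have := congrFun h i
  simp only [cst] at this
  exact_mod_cast this

theorem cst_add {d : ℕ} (x y : Fin d → ℕ) : cst (x + y) = cst x + cst y := by
  funext i
  simp [cst]

theorem image_cst_add {d : ℕ} (D E : Finset (Fin d → ℕ)) :
    (D + E).image cst = D.image cst + E.image cst := by
  ext z
  simp only [mem_image, mem_add]
  constructor
  · rintro ⟨_, ⟨x, hx, y, hy, rfl⟩, rfl⟩
    exact ⟨_, ⟨x, hx, rfl⟩, _, ⟨y, hy, rfl⟩, (cst_add x y).symm⟩
  · rintro ⟨_, ⟨x, hx, rfl⟩, _, ⟨y, hy, rfl⟩, rfl⟩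
    exact ⟨_, ⟨x, hx, y, hy, rfl⟩, cst_add x y⟩

/-- Covering of a down-set by few translates of the difference box. -/
theorem cover_box {d : ℕ} (D : Finset (Fin d → ℕ)) (hD : IsDown D) (hne : D.Nonempty) (K : ℝ)
    (hK : ((D + D).card : ℝ) ≤ K * D.card) :
    ∃ x ∈ D, (D.card : ℝ) ≤ K ^ 4 * vol x ∧
      (3 / 2 : ℝ) ^ (univ.filter (fun i => x i ≠ 0)).card ≤ K ^ 5 ∧
      ∃ F : Finset (Fin d → ℤ), (F.card : ℝ) ≤ K ^ 5 ∧
        ∀ y ∈ D, ∃ f ∈ F, ∀ i, |cst y i - f i| ≤ x i := by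
  obtain ⟨x, hx, h1, h2⟩ := big_box D hD hne K hK
  refine ⟨x, hx, h1, h2, ?_⟩
  obtain ⟨P, hP⟩ : ∃ P : Finset (Fin d → ℕ), P = Finset.Icc 0 x := ⟨_, rfl⟩
  have hPc : P.card = vol x := by
    rw [hP, Pi.card_Icc]
    unfold vol
    apply prod_congr rfl
    intro i _
    simp
  have hPD : P ⊆ D := by
    intro y hy
    rw [hP, Finset.mem_Icc] at hy
    exact hD x hx y hy.2
  have hPne : P.Nonempty := card_pos.1 (by rw [hPc]; exact vol_pos x)
  have hc : (0 : ℝ) < D.card := by exact_mod_cast card_pos.2 hne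
  have hK1 : 0 < K := by
    have hDD : 0 < (D + D).card := card_pos.2 (hne.add hne)
    have h3 : (0 : ℝ) < (D + D).card := by exact_mod_cast hDD
    by_contra hlt
    nlinarith
  have hcov := ruzsa_covering_add (A := D.image cst) (B := P.image cst) (K := K ^ 5)
    (hPne.image _) (by
      rw [← image_cst_add, card_image_of_injective _ cst_inj, card_image_of_injective _ cst_inj,
        hPc]
      calc ((D + P).card : ℝ) ≤ ((D + D).card : ℝ) := by
            exact_mod_cast card_le_card (add_subset_add_left hPD)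
        _ ≤ K * D.card := hK
        _ ≤ K * (K ^ 4 * vol x) := by gcongr
        _ = _ := by ring)
  obtain ⟨F, -, hF1, hF2⟩ := hcov
  refine ⟨F, hF1, fun y hy => ?_⟩
  obtain ⟨f, hf, u, hu, hfu⟩ := mem_add.1 (hF2 (mem_image_of_mem cst hy))
  obtain ⟨p, hp, q, hq, rfl⟩ := mem_sub.1 hu
  obtain ⟨p', hp', rfl⟩ := mem_image.1 hp
  obtain ⟨q', hq', rfl⟩ := mem_image.1 hq
  refine ⟨f, hf, fun i => ?_⟩
  rw [hP, Finset.mem_Icc] at hp' hq'
  have e1 : p' i ≤ x i := hp'.2 i
  have e2 : q' i ≤ x i := hq'.2 i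
  have e3 : cst y i - f i = (p' i : ℤ) - q' i := by
    rw [← hfu]
    simp [cst]
  rw [e3, abs_le]
  constructor <;> omega

/-- extension by zero along an injection -/
noncomputable def ext {d r : ℕ} (σ : Fin r → Fin d) : (Fin r → ℤ) →+ (Fin d → ℤ) where
  toFun v := fun i => ∑ k, if σ k = i then v k else 0
  map_zero' := by funext i; simp
  map_add' v w := by
    funext i
    simp only [Pi.add_apply]
    rw [← sum_add_distrib]
    apply sum_congr rfl
    intro k _
    split_ifs <;> simp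

theorem ext_apply {d r : ℕ} {σ : Fin r → Fin d} (hσ : Function.Injective σ) (v : Fin r → ℤ)
    (k : Fin r) : ext σ v (σ k) = v k := by
  show ∑ l, (if σ l = σ k then v l else 0) = v k
  rw [sum_eq_single k]
  · simp
  · intro l _ hl
    rw [if_neg (fun h => hl (hσ h))]
  · intro h; exact absurd (mem_univ k) h

theorem ext_zero {d r : ℕ} {σ : Fin r → Fin d} (v : Fin r → ℤ) {i : Fin d}
    (hi : ∀ k, σ k ≠ i) : ext σ v i = 0 := by
  show ∑ l, (if σ l = i then v l else 0) = 0
  apply sum_eq_zero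
  intro k _
  rw [if_neg (hi k)]

/-- one side of the box -/
theorem three (u : ℤ) (x : ℕ) (hx : x ≠ 0) (hu : |u| ≤ x) :
    ∃ c ∈ ({-1, 0, 1} : Finset ℤ), |u - c * (2 * (x / 2 : ℕ) + 1)| ≤ (x / 2 : ℕ) := by
  obtain ⟨h, hh⟩ : ∃ h : ℕ, h = x / 2 := ⟨_, rfl⟩
  rw [← hh]
  have h1 : x ≤ 3 * h + 1 := by omega
  rw [abs_le] at hu
  rcases lt_or_ge u (-(h : ℤ)) with h2 | h2
  · refine ⟨-1, by simp, ?_⟩
    rw [abs_le]
    constructor <;> push_cast <;> omega
  · rcases lt_or_ge (h : ℤ) u with h3 | h3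
    · refine ⟨1, by simp, ?_⟩
      rw [abs_le]
      constructor <;> push_cast <;> omega
    · refine ⟨0, by simp, ?_⟩
      rw [abs_le]
      constructor <;> push_cast <;> omega

theorem log_bound {K : ℝ} (hK : 1 ≤ K) {r : ℕ} (h : (3 / 2 : ℝ) ^ r ≤ K ^ 5) :
    (r : ℝ) ≤ 13 * Real.log K := by
  have h1 : (r : ℝ) * Real.log (3 / 2) ≤ 5 * Real.log K := by
    have h2 := Real.log_le_log (by positivity) h
    rw [Real.log_pow, Real.log_pow] at h2
    exact_mod_cast h2
  have h2 : 5 / 13 ≤ Real.log (3 / 2) := by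
    rw [Real.le_log_iff_exp_le (by norm_num)]
    have h3 : Real.exp (5 / 13) ^ 13 ≤ (3 / 2 : ℝ) ^ 13 := by
      rw [← Real.exp_nat_mul]
      have h4 : ((13 : ℕ) : ℝ) * (5 / 13) = ((5 : ℕ) : ℝ) * 1 := by norm_num
      rw [h4, Real.exp_nat_mul]
      have h5 := Real.exp_one_lt_d9
      have h6 : Real.exp 1 ^ 5 ≤ 2.7182818286 ^ 5 :=
        pow_le_pow_left₀ (Real.exp_pos 1).le h5.le 5
      refine h6.trans ?_
      norm_num
    exact le_of_pow_le_pow_left₀ (by norm_num) (by norm_num) h3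
  have h3 : 0 ≤ (r : ℝ) := by positivity
  nlinarith [Real.log_nonneg hK]

/-- **The polynomial Freiman-Ruzsa theorem for images of down-sets.** -/
theorem pfr_down {Γ : Type*} [AddCommGroup Γ] [DecidableEq Γ] (d : ℕ) (D : Finset (Fin d → ℕ))
    (hD : IsDown D) (hne : D.Nonempty) (θ : (Fin d → ℤ) →+ Γ) (g : Γ)
    (hθ : Set.InjOn (fun x => θ (cst x)) (D + D : Finset (Fin d → ℕ))) (K : ℝ) (A : Finset Γ)
    (hA : A = D.image (fun x => g + θ (cst x))) (hK : ((A + A).card : ℝ) ≤ K * A.card) :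
    ∃ (r : ℕ) (B : Set (Fin r → ℝ)) (ψ : (Fin r → ℤ) →+ Γ) (T : Finset Γ),
      (r : ℝ) ≤ 13 * Real.log K ∧
      Convex ℝ B ∧ IsCompact B ∧ (interior B).Nonempty ∧ (∀ x ∈ B, -x ∈ B) ∧
      {x : Fin r → ℤ | (fun i => (x i : ℝ)) ∈ B}.ncard ≤ A.card ∧
      (T.card : ℝ) ≤ K ^ 20 ∧
      ∀ a ∈ A, ∃ t ∈ T, ∃ x : Fin r → ℤ, (fun i => (x i : ℝ)) ∈ B ∧ a = t + ψ x := by
  -- cardinalities
  have h0D : (0 : Fin d → ℕ) ∈ D := by
    obtain ⟨x, hx⟩ := hne
    exact hD x hx 0 (fun i => Nat.zero_le _)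
  have hDsub : D ⊆ D + D := fun x hx => mem_add.2 ⟨x, hx, 0, h0D, add_zero x⟩
  have hAc : A.card = D.card := by
    rw [hA]
    apply card_image_of_injOn
    intro x hx y hy hxy
    simp only [add_right_inj] at hxy
    exact hθ (hDsub hx) (hDsub hy) hxy
  have hAAc : (A + A).card = (D + D).card := by
    have h1 : A + A = (D + D).image (fun x => (g + g) + θ (cst x)) := by
      rw [hA]
      ext z
      simp only [mem_add, mem_image]
      constructor
      · rintro ⟨_, ⟨x, hx, rfl⟩, _, ⟨y, hy, rfl⟩, rfl⟩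
        refine ⟨x + y, ⟨x, hx, y, hy, rfl⟩, ?_⟩
        rw [cst_add, map_add]; abel
      · rintro ⟨_, ⟨x, hx, y, hy, rfl⟩, rfl⟩
        refine ⟨_, ⟨x, hx, rfl⟩, _, ⟨y, hy, rfl⟩, ?_⟩
        rw [cst_add, map_add]; abel
    rw [h1]
    apply card_image_of_injOn
    intro x hx y hy hxy
    simp only [add_right_inj] at hxy
    exact hθ hx hy hxy
  rw [hAc, hAAc] at hK
  rw [hAc]
  obtain ⟨x, hx, h1, h2, F, hF1, hF2⟩ := cover_box D hD hne K hK
  have hc : (0 : ℝ) < D.card := by exact_mod_cast card_pos.2 hne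
  have hK1 : 1 ≤ K := by
    have hDD : D.card ≤ (D + D).card := card_le_card hDsub
    by_contra hlt
    have h1 : (D.card : ℝ) ≤ K * D.card := le_trans (by exact_mod_cast hDD) hK
    nlinarith
  obtain ⟨S, hS⟩ : ∃ S, S = univ.filter (fun i => x i ≠ 0) := ⟨_, rfl⟩
  rw [← hS] at h2
  obtain ⟨r, hr⟩ : ∃ r, r = S.card := ⟨_, rfl⟩
  rw [← hr] at h2
  obtain ⟨σ, hσ⟩ : ∃ σ : Fin r → Fin d, σ = S.orderEmbOfFin hr.symm := ⟨_, rfl⟩
  have hσinj : Function.Injective σ := by rw [hσ]; exact (S.orderEmbOfFin hr.symm).injective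
  have hσrange : ∀ i, x i ≠ 0 → ∃ k, σ k = i := by
    intro i hi
    have h3 : i ∈ Set.range (S.orderEmbOfFin hr.symm) := by
      rw [range_orderEmbOfFin, hS]
      simpa using hi
    rw [hσ]
    exact h3
  have hσx : ∀ k, x (σ k) ≠ 0 := by
    intro k
    have h3 := orderEmbOfFin_mem S hr.symm k
    rw [← hσ, hS, mem_filter] at h3
    exact h3.2
  let hh : Fin r → ℕ := fun k => x (σ k) / 2
  let B : Set (Fin r → ℝ) := Set.Icc (fun k => -((hh k : ℝ) + 1 / 2)) (fun k => (hh k : ℝ) + 1 / 2)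
  have hlat : ∀ v : Fin r → ℤ, (fun i => (v i : ℝ)) ∈ B ↔ ∀ k, |v k| ≤ hh k := by
    intro v
    simp only [B, Set.mem_Icc, Pi.le_def]
    constructor
    · rintro ⟨h3, h4⟩ k
      have h5 := h3 k
      have h6 := h4 k
      rw [abs_le]
      constructor
      · have h7 : (-((hh k : ℤ) : ℝ) - 1) < (v k : ℝ) := by push_cast; linarith
        have h8 : -(hh k : ℤ) - 1 < v k := by exact_mod_cast h7
        omega
      · have h7 : (v k : ℝ) < ((hh k : ℤ) : ℝ) + 1 := by push_cast; linarith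
        have h8 : v k < (hh k : ℤ) + 1 := by exact_mod_cast h7
        omega
    · intro h3
      constructor <;> intro k <;> have h4 := abs_le.1 (h3 k)
      · have h5 : (-((hh k : ℤ) : ℝ)) ≤ (v k : ℝ) := by exact_mod_cast h4.1
        push_cast at h5
        linarith
      · have h5 : (v k : ℝ) ≤ ((hh k : ℤ) : ℝ) := by exact_mod_cast h4.2
        push_cast at h5
        linarith
  refine ⟨r, B, θ.comp (ext σ), (F ×ˢ Fintype.piFinset (fun _ : Fin r => ({-1, 0, 1} : Finset ℤ))).image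
    (fun fc => g + θ fc.1 + θ (ext σ (fun k => fc.2 k * (2 * (hh k : ℤ) + 1)))),
    log_bound hK1 h2, convex_Icc _ _, isCompact_Icc, ?_, ?_, ?_, ?_, ?_⟩
  · refine ⟨0, mem_interior_iff_mem_nhds.2 (pi_Icc_mem_nhds (fun k => ?_) (fun k => ?_))⟩
    · show -((hh k : ℝ) + 1 / 2) < 0
      have : (0 : ℝ) ≤ hh k := by positivity
      linarith
    · show (0 : ℝ) < (hh k : ℝ) + 1 / 2
      have : (0 : ℝ) ≤ hh k := by positivity
      linarith
  · rintro v ⟨h3, h4⟩
    refine ⟨fun k => ?_, fun k => ?_⟩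
    · have := h4 k
      simp only [Pi.neg_apply] at this ⊢
      linarith
    · have := h3 k
      simp only [Pi.neg_apply] at this ⊢
      linarith
  · have h3 : {v : Fin r → ℤ | (fun i => (v i : ℝ)) ∈ B} =
        ((Finset.Icc (fun k => -(hh k : ℤ)) (fun k => (hh k : ℤ)) : Finset (Fin r → ℤ)) :
          Set (Fin r → ℤ)) := by
      ext v
      rw [Set.mem_ofPred_eq, hlat, Finset.coe_Icc, Set.mem_Icc]
      simp only [Pi.le_def, abs_le]
      exact ⟨fun h => ⟨fun k => (h k).1, fun k => (h k).2⟩, fun h k => ⟨h.1 k, h.2 k⟩⟩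
    rw [h3, Set.ncard_coe_finset, Pi.card_Icc]
    have h4 : ∏ k, (Finset.Icc (-(hh k : ℤ)) (hh k : ℤ)).card ≤ vol x := by
      have h5 : vol x = (∏ i ∈ S, (x i + 1)) * ∏ i ∈ univ.filter (fun i => ¬ x i ≠ 0), (x i + 1) := by
        unfold vol
        rw [hS, prod_filter_mul_prod_filter_not]
      have h6 : ∏ i ∈ univ.filter (fun i => ¬ x i ≠ 0), (x i + 1) = 1 := by
        apply prod_eq_one
        intro i hi
        have := (mem_filter.1 hi).2
        push Not at this
        omega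
      have h7 : ∏ i ∈ S, (x i + 1) = ∏ k : Fin r, (x (σ k) + 1) := by
        have h8 : S = univ.image σ := by
          ext i
          rw [mem_image]
          constructor
          · intro hi
            obtain ⟨k, hk⟩ := hσrange i (by rw [hS, mem_filter] at hi; exact hi.2)
            exact ⟨k, mem_univ _, hk⟩
          · rintro ⟨k, -, rfl⟩
            rw [hS, mem_filter]
            exact ⟨mem_univ _, hσx k⟩
        rw [h8, prod_image (fun a _ b _ hab => hσinj hab)]
      rw [h5, h6, mul_one, h7]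
      apply prod_le_prod'
      intro k _
      rw [Int.card_Icc]
      have : 2 * hh k ≤ x (σ k) := by simp only [hh]; omega
      omega
    refine h4.trans ?_
    have h5 : (Finset.Icc (0 : Fin d → ℕ) x).card = vol x := by
      rw [Pi.card_Icc]
      unfold vol
      apply prod_congr rfl
      intro i _
      simp
    rw [← h5]
    apply card_le_card
    intro y hy
    rw [Finset.mem_Icc] at hy
    exact hD x hx y hy.2
  · have h3 : ((F ×ˢ Fintype.piFinset (fun _ : Fin r => ({-1, 0, 1} : Finset ℤ))).card : ℝ) ≤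
        K ^ 20 := by
      rw [card_product, Fintype.card_piFinset]
      have h4 : ∏ _k : Fin r, ({-1, 0, 1} : Finset ℤ).card = 3 ^ r := by
        rw [prod_const, card_univ, Fintype.card_fin]; rfl
      rw [h4]
      push_cast
      have h5 : (3 : ℝ) ^ r ≤ K ^ 15 := by
        calc (3 : ℝ) ^ r ≤ ((3 / 2 : ℝ) ^ 3) ^ r := pow_le_pow_left₀ (by norm_num) (by norm_num) r
          _ = ((3 / 2 : ℝ) ^ r) ^ 3 := by rw [← pow_mul, ← pow_mul, mul_comm]
          _ ≤ (K ^ 5) ^ 3 := pow_le_pow_left₀ (by positivity) h2 3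
          _ = K ^ 15 := by ring
      calc (F.card : ℝ) * 3 ^ r ≤ K ^ 5 * K ^ 15 := mul_le_mul hF1 h5 (by positivity) (by positivity)
        _ = K ^ 20 := by ring
    refine le_trans ?_ h3
    exact_mod_cast card_image_le
  · intro a ha
    rw [hA, mem_image] at ha
    obtain ⟨y, hy, rfl⟩ := ha
    obtain ⟨f, hf, hfy⟩ := hF2 y hy
    have hchoose : ∀ k : Fin r, ∃ c ∈ ({-1, 0, 1} : Finset ℤ),
        |(cst y (σ k) - f (σ k)) - c * (2 * (hh k : ℤ) + 1)| ≤ (hh k : ℤ) := fun k => by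
      have := three (cst y (σ k) - f (σ k)) (x (σ k)) (hσx k) (hfy (σ k))
      exact this
    choose c hc1 hc2 using hchoose
    refine ⟨_, mem_image.2 ⟨(f, c), mem_product.2 ⟨hf, Fintype.mem_piFinset.2 hc1⟩, rfl⟩,
      fun k => (cst y (σ k) - f (σ k)) - c k * (2 * (hh k : ℤ) + 1), (hlat _).2 hc2, ?_⟩
    have hsum : cst y = f + ext σ (fun k => c k * (2 * (hh k : ℤ) + 1)) +
        ext σ (fun k => (cst y (σ k) - f (σ k)) - c k * (2 * (hh k : ℤ) + 1)) := by
      funext i
      simp only [Pi.add_apply]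
      by_cases hi : x i = 0
      · have h3 : ∀ k, σ k ≠ i := fun k hk => hσx k (by rw [hk]; exact hi)
        rw [ext_zero _ h3, ext_zero _ h3]
        have h4 := hfy i
        rw [hi] at h4
        have h5 : cst y i - f i = 0 := abs_eq_zero.1 (le_antisymm (by exact_mod_cast h4) (abs_nonneg _))
        omega
      · obtain ⟨k, rfl⟩ := hσrange i hi
        rw [ext_apply hσinj, ext_apply hσinj]
        ring
    have h9 := congrArg θ hsum
    rw [map_add, map_add] at h9
    rw [h9]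
    simp only [AddMonoidHom.comp_apply]
    abel

end Pool.Agent.X47.DS
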