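import Mathlib
import Pool.Agent.X47.DS3

/-!
# The polynomial Freiman-Ruzsa theorem for down-sets: progressions
-/

set_option autoImplicit false

namespace Pool.Agent.X47.DS

open Finset Pointwise

/-- the progression `{a + n_1 v_1 + ... + n_r v_r : 0 ≤ n_i < N_i}` -/
def prog {Γ : Type*} [AddCommGroup Γ] (a : Γ) {r : ℕ} (v : Fin r → Γ) (N : Fin r → ℕ) : Set Γ :=
  {z | ∃ n : Fin r → ℕ, (∀ i, n i < N i) ∧ z = a + ∑ i, n i • v i}

theorem hom_sum {Γ : Type*} [AddCommGroup Γ] {r : ℕ} (φ : (Fin r → ℤ) →+ Γ) (w : Fin r → ℤ) :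
    φ w = ∑ k, w k • φ (Pi.single k 1) := by
  have h : w = ∑ k, w k • (Pi.single k 1 : Fin r → ℤ) := by
    funext i
    rw [Finset.sum_apply]
    simp only [Pi.smul_apply, Pi.single_apply, smul_eq_mul, mul_ite, mul_one, mul_zero]
    rw [Finset.sum_ite_eq]
    simp
  conv_lhs => rw [h]
  rw [map_sum]
  exact sum_congr rfl fun k _ => map_zsmul φ _ _

theorem pfr_prog {Γ : Type*} [AddCommGroup Γ] [DecidableEq Γ] (d : ℕ) (D : Finset (Fin d → ℕ))
    (hD : IsDown D) (hne : D.Nonempty) (θ : (Fin d → ℤ) →+ Γ) (g : Γ)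
    (hθ : Set.InjOn (fun x => θ (cst x)) (D + D : Finset (Fin d → ℕ))) (K : ℝ) (A : Finset Γ)
    (hA : A = D.image (fun x => g + θ (cst x))) (hK : ((A + A).card : ℝ) ≤ K * A.card) :
    ∃ (r : ℕ) (a : Γ) (v : Fin r → Γ) (N : Fin r → ℕ) (T : Finset Γ),
      (r : ℝ) ≤ 13 * Real.log K ∧ (prog a v N).ncard = ∏ i, N i ∧ prog a v N ⊆ A ∧
      (A.card : ℝ) ≤ K ^ 4 * (prog a v N).ncard ∧ (T.card : ℝ) ≤ K ^ 5 ∧
      ∀ z ∈ A, ∃ t ∈ T, ∃ p ∈ prog a v N, ∃ q ∈ prog a v N, z = t + (p - q) := by
  -- cardinalities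
  have h0D : (0 : Fin d → ℕ) ∈ D := by
    obtain ⟨x, hx⟩ := hne
    exact hD x hx 0 (fun i => Nat.zero_le _)
  have hDsub : D ⊆ D + D := fun x hx => mem_add.2 ⟨x, hx, 0, h0D, add_zero x⟩
  have hAc : A.card = D.card := by
    rw [hA]
    apply card_image_of_injOn
    intro x hx y hy hxy
    simp only [add_right_inj] at hxy
    exact hθ (hDsub hx) (hDsub hy) hxy
  have hAAc : (A + A).card = (D + D).card := by
    have h1 : A + A = (D + D).image (fun x => (g + g) + θ (cst x)) := by
      rw [hA]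
      ext z
      simp only [mem_add, mem_image]
      constructor
      · rintro ⟨_, ⟨x, hx, rfl⟩, _, ⟨y, hy, rfl⟩, rfl⟩
        refine ⟨x + y, ⟨x, hx, y, hy, rfl⟩, ?_⟩
        rw [cst_add, map_add]; abel
      · rintro ⟨_, ⟨x, hx, y, hy, rfl⟩, rfl⟩
        refine ⟨_, ⟨x, hx, rfl⟩, _, ⟨y, hy, rfl⟩, ?_⟩
        rw [cst_add, map_add]; abel
    rw [h1]
    apply card_image_of_injOn
    intro x hx y hy hxy
    simp only [add_right_inj] at hxy
    exact hθ hx hy hxy
  rw [hAc, hAAc] at hK
  rw [hAc]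
  obtain ⟨x, hx, h1, h2, F, hF1, hF2⟩ := cover_box D hD hne K hK
  have hc : (0 : ℝ) < D.card := by exact_mod_cast card_pos.2 hne
  have hK1 : 1 ≤ K := by
    have hDD : D.card ≤ (D + D).card := card_le_card hDsub
    by_contra hlt
    have h1 : (D.card : ℝ) ≤ K * D.card := le_trans (by exact_mod_cast hDD) hK
    nlinarith
  obtain ⟨S, hS⟩ : ∃ S, S = univ.filter (fun i => x i ≠ 0) := ⟨_, rfl⟩
  rw [← hS] at h2
  obtain ⟨r, hr⟩ : ∃ r, r = S.card := ⟨_, rfl⟩
  rw [← hr] at h2
  obtain ⟨σ, hσ⟩ : ∃ σ : Fin r → Fin d, σ = S.orderEmbOfFin hr.symm := ⟨_, rfl⟩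
  have hσinj : Function.Injective σ := by rw [hσ]; exact (S.orderEmbOfFin hr.symm).injective
  have hσrange : ∀ i, x i ≠ 0 → ∃ k, σ k = i := by
    intro i hi
    have h3 : i ∈ Set.range (S.orderEmbOfFin hr.symm) := by
      rw [range_orderEmbOfFin, hS]
      simpa using hi
    rw [hσ]
    exact h3
  -- the embedding of the box
  let up : (Fin r → ℕ) → (Fin d → ℕ) := fun n i => ∑ k, if σ k = i then n k else 0
  have hup : ∀ n, cst (up n) = ext σ (cst n) := by
    intro n
    funext i
    show ((∑ k, (if σ k = i then n k else 0) : ℕ) : ℤ) = ∑ k, (if σ k = i then cst n k else 0)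
    push_cast
    rfl
  have hupk : ∀ n k, up n (σ k) = n k := by
    intro n k
    have := congrFun (hup n) (σ k)
    rw [ext_apply hσinj] at this
    simp only [cst] at this
    exact_mod_cast this
  have hup0 : ∀ n i, x i = 0 → (∀ k, n k < x (σ k) + 1) → up n i = 0 := by
    intro n i hi hn
    show ∑ k, (if σ k = i then n k else 0) = 0
    apply sum_eq_zero
    intro k _
    split_ifs with h
    · have := hn k
      rw [h, hi] at this
      omega
    · rfl
  have hupD : ∀ n, (∀ k, n k < x (σ k) + 1) → up n ∈ D := by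
    intro n hn
    refine hD x hx _ fun i => ?_
    by_cases hi : x i = 0
    · rw [hup0 n i hi hn]; exact Nat.zero_le _
    · obtain ⟨k, rfl⟩ := hσrange i hi
      rw [hupk]
      have h3 := hn k
      exact Nat.lt_succ_iff.1 h3
  let v : Fin r → Γ := fun k => θ (ext σ (Pi.single k 1))
  let N : Fin r → ℕ := fun k => x (σ k) + 1
  have hval : ∀ n : Fin r → ℕ, g + ∑ k, n k • v k = g + θ (cst (up n)) := by
    intro n
    rw [hup]
    have h3 := hom_sum (θ.comp (ext σ)) (cst n)
    simp only [AddMonoidHom.comp_apply] at h3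
    rw [h3]
    congr 1
    apply sum_congr rfl
    intro k _
    simp only [v, cst]
    rw [natCast_zsmul]
  have hfib : ∀ z, z ∈ prog g v N ↔ ∃ y, y ≤ x ∧ z = g + θ (cst y) := by
    intro z
    constructor
    · rintro ⟨n, hn, rfl⟩
      refine ⟨up n, fun i => ?_, hval n⟩
      by_cases hi : x i = 0
      · rw [hup0 n i hi hn]; exact Nat.zero_le _
      · obtain ⟨k, rfl⟩ := hσrange i hi
        rw [hupk]
        have h3 : n k < x (σ k) + 1 := hn k
        exact Nat.lt_succ_iff.1 h3
    · rintro ⟨y, hy, rfl⟩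
      refine ⟨fun k => y (σ k), fun k => ?_, ?_⟩
      · have h3 : y (σ k) ≤ x (σ k) := hy _
        simp only [N]
        omega
      · rw [hval]
        congr 3
        funext i
        by_cases hi : x i = 0
        · have h3 : y i ≤ x i := hy i
          have h4 : up (fun k => y (σ k)) i = 0 := hup0 _ i hi (fun k => by
            have h5 : y (σ k) ≤ x (σ k) := hy _
            omega)
          rw [h4]; omega
        · obtain ⟨k, rfl⟩ := hσrange i hi
          rw [hupk]
  have hvol : vol x = ∏ k, N k := by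
    have h5 : vol x = (∏ i ∈ S, (x i + 1)) * ∏ i ∈ univ.filter (fun i => ¬ x i ≠ 0), (x i + 1) := by
      unfold vol
      rw [hS, prod_filter_mul_prod_filter_not]
    have h6 : ∏ i ∈ univ.filter (fun i => ¬ x i ≠ 0), (x i + 1) = 1 := by
      apply prod_eq_one
      intro i hi
      have := (mem_filter.1 hi).2
      push Not at this
      omega
    have h8 : S = univ.image σ := by
      ext i
      rw [mem_image]
      constructor
      · intro hi
        obtain ⟨k, hk⟩ := hσrange i (by rw [hS, mem_filter] at hi; exact hi.2)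
        exact ⟨k, mem_univ _, hk⟩
      · rintro ⟨k, -, rfl⟩
        have h3 := orderEmbOfFin_mem S hr.symm k
        rw [← hσ] at h3
        exact h3
    have h7 : ∏ i ∈ S, (x i + 1) = ∏ k : Fin r, (x (σ k) + 1) := by
      rw [h8, prod_image (fun a _ b _ hab => hσinj hab)]
    rw [h5, h6, mul_one, h7]
  have hcard : (prog g v N).ncard = vol x := by
    have h3 : prog g v N = (((Finset.Icc (0 : Fin d → ℕ) x).image (fun y => g + θ (cst y)) :
        Finset Γ) : Set Γ) := by
      ext z
      rw [hfib, coe_image, Set.mem_image]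
      constructor
      · rintro ⟨y, hy, rfl⟩
        exact ⟨y, by rw [coe_Icc, Set.mem_Icc]; exact ⟨fun i => Nat.zero_le _, hy⟩, rfl⟩
      · rintro ⟨y, hy, rfl⟩
        rw [coe_Icc, Set.mem_Icc] at hy
        exact ⟨y, hy.2, rfl⟩
    rw [h3, Set.ncard_coe_finset, card_image_of_injOn]
    · rw [Pi.card_Icc]
      unfold vol
      apply prod_congr rfl
      intro i _
      simp
    · intro y hy z hz hyz
      rw [coe_Icc, Set.mem_Icc] at hy hz
      simp only [add_right_inj] at hyz
      exact hθ (hDsub (hD x hx y hy.2)) (hDsub (hD x hx z hz.2)) hyz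
  refine ⟨r, g, v, N, F.image (fun f => g + θ f), log_bound hK1 h2, by rw [hcard, hvol], ?_, ?_, ?_, ?_⟩
  · intro z hz
    obtain ⟨y, hy, rfl⟩ := (hfib z).1 hz
    rw [hA, coe_image]
    exact ⟨y, hD x hx y hy, rfl⟩
  · rw [hcard]; exact h1
  · refine le_trans ?_ hF1
    exact_mod_cast card_image_le
  · intro z hz
    rw [hA, mem_image] at hz
    obtain ⟨y, hy, rfl⟩ := hz
    obtain ⟨f, hf, hfy⟩ := hF2 y hy
    -- positive and negative parts of `y - f`
    let p : Fin d → ℕ := fun i => (cst y i - f i).toNat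
    let q : Fin d → ℕ := fun i => (-(cst y i - f i)).toNat
    have hp : p ≤ x := by
      intro i
      have := abs_le.1 (hfy i)
      show (cst y i - f i).toNat ≤ x i
      omega
    have hq : q ≤ x := by
      intro i
      have := abs_le.1 (hfy i)
      show (-(cst y i - f i)).toNat ≤ x i
      omega
    refine ⟨g + θ f, mem_image_of_mem _ hf, g + θ (cst p), (hfib _).2 ⟨p, hp, rfl⟩,
      g + θ (cst q), (hfib _).2 ⟨q, hq, rfl⟩, ?_⟩
    have h3 : cst y = f + (cst p - cst q) := by
      funext i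
      show cst y i = f i + (((cst y i - f i).toNat : ℤ) - ((-(cst y i - f i)).toNat : ℤ))
      omega
    have h4 := congrArg θ h3
    rw [map_add, map_sub] at h4
    rw [h4]
    abel

end Pool.Agent.X47.DS
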