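import Mathlib

/-!
# Matchings in finite vertex sets, and Gallai's lemma
-/

open Finset
open scoped Classical

namespace Pool.Agent.X47.CE

variable {α : Type*} (G : SimpleGraph α)

/-- `M` is a matching of `G` inside `X`. -/
def IsM (X : Finset α) (M : Finset (Sym2 α)) : Prop :=
  (∀ e ∈ M, e ∈ G.edgeSet ∧ ∀ v ∈ e, v ∈ X) ∧
  ∀ v, ∀ e ∈ M, ∀ f ∈ M, v ∈ e → v ∈ f → e = f

/-- The matching number of `X`. -/
noncomputable def nu (X : Finset α) : ℕ := (X.sym2.powerset.filter (IsM G X)).sup card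

variable {G}

theorem isM_empty (X : Finset α) : IsM G X ∅ := by
  refine ⟨fun e he => absurd he (notMem_empty _), fun v e he => absurd he (notMem_empty _)⟩

theorem le_nu {X : Finset α} {M : Finset (Sym2 α)} (h : IsM G X M) : M.card ≤ nu G X := by
  unfold nu
  refine Finset.le_sup (f := card) ?_
  rw [mem_filter, mem_powerset]
  refine ⟨fun e he => ?_, h⟩
  rw [mem_sym2_iff]
  exact (h.1 e he).2

theorem exists_max (X : Finset α) : ∃ M, IsM G X M ∧ M.card = nu G X := by
  have hne : (X.sym2.powerset.filter (IsM G X)).Nonempty :=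
    ⟨∅, by rw [mem_filter, mem_powerset]; exact ⟨empty_subset _, isM_empty X⟩⟩
  obtain ⟨M, hM, h2⟩ := Finset.exists_mem_eq_sup _ hne card
  rw [mem_filter] at hM
  exact ⟨M, hM.2, h2.symm⟩

theorem IsM.mono {X Y : Finset α} {M : Finset (Sym2 α)} (h : IsM G X M) (hXY : X ⊆ Y) :
    IsM G Y M :=
  ⟨fun e he => ⟨(h.1 e he).1, fun v hv => hXY ((h.1 e he).2 v hv)⟩, h.2⟩

theorem IsM.subset {X : Finset α} {M N : Finset (Sym2 α)} (h : IsM G X M) (hN : N ⊆ M) :
    IsM G X N :=
  ⟨fun e he => h.1 e (hN he), fun v e he f hf => h.2 v e (hN he) f (hN hf)⟩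

theorem IsM.erase {X : Finset α} {M : Finset (Sym2 α)} (h : IsM G X M) {v : α}
    (hv : ∀ e ∈ M, v ∉ e) : IsM G (X.erase v) M :=
  ⟨fun e he => ⟨(h.1 e he).1, fun w hw => mem_erase.2
    ⟨fun heq => hv e he (heq ▸ hw), (h.1 e he).2 w hw⟩⟩, h.2⟩

theorem IsM.insert {X : Finset α} {M : Finset (Sym2 α)} (h : IsM G X M) {x y : α}
    (hx : x ∈ X) (hy : y ∈ X) (hxy : G.Adj x y) (mx : ∀ e ∈ M, x ∉ e) (my : ∀ e ∈ M, y ∉ e) :
    IsM G X (insert s(x, y) M) := by
  refine ⟨fun e he => ?_, fun v e he f hf hve hvf => ?_⟩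
  · rcases mem_insert.1 he with rfl | he
    · refine ⟨hxy, fun v hv => ?_⟩
      rcases Sym2.mem_iff.1 hv with rfl | rfl <;> assumption
    · exact h.1 e he
  · rcases mem_insert.1 he with he1 | he1 <;> rcases mem_insert.1 hf with hf1 | hf1
    · rw [he1, hf1]
    · rw [he1] at hve
      rcases Sym2.mem_iff.1 hve with h3 | h3
      · exact absurd (h3 ▸ hvf) (mx f hf1)
      · exact absurd (h3 ▸ hvf) (my f hf1)
    · rw [hf1] at hvf
      rcases Sym2.mem_iff.1 hvf with h3 | h3
      · exact absurd (h3 ▸ hve) (mx e he1)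
      · exact absurd (h3 ▸ hve) (my e he1)
    · exact h.2 v e he1 f hf1 hve hvf

theorem nu_mono {X Y : Finset α} (h : X ⊆ Y) : nu G X ≤ nu G Y := by
  obtain ⟨M, hM, hc⟩ := exists_max (G := G) X
  rw [← hc]
  exact le_nu (hM.mono h)

theorem nu_le_succ (X : Finset α) (v : α) : nu G X ≤ nu G (X.erase v) + 1 := by
  obtain ⟨M, hM, hc⟩ := exists_max (G := G) X
  have h1 : IsM G (X.erase v) (M.filter fun e => v ∉ e) :=
    (hM.subset (filter_subset _ _)).erase fun e he => (mem_filter.1 he).2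
  have h2 := le_nu h1
  have h3 : (M.filter fun e => ¬ v ∉ e).card ≤ 1 := by
    rw [card_le_one]
    intro e he f hf
    simp only [mem_filter, not_not] at he hf
    exact hM.2 v e he.1 f hf.1 he.2 hf.2
  have h4 := card_filter_add_card_filter_not (s := M) (fun e => v ∉ e)
  omega

/-- the vertices covered by `M`. -/
noncomputable def cov (X : Finset α) (M : Finset (Sym2 α)) : Finset α :=
  X.filter fun v => ∃ e ∈ M, v ∈ e

theorem card_cov {X : Finset α} {M : Finset (Sym2 α)} (h : IsM G X M) :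
    (cov X M).card = 2 * M.card := by
  have h1 : cov X M = M.biUnion fun e => X.filter fun v => v ∈ e := by
    ext v
    simp only [cov, mem_filter, mem_biUnion]
    constructor
    · rintro ⟨hv, e, he, hve⟩; exact ⟨e, he, hv, hve⟩
    · rintro ⟨e, he, hv, hve⟩; exact ⟨hv, e, he, hve⟩
  rw [h1, card_biUnion]
  · rw [sum_const_nat (m := 2), mul_comm]
    intro e he
    obtain ⟨h2, h3⟩ := h.1 e he
    induction e using Sym2.ind with
    | _ x y =>
      have hxy : x ≠ y := G.ne_of_adj h2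
      have : (X.filter fun v => v ∈ s(x, y)) = {x, y} := by
        ext v
        simp only [mem_filter, Sym2.mem_iff, mem_insert, mem_singleton]
        constructor
        · rintro ⟨_, h⟩; exact h
        · intro h
          exact ⟨h3 v (Sym2.mem_iff.2 h), h⟩
      rw [this, card_pair hxy]
  · intro e he f hf hef
    rw [Function.onFun, disjoint_left]
    intro v hv hv'
    rw [mem_filter] at hv hv'
    exact hef (h.2 v e he f hf hv.2 hv'.2)

theorem two_nu_le (X : Finset α) : 2 * nu G X ≤ X.card := by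
  obtain ⟨M, hM, hc⟩ := exists_max (G := G) X
  rw [← hc, ← card_cov hM]
  exact card_le_card (filter_subset _ _)

theorem nu_add_le {Y Z : Finset α} (h : Disjoint Y Z) : nu G Y + nu G Z ≤ nu G (Y ∪ Z) := by
  obtain ⟨M, hM, hc⟩ := exists_max (G := G) Y
  obtain ⟨N, hN, hd⟩ := exists_max (G := G) Z
  have hcross : ∀ v, ∀ e ∈ M, ∀ f ∈ N, v ∈ e → v ∈ f → False := by
    intro v e he f hf hve hvf
    exact (disjoint_left.1 h) ((hM.1 e he).2 v hve) ((hN.1 f hf).2 v hvf)
  have hdis : Disjoint M N := by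
    rw [disjoint_left]
    intro e he hf
    induction e using Sym2.ind with
    | _ x y => exact hcross x _ he _ hf (Sym2.mem_mk_left x y) (Sym2.mem_mk_left x y)
  rw [← hc, ← hd, ← card_union_of_disjoint hdis]
  apply le_nu
  refine ⟨fun e he => ?_, fun v e he f hf hve hvf => ?_⟩
  · rcases mem_union.1 he with he | he
    · exact ⟨(hM.1 e he).1, fun v hv => mem_union_left _ ((hM.1 e he).2 v hv)⟩
    · exact ⟨(hN.1 e he).1, fun v hv => mem_union_right _ ((hN.1 e he).2 v hv)⟩
  · rcases mem_union.1 he with he | he <;> rcases mem_union.1 hf with hf | hf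
    · exact hM.2 v e he f hf hve hvf
    · exact (hcross v e he f hf hve hvf).elim
    · exact (hcross v f hf e he hvf hve).elim
    · exact hN.2 v e he f hf hve hvf

/-- `X` has no partition into two nonempty parts without edges between them. -/
def Conn (G : SimpleGraph α) (X : Finset α) : Prop :=
  ∀ Y ⊆ X, Y.Nonempty → (∀ y ∈ Y, ∀ x ∈ X, G.Adj y x → x ∈ Y) → Y = X

/-- no maximum matching misses both `u` and `v`. -/
def Rel (G : SimpleGraph α) (X : Finset α) (u v : α) : Prop :=
  ∀ M, IsM G X M → M.card = nu G X → (∀ e ∈ M, u ∉ e) → (∀ e ∈ M, v ∉ e) → False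

theorem rel_of_adj {X : Finset α} {u v : α} (hu : u ∈ X) (hv : v ∈ X) (h : G.Adj u v) :
    Rel G X u v := by
  intro M hM hc h1 h2
  have h3 := le_nu (hM.insert hu hv h h1 h2)
  rw [card_insert_of_notMem (fun hm => h1 _ hm (Sym2.mem_mk_left u v))] at h3
  omega

theorem rel_trans {X : Finset α} (hX : ∀ v ∈ X, nu G (X.erase v) = nu G X) {u t v : α}
    (hu : u ∈ X) (ht : t ∈ X) (hv : v ∈ X) (huv : u ≠ v)
    (h1 : Rel G X u t) (h2 : Rel G X t v) : Rel G X u v := by
  intro M hM hMc mu mv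
  -- the maximum matchings missing `t`
  set F : Finset (Finset (Sym2 α)) := X.sym2.powerset.filter fun N =>
    IsM G X N ∧ N.card = nu G X ∧ ∀ e ∈ N, t ∉ e with hF
  have hFmem : ∀ N, N ∈ F ↔ (IsM G X N ∧ N.card = nu G X ∧ ∀ e ∈ N, t ∉ e) := by
    intro N
    rw [hF, mem_filter, mem_powerset]
    refine ⟨fun h => h.2, fun h => ⟨fun e he => ?_, h⟩⟩
    rw [mem_sym2_iff]
    exact (h.1.1 e he).2
  have hFne : F.Nonempty := by
    obtain ⟨N, hN, hNc⟩ := exists_max (G := G) (X.erase t)
    refine ⟨N, (hFmem N).2 ⟨hN.mono (erase_subset _ _), by rw [hNc, hX t ht], ?_⟩⟩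
    intro e he hte
    exact (notMem_erase t X) ((hN.1 e he).2 t hte)
  obtain ⟨N, hNF, hNmax⟩ := F.exists_max_image (fun N => (M ∩ N).card) hFne
  obtain ⟨hN, hNc, nt⟩ := (hFmem N).1 hNF
  have nu' : ∃ e ∈ N, u ∈ e := by
    by_contra hcon
    push Not at hcon
    exact h1 N hN hNc hcon nt
  have nv' : ∃ e ∈ N, v ∈ e := by
    by_contra hcon
    push Not at hcon
    exact h2 N hN hNc nt hcon
  have mt : ∃ e ∈ M, t ∈ e := by
    by_contra hcon
    push Not at hcon
    exact h1 M hM hMc mu hcon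
  have hcards : (cov X M).card = (cov X N).card := by
    rw [card_cov hM, card_cov hN, hMc, hNc]
  have hsd := card_sdiff_add_card_inter (cov X M) (cov X N)
  have hsd' := card_sdiff_add_card_inter (cov X N) (cov X M)
  rw [inter_comm] at hsd'
  have h2le : 2 ≤ (cov X N \ cov X M).card := by
    rw [← card_pair huv]
    apply card_le_card
    intro w hw
    rw [mem_insert, mem_singleton] at hw
    rw [mem_sdiff]
    rcases hw with rfl | rfl
    · refine ⟨mem_filter.2 ⟨hu, nu'⟩, fun h => ?_⟩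
      obtain ⟨e, he, h3⟩ := (mem_filter.1 h).2
      exact mu e he h3
    · refine ⟨mem_filter.2 ⟨hv, nv'⟩, fun h => ?_⟩
      obtain ⟨e, he, h3⟩ := (mem_filter.1 h).2
      exact mv e he h3
  have h2le' : 1 < (cov X M \ cov X N).card := by omega
  obtain ⟨x, hx, hxt⟩ := exists_mem_ne h2le' t
  rw [mem_sdiff] at hx
  obtain ⟨hxX, e, heM, hxe⟩ := mem_filter.1 hx.1
  have hxN : ∀ f ∈ N, x ∉ f := by
    intro f hf hxf
    exact hx.2 (mem_filter.2 ⟨hxX, f, hf, hxf⟩)
  obtain ⟨y, rfl⟩ := Sym2.mem_iff_exists.1 hxe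
  have hxy : G.Adj x y := (hM.1 _ heM).1
  have hyX : y ∈ X := (hM.1 _ heM).2 y (Sym2.mem_mk_right x y)
  have hyN : ∃ f ∈ N, y ∈ f := by
    by_contra hcon
    push Not at hcon
    have h3 := le_nu (hN.insert hxX hyX hxy hxN hcon)
    rw [card_insert_of_notMem (fun hm => hxN _ hm (Sym2.mem_mk_left x y))] at h3
    omega
  obtain ⟨f, hfN, hyf⟩ := hyN
  have hyt : y ≠ t := by
    rintro rfl
    exact nt f hfN hyf
  have hN' : IsM G X (insert s(x, y) (N.erase f)) := by
    refine (hN.subset (erase_subset f N)).insert hxX hyX hxy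
      (fun g hg => hxN g (mem_of_mem_erase hg)) (fun g hg hyg => ?_)
    exact (ne_of_mem_erase hg) (hN.2 y g (mem_of_mem_erase hg) f hfN hyg hyf)
  have hnotin : s(x, y) ∉ N := fun hm => hxN _ hm (Sym2.mem_mk_left x y)
  have hN'c : (insert s(x, y) (N.erase f)).card = nu G X := by
    rw [card_insert_of_notMem (fun hm => hnotin (mem_of_mem_erase hm)), card_erase_of_mem hfN]
    have : 0 < N.card := card_pos.2 ⟨f, hfN⟩
    omega
  have hN'F : insert s(x, y) (N.erase f) ∈ F := by
    rw [hFmem]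
    refine ⟨hN', hN'c, fun g hg htg => ?_⟩
    rcases mem_insert.1 hg with rfl | hg
    · rcases Sym2.mem_iff.1 htg with h | h
      · exact hxt h.symm
      · exact hyt h.symm
    · exact nt g (mem_of_mem_erase hg) htg
  have hle := hNmax _ hN'F
  have hfM : f ∉ M := by
    intro hfM
    have := hM.2 y f hfM _ heM hyf (Sym2.mem_mk_right x y)
    exact hxN f hfN (this ▸ Sym2.mem_mk_left x y)
  have hsub : insert s(x, y) (M ∩ N) ⊆ M ∩ insert s(x, y) (N.erase f) := by
    intro g hg
    rcases mem_insert.1 hg with rfl | hg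
    · exact mem_inter.2 ⟨heM, mem_insert_self _ _⟩
    · obtain ⟨g1, g2⟩ := mem_inter.1 hg
      exact mem_inter.2 ⟨g1, mem_insert_of_mem (mem_erase.2 ⟨fun h => hfM (h ▸ g1), g2⟩)⟩
  have hlt := card_le_card hsub
  rw [card_insert_of_notMem (fun hm => hnotin (mem_inter.1 hm).2)] at hlt
  omega

/-- **Gallai's lemma**: if `X` is connected and every vertex is missed by a maximum matching, then
a maximum matching misses at most one vertex. -/
theorem gallai {X : Finset α} (hX : ∀ v ∈ X, nu G (X.erase v) = nu G X) (hc : Conn G X) :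
    X.card ≤ 2 * nu G X + 1 := by
  have hall : ∀ u ∈ X, ∀ v ∈ X, u ≠ v → Rel G X u v := by
    intro u hu
    have h1 := hc (X.filter fun v => v = u ∨ Rel G X u v) (filter_subset _ _)
      ⟨u, mem_filter.2 ⟨hu, Or.inl rfl⟩⟩ (by
        intro y hy x hx hyx
        rw [mem_filter] at hy ⊢
        refine ⟨hx, ?_⟩
        by_cases hxu : x = u
        · exact Or.inl hxu
        right
        rcases hy.2 with rfl | hr
        · exact rel_of_adj hu hx hyx
        · exact rel_trans hX hu hy.1 hx (Ne.symm hxu) hr (rel_of_adj hy.1 hx hyx))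
    intro v hv huv
    rw [← h1, mem_filter] at hv
    rcases hv.2 with h | h
    · exact absurd h.symm huv
    · exact h
  obtain ⟨M, hM, hMc⟩ := exists_max (G := G) X
  have h1 : (X \ cov X M).card ≤ 1 := by
    rw [card_le_one]
    intro u hu v hv
    by_contra huv
    rw [mem_sdiff] at hu hv
    refine hall u hu.1 v hv.1 huv M hM hMc (fun e he h => hu.2 (mem_filter.2 ⟨hu.1, e, he, h⟩))
      (fun e he h => hv.2 (mem_filter.2 ⟨hv.1, e, he, h⟩))
  have h2 := card_cov hM
  have h3 : (X \ cov X M).card + (cov X M).card = X.card := by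
    exact card_sdiff_add_card_eq_card (show cov X M ⊆ X from filter_subset _ _)
  omega

end Pool.Agent.X47.CE
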