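import Pool.Agent.X47.CE1

/-!
# Independent sets whose undecided part has no isolated vertex: the counting bound
-/

open Finset
open scoped Classical

namespace Pool.Agent.X47.CE

variable {α : Type*} (G : SimpleGraph α)

/-- independent sets -/
def Ind (S : Finset α) : Prop := ∀ x ∈ S, ∀ y ∈ S, ¬ G.Adj x y

/-- the vertices of `X` outside the closed neighbourhood of `S` -/
noncomputable def Und (X S : Finset α) : Finset α :=
  X.filter fun v => v ∉ S ∧ ∀ s ∈ S, ¬ G.Adj v s

/-- independent subsets of `X` avoiding `L` -/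
noncomputable def Iset (X L : Finset α) : Finset (Finset α) :=
  X.powerset.filter fun S => Disjoint S L ∧ Ind G S

/-- independent subsets of `X` avoiding `L` for which every undecided vertex outside `L` has an
undecided neighbour -/
noncomputable def Tset (X L : Finset α) : Finset (Finset α) :=
  X.powerset.filter fun S => (Disjoint S L ∧ Ind G S) ∧
    ∀ x ∈ Und G X S, x ∉ L → ∃ y ∈ Und G X S, G.Adj x y

/-- the neighbours of `a` in `X` -/
noncomputable def Nb (X : Finset α) (a : α) : Finset α := X.filter fun x => G.Adj a x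

/-- the bound -/
noncomputable def bd (X L : Finset α) : ℝ :=
  (4 / 3) ^ X.card * (27 / 16) ^ (nu G X) * (3 / 4) ^ (X ∩ L).card

variable {G}

theorem mem_Und {X S : Finset α} {v : α} :
    v ∈ Und G X S ↔ v ∈ X ∧ v ∉ S ∧ ∀ s ∈ S, ¬ G.Adj v s := by
  unfold Und; rw [mem_filter]

theorem mem_Iset {X L S : Finset α} :
    S ∈ Iset G X L ↔ S ⊆ X ∧ Disjoint S L ∧ Ind G S := by
  unfold Iset; rw [mem_filter, mem_powerset]

theorem mem_Tset {X L S : Finset α} :
    S ∈ Tset G X L ↔ S ⊆ X ∧ (Disjoint S L ∧ Ind G S) ∧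
      ∀ x ∈ Und G X S, x ∉ L → ∃ y ∈ Und G X S, G.Adj x y := by
  unfold Tset; rw [mem_filter, mem_powerset]

theorem mem_Nb {X : Finset α} {a x : α} : x ∈ Nb G X a ↔ x ∈ X ∧ G.Adj a x := by
  unfold Nb; rw [mem_filter]

theorem bd_pos (X L : Finset α) : 0 < bd G X L := by unfold bd; positivity

theorem inter_erase_card {X L : Finset α} {a : α} (ha : a ∈ X) :
    (X ∩ L).card = ((X.erase a) ∩ L).card + if a ∈ L then 1 else 0 := by
  rw [erase_inter]
  split_ifs with h
  · rw [card_erase_of_mem (mem_inter.2 ⟨ha, h⟩)]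
    have : 0 < (X ∩ L).card := card_pos.2 ⟨a, mem_inter.2 ⟨ha, h⟩⟩
    omega
  · rw [erase_eq_of_notMem (fun hm => h (mem_inter.1 hm).2)]; rfl

/-- removing an essential vertex -/
theorem bd_ess {X L : Finset α} {a : α} (ha : a ∈ X) (h : nu G (X.erase a) + 1 = nu G X) :
    bd G X L = (if a ∈ L then 27 / 16 else 9 / 4) * bd G (X.erase a) L := by
  unfold bd
  rw [inter_erase_card ha, ← h, card_erase_of_mem ha]
  obtain ⟨k, hk⟩ : ∃ k, X.card = k + 1 := ⟨X.card - 1, by have := card_pos.2 ⟨a, ha⟩; omega⟩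
  rw [hk, Nat.add_sub_cancel]
  split_ifs <;> ring

/-- removing an inessential vertex -/
theorem bd_iness {X L : Finset α} {a : α} (ha : a ∈ X) (h : nu G (X.erase a) = nu G X) :
    bd G X L = (if a ∈ L then 1 else 4 / 3) * bd G (X.erase a) L := by
  unfold bd
  rw [inter_erase_card ha, ← h, card_erase_of_mem ha]
  obtain ⟨k, hk⟩ : ∃ k, X.card = k + 1 := ⟨X.card - 1, by have := card_pos.2 ⟨a, ha⟩; omega⟩
  rw [hk, Nat.add_sub_cancel]
  split_ifs <;> ring

theorem nu_cases (X : Finset α) (a : α) :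
    nu G (X.erase a) + 1 = nu G X ∨ nu G (X.erase a) = nu G X := by
  have h1 := nu_le_succ (G := G) X a
  have h2 := nu_mono (G := G) (erase_subset a X)
  omega

theorem bd_erase {X L : Finset α} {a : α} (ha : a ∈ X) :
    bd G (X.erase a) L ≤ (if a ∈ L then 1 else 3 / 4) * bd G X L := by
  have h0 := bd_pos (G := G) (X.erase a) L
  rcases nu_cases (G := G) X a with h | h
  · rw [bd_ess ha h]
    split_ifs <;> linarith
  · rw [bd_iness ha h]
    split_ifs <;> linarith

theorem bd_sdiff {X L : Finset α} (Z : Finset α) (hZ : Z ⊆ X) :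
    bd G (X \ Z) L ≤ (3 / 4) ^ (Z \ L).card * bd G X L := by
  induction Z using Finset.induction_on with
  | empty => simp
  | insert a Z ha ih =>
    have h1 := ih ((subset_insert a Z).trans hZ)
    have haX : a ∈ X \ Z := mem_sdiff.2 ⟨hZ (mem_insert_self a Z), ha⟩
    have h2 := bd_erase (G := G) (L := L) haX
    have h3 : X \ insert a Z = (X \ Z).erase a := by
      ext v; simp only [mem_sdiff, mem_insert, mem_erase]; tauto
    rw [h3]
    by_cases haL : a ∈ L
    · rw [if_pos haL, one_mul] at h2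
      have h4 : (insert a Z) \ L = Z \ L := insert_sdiff_of_mem _ haL
      rw [h4]; exact h2.trans h1
    · rw [if_neg haL] at h2
      have h4 : ((insert a Z) \ L).card = (Z \ L).card + 1 := by
        rw [insert_sdiff_of_notMem _ haL, card_insert_of_notMem (fun hm => ha (mem_sdiff.1 hm).1)]
      rw [h4, pow_succ]
      linarith

theorem bd_loops {X L N : Finset α} (hN : N ⊆ X) :
    bd G X (L ∪ N) = (3 / 4) ^ (N \ L).card * bd G X L := by
  unfold bd
  have h1 : (X ∩ (L ∪ N)).card = (X ∩ L).card + (N \ L).card := by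
    rw [← card_union_of_disjoint]
    · congr 1
      ext v
      simp only [mem_inter, mem_union, mem_sdiff]
      constructor
      · rintro ⟨h1, h2 | h2⟩
        · exact Or.inl ⟨h1, h2⟩
        · by_cases h3 : v ∈ L
          · exact Or.inl ⟨h1, h3⟩
          · exact Or.inr ⟨h2, h3⟩
      · rintro (⟨h1, h2⟩ | ⟨h1, h2⟩)
        · exact ⟨h1, Or.inl h2⟩
        · exact ⟨hN h1, Or.inr h1⟩
    · rw [disjoint_left]
      intro v h1 h2
      exact (mem_sdiff.1 h2).2 (mem_inter.1 h1).2
  rw [h1, pow_add]; ring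

/-- sets containing `a` -/
theorem T_in {X L : Finset α} {a : α} (ha : a ∈ X) :
    ((Tset G X L).filter fun S => a ∈ S).card ≤ (Tset G (X \ insert a (Nb G X a)) L).card := by
  refine card_le_card_of_injOn (fun S => S.erase a) ?_ ?_
  · intro S hS
    rw [mem_coe, mem_filter, mem_Tset] at hS
    obtain ⟨⟨hSX, ⟨hSL, hI⟩, hU⟩, haS⟩ := hS
    rw [mem_coe, mem_Tset]
    refine ⟨?_, ⟨?_, ?_⟩, ?_⟩
    · intro x hx
      obtain ⟨hxa, hxS⟩ := mem_erase.1 hx
      rw [mem_sdiff, mem_insert, mem_Nb]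
      refine ⟨hSX hxS, ?_⟩
      rintro (h | ⟨_, h⟩)
      · exact hxa h
      · exact hI a haS x hxS h
    · exact disjoint_of_subset_left (erase_subset _ _) hSL
    · intro x hx y hy
      exact hI x (mem_of_mem_erase hx) y (mem_of_mem_erase hy)
    · intro x hx hxL
      rw [mem_Und, mem_sdiff, mem_insert, mem_Nb] at hx
      obtain ⟨⟨hxX, hxn⟩, hxS, hxadj⟩ := hx
      push Not at hxn
      have hxU : x ∈ Und G X S := by
        rw [mem_Und]
        refine ⟨hxX, fun h => hxS (mem_erase.2 ⟨hxn.1, h⟩), fun s hs => ?_⟩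
        by_cases hsa : s = a
        · subst hsa; exact fun h => hxn.2 hxX h.symm
        · exact hxadj s (mem_erase.2 ⟨hsa, hs⟩)
      obtain ⟨y, hy, hxy⟩ := hU x hxU hxL
      rw [mem_Und] at hy
      refine ⟨y, ?_, hxy⟩
      rw [mem_Und, mem_sdiff, mem_insert, mem_Nb]
      refine ⟨⟨hy.1, ?_⟩, fun h => hy.2.1 (mem_of_mem_erase h),
        fun s hs => hy.2.2 s (mem_of_mem_erase hs)⟩
      rintro (h | ⟨_, h⟩)
      · exact hy.2.1 (h ▸ haS)
      · exact hy.2.2 a haS h.symm
  · intro S hS S' hS' heq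
    rw [mem_coe, mem_filter] at hS hS'
    simp only at heq
    rw [← insert_erase hS.2, ← insert_erase hS'.2, heq]

/-- sets not containing `a` with a neighbour of `a` -/
theorem T_out {X L : Finset α} {a : α} {S : Finset α} (hS : S ∈ Tset G X L) (haS : a ∉ S)
    (hb : ∃ b ∈ S, G.Adj a b) : S ∈ Tset G (X.erase a) L := by
  rw [mem_Tset] at hS ⊢
  obtain ⟨hSX, hI, hU⟩ := hS
  obtain ⟨b, hbS, hab⟩ := hb
  have hEq : Und G (X.erase a) S = Und G X S := by
    ext x
    rw [mem_Und, mem_Und, mem_erase]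
    constructor
    · rintro ⟨⟨_, h1⟩, h2⟩; exact ⟨h1, h2⟩
    · rintro ⟨h1, h2⟩
      refine ⟨⟨?_, h1⟩, h2⟩
      rintro rfl
      exact h2.2 b hbS hab
  rw [hEq]
  exact ⟨fun x hx => mem_erase.2 ⟨fun h => haS (h ▸ hx), hSX hx⟩, hI, hU⟩

/-- sets not containing `a` without neighbours of `a` -/
theorem T_und {X L : Finset α} {a : α} {S : Finset α} (hS : S ∈ Tset G X L) (haS : a ∉ S)
    (hb : ¬ ∃ b ∈ S, G.Adj a b) : S ∈ Tset G (X.erase a) (L ∪ Nb G X a) := by
  rw [mem_Tset] at hS ⊢
  obtain ⟨hSX, ⟨hSL, hI⟩, hU⟩ := hS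
  push Not at hb
  refine ⟨fun x hx => mem_erase.2 ⟨fun h => haS (h ▸ hx), hSX hx⟩, ⟨?_, hI⟩, ?_⟩
  · rw [disjoint_union_right]
    refine ⟨hSL, ?_⟩
    rw [disjoint_left]
    intro x hx hx'
    exact hb x hx (mem_Nb.1 hx').2
  · intro x hx hxL
    rw [mem_Und, mem_erase] at hx
    rw [mem_union, mem_Nb] at hxL
    push Not at hxL
    obtain ⟨y, hy, hxy⟩ := hU x (mem_Und.2 ⟨hx.1.2, hx.2⟩) hxL.1
    refine ⟨y, ?_, hxy⟩
    rw [mem_Und] at hy
    rw [mem_Und, mem_erase]
    refine ⟨⟨?_, hy.1⟩, hy.2⟩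
    rintro rfl
    exact hxL.2 hx.1.2 hxy.symm

/-- two parts without edges between them -/
theorem T_split {X L Y : Finset α} (hY : Y ⊆ X) (hcl : ∀ y ∈ Y, ∀ x ∈ X, G.Adj y x → x ∈ Y) :
    (Tset G X L).card ≤ (Tset G Y L).card * (Tset G (X \ Y) L).card := by
  rw [← card_product]
  refine card_le_card_of_injOn (fun S => (S ∩ Y, S \ Y)) ?_ ?_
  · intro S hS
    rw [mem_coe, mem_Tset] at hS
    obtain ⟨hSX, ⟨hSL, hI⟩, hU⟩ := hS
    rw [mem_coe, mem_product, mem_Tset, mem_Tset]
    refine ⟨⟨inter_subset_right, ⟨disjoint_of_subset_left inter_subset_left hSL,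
      fun x hx y hy => hI x (mem_inter.1 hx).1 y (mem_inter.1 hy).1⟩, ?_⟩,
      ⟨fun x hx => ?_, ⟨disjoint_of_subset_left sdiff_subset hSL,
      fun x hx y hy => hI x (mem_sdiff.1 hx).1 y (mem_sdiff.1 hy).1⟩, ?_⟩⟩
    · intro x hx hxL
      rw [mem_Und] at hx
      obtain ⟨hxY, hxS, hxa⟩ := hx
      obtain ⟨y, hy, hxy⟩ := hU x (mem_Und.2 ⟨hY hxY, fun h => hxS (mem_inter.2 ⟨h, hxY⟩),
        fun s hs h => hxa s (mem_inter.2 ⟨hs, hcl x hxY s (hSX hs) h⟩) h⟩) hxL
      rw [mem_Und] at hy
      exact ⟨y, mem_Und.2 ⟨hcl x hxY y hy.1 hxy, fun h => hy.2.1 (mem_inter.1 h).1,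
        fun s hs => hy.2.2 s (mem_inter.1 hs).1⟩, hxy⟩
    · exact mem_sdiff.2 ⟨hSX (mem_sdiff.1 hx).1, (mem_sdiff.1 hx).2⟩
    · intro x hx hxL
      rw [mem_Und, mem_sdiff] at hx
      obtain ⟨⟨hxX, hxY⟩, hxS, hxa⟩ := hx
      obtain ⟨y, hy, hxy⟩ := hU x (mem_Und.2 ⟨hxX, fun h => hxS (mem_sdiff.2 ⟨h, hxY⟩),
        fun s hs h => by
          by_cases hsY : s ∈ Y
          · exact hxY (hcl s hsY x hxX h.symm)
          · exact hxa s (mem_sdiff.2 ⟨hs, hsY⟩) h⟩) hxL
      rw [mem_Und] at hy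
      refine ⟨y, mem_Und.2 ⟨mem_sdiff.2 ⟨hy.1, fun h => hxY (hcl y h x hxX hxy.symm)⟩,
        fun h => hy.2.1 (mem_sdiff.1 h).1, fun s hs => hy.2.2 s (mem_sdiff.1 hs).1⟩, hxy⟩
  · intro S _ S' _ heq
    simp only [Prod.mk.injEq] at heq
    rw [← sdiff_union_inter S Y, ← sdiff_union_inter S' Y, heq.1, heq.2]

/-- independent sets in a vertex set with a perfect matching -/
theorem I_perfect (L : Finset α) (m : ℕ) : ∀ X : Finset α, X.card = 2 * m → nu G X = m →
    ((Iset G X L).card : ℝ) ≤ 3 ^ m * (3 / 4) ^ (X ∩ L).card := by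
  induction m with
  | zero =>
    intro X hX _
    have : X = ∅ := by rw [← card_eq_zero]; simpa using hX
    subst this
    have h1 : Iset G ∅ L ⊆ {∅} := by
      intro S hS
      rw [mem_Iset] at hS
      rw [mem_singleton]; exact subset_empty.1 hS.1
    have h2 := card_le_card h1
    rw [card_singleton] at h2
    simp only [pow_zero, empty_inter, card_empty, mul_one]
    exact_mod_cast h2
  | succ m ih =>
    intro X hX hnu
    obtain ⟨M, hM, hMc⟩ := exists_max (G := G) X
    have hne : M.Nonempty := by rw [← card_pos]; omega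
    obtain ⟨e, he⟩ := hne
    obtain ⟨h1, h2⟩ := hM.1 e he
    induction e using Sym2.ind with
    | _ x y =>
      have hxX := h2 x (Sym2.mem_mk_left x y)
      have hyX := h2 y (Sym2.mem_mk_right x y)
      have hxy : G.Adj x y := h1
      have hne : x ≠ y := G.ne_of_adj hxy
      have hyX' : y ∈ X.erase x := mem_erase.2 ⟨hne.symm, hyX⟩
      set X' := (X.erase x).erase y with hX'
      have hc' : X'.card = 2 * m := by
        rw [hX', card_erase_of_mem hyX', card_erase_of_mem hxX]; omega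
      have hM' : IsM G X' (M.erase s(x, y)) := by
        have h3 := hM.subset (erase_subset s(x, y) M)
        refine (h3.erase (v := x) ?_).erase (v := y) ?_
        · intro f hf hxf
          exact (ne_of_mem_erase hf) (hM.2 x f (mem_of_mem_erase hf) _ he hxf (Sym2.mem_mk_left x y))
        · intro f hf hyf
          exact (ne_of_mem_erase hf) (hM.2 y f (mem_of_mem_erase hf) _ he hyf (Sym2.mem_mk_right x y))
      have hnu' : nu G X' = m := by
        have h3 := le_nu hM'
        rw [card_erase_of_mem he] at h3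
        have h4 := two_nu_le (G := G) X'
        omega
      have hih := ih X' hc' hnu'
      -- the three parts
      have hin : ∀ z ∈ X, (z = x ∨ z = y) → ((Iset G X L).filter fun S => z ∈ S).card
          ≤ if z ∈ L then 0 else (Iset G X' L).card := by
        intro z hz hzxy
        split_ifs with hzL
        · rw [Nat.le_zero, card_eq_zero, filter_eq_empty_iff]
          intro S hS hzS
          rw [mem_Iset] at hS
          exact (disjoint_left.1 hS.2.1) hzS hzL
        · refine card_le_card_of_injOn (fun S => S.erase z) ?_ ?_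
          · intro S hS
            rw [mem_coe, mem_filter, mem_Iset] at hS
            obtain ⟨⟨hSX, hSL, hI⟩, hzS⟩ := hS
            rw [mem_coe, mem_Iset]
            refine ⟨?_, disjoint_of_subset_left (erase_subset _ _) hSL,
              fun u hu v hv => hI u (mem_of_mem_erase hu) v (mem_of_mem_erase hv)⟩
            intro u hu
            obtain ⟨huz, huS⟩ := mem_erase.1 hu
            rw [hX', mem_erase, mem_erase]
            rcases hzxy with rfl | rfl
            · exact ⟨fun h => hI z hzS u huS (h ▸ hxy), huz, hSX huS⟩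
            · exact ⟨huz, fun h => hI u huS z hzS (h ▸ hxy), hSX huS⟩
          · intro S hS S' hS' heq
            rw [mem_coe, mem_filter] at hS hS'
            simp only at heq
            rw [← insert_erase hS.2, ← insert_erase hS'.2, heq]
      have hcover : Iset G X L ⊆ ((Iset G X L).filter fun S => x ∈ S) ∪
          (((Iset G X L).filter fun S => y ∈ S) ∪ Iset G X' L) := by
        intro S hS
        rw [mem_union, mem_union, mem_filter, mem_filter]
        by_cases hxS : x ∈ S
        · exact Or.inl ⟨hS, hxS⟩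
        by_cases hyS : y ∈ S
        · exact Or.inr (Or.inl ⟨hS, hyS⟩)
        · refine Or.inr (Or.inr ?_)
          rw [mem_Iset] at hS ⊢
          refine ⟨fun u hu => ?_, hS.2⟩
          rw [hX', mem_erase, mem_erase]
          exact ⟨fun h => hyS (h ▸ hu), fun h => hxS (h ▸ hu), hS.1 hu⟩
      have hcard := (card_le_card hcover).trans ((card_union_le _ _).trans
        (Nat.add_le_add_left (card_union_le _ _) _))
      have hx1 := hin x hxX (Or.inl rfl)
      have hy1 := hin y hyX (Or.inr rfl)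
      rw [inter_erase_card hxX, inter_erase_card hyX']
      have hc2 : ((Iset G X L).card : ℝ) ≤ ((if x ∈ L then 0 else (Iset G X' L).card : ℕ) : ℝ)
          + (((if y ∈ L then 0 else (Iset G X' L).card : ℕ) : ℝ) + (Iset G X' L).card) := by
        exact_mod_cast hcard.trans (by omega)
      rw [← hX']
      set c : ℝ := ((Iset G X' L).card : ℝ) with hcdef
      set p : ℝ := (3 : ℝ) ^ m * (3 / 4) ^ (X' ∩ L).card with hp
      have hp0 : 0 < p := by positivity
      by_cases hxL : x ∈ L <;> by_cases hyL : y ∈ L <;>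
        simp only [hxL, hyL, if_true, if_false, Nat.cast_zero] at hc2 ⊢
      · rw [show (3 : ℝ) ^ (m + 1) * (3 / 4) ^ ((X' ∩ L).card + 1 + 1) = 27 / 16 * p by
          rw [hp]; ring]
        linarith
      · rw [show (3 : ℝ) ^ (m + 1) * (3 / 4) ^ ((X' ∩ L).card + 0 + 1) = 9 / 4 * p by
          rw [hp]; ring]
        linarith
      · rw [show (3 : ℝ) ^ (m + 1) * (3 / 4) ^ ((X' ∩ L).card + 1 + 0) = 9 / 4 * p by
          rw [hp]; ring]
        linarith
      · rw [show (3 : ℝ) ^ (m + 1) * (3 / 4) ^ ((X' ∩ L).card + 0 + 0) = 3 * p by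
          rw [hp]; ring]
        linarith

end Pool.Agent.X47.CE
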