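import Pool.Agent.X47.CE2

/-!
# The counting bound: `T(X, L) ≤ (4/3)^|X| (27/16)^ν(X) (3/4)^|X ∩ L|`
-/

open Finset
open scoped Classical

namespace Pool.Agent.X47.CE

variable {α : Type*} {G : SimpleGraph α}

theorem T_three (X L : Finset α) (a : α) :
    (Tset G X L).card ≤ ((Tset G X L).filter fun S => a ∈ S).card +
      (((Tset G X L).filter fun S => a ∉ S ∧ ∃ b ∈ S, G.Adj a b).card +
      ((Tset G X L).filter fun S => a ∉ S ∧ ¬ ∃ b ∈ S, G.Adj a b).card) := by
  have hcover : Tset G X L ⊆ ((Tset G X L).filter fun S => a ∈ S) ∪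
      (((Tset G X L).filter fun S => a ∉ S ∧ ∃ b ∈ S, G.Adj a b) ∪
      ((Tset G X L).filter fun S => a ∉ S ∧ ¬ ∃ b ∈ S, G.Adj a b)) := by
    intro S hS
    rw [mem_union, mem_union, mem_filter, mem_filter, mem_filter]
    by_cases h1 : a ∈ S
    · exact Or.inl ⟨hS, h1⟩
    by_cases h2 : ∃ b ∈ S, G.Adj a b
    · exact Or.inr (Or.inl ⟨hS, h1, h2⟩)
    · exact Or.inr (Or.inr ⟨hS, h1, h2⟩)
  exact (card_le_card hcover).trans ((card_union_le _ _).trans
    (Nat.add_le_add_left (card_union_le _ _) _))

theorem sdiff_insert_Nb (X : Finset α) (a : α) :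
    X \ insert a (Nb G X a) = (X.erase a) \ (Nb G X a) := by
  ext v
  simp only [mem_sdiff, mem_insert, mem_erase]
  tauto

theorem Nb_sub_erase (X : Finset α) (a : α) : Nb G X a ⊆ X.erase a := by
  intro x hx
  rw [mem_Nb] at hx
  rw [mem_erase]
  exact ⟨fun h => G.loopless.irrefl a (h ▸ hx.2), hx.1⟩

theorem pow_bound {k v q : ℕ} (h1 : 2 * v ≤ k) (h2 : k ≤ 2 * q) :
    ((4 : ℝ) / 3) ^ k * (27 / 16) ^ v ≤ 3 ^ q := by
  have h3 : (((4 : ℝ) / 3) ^ k * (27 / 16) ^ v) ^ 2 ≤ ((3 : ℝ) ^ q) ^ 2 := by
    calc (((4 : ℝ) / 3) ^ k * (27 / 16) ^ v) ^ 2 = (16 / 9) ^ k * (27 / 16) ^ (2 * v) := by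
          rw [mul_pow, ← pow_mul, ← pow_mul, mul_comm k 2, mul_comm v 2, pow_mul, pow_mul (27 / 16 : ℝ)]
          norm_num
      _ ≤ (16 / 9) ^ k * (27 / 16) ^ k := by
          apply mul_le_mul_of_nonneg_left _ (by positivity)
          exact pow_le_pow_right₀ (by norm_num) h1
      _ = 3 ^ k := by rw [← mul_pow]; norm_num
      _ ≤ 3 ^ (2 * q) := pow_le_pow_right₀ (by norm_num) h2
      _ = ((3 : ℝ) ^ q) ^ 2 := by rw [← pow_mul, mul_comm]
  exact (pow_le_pow_iff_left₀ (by positivity) (by positivity) two_ne_zero).1 h3

/-- the main counting bound -/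
theorem main (n : ℕ) : ∀ X L : Finset α, X.card = n → ((Tset G X L).card : ℝ) ≤ bd G X L := by
  induction n using Nat.strong_induction_on with
  | _ n IH =>
    intro X L hXn
    rcases X.eq_empty_or_nonempty with rfl | hXne
    · have h1 : Tset G ∅ L ⊆ {∅} := by
        intro S hS
        rw [mem_Tset] at hS
        rw [mem_singleton]; exact subset_empty.1 hS.1
      have h2 := card_le_card h1
      rw [card_singleton] at h2
      have h3 : nu G (∅ : Finset α) = 0 := by
        have := two_nu_le (G := G) (∅ : Finset α)
        simp only [card_empty] at this; omega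
      unfold bd
      rw [h3]
      simp only [card_empty, pow_zero, empty_inter, mul_one]
      exact_mod_cast h2
    by_cases hconn : Conn G X
    swap
    · -- disconnected
      unfold Conn at hconn
      push Not at hconn
      obtain ⟨Y, hYX, hYne, hcl, hne⟩ := hconn
      have hYc : Y.card < n := by
        rw [← hXn]
        exact card_lt_card (hYX.ssubset_of_ne hne)
      have hZc : (X \ Y).card < n := by
        rw [card_sdiff_of_subset hYX, hXn]
        have := card_pos.2 hYne
        have := card_pos.2 hXne
        omega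
      have h1 := IH _ hYc Y L rfl
      have h2 := IH _ hZc (X \ Y) L rfl
      have h3 := T_split (G := G) (L := L) hYX hcl
      have h4 : ((Tset G X L).card : ℝ) ≤ (Tset G Y L).card * (Tset G (X \ Y) L).card := by
        exact_mod_cast h3
      refine h4.trans ((mul_le_mul h1 h2 (by positivity) (bd_pos _ _).le).trans ?_)
      have h5 : nu G Y + nu G (X \ Y) ≤ nu G X := by
        have := nu_add_le (G := G) (disjoint_sdiff (s := Y) (t := X))
        rwa [union_sdiff_of_subset hYX] at this
      have h6 : X.card = Y.card + (X \ Y).card := by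
        rw [card_sdiff_of_subset hYX]
        have := card_le_card hYX
        omega
      have h7 : (X ∩ L).card = (Y ∩ L).card + ((X \ Y) ∩ L).card := by
        rw [← card_union_of_disjoint]
        · congr 1
          ext v
          simp only [mem_inter, mem_union, mem_sdiff]
          constructor
          · rintro ⟨h1, h2⟩
            by_cases h3 : v ∈ Y
            · exact Or.inl ⟨h3, h2⟩
            · exact Or.inr ⟨⟨h1, h3⟩, h2⟩
          · rintro (⟨h1, h2⟩ | ⟨⟨h1, _⟩, h2⟩)
            · exact ⟨hYX h1, h2⟩
            · exact ⟨h1, h2⟩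
        · rw [disjoint_left]
          intro v h1 h2
          exact (mem_sdiff.1 (mem_inter.1 h2).1).2 (mem_inter.1 h1).1
      unfold bd
      rw [h6, h7, pow_add, pow_add]
      have h8 : ((27 : ℝ) / 16) ^ (nu G Y) * (27 / 16) ^ (nu G (X \ Y)) ≤ (27 / 16) ^ (nu G X) := by
        rw [← pow_add]
        exact pow_le_pow_right₀ (by norm_num) h5
      have h9 : (0 : ℝ) ≤ (4 / 3) ^ Y.card * (4 / 3) ^ (X \ Y).card *
          ((3 / 4) ^ (Y ∩ L).card * (3 / 4) ^ ((X \ Y) ∩ L).card) := by positivity
      calc (4 / 3 : ℝ) ^ Y.card * (27 / 16) ^ nu G Y * (3 / 4) ^ (Y ∩ L).card *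
            ((4 / 3) ^ (X \ Y).card * (27 / 16) ^ nu G (X \ Y) * (3 / 4) ^ ((X \ Y) ∩ L).card)
          = ((4 / 3) ^ Y.card * (4 / 3) ^ (X \ Y).card *
          ((3 / 4) ^ (Y ∩ L).card * (3 / 4) ^ ((X \ Y) ∩ L).card)) *
            ((27 / 16) ^ (nu G Y) * (27 / 16) ^ (nu G (X \ Y))) := by ring
        _ ≤ ((4 / 3) ^ Y.card * (4 / 3) ^ (X \ Y).card *
          ((3 / 4) ^ (Y ∩ L).card * (3 / 4) ^ ((X \ Y) ∩ L).card)) * (27 / 16) ^ (nu G X) :=
            mul_le_mul_of_nonneg_left h8 h9
        _ = _ := by ring
    by_cases hess : ∃ a ∈ X, nu G (X.erase a) + 1 = nu G X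
    · -- an essential vertex
      obtain ⟨a, haX, haess⟩ := hess
      set N := Nb G X a with hN
      set X1 := X.erase a with hX1
      have hX1c : X1.card < n := by
        rw [hX1, card_erase_of_mem haX, hXn]
        have := card_pos.2 ⟨a, haX⟩
        omega
      have hNX1 : N ⊆ X1 := Nb_sub_erase X a
      set β := bd G X1 L with hβ
      have hβ0 : 0 < β := bd_pos _ _
      set j := (N \ L).card with hj
      have hbdX : bd G X L = (if a ∈ L then 27 / 16 else 9 / 4) * β := bd_ess haX haess
      -- the part containing `a`
      have hin : (((Tset G X L).filter fun S => a ∈ S).card : ℝ)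
          ≤ if a ∈ L then 0 else (3 / 4) ^ j * β := by
        split_ifs with haL
        · have : ((Tset G X L).filter fun S => a ∈ S).card = 0 := by
            rw [card_eq_zero, filter_eq_empty_iff]
            intro S hS haS
            rw [mem_Tset] at hS
            exact (disjoint_left.1 hS.2.1.1) haS haL
          rw [this]; simp
        · have h1 := T_in (G := G) (L := L) haX
          rw [sdiff_insert_Nb] at h1
          have h2 := IH _ (lt_of_le_of_lt (card_le_card sdiff_subset) hX1c) (X1 \ N) L rfl
          have h3 := bd_sdiff (G := G) (L := L) N hNX1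
          calc (((Tset G X L).filter fun S => a ∈ S).card : ℝ) ≤ (Tset G (X1 \ N) L).card := by
                exact_mod_cast h1
            _ ≤ bd G (X1 \ N) L := h2
            _ ≤ _ := h3
      -- the undecided part
      have hund : (((Tset G X L).filter fun S => a ∉ S ∧ ¬ ∃ b ∈ S, G.Adj a b).card : ℝ)
          ≤ (3 / 4) ^ j * β := by
        have h1 : ((Tset G X L).filter fun S => a ∉ S ∧ ¬ ∃ b ∈ S, G.Adj a b)
            ⊆ Tset G X1 (L ∪ N) := by
          intro S hS
          rw [mem_filter] at hS
          exact T_und hS.1 hS.2.1 hS.2.2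
        have h2 := IH _ hX1c X1 (L ∪ N) rfl
        rw [bd_loops hNX1] at h2
        exact le_trans (by exact_mod_cast card_le_card h1) h2
      -- the part where `a` is out
      have hout1 : (((Tset G X L).filter fun S => a ∉ S ∧ ∃ b ∈ S, G.Adj a b).card : ℝ) ≤ β := by
        have h1 : ((Tset G X L).filter fun S => a ∉ S ∧ ∃ b ∈ S, G.Adj a b)
            ⊆ Tset G X1 L := by
          intro S hS
          rw [mem_filter] at hS
          exact T_out hS.1 hS.2.1 hS.2.2
        exact le_trans (by exact_mod_cast card_le_card h1) (IH _ hX1c X1 L rfl)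
      have hout : (((Tset G X L).filter fun S => a ∉ S ∧ ∃ b ∈ S, G.Adj a b).card : ℝ)
          ≤ if j = 0 then 0 else if j = 1 then 3 / 4 * β else β := by
        split_ifs with hj0 hj1
        · have : ((Tset G X L).filter fun S => a ∉ S ∧ ∃ b ∈ S, G.Adj a b).card = 0 := by
            rw [card_eq_zero, filter_eq_empty_iff]
            rintro S hS ⟨_, b, hbS, hab⟩
            rw [mem_Tset] at hS
            rw [hj, card_eq_zero] at hj0
            have : b ∈ N \ L := mem_sdiff.2 ⟨mem_Nb.2 ⟨hS.1 hbS, hab⟩,
              fun h => (disjoint_left.1 hS.2.1.1) hbS h⟩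
            rw [hj0] at this
            exact notMem_empty _ this
          rw [this]; simp
        · rw [hj, card_eq_one] at hj1
          obtain ⟨b, hb⟩ := hj1
          have hbN : b ∈ N \ L := by rw [hb]; exact mem_singleton_self b
          have hbX1 : b ∈ X1 := hNX1 (mem_sdiff.1 hbN).1
          have hbL : b ∉ L := (mem_sdiff.1 hbN).2
          have h1 : ((Tset G X L).filter fun S => a ∉ S ∧ ∃ b ∈ S, G.Adj a b)
              ⊆ (Tset G X1 L).filter fun S => b ∈ S := by
            intro S hS
            rw [mem_filter] at hS ⊢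
            refine ⟨T_out hS.1 hS.2.1 hS.2.2, ?_⟩
            obtain ⟨hS1, _, c, hcS, hac⟩ := hS
            rw [mem_Tset] at hS1
            have : c ∈ N \ L := mem_sdiff.2 ⟨mem_Nb.2 ⟨hS1.1 hcS, hac⟩,
              fun h => (disjoint_left.1 hS1.2.1.1) hcS h⟩
            rw [hb, mem_singleton] at this
            exact this ▸ hcS
          have h2 := (card_le_card h1).trans (T_in (G := G) (L := L) hbX1)
          have h3 := IH _ (lt_of_le_of_lt (card_le_card sdiff_subset) hX1c)
            (X1 \ insert b (Nb G X1 b)) L rfl
          have h4 := bd_sdiff (G := G) (L := L) (insert b (Nb G X1 b)) (X := X1) (by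
            intro v hv
            rcases mem_insert.1 hv with rfl | hv
            · exact hbX1
            · exact (mem_Nb.1 hv).1)
          have h5 : ((3 : ℝ) / 4) ^ ((insert b (Nb G X1 b)) \ L).card ≤ 3 / 4 := by
            have h6 : 1 ≤ ((insert b (Nb G X1 b)) \ L).card :=
              card_pos.2 ⟨b, mem_sdiff.2 ⟨mem_insert_self _ _, hbL⟩⟩
            calc ((3 : ℝ) / 4) ^ ((insert b (Nb G X1 b)) \ L).card ≤ (3 / 4) ^ 1 :=
                  pow_le_pow_of_le_one (by norm_num) (by norm_num) h6
              _ = 3 / 4 := pow_one _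
          calc (((Tset G X L).filter fun S => a ∉ S ∧ ∃ b ∈ S, G.Adj a b).card : ℝ)
              ≤ (Tset G (X1 \ insert b (Nb G X1 b)) L).card := by exact_mod_cast h2
            _ ≤ bd G (X1 \ insert b (Nb G X1 b)) L := h3
            _ ≤ (3 / 4) ^ ((insert b (Nb G X1 b)) \ L).card * β := h4
            _ ≤ 3 / 4 * β := mul_le_mul_of_nonneg_right h5 hβ0.le
        · exact hout1
      have h3 : ((Tset G X L).card : ℝ) ≤ (((Tset G X L).filter fun S => a ∈ S).card : ℝ) +
          ((((Tset G X L).filter fun S => a ∉ S ∧ ∃ b ∈ S, G.Adj a b).card : ℝ) +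
          (((Tset G X L).filter fun S => a ∉ S ∧ ¬ ∃ b ∈ S, G.Adj a b).card : ℝ)) := by
        exact_mod_cast T_three (G := G) X L a
      rw [hbdX]
      rcases Nat.lt_or_ge j 2 with hj2 | hj2
      · interval_cases hjj : j
        · simp only [if_true, pow_zero, one_mul] at hin hout hund
          split_ifs at hin ⊢ <;> linarith
        · simp only [one_ne_zero, if_false, if_true, pow_one] at hin hout hund
          split_ifs at hin ⊢ <;> linarith
      · have h4 : ((3 : ℝ) / 4) ^ j ≤ 9 / 16 := by
          calc ((3 : ℝ) / 4) ^ j ≤ (3 / 4) ^ 2 := pow_le_pow_of_le_one (by norm_num) (by norm_num) hj2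
            _ = 9 / 16 := by norm_num
        have h5 : ((3 : ℝ) / 4) ^ j * β ≤ 9 / 16 * β := mul_le_mul_of_nonneg_right h4 hβ0.le
        split_ifs at hin ⊢ <;> linarith
    · -- every vertex is inessential
      push Not at hess
      have hall : ∀ v ∈ X, nu G (X.erase v) = nu G X := fun v hv =>
        (nu_cases X v).resolve_left (hess v hv)
      have hgal := gallai hall hconn
      set m := nu G X with hm
      obtain ⟨v0, hv0⟩ := hXne
      have hcard : X.card = 2 * m + 1 := by
        have h1 := two_nu_le (G := G) (X.erase v0)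
        rw [hall v0 hv0, card_erase_of_mem hv0] at h1
        have := card_pos.2 ⟨v0, hv0⟩
        omega
      have hperf : ∀ v ∈ X, ((Iset G (X.erase v) L).card : ℝ)
          ≤ 3 ^ m * (3 / 4) ^ ((X.erase v) ∩ L).card := fun v hv =>
        I_perfect L m (X.erase v) (by rw [card_erase_of_mem hv, hcard]; omega) (hall v hv)
      have hbd : bd G X L = 4 / 3 * 3 ^ m * (3 / 4) ^ (X ∩ L).card := by
        unfold bd
        rw [hcard, ← hm, pow_succ, pow_mul]
        have : ((4 : ℝ) / 3) ^ 2 * (27 / 16) = 3 := by norm_num
        rw [show (((4 : ℝ) / 3) ^ 2) ^ m * (4 / 3) * (27 / 16) ^ m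
          = (4 / 3) * ((((4 : ℝ) / 3) ^ 2) ^ m * (27 / 16) ^ m) by ring, ← mul_pow, this]
      rw [hbd]
      rcases (X ∩ L).eq_empty_or_nonempty with hL | ⟨v, hv⟩
      · -- no loops
        rw [hL, card_empty, pow_zero, mul_one]
        have h1 : (Tset G X L).card ≤ ((Tset G X L).filter fun S => v0 ∈ S).card +
            ((Tset G X L).filter fun S => ¬ v0 ∈ S).card :=
          (card_filter_add_card_filter_not (s := Tset G X L) (fun S => v0 ∈ S)).ge
        have h2 := T_in (G := G) (L := L) hv0
        have h3 := IH _ (by
          rw [← hXn]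
          exact card_lt_card ⟨sdiff_subset, fun h => by
            have := h hv0
            rw [mem_sdiff, mem_insert] at this
            exact this.2 (Or.inl rfl)⟩) (X \ insert v0 (Nb G X v0)) L rfl
        have h4 : bd G (X \ insert v0 (Nb G X v0)) L
            ≤ (4 / 3) ^ (X \ insert v0 (Nb G X v0)).card * (27 / 16) ^
              (nu G (X \ insert v0 (Nb G X v0))) := by
          unfold bd
          apply mul_le_of_le_one_right (by positivity)
          exact pow_le_one₀ (by norm_num) (by norm_num)
        have hNc : (X \ insert v0 (Nb G X v0)).card + (Nb G X v0).card = 2 * m := by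
          rw [sdiff_insert_Nb, card_sdiff_of_subset (Nb_sub_erase X v0), card_erase_of_mem hv0, hcard]
          have := card_le_card (Nb_sub_erase (G := G) X v0)
          rw [card_erase_of_mem hv0, hcard] at this
          omega
        rcases Nat.eq_zero_or_pos m with hm0 | hm0
        · -- a single vertex
          have hX1 : X = {v0} := by
            have : X.card = 1 := by omega
            obtain ⟨w, hw⟩ := card_eq_one.1 this
            rw [hw] at hv0 ⊢
            rw [mem_singleton.1 hv0]
          have h5 : ((Tset G X L).filter fun S => ¬ v0 ∈ S).card = 0 := by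
            rw [card_eq_zero, filter_eq_empty_iff]
            intro S hS hn
            apply hn
            by_contra hcon
            rw [mem_Tset] at hS
            have hSe : S = ∅ := by
              rw [eq_empty_iff_forall_notMem]
              intro x hx
              have := hS.1 hx
              rw [hX1, mem_singleton] at this
              exact hcon (this ▸ hx)
            have hU : v0 ∈ Und G X S := by
              rw [mem_Und]
              exact ⟨hv0, hcon, fun s hs => by rw [hSe] at hs; exact absurd hs (notMem_empty _)⟩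
            have hvL : v0 ∉ L := fun h => by
              have : v0 ∈ X ∩ L := mem_inter.2 ⟨hv0, h⟩
              rw [hL] at this
              exact notMem_empty _ this
            obtain ⟨y, hy, hvy⟩ := hS.2.2 v0 hU hvL
            have hyX := (mem_Und.1 hy).1
            rw [hX1, mem_singleton] at hyX
            exact G.loopless.irrefl v0 (hyX ▸ hvy)
          have h6 : (4 / 3 : ℝ) ^ (X \ insert v0 (Nb G X v0)).card * (27 / 16) ^
              (nu G (X \ insert v0 (Nb G X v0))) ≤ 3 ^ 0 :=
            pow_bound (two_nu_le _) (by omega)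
          rw [hm0, pow_zero, mul_one]
          rw [pow_zero] at h6
          have h7 : ((Tset G X L).card : ℝ) ≤ (Tset G (X \ insert v0 (Nb G X v0)) L).card := by
            exact_mod_cast h1.trans (by omega)
          linarith
        · -- at least three vertices
          have hdeg : 2 ≤ (Nb G X v0).card := by
            by_contra hcon
            push Not at hcon
            rcases Nat.eq_zero_or_pos (Nb G X v0).card with h0 | h0
            · rw [card_eq_zero] at h0
              have := hconn {v0} (singleton_subset_iff.2 hv0) (singleton_nonempty v0) (by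
                intro y hy x hx hyx
                rw [mem_singleton] at hy
                subst hy
                have : x ∈ Nb G X y := mem_Nb.2 ⟨hx, hyx⟩
                rw [h0] at this
                exact absurd this (notMem_empty _))
              rw [← this, card_singleton] at hcard
              omega
            · have h1 : (Nb G X v0).card = 1 := by omega
              obtain ⟨w, hw⟩ := card_eq_one.1 h1
              have hwN : w ∈ Nb G X v0 := by rw [hw]; exact mem_singleton_self w
              have hwX := (mem_Nb.1 hwN).1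
              have hv0w : v0 ∈ X.erase w := mem_erase.2
                ⟨fun h => G.loopless.irrefl v0 (by have := (mem_Nb.1 hwN).2; rwa [← h] at this), hv0⟩
              obtain ⟨M, hM, hMc⟩ := exists_max (G := G) (X.erase w)
              have hM2 : IsM G ((X.erase w).erase v0) M := by
                refine hM.erase ?_
                intro e he hve
                obtain ⟨z, rfl⟩ := Sym2.mem_iff_exists.1 hve
                have hz := (hM.1 _ he).2 z (Sym2.mem_mk_right v0 z)
                have hadj : G.Adj v0 z := (hM.1 _ he).1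
                have : z ∈ Nb G X v0 := mem_Nb.2 ⟨mem_of_mem_erase hz, hadj⟩
                rw [hw, mem_singleton] at this
                exact (ne_of_mem_erase hz) this
              have h2 := le_nu hM2
              rw [hMc, hall w hwX] at h2
              have h3 := two_nu_le (G := G) ((X.erase w).erase v0)
              rw [card_erase_of_mem hv0w, card_erase_of_mem hwX, hcard] at h3
              omega
          have h6 : (4 / 3 : ℝ) ^ (X \ insert v0 (Nb G X v0)).card * (27 / 16) ^
              (nu G (X \ insert v0 (Nb G X v0))) ≤ 3 ^ (m - 1) :=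
            pow_bound (two_nu_le _) (by omega)
          have h7 : ((Tset G X L).filter fun S => ¬ v0 ∈ S) ⊆ Iset G (X.erase v0) L := by
            intro S hS
            rw [mem_filter, mem_Tset] at hS
            rw [mem_Iset]
            exact ⟨fun x hx => mem_erase.2 ⟨fun h => hS.2 (h ▸ hx), hS.1.1 hx⟩, hS.1.2.1⟩
          have h8 : (((Tset G X L).filter fun S => ¬ v0 ∈ S).card : ℝ) ≤ 3 ^ m := by
            refine le_trans (by exact_mod_cast card_le_card h7) ((hperf v0 hv0).trans ?_)
            apply mul_le_of_le_one_right (by positivity)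
            exact pow_le_one₀ (by norm_num) (by norm_num)
          have h9 : (((Tset G X L).filter fun S => v0 ∈ S).card : ℝ) ≤ 3 ^ (m - 1) := by
            refine le_trans (by exact_mod_cast h2) (h3.trans (h4.trans h6))
          have h10 : ((Tset G X L).card : ℝ) ≤ 3 ^ (m - 1) + 3 ^ m := by
            have : ((Tset G X L).card : ℝ) ≤ (((Tset G X L).filter fun S => v0 ∈ S).card : ℝ)
              + (((Tset G X L).filter fun S => ¬ v0 ∈ S).card : ℝ) := by exact_mod_cast h1
            linarith
          have h11 : (3 : ℝ) ^ m = 3 * 3 ^ (m - 1) := by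
            obtain ⟨q, hq⟩ : ∃ q, m = q + 1 := ⟨m - 1, by omega⟩
            rw [hq, Nat.add_sub_cancel, pow_succ]; ring
          rw [h11] at h10 ⊢
          linarith
      · -- a looped vertex
        obtain ⟨hvX, hvL⟩ := mem_inter.1 hv
        have h1 : Tset G X L ⊆ Iset G (X.erase v) L := by
          intro S hS
          rw [mem_Tset] at hS
          rw [mem_Iset]
          refine ⟨fun x hx => mem_erase.2 ⟨fun h => ?_, hS.1 hx⟩, hS.2.1⟩
          exact (disjoint_left.1 hS.2.1.1) hx (h ▸ hvL)
        have h2 := hperf v hvX
        rw [inter_erase_card hvX, if_pos hvL, pow_succ]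
        refine le_trans (by exact_mod_cast card_le_card h1) (h2.trans (le_of_eq ?_))
        ring

end Pool.Agent.X47.CE
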