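import Pool.Agent.X47.CE3

/-!
# Complete extensions of argumentation frameworks
-/

open Finset
open scoped Classical

namespace Pool.Agent.X47.CE

/-! ### Argumentation frameworks -/

/-- `S` is conflict-free: no member attacks a member. -/
def ConflictFree {A : Type*} (R : A → A → Prop) (S : Set A) : Prop :=
  ¬ ∃ a ∈ S, ∃ b ∈ S, R a b

/-- `S` defends `a`: every attacker of `a` is attacked by some member of `S`. -/
def Defends {A : Type*} (R : A → A → Prop) (S : Set A) (a : A) : Prop :=
  ∀ b, R b a → ∃ c ∈ S, R c b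

/-- `S` is admissible: conflict-free and defends each of its members. -/
def Admissible {A : Type*} (R : A → A → Prop) (S : Set A) : Prop :=
  ConflictFree R S ∧ ∀ a ∈ S, Defends R S a

/-- `S` is a complete extension: admissible and contains every argument it defends. -/
def IsComplete {A : Type*} (R : A → A → Prop) (S : Set A) : Prop :=
  Admissible R S ∧ ∀ a, Defends R S a → a ∈ S

/-- the set of complete extensions. -/
def com {A : Type*} (R : A → A → Prop) : Set (Set A) := {S | IsComplete R S}

/-- the numbers of complete extensions of frameworks with `n` arguments. -/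
def comCounts (n : ℕ) : Set ℕ :=
  {c | ∃ (A : Type) (_ : Fintype A) (R : A → A → Prop), Fintype.card A = n ∧ (com R).ncard = c}

/-- the conjectured maximum. -/
def value (n : ℕ) : ℕ :=
  if n ≤ 1 then 1 else if n % 2 = 0 then 3 ^ (n / 2) else 4 * 3 ^ ((n - 3) / 2)

/-- the symmetrised attack graph, without self-attacks. -/
def sym {A : Type*} (R : A → A → Prop) : SimpleGraph A where
  Adj x y := x ≠ y ∧ (R x y ∨ R y x)
  symm := ⟨fun x y h => ⟨h.1.symm, h.2.symm⟩⟩
  loopless := ⟨fun x h => h.1 rfl⟩

theorem com_le {A : Type*} [Fintype A] (R : A → A → Prop) :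
    (com R).ncard ≤ (Tset (sym R) univ (univ.filter fun x => R x x)).card := by
  rw [← Set.ncard_coe_finset]
  refine Set.ncard_le_ncard_of_injOn (fun S : Set A => univ.filter fun x => x ∈ S) ?_ ?_
    (finite_toSet _)
  · intro S hS
    obtain ⟨⟨hcf, hdef⟩, hcomp⟩ := hS
    rw [mem_coe, mem_Tset]
    refine ⟨subset_univ _, ⟨?_, ?_⟩, ?_⟩
    · rw [disjoint_left]
      intro x hx hx'
      rw [mem_filter] at hx hx'
      exact hcf ⟨x, hx.2, x, hx.2, hx'.2⟩
    · intro x hx y hy hxy
      rw [mem_filter] at hx hy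
      rcases hxy.2 with h | h
      · exact hcf ⟨x, hx.2, y, hy.2, h⟩
      · exact hcf ⟨y, hy.2, x, hx.2, h⟩
    · intro x hx hxL
      rw [mem_Und] at hx
      obtain ⟨_, hxS, hxn⟩ := hx
      rw [mem_filter] at hxS hxL
      have hxS' : x ∉ S := fun h => hxS ⟨mem_univ _, h⟩
      have hxL' : ¬ R x x := fun h => hxL ⟨mem_univ _, h⟩
      have hnd : ¬ Defends R S x := fun h => hxS' (hcomp x h)
      unfold Defends at hnd
      push Not at hnd
      obtain ⟨b, hbx, hb⟩ := hnd
      have hne : x ≠ b := by rintro rfl; exact hxL' hbx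
      refine ⟨b, ?_, hne, Or.inr hbx⟩
      rw [mem_Und]
      refine ⟨mem_univ _, ?_, ?_⟩
      · intro hbS
        exact hxn b hbS ⟨hne, Or.inr hbx⟩
      · intro s hs hbs
        have hs' : s ∈ S := (mem_filter.1 hs).2
        rcases hbs.2 with h | h
        · obtain ⟨c, hc, hcb⟩ := hdef s hs' b h
          exact hb c hc hcb
        · exact hb s hs' h
  · intro S _ S' _ heq
    ext x
    have := congrArg (fun F : Finset A => x ∈ F) heq
    simpa using this

theorem count_le {A : Type*} [Fintype A] (R : A → A → Prop) :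
    (com R).ncard ≤ value (Fintype.card A) := by
  set n := Fintype.card A with hn
  set X : Finset A := univ with hX
  have hXc : X.card = n := by rw [hX, card_univ]
  have h1 := main (G := sym R) n X (univ.filter fun x => R x x) hXc
  have h2 : bd (sym R) X (univ.filter fun x => R x x)
      ≤ (4 / 3) ^ n * (27 / 16) ^ (nu (sym R) X) := by
    unfold bd
    rw [hXc]
    apply mul_le_of_le_one_right (by positivity)
    exact pow_le_one₀ (by norm_num) (by norm_num)
  have h3 : ((com R).ncard : ℝ) ≤ (4 / 3) ^ n * (27 / 16) ^ (nu (sym R) X) :=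
    le_trans (by exact_mod_cast com_le R) (h1.trans h2)
  have h4 := two_nu_le (G := sym R) X
  rw [hXc] at h4
  set v := nu (sym R) X with hv
  unfold value
  rcases Nat.even_or_odd' n with ⟨q, hq | hq⟩
  · have h5 := h3.trans (pow_bound h4 (q := q) (by omega))
    have h6 : (com R).ncard ≤ 3 ^ q := by exact_mod_cast h5
    split_ifs with h7 h8
    · obtain rfl : q = 0 := by omega
      simpa using h6
    · rw [show n / 2 = q by omega]; exact h6
    · omega
  · have h5 : ((4 : ℝ) / 3) ^ n * (27 / 16) ^ v ≤ 4 / 3 * 3 ^ q := by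
      have h6 := pow_bound (k := 2 * q) (v := v) (q := q) (by omega) le_rfl
      rw [hq, pow_succ]
      calc ((4 : ℝ) / 3) ^ (2 * q) * (4 / 3) * (27 / 16) ^ v
          = 4 / 3 * ((4 / 3) ^ (2 * q) * (27 / 16) ^ v) := by ring
        _ ≤ 4 / 3 * 3 ^ q := mul_le_mul_of_nonneg_left h6 (by norm_num)
    have h6 := h3.trans h5
    split_ifs with h7 h8
    · obtain rfl : q = 0 := by omega
      rw [pow_zero, mul_one] at h6
      by_contra hcon
      push Not at hcon
      have : (2 : ℝ) ≤ ((com R).ncard : ℝ) := by exact_mod_cast hcon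
      linarith
    · omega
    · obtain ⟨p, hp⟩ : ∃ p, q = p + 1 := ⟨q - 1, by omega⟩
      rw [show (n - 3) / 2 = p by omega]
      have h9 : ((com R).ncard : ℝ) ≤ ((4 * 3 ^ p : ℕ) : ℝ) := by
        push_cast
        refine h6.trans (le_of_eq ?_)
        rw [hp, pow_succ]; ring
      exact_mod_cast h9

/-! ### The lower bound -/

/-- blocks of mutually attacking arguments. -/
def blocks {ι : Type} (β : ι → Type) (x y : Σ i, β i) : Prop := x.1 = y.1 ∧ x ≠ y

theorem blocks_complete {ι : Type} (β : ι → Type) (hβ : ∀ i, ∀ b : β i, ∃ c : β i, c ≠ b)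
    (f : ∀ i, Option (β i)) : IsComplete (blocks β) {x | f x.1 = some x.2} := by
  refine ⟨⟨?_, ?_⟩, ?_⟩
  · rintro ⟨⟨i, a⟩, ha, ⟨j, b⟩, hb, hij, hne⟩
    simp only at hij
    subst hij
    simp only [Set.mem_setOf_eq] at ha hb
    rw [ha] at hb
    exact hne (by rw [Option.some.inj hb])
  · rintro a ha b hb
    exact ⟨a, ha, hb.1.symm, fun h => hb.2 h.symm⟩
  · rintro ⟨i, a⟩ hdef
    simp only [Set.mem_setOf_eq]
    cases hfi : f i with
    | none =>
      obtain ⟨c, hc⟩ := hβ i a
      obtain ⟨⟨j, d⟩, hd, hd1, hd2⟩ := hdef ⟨i, c⟩ ⟨rfl, fun h => hc (by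
        simpa using h)⟩
      simp only at hd1
      subst hd1
      simp only [Set.mem_setOf_eq] at hd
      rw [hfi] at hd
      exact absurd hd (by simp)
    | some b =>
      by_cases hab : b = a
      · rw [hab]
      · exfalso
        obtain ⟨⟨j, d⟩, hd, hd1, hd2⟩ := hdef ⟨i, b⟩ ⟨rfl, fun h => hab (by
          simpa using h)⟩
        simp only at hd1
        subst hd1
        simp only [Set.mem_setOf_eq] at hd
        rw [hfi] at hd
        exact hd2 (by rw [Option.some.inj hd])

theorem blocks_count {ι : Type} [Fintype ι] (β : ι → Type) [∀ i, Fintype (β i)]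
    (hβ : ∀ i, ∀ b : β i, ∃ c : β i, c ≠ b) :
    ∏ i, (Fintype.card (β i) + 1) ≤ (com (blocks β)).ncard := by
  have h1 : (Set.range fun f : (∀ i, Option (β i)) => {x : Σ i, β i | f x.1 = some x.2})
      ⊆ com (blocks β) := by
    rintro _ ⟨f, rfl⟩
    exact blocks_complete β hβ f
  have h2 : Function.Injective
      fun f : (∀ i, Option (β i)) => {x : Σ i, β i | f x.1 = some x.2} := by
    intro f g hfg
    funext i
    ext b
    have := Set.ext_iff.1 hfg ⟨i, b⟩
    simpa [Option.mem_def] using this
  have h3 := Set.ncard_le_ncard h1 (Set.toFinite _)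
  rw [← Set.image_univ, Set.ncard_image_of_injective _ h2, Set.ncard_univ,
    Nat.card_eq_fintype_card, Fintype.card_pi] at h3
  simpa [Fintype.card_option] using h3

theorem lower (n : ℕ) : ∃ (A : Type) (_ : Fintype A) (R : A → A → Prop),
    Fintype.card A = n ∧ value n ≤ (com R).ncard := by
  have hfin : ∀ k : ℕ, 2 ≤ k → ∀ b : Fin k, ∃ c : Fin k, c ≠ b := by
    intro k hk b
    have : Nontrivial (Fin k) := Fin.nontrivial_iff_two_le.2 hk
    exact exists_ne b
  by_cases h1 : n = 1
  · subst h1
    refine ⟨Unit, inferInstance, fun _ _ => False, by simp, ?_⟩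
    have : (Set.univ : Set Unit) ∈ com (fun _ _ : Unit => False) :=
      ⟨⟨fun ⟨_, _, _, _, h⟩ => h, fun _ _ _ h => h.elim⟩, fun _ _ => Set.mem_univ _⟩
    have h2 : 0 < (com (fun _ _ : Unit => False)).ncard :=
      (Set.ncard_pos (Set.toFinite _)).2 ⟨_, this⟩
    unfold value
    rw [if_pos le_rfl]
    exact h2
  rcases Nat.even_or_odd' n with ⟨q, hq | hq⟩
  · refine ⟨Σ _ : Fin q, Fin 2, inferInstance, blocks (fun _ : Fin q => Fin 2), ?_, ?_⟩
    · simp [Fintype.card_sigma]; omega
    · have h2 := blocks_count (fun _ : Fin q => Fin 2) (fun _ => hfin 2 le_rfl)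
      simp only [Fintype.card_fin, prod_const, card_univ] at h2
      refine le_trans ?_ h2
      unfold value
      split_ifs with h3 h4
      · exact Nat.one_le_pow _ _ (by norm_num)
      · rw [show n / 2 = q by omega]
      · omega
  · obtain ⟨p, hp⟩ : ∃ p, q = p + 1 := ⟨q - 1, by omega⟩
    let β : Option (Fin p) → Type := fun i => Fin (if i = none then 3 else 2)
    refine ⟨Σ i, β i, inferInstance, blocks β, ?_, ?_⟩
    · rw [Fintype.card_sigma, Fintype.sum_option]
      simp [β]; omega
    · have h2 := blocks_count β (fun i => hfin _ (by split_ifs <;> norm_num))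
      rw [Fintype.prod_option] at h2
      refine le_trans ?_ h2
      unfold value
      rw [if_neg (by omega), if_neg (by omega), show (n - 3) / 2 = p by omega]
      simp [β]

/-- the maximal number of complete extensions. -/
theorem sigma_max (n : ℕ) : IsGreatest (comCounts n) (value n) := by
  constructor
  · obtain ⟨A, hA, R, hc, hv⟩ := lower n
    refine ⟨A, hA, R, hc, le_antisymm ?_ hv⟩
    rw [← hc]
    exact count_le R
  · rintro c ⟨A, hA, R, hc, rfl⟩
    rw [← hc]
    exact count_le R

end Pool.Agent.X47.CE
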