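import Mathlib

/-!
# Semilabeled binary trees and their convex characters
-/

namespace Pool.Agent.X47.CP

open SimpleGraph

/-- A semilabeled binary tree of size `n`: a finite tree in which every vertex has degree `1` or
`3`, whose vertices of degree `1` are labelled bijectively by `Fin n`. -/
structure SLTree (n : ℕ) where
  /-- the vertices -/
  V : Type
  /-- there are finitely many vertices -/
  fin : Finite V
  /-- the graph -/
  G : SimpleGraph V
  /-- it is a tree -/
  isTree : G.IsTree
  /-- every vertex has degree one or three -/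
  deg : ∀ v, (G.neighborSet v).ncard = 1 ∨ (G.neighborSet v).ncard = 3
  /-- the labelling of the leaves -/
  leaf : Fin n → V
  /-- distinct labels sit at distinct vertices -/
  leaf_inj : Function.Injective leaf
  /-- the labelled vertices are exactly the vertices of degree one -/
  leaf_iff : ∀ v, (G.neighborSet v).ncard = 1 ↔ v ∈ Set.range leaf

/-- The set of all partitions of the leaves (given as equivalence relations) obtained by deleting
a set `D` of edges and putting two leaves into the same class if they lie in the same component. -/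
def SLTree.chars {n : ℕ} (T : SLTree n) : Set (Setoid (Fin n)) :=
  {r | ∃ D : Set (Sym2 T.V), ∀ i j, r i j ↔ (T.G.deleteEdges D).Reachable (T.leaf i) (T.leaf j)}

/-- A caterpillar: deleting all leaves leaves a path. -/
def SLTree.IsCaterpillar {n : ℕ} (T : SLTree n) : Prop :=
  ∃ m : ℕ, Nonempty (T.G.induce {v | v ∉ Set.range T.leaf} ≃g SimpleGraph.pathGraph m)

/-- The least number of common partitions of two semilabeled binary trees of size `n`. -/
noncomputable def sMin (n : ℕ) : ℕ :=
  sInf {k | ∃ T F : SLTree n, (T.chars ∩ F.chars).ncard = k}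

/-- The least number of common partitions of two caterpillars of size `n`. -/
noncomputable def cMin (n : ℕ) : ℕ :=
  sInf {k | ∃ T F : SLTree n, T.IsCaterpillar ∧ F.IsCaterpillar ∧
    (T.chars ∩ F.chars).ncard = k}

/-- Colouring criterion: if the vertices of the tree can be coloured so that the leaf `i` gets the
colour `f i` and any two leaves of the same colour are connected by a monochromatic walk, then the
kernel of `f` is a convex character. -/
lemma ker_mem {n : ℕ} (T : SLTree n) (f : Fin n → ℕ) (c : T.V → ℕ) (hc : ∀ i, c (T.leaf i) = f i)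
    (H : SimpleGraph T.V) (hH : ∀ u v, H.Adj u v → T.G.Adj u v ∧ c u = c v)
    (hr : ∀ i j, f i = f j → H.Reachable (T.leaf i) (T.leaf j)) :
    Setoid.ker f ∈ T.chars := by
  refine ⟨{e | ∃ u v, e = s(u, v) ∧ c u ≠ c v}, ?_⟩
  have hadj : ∀ u v, (T.G.deleteEdges {e | ∃ u v, e = s(u, v) ∧ c u ≠ c v}).Adj u v ↔
      T.G.Adj u v ∧ c u = c v := by
    intro u v
    rw [SimpleGraph.deleteEdges_adj]
    constructor
    · rintro ⟨h1, h2⟩
      refine ⟨h1, ?_⟩
      by_contra h
      exact h2 ⟨u, v, rfl, h⟩
    · rintro ⟨h1, h2⟩
      refine ⟨h1, ?_⟩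
      rintro ⟨a, b, hab, hne⟩
      rcases Sym2.eq_iff.1 hab with ⟨rfl, rfl⟩ | ⟨rfl, rfl⟩
      · exact hne h2
      · exact hne h2.symm
  intro i j
  constructor
  · intro h
    have hle : H ≤ T.G.deleteEdges {e | ∃ u v, e = s(u, v) ∧ c u ≠ c v} := by
      intro u v huv
      exact (hadj u v).2 (hH u v huv)
    exact (hr i j h).mono hle
  · intro h
    have : ∀ u v, (T.G.deleteEdges {e | ∃ u v, e = s(u, v) ∧ c u ≠ c v}).Reachable u v →
        c u = c v := by
      intro u v huv
      obtain ⟨w⟩ := huv
      induction w with
      | nil => rfl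
      | cons h _ ih => exact ((hadj _ _).1 h).2.trans ih
    show f i = f j
    rw [← hc, ← hc]
    exact this _ _ h

/-- Separation: if every edge avoiding the vertex `x` preserves `side`, then a walk in a subgraph
between two vertices of different sides goes through `x`. -/
lemma reach_sep {V : Type} (G H : SimpleGraph V) (hHG : H ≤ G) (x : V) (side : V → ℕ)
    (hside : ∀ u v, G.Adj u v → u ≠ x → v ≠ x → side u = side v) (a b : V)
    (hab : H.Reachable a b) (hne : side a ≠ side b) : H.Reachable a x := by
  by_contra hx
  apply hne
  have key : ∀ u v, H.Reachable u v → H.Reachable a u → side u = side v := by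
    intro u v huv
    obtain ⟨w⟩ := huv
    induction w with
    | nil => intro _; rfl
    | cons h w ih =>
      rename_i u' v' w'
      intro hu
      have h1 : H.Reachable a v' := hu.trans h.reachable
      rw [← ih h1]
      apply hside _ _ (hHG h)
      · rintro rfl; exact hx hu
      · rintro rfl; exact hx h1
  exact key a b hab (SimpleGraph.Reachable.refl _)

/-- A convex character identifies leaves whose connecting paths meet. -/
lemma chars_cross {n : ℕ} (T : SLTree n) {r : Setoid (Fin n)} (hr : r ∈ T.chars) (x : T.V)
    (side : T.V → ℕ) (hside : ∀ u v, T.G.Adj u v → u ≠ x → v ≠ x → side u = side v)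
    (i j k l : Fin n) (hij : r i j) (hkl : r k l) (h1 : side (T.leaf i) ≠ side (T.leaf j))
    (h2 : side (T.leaf k) ≠ side (T.leaf l)) : r i k := by
  obtain ⟨D, hD⟩ := hr
  rw [hD] at hij hkl ⊢
  have e1 := reach_sep T.G _ (SimpleGraph.deleteEdges_le D) x side hside _ _ hij h1
  have e2 := reach_sep T.G _ (SimpleGraph.deleteEdges_le D) x side hside _ _ hkl h2
  exact e1.trans e2.symm

end Pool.Agent.X47.CP
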