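import Pool.Agent.X47.CP1

/-!
# Explicit trees given by parent lists
-/

namespace Pool.Agent.X47.CP

open SimpleGraph

/-- The graph on `Fin 12` in which every vertex is joined to its parent. -/
def parG (par : List ℕ) : SimpleGraph (Fin 12) :=
  SimpleGraph.fromRel (fun u v : Fin 12 => par.getD u 0 = v)

instance (par : List ℕ) : DecidableRel (parG par).Adj := by
  unfold parG; infer_instance

lemma parG_conn (par : List ℕ) (h1 : ∀ v : Fin 12, v ≠ 11 → (v : ℕ) < par.getD v 0 ∧
    par.getD v 0 < 12) : (parG par).Connected := by
  have key : ∀ k : ℕ, ∀ v : Fin 12, 11 - (v : ℕ) = k → (parG par).Reachable v 11 := by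
    intro k
    induction k using Nat.strong_induction_on with
    | _ k ih =>
      intro v hv
      by_cases h : v = 11
      · subst h; exact SimpleGraph.Reachable.refl _
      · obtain ⟨h2, h3⟩ := h1 v h
        have hadj : (parG par).Adj v ⟨par.getD v 0, h3⟩ := by
          unfold parG
          rw [SimpleGraph.fromRel_adj]
          refine ⟨?_, Or.inl rfl⟩
          intro h4
          have := congrArg Fin.val h4
          simp only at this
          omega
        have h5 : (v : ℕ) < 11 := by
          have := v.2
          have h6 : (v : ℕ) ≠ 11 := fun h7 => h (Fin.ext h7)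
          omega
        refine hadj.reachable.trans (ih (11 - par.getD v 0) ?_ _ rfl)
        omega
  have : Nonempty (Fin 12) := ⟨0⟩
  refine ⟨fun u v => (key _ u rfl).trans (key _ v rfl).symm⟩

lemma ncard_nbr (par : List ℕ) (v : Fin 12) :
    ((parG par).neighborSet v).ncard = (parG par).degree v := by
  rw [Set.ncard_eq_toFinset_card', SimpleGraph.degree, SimpleGraph.neighborFinset]

/-- The semilabeled tree of size seven given by a parent list. -/
def mk7 (par : List ℕ) (h1 : ∀ v : Fin 12, v ≠ 11 → (v : ℕ) < par.getD v 0 ∧
    par.getD v 0 < 12) (h3 : ∀ v : Fin 12, (parG par).degree v = if (v : ℕ) < 7 then 1 else 3) :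
    SLTree 7 where
  V := Fin 12
  fin := inferInstance
  G := parG par
  isTree := by
    rw [SimpleGraph.isTree_iff_connected_and_card]
    refine ⟨parG_conn par h1, ?_⟩
    have h4 := (parG par).sum_degrees_eq_twice_card_edges
    have h5 : ∑ v : Fin 12, (parG par).degree v = 22 := by
      rw [Finset.sum_congr rfl (fun v _ => h3 v)]
      decide
    have h6 : (parG par).edgeFinset.card = 11 := by omega
    rw [Nat.card_eq_fintype_card, ← SimpleGraph.edgeFinset_card, h6]
    simp
  deg := by
    intro v
    rw [ncard_nbr, h3]
    split_ifs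
    · left; rfl
    · right; rfl
  leaf := fun i => Fin.castLE (by omega) i
  leaf_inj := Fin.castLE_injective (by omega)
  leaf_iff := by
    intro v
    rw [ncard_nbr, h3]
    constructor
    · intro h
      by_cases h7 : (v : ℕ) < 7
      · exact ⟨⟨v, h7⟩, Fin.ext rfl⟩
      · rw [if_neg h7] at h; omega
    · rintro ⟨i, rfl⟩
      rw [if_pos]
      exact i.2

/-- Parent list of the first tree, a caterpillar. -/
def parT : List ℕ := [7, 7, 8, 9, 10, 11, 11, 8, 9, 10, 11, 11]

/-- Parent list of the second tree, not a caterpillar. -/
def parF : List ℕ := [7, 9, 11, 8, 9, 7, 11, 8, 10, 10, 11, 11]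

/-- Parent list of the third tree, a caterpillar. -/
def parC : List ℕ := [7, 11, 9, 10, 8, 7, 11, 8, 9, 10, 11, 11]

/-- The first tree. -/
def treeT : SLTree 7 := mk7 parT (by decide) (by decide)

/-- The second tree. -/
def treeF : SLTree 7 := mk7 parF (by decide) (by decide)

/-- The third tree. -/
def treeC : SLTree 7 := mk7 parC (by decide) (by decide)

end Pool.Agent.X47.CP
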