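import Pool.Agent.X47.CP2

/-!
# Upper bounds for the number of common characters of two explicit trees
-/

namespace Pool.Agent.X47.CP

open SimpleGraph

/-- Which component of the tree minus `x` contains the vertex: the child of `x` above it, or `99`. -/
def sideAux (par : List ℕ) (x : ℕ) : ℕ → ℕ → ℕ
  | 0, _ => 99
  | k + 1, u => if par.getD u 0 = x then u else if u = 11 then 99 else sideAux par x k (par.getD u 0)

/-- The paths `i`–`j` and `k`–`l` meet at an internal vertex. -/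
def crossB (par : List ℕ) (i j k l : ℕ) : Bool :=
  (List.range 5).any (fun y => decide (sideAux par (7 + y) 12 i ≠ sideAux par (7 + y) 12 j) &&
    decide (sideAux par (7 + y) 12 k ≠ sideAux par (7 + y) 12 l))

/-- The side function is constant along edges avoiding `x`. -/
def SideOK (par : List ℕ) : Prop := ∀ x u v : Fin 12, (parG par).Adj u v → u ≠ x → v ≠ x →
  sideAux par x 12 u = sideAux par x 12 v

instance (par : List ℕ) : Decidable (SideOK par) := by unfold SideOK; infer_instance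

lemma cross_mk7 (par : List ℕ) (h1) (h3) (hs : SideOK par) {r : Setoid (Fin 7)}
    (hr : r ∈ (mk7 par h1 h3).chars) (i j k l : Fin 7) (hc : crossB par i j k l = true)
    (hij : r i j) (hkl : r k l) : r i k := by
  unfold crossB at hc
  rw [List.any_eq_true] at hc
  obtain ⟨y, hy, hc⟩ := hc
  rw [List.mem_range] at hy
  rw [Bool.and_eq_true, decide_eq_true_eq, decide_eq_true_eq] at hc
  refine chars_cross (mk7 par h1 h3) hr (⟨7 + y, by omega⟩ : Fin 12)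
    (fun v : Fin 12 => sideAux par (7 + y) 12 v) ?_ i j k l hij hkl hc.1 hc.2
  intro u v huv hu hv
  exact hs ⟨7 + y, by omega⟩ u v huv hu hv

section rep

open Classical in
/-- The least element of the class of `i`. -/
noncomputable def rep (r : Setoid (Fin 7)) (i : Fin 7) : ℕ :=
  Nat.find (⟨i, i.2, r.refl i⟩ : ∃ j, ∃ h : j < 7, r ⟨j, h⟩ i)

lemma rep_spec (r : Setoid (Fin 7)) (i : Fin 7) : ∃ h : rep r i < 7, r ⟨rep r i, h⟩ i := by
  classical
  unfold rep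
  exact Nat.find_spec (⟨i, i.2, r.refl i⟩ : ∃ j, ∃ h : j < 7, r ⟨j, h⟩ i)

lemma rep_le (r : Setoid (Fin 7)) (i : Fin 7) : rep r i ≤ i := by
  classical
  unfold rep
  exact Nat.find_min' _ ⟨i.2, r.refl i⟩

lemma rep_eq_iff (r : Setoid (Fin 7)) (i j : Fin 7) : rep r i = rep r j ↔ r i j := by
  classical
  constructor
  · intro h
    obtain ⟨h1, h2⟩ := rep_spec r i
    obtain ⟨h3, h4⟩ := rep_spec r j
    have h5 : (⟨rep r i, h1⟩ : Fin 7) = ⟨rep r j, h3⟩ := Fin.ext h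
    rw [h5] at h2
    exact r.trans (r.symm h2) h4
  · intro h
    unfold rep
    have : ∀ a, (∃ h : a < 7, r ⟨a, h⟩ i) ↔ (∃ h : a < 7, r ⟨a, h⟩ j) := by
      intro a
      constructor
      · rintro ⟨h1, h2⟩; exact ⟨h1, r.trans h2 h⟩
      · rintro ⟨h1, h2⟩; exact ⟨h1, r.trans h2 (r.symm h)⟩
    apply le_antisymm
    · apply Nat.find_min'
      exact (this _).2 (Nat.find_spec (⟨j, j.2, r.refl j⟩ : ∃ a, ∃ h : a < 7, r ⟨a, h⟩ j))
    · apply Nat.find_min'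
      exact (this _).1 (Nat.find_spec (⟨i, i.2, r.refl i⟩ : ∃ a, ∃ h : a < 7, r ⟨a, h⟩ i))

/-- The list of the seven least representatives. -/
noncomputable def repL (r : Setoid (Fin 7)) : List ℕ := List.ofFn (rep r)

lemma repL_length (r : Setoid (Fin 7)) : (repL r).length = 7 := by simp [repL]

lemma repL_getD (r : Setoid (Fin 7)) (i : ℕ) (h : i < 7) : (repL r).getD i 0 = rep r ⟨i, h⟩ := by
  unfold repL
  rw [List.getD_eq_getElem?_getD, List.getElem?_ofFn]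
  simp only [h, dif_pos, Option.getD_some]

lemma repL_inj : Function.Injective repL := by
  intro r s h
  have h1 : rep r = rep s := List.ofFn_injective h
  ext i j
  rw [← rep_eq_iff, ← rep_eq_iff, h1]

end rep

/-- The extension test. -/
def okp (Q : List (ℕ × ℕ × ℕ × ℕ)) (l : List ℕ) : Bool :=
  (l.getD (l.getD (l.length - 1) 0) 0 == l.getD (l.length - 1) 0) &&
  Q.all (fun q => !(decide (q.1 < l.length) && decide (q.2.1 < l.length) &&
    decide (q.2.2.1 < l.length) && decide (q.2.2.2 < l.length)) ||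
    !(l.getD q.1 0 == l.getD q.2.1 0 && l.getD q.2.2.1 0 == l.getD q.2.2.2 0) ||
      l.getD q.1 0 == l.getD q.2.2.1 0)

/-- All admissible extensions. -/
def enumU (Q : List (ℕ × ℕ × ℕ × ℕ)) : ℕ → List ℕ → List (List ℕ)
  | 0, l => [l]
  | k + 1, l => (List.range (l.length + 1)).flatMap (fun a =>
      if okp Q (l ++ [a]) = true then enumU Q k (l ++ [a]) else [])

/-- A list of seven representatives respecting the constraints `Q`. -/
structure Good (Q : List (ℕ × ℕ × ℕ × ℕ)) (m : List ℕ) : Prop where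
  len : m.length = 7
  le : ∀ i < 7, m.getD i 0 ≤ i
  idem : ∀ i < 7, m.getD (m.getD i 0) 0 = m.getD i 0
  q : ∀ q ∈ Q, q.1 < 7 → q.2.1 < 7 → q.2.2.1 < 7 → q.2.2.2 < 7 →
    m.getD q.1 0 = m.getD q.2.1 0 → m.getD q.2.2.1 0 = m.getD q.2.2.2 0 →
    m.getD q.1 0 = m.getD q.2.2.1 0

lemma getD_take (m : List ℕ) (t i : ℕ) (h : i < t) : (m.take t).getD i 0 = m.getD i 0 := by
  simp [List.getD_eq_getElem?_getD, h]

lemma okp_take {Q : List (ℕ × ℕ × ℕ × ℕ)} {m : List ℕ} (hm : Good Q m) (t : ℕ) (ht : t < 7) :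
    okp Q (m.take (t + 1)) = true := by
  have hlen : (m.take (t + 1)).length = t + 1 := by
    rw [List.length_take, hm.len]; omega
  unfold okp
  rw [hlen, Bool.and_eq_true]
  constructor
  · rw [beq_iff_eq, Nat.add_sub_cancel, getD_take m (t + 1) t (by omega),
      getD_take m (t + 1) _ (by have := hm.le t ht; omega)]
    exact hm.idem t ht
  · rw [List.all_eq_true]
    intro q hq
    by_cases hb : q.1 < t + 1 ∧ q.2.1 < t + 1 ∧ q.2.2.1 < t + 1 ∧ q.2.2.2 < t + 1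
    · obtain ⟨b1, b2, b3, b4⟩ := hb
      have := hm.q q hq (by omega) (by omega) (by omega) (by omega)
      rw [getD_take m _ _ b1, getD_take m _ _ b2, getD_take m _ _ b3, getD_take m _ _ b4]
      by_cases h1 : m.getD q.1 0 = m.getD q.2.1 0
      · by_cases h2 : m.getD q.2.2.1 0 = m.getD q.2.2.2 0
        · have e3 : (m.getD q.1 0 == m.getD q.2.2.1 0) = true := beq_iff_eq.2 (this h1 h2)
          rw [e3, Bool.or_true]
        · have e2 : (m.getD q.2.2.1 0 == m.getD q.2.2.2 0) = false := beq_eq_false_iff_ne.2 h2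
          rw [e2, Bool.and_false, Bool.not_false, Bool.or_true, Bool.true_or]
      · have e1 : (m.getD q.1 0 == m.getD q.2.1 0) = false := beq_eq_false_iff_ne.2 h1
        rw [e1, Bool.false_and, Bool.not_false, Bool.or_true, Bool.true_or]
    · have : (decide (q.1 < t + 1) && decide (q.2.1 < t + 1) &&
          decide (q.2.2.1 < t + 1) && decide (q.2.2.2 < t + 1)) = false := by
        rw [Bool.eq_false_iff]
        intro h
        simp only [Bool.and_eq_true, decide_eq_true_eq] at h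
        exact hb ⟨h.1.1.1, h.1.1.2, h.1.2, h.2⟩
      rw [this]
      rfl

lemma take_succ' (m : List ℕ) (t : ℕ) (h : t < m.length) :
    m.take (t + 1) = m.take t ++ [m.getD t 0] := by
  rw [List.take_add_one, List.getD_eq_getElem?_getD, List.getElem?_eq_getElem h]
  simp

lemma mem_enumU {Q : List (ℕ × ℕ × ℕ × ℕ)} {m : List ℕ} (hm : Good Q m) :
    ∀ k t : ℕ, t + k = 7 → m ∈ enumU Q k (m.take t) := by
  intro k
  induction k with
  | zero =>
    intro t ht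
    have : m.take t = m := List.take_of_length_le (by rw [hm.len]; omega)
    rw [this]
    simp [enumU]
  | succ k ih =>
    intro t ht
    have htl : t < m.length := by rw [hm.len]; omega
    unfold enumU
    rw [List.mem_flatMap]
    refine ⟨m.getD t 0, ?_, ?_⟩
    · rw [List.mem_range, List.length_take, hm.len]
      have := hm.le t (by omega)
      omega
    · rw [← take_succ' m t htl, if_pos (okp_take hm t (by omega))]
      exact ih (t + 1) (by omega)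

/-- The upper bound for the number of equivalence relations respecting the constraints `Q`. -/
lemma ncard_le (Q : List (ℕ × ℕ × ℕ × ℕ)) (S : Set (Setoid (Fin 7)))
    (hS : ∀ r ∈ S, ∀ q ∈ Q, ∀ (a : q.1 < 7) (b : q.2.1 < 7) (c : q.2.2.1 < 7) (d : q.2.2.2 < 7),
      r ⟨q.1, a⟩ ⟨q.2.1, b⟩ → r ⟨q.2.2.1, c⟩ ⟨q.2.2.2, d⟩ → r ⟨q.1, a⟩ ⟨q.2.2.1, c⟩) :
    S.ncard ≤ (enumU Q 7 []).length := by
  have h1 : ∀ r ∈ S, repL r ∈ ((enumU Q 7 []).toFinset : Set (List ℕ)) := by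
    intro r hr
    rw [Finset.mem_coe, List.mem_toFinset]
    have hg : Good Q (repL r) := by
      refine ⟨repL_length r, ?_, ?_, ?_⟩
      · intro i hi
        rw [repL_getD r i hi]
        exact rep_le r ⟨i, hi⟩
      · intro i hi
        obtain ⟨h2, h3⟩ := rep_spec r ⟨i, hi⟩
        rw [repL_getD r i hi, repL_getD r _ h2]
        exact (rep_eq_iff r _ _).2 h3
      · intro q hq a b c d
        rw [repL_getD r _ a, repL_getD r _ b, repL_getD r _ c, repL_getD r _ d, rep_eq_iff,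
          rep_eq_iff, rep_eq_iff]
        exact hS r hr q hq a b c d
    have := mem_enumU hg 7 0 (by norm_num)
    simpa using this
  have h2 := Set.ncard_le_ncard_of_injOn repL h1 (repL_inj.injOn) (Finset.finite_toSet _)
  rw [Set.ncard_coe_finset] at h2
  exact h2.trans (List.toFinset_card_le _)

/-- The quadruples `(i,j,k,l)` for which `i`–`j` and `k`–`l` meet in one of the trees `T`, `F`. -/
def QTF : List (ℕ × ℕ × ℕ × ℕ) :=
  [(0, 1, 2, 3), (0, 1, 2, 4), (0, 1, 2, 5), (0, 1, 3, 4), (0, 1, 3, 5), (0, 1, 3, 6),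
   (0, 1, 4, 5), (0, 1, 4, 6), (0, 1, 5, 6), (0, 2, 1, 3), (0, 2, 1, 4), (0, 2, 1, 5),
   (0, 2, 1, 6), (0, 2, 3, 4), (0, 2, 3, 5), (0, 2, 3, 6), (0, 2, 4, 5), (0, 2, 4, 6),
   (0, 2, 5, 6), (0, 3, 1, 2), (0, 3, 1, 4), (0, 3, 1, 5), (0, 3, 1, 6), (0, 3, 2, 4),
   (0, 3, 2, 5), (0, 3, 2, 6), (0, 3, 4, 5), (0, 3, 5, 6), (0, 4, 1, 2), (0, 4, 1, 3),
   (0, 4, 1, 5), (0, 4, 1, 6), (0, 4, 2, 3), (0, 4, 2, 5), (0, 4, 2, 6), (0, 4, 3, 5),
   (0, 4, 3, 6), (0, 4, 5, 6), (0, 5, 1, 2), (0, 5, 1, 3), (0, 5, 1, 4), (0, 5, 1, 6),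
   (0, 5, 2, 3), (0, 5, 2, 4), (0, 5, 2, 6), (0, 5, 3, 4), (0, 5, 3, 6), (0, 5, 4, 6),
   (0, 6, 1, 2), (0, 6, 1, 3), (0, 6, 1, 4), (0, 6, 1, 5), (0, 6, 2, 3), (0, 6, 2, 4),
   (0, 6, 2, 5), (0, 6, 3, 4), (0, 6, 3, 5), (0, 6, 4, 5), (1, 2, 3, 4), (1, 2, 3, 6),
   (1, 2, 4, 5), (1, 2, 4, 6), (1, 2, 5, 6), (1, 3, 2, 4), (1, 3, 2, 5), (1, 3, 2, 6),
   (1, 3, 4, 5), (1, 3, 4, 6), (1, 3, 5, 6), (1, 4, 2, 3), (1, 4, 2, 5), (1, 4, 2, 6),
   (1, 4, 3, 5), (1, 4, 3, 6), (1, 5, 2, 3), (1, 5, 2, 4), (1, 5, 2, 6), (1, 5, 3, 4),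
   (1, 5, 3, 6), (1, 5, 4, 6), (1, 6, 2, 3), (1, 6, 2, 4), (1, 6, 2, 5), (1, 6, 3, 4),
   (1, 6, 3, 5), (1, 6, 4, 5), (2, 3, 4, 5), (2, 3, 4, 6), (2, 3, 5, 6), (2, 4, 3, 5),
   (2, 4, 3, 6), (2, 4, 5, 6), (2, 5, 3, 4), (2, 5, 3, 6), (2, 5, 4, 6), (2, 6, 3, 4),
   (2, 6, 3, 5), (2, 6, 4, 5), (3, 4, 5, 6), (3, 5, 4, 6), (3, 6, 4, 5)]

/-- The quadruples `(i,j,k,l)` for which `i`–`j` and `k`–`l` meet in one of the trees `T`, `C`. -/
def QTC : List (ℕ × ℕ × ℕ × ℕ) :=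
  [(0, 1, 2, 3), (0, 1, 2, 4), (0, 1, 2, 5), (0, 1, 2, 6), (0, 1, 3, 4), (0, 1, 3, 5),
   (0, 1, 3, 6), (0, 1, 4, 5), (0, 1, 4, 6), (0, 1, 5, 6), (0, 2, 1, 3), (0, 2, 1, 4),
   (0, 2, 1, 5), (0, 2, 1, 6), (0, 2, 3, 4), (0, 2, 3, 5), (0, 2, 4, 5), (0, 2, 4, 6),
   (0, 2, 5, 6), (0, 3, 1, 2), (0, 3, 1, 4), (0, 3, 1, 5), (0, 3, 1, 6), (0, 3, 2, 4),
   (0, 3, 2, 5), (0, 3, 2, 6), (0, 3, 4, 5), (0, 3, 4, 6), (0, 3, 5, 6), (0, 4, 1, 2),
   (0, 4, 1, 3), (0, 4, 1, 5), (0, 4, 1, 6), (0, 4, 2, 3), (0, 4, 2, 5), (0, 4, 2, 6),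
   (0, 4, 3, 5), (0, 4, 3, 6), (0, 4, 5, 6), (0, 5, 1, 2), (0, 5, 1, 3), (0, 5, 1, 4),
   (0, 5, 1, 6), (0, 5, 2, 3), (0, 5, 2, 4), (0, 5, 2, 6), (0, 5, 3, 4), (0, 5, 3, 6),
   (0, 5, 4, 6), (0, 6, 1, 2), (0, 6, 1, 3), (0, 6, 1, 4), (0, 6, 1, 5), (0, 6, 2, 3),
   (0, 6, 2, 4), (0, 6, 2, 5), (0, 6, 3, 4), (0, 6, 3, 5), (0, 6, 4, 5), (1, 2, 3, 4),
   (1, 2, 3, 5), (1, 2, 3, 6), (1, 2, 4, 6), (1, 2, 5, 6), (1, 3, 2, 4), (1, 3, 2, 5),
   (1, 3, 2, 6), (1, 3, 4, 6), (1, 3, 5, 6), (1, 4, 2, 3), (1, 4, 2, 5), (1, 4, 2, 6),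
   (1, 4, 3, 5), (1, 4, 3, 6), (1, 4, 5, 6), (1, 5, 2, 3), (1, 5, 2, 4), (1, 5, 2, 6),
   (1, 5, 3, 4), (1, 5, 3, 6), (1, 5, 4, 6), (1, 6, 2, 3), (1, 6, 2, 4), (1, 6, 2, 5),
   (1, 6, 3, 4), (1, 6, 3, 5), (1, 6, 4, 5), (2, 3, 4, 6), (2, 3, 5, 6), (2, 4, 3, 5),
   (2, 4, 3, 6), (2, 4, 5, 6), (2, 5, 3, 4), (2, 5, 3, 6), (2, 5, 4, 6), (2, 6, 3, 4),
   (2, 6, 3, 5), (2, 6, 4, 5), (3, 4, 5, 6), (3, 5, 4, 6), (3, 6, 4, 5)]

lemma ncard_TF : (treeT.chars ∩ treeF.chars).ncard ≤ 125 := by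
  have h1 : (enumU QTF 7 []).length = 125 := by decide +kernel
  rw [← h1]
  apply ncard_le
  rintro r ⟨hT, hF⟩ q hq a b c d hij hkl
  have hQ : ∀ q ∈ QTF, (crossB parT q.1 q.2.1 q.2.2.1 q.2.2.2 ||
      crossB parF q.1 q.2.1 q.2.2.1 q.2.2.2) = true := by decide +kernel
  have := hQ q hq
  rw [Bool.or_eq_true] at this
  rcases this with h | h
  · exact cross_mk7 parT _ _ (by decide +kernel) hT _ _ _ _ h hij hkl
  · exact cross_mk7 parF _ _ (by decide +kernel) hF _ _ _ _ h hij hkl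

lemma ncard_TC : (treeT.chars ∩ treeC.chars).ncard ≤ 126 := by
  have h1 : (enumU QTC 7 []).length = 126 := by decide +kernel
  rw [← h1]
  apply ncard_le
  rintro r ⟨hT, hF⟩ q hq a b c d hij hkl
  have hQ : ∀ q ∈ QTC, (crossB parT q.1 q.2.1 q.2.2.1 q.2.2.2 ||
      crossB parC q.1 q.2.1 q.2.2.1 q.2.2.2) = true := by decide +kernel
  have := hQ q hq
  rw [Bool.or_eq_true] at this
  rcases this with h | h
  · exact cross_mk7 parT _ _ (by decide +kernel) hT _ _ _ _ h hij hkl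
  · exact cross_mk7 parC _ _ (by decide +kernel) hF _ _ _ _ h hij hkl

end Pool.Agent.X47.CP
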