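import Pool.Agent.X47.CP1

/-!
# Counting common two-class characters of two caterpillars
-/

namespace Pool.Agent.X47.CP

/-- The bit mask of the positions whose entry is at most `u`. -/
def mask (u : ℕ) : List ℕ → ℕ
  | [] => 0
  | x :: l => (if x ≤ u then 1 else 0) + 2 * mask u l

lemma mask_cons (u x : ℕ) (l : List ℕ) :
    mask u (x :: l) = (if x ≤ u then 1 else 0) + 2 * mask u l := rfl

lemma testBit_mask (u : ℕ) : ∀ (l : List ℕ) (i : ℕ), i < l.length →
    ((mask u l).testBit i = true ↔ l.getD i 0 ≤ u) := by
  intro l
  induction l with
  | nil => intro i hi; simp at hi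
  | cons x l ih =>
    intro i hi
    cases i with
    | zero =>
      unfold mask
      rw [Nat.testBit_zero]
      split_ifs with h
      · simp [h]
      · simp; omega
    | succ i =>
      have h1 : (mask u (x :: l)).testBit (i + 1) = (mask u l).testBit i := by
        rw [Nat.testBit_succ]
        congr 1
        rw [mask_cons]
        split_ifs <;> omega
      rw [h1, ih i (by simpa using hi)]
      simp

/-- The mask `M` separates `A` from `B`. -/
def ok (M A B : ℕ) : Bool :=
  (A &&& M == A && B &&& M == 0) || (B &&& M == B && A &&& M == 0)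

/-- Some threshold of the positions `q` separates the two sets. -/
def okAll (q : List ℕ) (x : ℕ × ℕ) : Bool :=
  ok (mask 0 q) x.1 x.2 || ok (mask 1 q) x.1 x.2 || ok (mask 2 q) x.1 x.2 || ok (mask 3 q) x.1 x.2

/-- Pairs `(A, B)` of disjoint sets with at least two elements (as bit masks), separated in the
standard caterpillar. -/
def twos : List (ℕ × ℕ) :=
  [(3, 12), (3, 20), (3, 24), (3, 28), (3, 36), (3, 40), (3, 44), (3, 48), (3, 52), (3, 56),
   (3, 60), (3, 68), (3, 72), (3, 76), (3, 80), (3, 84), (3, 88), (3, 92), (3, 96), (3, 100),
   (3, 104), (3, 108), (3, 112), (3, 116), (3, 120), (3, 124), (5, 24), (5, 40), (5, 48),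
   (5, 56), (5, 72), (5, 80), (5, 88), (5, 96), (5, 104), (5, 112), (5, 120), (6, 24), (6, 40),
   (6, 48), (6, 56), (6, 72), (6, 80), (6, 88), (6, 96), (6, 104), (6, 112), (6, 120), (7, 24),
   (7, 40), (7, 48), (7, 56), (7, 72), (7, 80), (7, 88), (7, 96), (7, 104), (7, 112), (7, 120),
   (9, 48), (9, 80), (9, 96), (9, 112), (10, 48), (10, 80), (10, 96), (10, 112), (11, 48),
   (11, 80), (11, 96), (11, 112), (12, 48), (12, 80), (12, 96), (12, 112), (13, 48), (13, 80),
   (13, 96), (13, 112), (14, 48), (14, 80), (14, 96), (14, 112), (15, 48), (15, 80), (15, 96),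
   (15, 112), (17, 96), (18, 96), (19, 96), (20, 96), (21, 96), (22, 96), (23, 96), (24, 96),
   (25, 96), (26, 96), (27, 96), (28, 96), (29, 96), (30, 96), (31, 96)]

/-- At least `k` elements of the list satisfy the test (with early exit). -/
def atLeast (f : ℕ × ℕ → Bool) : ℕ → List (ℕ × ℕ) → Bool
  | 0, _ => true
  | _ + 1, [] => false
  | k + 1, x :: l => bif f x then atLeast f k l else atLeast f (k + 1) l

lemma atLeast_sound (f : ℕ × ℕ → Bool) : ∀ (l : List (ℕ × ℕ)) (k : ℕ), atLeast f k l = true →
    k ≤ (l.filter f).length := by
  intro l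
  induction l with
  | nil =>
    intro k h
    cases k with
    | zero => simp
    | succ k => simp [atLeast] at h
  | cons x l ih =>
    intro k h
    cases k with
    | zero => simp
    | succ k =>
      unfold atLeast at h
      cases hx : f x
      · rw [hx] at h
        have := ih (k + 1) h
        simpa [List.filter_cons, hx] using this
      · rw [hx] at h
        have := ih k h
        simpa [List.filter_cons, hx] using this

/-- At least five pairs of the list are separated by `q`. -/
def leafCheck (q : List ℕ) : Bool := atLeast (okAll q) 5 twos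

/-- The number of leaves at a spine vertex. -/
def cap (x : ℕ) : ℕ := if x = 0 ∨ x = 4 then 2 else 1

/-- Check all completions. -/
def loopL : ℕ → List ℕ → Bool
  | 0, q => leafCheck q
  | k + 1, q => (List.range 5).all (fun x => !(decide (q.count x < cap x)) || loopL k (x :: q))

lemma loopL_sound : ∀ (k : ℕ) (q : List ℕ), loopL k q = true → ∀ l : List ℕ, l.length = k →
    (∀ x, (l ++ q).count x ≤ cap x) → (∀ x ∈ l, x < 5) → leafCheck (l ++ q) = true := by
  intro k
  induction k with
  | zero =>
    intro q h l hl _ _
    rw [List.length_eq_zero_iff.1 hl]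
    exact h
  | succ k ih =>
    intro q h l hl hc hx
    rcases List.eq_nil_or_concat l with rfl | ⟨l', x, rfl⟩
    · simp at hl
    · rw [List.concat_eq_append] at *
      have h1 : (l' ++ [x]) ++ q = l' ++ (x :: q) := by simp
      rw [h1] at hc ⊢
      unfold loopL at h
      rw [List.all_eq_true] at h
      have h2 := h x (List.mem_range.2 (hx x (by simp)))
      have h3 : q.count x < cap x := by
        have := hc x
        rw [List.count_append, List.count_cons_self] at this
        omega
      rw [decide_eq_true h3] at h2
      simp only [Bool.not_true, Bool.false_or] at h2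
      refine ih (x :: q) h2 l' ?_ hc ?_
      · simpa using hl
      · intro y hy
        exact hx y (by simp [hy])

lemma loopL_true : loopL 7 [] = true := by decide +kernel

/-- At least five pairs are separated by `q`, for any distribution of the leaves. -/
lemma five_le (q : List ℕ) (hq : q.length = 7) (hc : ∀ x, q.count x ≤ cap x)
    (hx : ∀ x ∈ q, x < 5) : 5 ≤ (twos.filter (okAll q)).length := by
  have := loopL_sound 7 [] loopL_true q hq (by simpa using hc) hx
  rw [List.append_nil] at this
  exact atLeast_sound _ _ _ this

end Pool.Agent.X47.CP
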