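import Pool.Agent.X47.CP4

/-!
# Characters of caterpillars with given positions
-/

namespace Pool.Agent.X47.CP

open SimpleGraph

/-- The spine structure of a caterpillar with seven leaves, the leaf `i` hanging at the spine vertex
number `p i`. -/
structure CatData (T : SLTree 7) (p : Fin 7 → ℕ) : Prop where
  ex : ∃ s : ℕ → T.V, (∀ i, T.G.Adj (T.leaf i) (s (p i))) ∧
    (∀ x < 4, T.G.Adj (s x) (s (x + 1))) ∧ (∀ x < 5, s x ∉ Set.range T.leaf) ∧
    (∀ x < 5, ∀ y < 5, s x = s y → x = y)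
  lt : ∀ i, p i < 5

/-- A labelling whose two nontrivial classes are separated by a threshold on the spine. -/
lemma CatData.ker_mem {T : SLTree 7} {p : Fin 7 → ℕ} (h : CatData T p) (f : Fin 7 → ℕ)
    (u α β : ℕ) (hf : ∀ i j, i ≠ j → f i = f j →
      (f i = α ∧ p i ≤ u ∧ p j ≤ u) ∨ (f i = β ∧ u < p i ∧ u < p j)) :
    Setoid.ker f ∈ T.chars := by
  classical
  obtain ⟨s, h1, h2, h3, h4⟩ := h.ex
  let c : T.V → ℕ := fun v => if hv : ∃ i, T.leaf i = v then f hv.choose
    else if ∃ x, x < 5 ∧ x ≤ u ∧ s x = v then α else β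
  have hc : ∀ i, c (T.leaf i) = f i := by
    intro i
    have hv : ∃ j, T.leaf j = T.leaf i := ⟨i, rfl⟩
    show (if hv : ∃ j, T.leaf j = T.leaf i then f hv.choose else _) = f i
    rw [dif_pos hv]
    congr 1
    exact T.leaf_inj hv.choose_spec
  have hs1 : ∀ x < 5, x ≤ u → c (s x) = α := by
    intro x hx hxu
    have hv : ¬ ∃ i, T.leaf i = s x := fun hv => h3 x hx hv
    show (if hv : ∃ i, T.leaf i = s x then f hv.choose
      else if ∃ y, y < 5 ∧ y ≤ u ∧ s y = s x then α else β) = α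
    rw [dif_neg hv, if_pos ⟨x, hx, hxu, rfl⟩]
  have hs2 : ∀ x < 5, u < x → c (s x) = β := by
    intro x hx hxu
    have hv : ¬ ∃ i, T.leaf i = s x := fun hv => h3 x hx hv
    show (if hv : ∃ i, T.leaf i = s x then f hv.choose
      else if ∃ y, y < 5 ∧ y ≤ u ∧ s y = s x then α else β) = β
    rw [dif_neg hv, if_neg]
    rintro ⟨y, hy, hyu, hyx⟩
    have := h4 y hy x hx hyx
    omega
  let H : SimpleGraph T.V :=
    { Adj := fun a b => T.G.Adj a b ∧ c a = c b
      symm := ⟨fun _ _ hab => ⟨hab.1.symm, hab.2.symm⟩⟩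
      loopless := ⟨fun _ hab => hab.1.ne rfl⟩ }
  have hreach : ∀ x y, x ≤ y → y < 5 → (y ≤ u ∨ u < x) → H.Reachable (s x) (s y) := by
    intro x y hxy
    induction y, hxy using Nat.le_induction with
    | base => intro _ _; exact SimpleGraph.Reachable.refl _
    | succ y hxy ih =>
      intro hy hu
      have ih' := ih (by omega) (by omega)
      refine ih'.trans (SimpleGraph.Adj.reachable ?_)
      refine ⟨h2 y (by omega), ?_⟩
      rcases hu with hu | hu
      · rw [hs1 y (by omega) (by omega), hs1 (y + 1) hy hu]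
      · rw [hs2 y (by omega) (by omega), hs2 (y + 1) hy (by omega)]
  have hreach' : ∀ x y, x < 5 → y < 5 → ((x ≤ u ∧ y ≤ u) ∨ (u < x ∧ u < y)) →
      H.Reachable (s x) (s y) := by
    intro x y hx hy hu
    rcases le_total x y with hxy | hxy
    · exact hreach x y hxy hy (by omega)
    · exact (hreach y x hxy hx (by omega)).symm
  refine Pool.Agent.X47.CP.ker_mem T f c hc H (fun a b hab => hab) ?_
  intro i j hij
  by_cases hne : i = j
  · subst hne; exact SimpleGraph.Reachable.refl _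
  · have hi := h.lt i
    have hj := h.lt j
    rcases hf i j hne hij with ⟨e1, e2, e3⟩ | ⟨e1, e2, e3⟩
    · have a1 : H.Adj (T.leaf i) (s (p i)) := ⟨h1 i, by rw [hc, hs1 _ hi e2, e1]⟩
      have a2 : H.Adj (T.leaf j) (s (p j)) := ⟨h1 j, by rw [hc, hs1 _ hj e3, ← hij, e1]⟩
      exact a1.reachable.trans ((hreach' _ _ hi hj (Or.inl ⟨e2, e3⟩)).trans a2.symm.reachable)
    · have a1 : H.Adj (T.leaf i) (s (p i)) := ⟨h1 i, by rw [hc, hs2 _ hi e2, e1]⟩
      have a2 : H.Adj (T.leaf j) (s (p j)) := ⟨h1 j, by rw [hc, hs2 _ hj e3, ← hij, e1]⟩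
      exact a1.reachable.trans ((hreach' _ _ hi hj (Or.inr ⟨e2, e3⟩)).trans a2.symm.reachable)

/-- The labelling attached to a pair of bit masks. -/
def lab (x : ℕ × ℕ) (i : Fin 7) : ℕ :=
  if x.1.testBit i then 100 else if x.2.testBit i then 101 else i

lemma lab_ne (x : ℕ × ℕ) (i : Fin 7) : lab x i = 100 ∧ x.1.testBit i = true ∨
    lab x i = 101 ∧ x.1.testBit i = false ∧ x.2.testBit i = true ∨
    lab x i = i ∧ x.1.testBit i = false ∧ x.2.testBit i = false := by
  unfold lab
  cases h1 : x.1.testBit i <;> cases h2 : x.2.testBit i <;> simp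

lemma CatData.two_mem {T : SLTree 7} {p : Fin 7 → ℕ} (h : CatData T p) (x : ℕ × ℕ)
    (hx : okAll (List.ofFn p) x = true) : Setoid.ker (lab x) ∈ T.chars := by
  have key : ∀ u, ok (mask u (List.ofFn p)) x.1 x.2 = true → Setoid.ker (lab x) ∈ T.chars := by
    intro u hu
    have hM : ∀ i : Fin 7, (mask u (List.ofFn p)).testBit i = true ↔ p i ≤ u := by
      intro i
      rw [testBit_mask u (List.ofFn p) i (by simp), List.getD_eq_getElem?_getD,
        List.getElem?_ofFn]
      simp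
    set M := mask u (List.ofFn p) with hMdef
    unfold ok at hu
    rw [Bool.or_eq_true, Bool.and_eq_true, Bool.and_eq_true, beq_iff_eq, beq_iff_eq, beq_iff_eq,
      beq_iff_eq] at hu
    have hsub : ∀ A : ℕ, A &&& M = A → ∀ i : Fin 7, A.testBit i = true → p i ≤ u := by
      intro A hA i hi
      rw [← hM]
      rw [← hA, Nat.testBit_and, Bool.and_eq_true] at hi
      exact hi.2
    have hdis : ∀ A : ℕ, A &&& M = 0 → ∀ i : Fin 7, A.testBit i = true → u < p i := by
      intro A hA i hi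
      by_contra hcon
      have h1 := (hM i).2 (by omega)
      have h2 : (A &&& M).testBit i = true := by
        rw [Nat.testBit_and, hi, h1]; rfl
      rw [hA] at h2
      simp at h2
    rcases hu with ⟨hu1, hu2⟩ | ⟨hu1, hu2⟩
    · refine h.ker_mem (lab x) u 100 101 ?_
      intro i j hne hij
      have hi := lab_ne x i
      have hj := lab_ne x j
      have vi := i.2
      have vj := j.2
      have hne' : (i : ℕ) ≠ j := fun h => hne (Fin.ext h)
      rcases hi with ⟨a1, a2⟩ | ⟨a1, a2, a3⟩ | ⟨a1, a2, a3⟩ <;>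
      rcases hj with ⟨b1, b2⟩ | ⟨b1, b2, b3⟩ | ⟨b1, b2, b3⟩ <;>
      first
        | (exfalso; omega)
        | (left; exact ⟨a1, hsub _ hu1 i a2, hsub _ hu1 j b2⟩)
        | (right; exact ⟨a1, hdis _ hu2 i a3, hdis _ hu2 j b3⟩)
    · refine h.ker_mem (lab x) u 101 100 ?_
      intro i j hne hij
      have hi := lab_ne x i
      have hj := lab_ne x j
      have vi := i.2
      have vj := j.2
      have hne' : (i : ℕ) ≠ j := fun h => hne (Fin.ext h)
      rcases hi with ⟨a1, a2⟩ | ⟨a1, a2, a3⟩ | ⟨a1, a2, a3⟩ <;>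
      rcases hj with ⟨b1, b2⟩ | ⟨b1, b2, b3⟩ | ⟨b1, b2, b3⟩ <;>
      first
        | (exfalso; omega)
        | (left; exact ⟨a1, hsub _ hu1 i a3, hsub _ hu1 j b3⟩)
        | (right; exact ⟨a1, hdis _ hu2 i a2, hdis _ hu2 j b2⟩)
  unfold okAll at hx
  simp only [Bool.or_eq_true] at hx
  rcases hx with ((hx | hx) | hx) | hx
  · exact key _ hx
  · exact key _ hx
  · exact key _ hx
  · exact key _ hx

lemma CatData.one_mem {T : SLTree 7} {p : Fin 7 → ℕ} (h : CatData T p) (A : ℕ) :
    Setoid.ker (lab (A, 0)) ∈ T.chars := by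
  refine h.ker_mem (lab (A, 0)) 4 100 101 ?_
  intro i j hne hij
  have hi := lab_ne (A, 0) i
  have hj := lab_ne (A, 0) j
  have vi := i.2
  have vj := j.2
  have hpi := h.lt i
  have hpj := h.lt j
  have hne' : (i : ℕ) ≠ j := fun h => hne (Fin.ext h)
  rcases hi with ⟨a1, a2⟩ | ⟨a1, a2, a3⟩ | ⟨a1, a2, a3⟩ <;>
  rcases hj with ⟨b1, b2⟩ | ⟨b1, b2, b3⟩ | ⟨b1, b2, b3⟩ <;>
  first
    | (exfalso; simp at a3; done)
    | (exfalso; simp at b3; done)
    | (exfalso; omega)
    | (left; exact ⟨a1, by omega, by omega⟩)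

end Pool.Agent.X47.CP
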