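import Pool.Agent.X47.CP5

/-!
# The lower bound for two caterpillars, the first one standard
-/

namespace Pool.Agent.X47.CP

/-- The mask of the class of `i`. -/
def cls (R : Fin 7 → Fin 7 → Bool) (i : Fin 7) : ℕ :=
  (List.finRange 7).foldr (fun j a => (if R i j then 2 ^ (j : ℕ) else 0) + a) 0

/-- The list of the masks of the nontrivial classes (with repetitions). -/
def clsL (R : Fin 7 → Fin 7 → Bool) : List ℕ :=
  ((List.finRange 7).filter (fun i => decide (cls R i ≠ 2 ^ (i : ℕ)))).map (cls R)

/-- Recover the pair of masks from the relation. -/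
def dec (R : Fin 7 → Fin 7 → Bool) : ℕ × ℕ :=
  ((clsL R).headD 0, ((clsL R).filter (fun a => decide (a ≠ (clsL R).headD 0))).headD 0)

/-- The relation of a labelling. -/
def rel (x : ℕ × ℕ) (i j : Fin 7) : Bool := lab x i == lab x j

/-- Masks of at most one nontrivial class. -/
def ones : List (ℕ × ℕ) :=
  ((List.range 128).filter (fun A => decide ((List.range 7).countP (fun i => A.testBit i) ≠ 1))).map
    (fun A => (A, 0))

lemma ones_length : ones.length = 121 := by decide +kernel

lemma dec_ones : ∀ x ∈ ones, dec (rel x) = x := by decide +kernel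

lemma dec_twos : ∀ x ∈ twos, dec (rel x) = x := by decide +kernel

lemma twos_std : ∀ x ∈ twos, okAll [0, 0, 1, 2, 3, 4, 4] x = true := by decide +kernel

lemma twos_nodup : twos.Nodup := by decide +kernel

lemma twos_ne : ∀ x ∈ twos, x.2 ≠ 0 := by decide +kernel

lemma ones_nodup : ones.Nodup := by
  unfold ones
  apply List.Nodup.map
  · intro a b h
    exact congrArg Prod.fst h
  · exact (List.nodup_range).filter _

lemma ker_lab_inj (x y : ℕ × ℕ) (hx : dec (rel x) = x) (hy : dec (rel y) = y)
    (h : Setoid.ker (lab x) = Setoid.ker (lab y)) : x = y := by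
  have h1 : rel x = rel y := by
    funext i j
    have h2 : lab x i = lab x j ↔ lab y i = lab y j := by
      have := congrArg (fun r : Setoid (Fin 7) => r i j) h
      simpa [Setoid.ker_def] using this
    unfold rel
    by_cases h3 : lab x i = lab x j
    · rw [beq_iff_eq.2 h3, beq_iff_eq.2 (h2.1 h3)]
    · rw [beq_eq_false_iff_ne.2 h3, beq_eq_false_iff_ne.2 (fun h4 => h3 (h2.2 h4))]
  rw [← hx, ← hy, h1]

instance finite_setoid : Finite (Setoid (Fin 7)) := by
  have : Function.Injective (fun r : Setoid (Fin 7) => (fun i j => r i j : Fin 7 → Fin 7 → Prop)) := by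
    intro r s h
    ext i j
    exact iff_of_eq (congrFun (congrFun h i) j)
  exact Finite.of_injective _ this

/-- The lower bound, the first caterpillar being standard. -/
lemma lower_std {T F : SLTree 7} {p q : Fin 7 → ℕ} (hT : CatData T p) (hF : CatData F q)
    (hp : List.ofFn p = [0, 0, 1, 2, 3, 4, 4]) (hq : ∀ x, (List.ofFn q).count x ≤ cap x) :
    126 ≤ (T.chars ∩ F.chars).ncard := by
  classical
  set K : List (ℕ × ℕ) := ones ++ twos.filter (okAll (List.ofFn q)) with hK
  have hKlen : 126 ≤ K.length := by
    rw [hK, List.length_append, ones_length]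
    have := five_le (List.ofFn q) (by simp) hq (by
      intro x hx
      rw [List.mem_ofFn] at hx
      obtain ⟨i, rfl⟩ := hx
      exact hF.lt i)
    omega
  have hKnd : K.Nodup := by
    rw [hK]
    refine List.Nodup.append ones_nodup (twos_nodup.filter _) ?_
    intro x hx1 hx2
    have h1 : x.2 = 0 := by
      unfold ones at hx1
      rw [List.mem_map] at hx1
      obtain ⟨A, _, rfl⟩ := hx1
      rfl
    exact twos_ne x (List.mem_filter.1 hx2).1 h1
  have hdec : ∀ x ∈ K, dec (rel x) = x := by
    intro x hx
    rcases List.mem_append.1 hx with h | h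
    · exact dec_ones x h
    · exact dec_twos x (List.mem_filter.1 h).1
  have hmem : ∀ x ∈ (K.toFinset : Set (ℕ × ℕ)), Setoid.ker (lab x) ∈ T.chars ∩ F.chars := by
    intro x hx
    rw [Finset.mem_coe, List.mem_toFinset] at hx
    rcases List.mem_append.1 hx with h | h
    · unfold ones at h
      rw [List.mem_map] at h
      obtain ⟨A, _, rfl⟩ := h
      exact ⟨hT.one_mem A, hF.one_mem A⟩
    · obtain ⟨h1, h2⟩ := List.mem_filter.1 h
      refine ⟨hT.two_mem x ?_, hF.two_mem x h2⟩
      rw [hp]
      exact twos_std x h1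
  have hinj : Set.InjOn (fun x => Setoid.ker (lab x)) (K.toFinset : Set (ℕ × ℕ)) := by
    intro x hx y hy hxy
    rw [Finset.mem_coe, List.mem_toFinset] at hx hy
    exact ker_lab_inj x y (hdec x hx) (hdec y hy) hxy
  have h1 := Set.ncard_le_ncard_of_injOn _ hmem hinj (Set.toFinite _)
  rw [Set.ncard_coe_finset, List.toFinset_card_of_nodup hKnd] at h1
  omega

end Pool.Agent.X47.CP
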