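import Pool.Agent.X47.CP6

/-!
# The structure of caterpillars with seven leaves
-/

namespace Pool.Agent.X47.CP

open SimpleGraph

/-- The leaf neighbour and the spine. -/
lemma cat_struct (T : SLTree 7) (hT : T.IsCaterpillar) :
    ∃ p : Fin 7 → ℕ, CatData T p ∧ ∀ x < 5,
      (Finset.univ.filter (fun i => p i = x)).card = cap x := by
  classical
  have hfin := T.fin
  obtain ⟨m, ⟨φ⟩⟩ := hT
  -- unique neighbour of a leaf
  have hnb : ∀ i, ∃ w, T.G.neighborSet (T.leaf i) = {w} := by
    intro i
    exact Set.ncard_eq_one.1 ((T.leaf_iff _).2 ⟨i, rfl⟩)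
  choose w hw using hnb
  have hwadj : ∀ i, T.G.Adj (T.leaf i) (w i) := by
    intro i
    have : w i ∈ T.G.neighborSet (T.leaf i) := by rw [hw i]; rfl
    exact this
  have hwuniq : ∀ i v, T.G.Adj (T.leaf i) v → v = w i := by
    intro i v hv
    have : v ∈ T.G.neighborSet (T.leaf i) := hv
    rw [hw i] at this
    exact this
  have hwint : ∀ i, w i ∉ Set.range T.leaf := by
    rintro i ⟨j, hj⟩
    have hji : w j = T.leaf i := by
      refine (hwuniq j (T.leaf i) ?_).symm
      rw [hj]
      exact (hwadj i).symm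
    have hcl : ∀ v, T.G.Reachable (T.leaf i) v → v = T.leaf i ∨ v = T.leaf j := by
      intro v hv
      obtain ⟨q⟩ := hv
      have : ∀ a b, T.G.Walk a b → (a = T.leaf i ∨ a = T.leaf j) →
          (b = T.leaf i ∨ b = T.leaf j) := by
        intro a b q
        induction q with
        | nil => exact fun h => h
        | cons h q ih =>
          intro ha
          apply ih
          rcases ha with rfl | rfl
          · right; rw [hj]; exact hwuniq i _ h
          · left; rw [← hji]; exact hwuniq j _ h
      exact this _ _ q (Or.inl rfl)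
    obtain ⟨k, hk1, hk2⟩ : ∃ k : Fin 7, k ≠ i ∧ k ≠ j := by
      by_cases h1 : i ≠ 0 ∧ j ≠ 0
      · exact ⟨0, h1.1.symm, h1.2.symm⟩
      · by_cases h2 : i ≠ 1 ∧ j ≠ 1
        · exact ⟨1, h2.1.symm, h2.2.symm⟩
        · refine ⟨2, ?_, ?_⟩
          · rintro rfl
            apply h1
            refine ⟨by decide, ?_⟩
            rintro rfl
            exact h2 ⟨by decide, by decide⟩
          · rintro rfl
            apply h1
            refine ⟨?_, by decide⟩
            rintro rfl
            exact h2 ⟨by decide, by decide⟩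
    rcases hcl (T.leaf k) (T.isTree.connected.preconnected _ _) with h | h
    · exact hk1 (T.leaf_inj h)
    · exact hk2 (T.leaf_inj h)
  let p' : Fin 7 → Fin m := fun i => φ ⟨w i, hwint i⟩
  let s : Fin m → T.V := fun x => (φ.symm x).1
  have hsint : ∀ x, s x ∉ Set.range T.leaf := fun x => (φ.symm x).2
  have hsp : ∀ i, s (p' i) = w i := by
    intro i
    show (φ.symm (φ ⟨w i, hwint i⟩)).1 = w i
    rw [RelIso.symm_apply_apply]
  have hsinj : Function.Injective s := by
    intro x y h
    have : φ.symm x = φ.symm y := Subtype.ext h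
    exact φ.symm.injective this
  have hsadj : ∀ x y, T.G.Adj (s x) (s y) ↔ ((x : ℕ) + 1 = y ∨ (y : ℕ) + 1 = x) := by
    intro x y
    have h1 : (pathGraph m).Adj x y ↔ T.G.Adj (s x) (s y) := by
      have := φ.symm.map_adj_iff (v := x) (w := y)
      rw [← this]
      rfl
    rw [← h1, SimpleGraph.pathGraph_adj]
  have hsurj : ∀ v, v ∉ Set.range T.leaf → ∃ x, s x = v := by
    intro v hv
    refine ⟨φ ⟨v, hv⟩, ?_⟩
    show (φ.symm (φ ⟨v, hv⟩)).1 = v
    rw [RelIso.symm_apply_apply]
  -- degrees
  have hdeg : ∀ x : Fin m, (Finset.univ.filter (fun i => p' i = x)).card +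
      (Finset.univ.filter (fun y : Fin m => (x : ℕ) + 1 = y ∨ (y : ℕ) + 1 = x)).card = 3 := by
    intro x
    have h3 : (T.G.neighborSet (s x)).ncard = 3 := by
      rcases T.deg (s x) with h | h
      · exact absurd ((T.leaf_iff _).1 h) (hsint x)
      · exact h
    have hset : T.G.neighborSet (s x) =
        (((Finset.univ.filter (fun i => p' i = x)).image T.leaf ∪
          (Finset.univ.filter (fun y : Fin m => (x : ℕ) + 1 = y ∨ (y : ℕ) + 1 = x)).image s :
          Finset T.V) : Set T.V) := by
      ext v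
      simp only [SimpleGraph.mem_neighborSet, Finset.coe_union, Finset.coe_image, Set.mem_union,
        Set.mem_image, Finset.mem_coe, Finset.mem_filter, Finset.mem_univ, true_and]
      constructor
      · intro h
        by_cases hv : v ∈ Set.range T.leaf
        · obtain ⟨i, rfl⟩ := hv
          left
          refine ⟨i, ?_, rfl⟩
          apply hsinj
          rw [hsp]
          exact (hwuniq i _ h.symm).symm
        · obtain ⟨y, rfl⟩ := hsurj v hv
          right
          exact ⟨y, (hsadj x y).1 h, rfl⟩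
      · rintro (⟨i, rfl, rfl⟩ | ⟨y, hy, rfl⟩)
        · rw [hsp]
          exact (hwadj i).symm
        · exact (hsadj x y).2 hy
    rw [hset, Set.ncard_coe_finset, Finset.card_union_of_disjoint,
      Finset.card_image_of_injective _ T.leaf_inj, Finset.card_image_of_injective _ hsinj] at h3
    · exact h3
    · rw [Finset.disjoint_left]
      intro v hv1 hv2
      rw [Finset.mem_image] at hv1 hv2
      obtain ⟨i, _, rfl⟩ := hv1
      obtain ⟨y, _, hy⟩ := hv2
      exact hsint y ⟨i, hy.symm⟩
  have hsum : ∑ x : Fin m, (Finset.univ.filter (fun i => p' i = x)).card = 7 := by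
    have := Finset.card_eq_sum_card_fiberwise (f := p') (s := Finset.univ) (t := Finset.univ)
      (fun _ _ => Finset.mem_coe.2 (Finset.mem_univ _))
    rw [← this]
    simp
  have hm : m = 5 := by
    have h1 : ∑ x : Fin m, ((Finset.univ.filter (fun i => p' i = x)).card +
      (Finset.univ.filter (fun y : Fin m => (x : ℕ) + 1 = y ∨ (y : ℕ) + 1 = x)).card) = 3 * m := by
      rw [Finset.sum_congr rfl (fun x _ => hdeg x)]
      simp [mul_comm]
    rw [Finset.sum_add_distrib, hsum] at h1
    have h2 : ∀ x : Fin m,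
        (Finset.univ.filter (fun y : Fin m => (x : ℕ) + 1 = y ∨ (y : ℕ) + 1 = x)).card ≤ 2 := by
      intro x
      have : (Finset.univ.filter (fun y : Fin m => (x : ℕ) + 1 = y ∨ (y : ℕ) + 1 = x)).image
          (fun y : Fin m => (y : ℕ)) ⊆ {(x : ℕ) + 1, (x : ℕ) - 1} := by
        intro a ha
        rw [Finset.mem_image] at ha
        obtain ⟨y, hy, rfl⟩ := ha
        rw [Finset.mem_filter] at hy
        rw [Finset.mem_insert, Finset.mem_singleton]
        omega
      have h3 := Finset.card_le_card this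
      rw [Finset.card_image_of_injective _ Fin.val_injective] at h3
      exact h3.trans Finset.card_le_two
    have h3 : ∑ x : Fin m,
        (Finset.univ.filter (fun y : Fin m => (x : ℕ) + 1 = y ∨ (y : ℕ) + 1 = x)).card ≤ 2 * m := by
      refine (Finset.sum_le_sum (fun x _ => h2 x)).trans ?_
      simp [mul_comm]
    have h4 : m ≤ 7 := by omega
    clear_value p' s
    clear h3 h2 hdeg hsum hsadj hsurj hsinj hsp hsint hwint φ
    have h5 : ∀ m ≤ 7, 7 + ∑ x : Fin m,
        (Finset.univ.filter (fun y : Fin m => (x : ℕ) + 1 = y ∨ (y : ℕ) + 1 = x)).card = 3 * m →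
        m = 5 := by decide
    exact h5 m h4 h1
  subst hm
  obtain ⟨s', hs'⟩ : ∃ s' : ℕ → T.V, ∀ x (h : x < 5), s' x = s ⟨x, h⟩ :=
    ⟨fun x => if h : x < 5 then s ⟨x, h⟩ else T.leaf 0, fun x h => dif_pos h⟩
  refine ⟨fun i => (p' i : ℕ), ⟨⟨s', ?_, ?_, ?_, ?_⟩, fun i => (p' i).2⟩, ?_⟩
  · intro i
    show T.G.Adj (T.leaf i) (s' (p' i : ℕ))
    rw [hs' _ (p' i).2]
    show T.G.Adj (T.leaf i) (s (p' i))
    rw [hsp]
    exact hwadj i
  · intro x hx
    rw [hs' x (by omega), hs' (x + 1) (by omega)]
    exact (hsadj _ _).2 (Or.inl rfl)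
  · intro x hx
    rw [hs' x hx]
    exact hsint _
  · intro x hx y hy h
    rw [hs' x hx, hs' y hy] at h
    have := hsinj h
    exact congrArg Fin.val this
  · intro x hx
    have h1 := hdeg ⟨x, hx⟩
    have h2 : (Finset.univ.filter (fun i => (p' i : ℕ) = x)) =
        (Finset.univ.filter (fun i => p' i = ⟨x, hx⟩)) := by
      ext i
      simp [Fin.ext_iff]
    show (Finset.univ.filter (fun i => (p' i : ℕ) = x)).card = cap x
    rw [h2]
    have h3 : ∀ x : Fin 5, (Finset.univ.filter
        (fun y : Fin 5 => (x : ℕ) + 1 = y ∨ (y : ℕ) + 1 = x)).card + cap x = 3 := by decide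
    have h4 := h3 ⟨x, hx⟩
    simp only at h4 h1
    omega

end Pool.Agent.X47.CP
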