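import Pool.Agent.X47.CP3
import Pool.Agent.X47.CP7

/-!
# `s_7 ≤ 125 < 126 = c_7`
-/

namespace Pool.Agent.X47.CP

open SimpleGraph

/-- The same tree with the labels permuted. -/
def SLTree.relabel {n : ℕ} (T : SLTree n) (σ : Equiv.Perm (Fin n)) : SLTree n where
  V := T.V
  fin := T.fin
  G := T.G
  isTree := T.isTree
  deg := T.deg
  leaf := fun i => T.leaf (σ i)
  leaf_inj := T.leaf_inj.comp σ.injective
  leaf_iff := by
    intro v
    rw [T.leaf_iff]
    constructor
    · rintro ⟨i, rfl⟩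
      exact ⟨σ.symm i, by simp⟩
    · rintro ⟨i, rfl⟩
      exact ⟨σ i, rfl⟩

lemma relabel_mem {n : ℕ} (T : SLTree n) (σ : Equiv.Perm (Fin n)) {r : Setoid (Fin n)}
    (hr : r ∈ (T.relabel σ).chars) : Setoid.comap σ.symm r ∈ T.chars := by
  obtain ⟨D, hD⟩ := hr
  refine ⟨D, ?_⟩
  intro i j
  rw [Setoid.comap_rel, hD]
  show (T.G.deleteEdges D).Reachable (T.leaf (σ (σ.symm i))) (T.leaf (σ (σ.symm j))) ↔ _
  rw [Equiv.apply_symm_apply, Equiv.apply_symm_apply]

lemma relabel_ncard (T F : SLTree 7) (σ : Equiv.Perm (Fin 7)) :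
    ((T.relabel σ).chars ∩ (F.relabel σ).chars).ncard ≤ (T.chars ∩ F.chars).ncard := by
  refine Set.ncard_le_ncard_of_injOn (Setoid.comap σ.symm) ?_ ?_ (Set.toFinite _)
  · rintro r ⟨h1, h2⟩
    exact ⟨relabel_mem T σ h1, relabel_mem F σ h2⟩
  · intro r _ s _ h
    ext i j
    have := congrArg (fun t : Setoid (Fin 7) => t (σ i) (σ j)) h
    simp only [Setoid.comap_rel, Equiv.symm_apply_apply] at this
    exact iff_of_eq this

lemma relabel_cat {T : SLTree 7} {p : Fin 7 → ℕ} (h : CatData T p) (σ : Equiv.Perm (Fin 7)) :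
    CatData (T.relabel σ) (fun i => p (σ i)) := by
  obtain ⟨⟨s, h1, h2, h3, h4⟩, h5⟩ := h
  refine ⟨⟨s, fun i => h1 (σ i), h2, ?_, h4⟩, fun i => h5 (σ i)⟩
  rintro x hx ⟨i, hi⟩
  exact h3 x hx ⟨σ i, hi⟩

lemma count_ofFn (f : Fin 7 → ℕ) (x : ℕ) :
    (List.ofFn f).count x = (Finset.univ.filter (fun i => f i = x)).card := by
  rw [Finset.card_filter]
  simp only [List.ofFn_succ, List.ofFn_zero, List.count_cons, List.count_nil, Fin.sum_univ_succ,
    beq_iff_eq, Finset.univ_eq_empty, Finset.sum_empty]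
  omega

/-- The standard positions. -/
def std (i : Fin 7) : ℕ := [0, 0, 1, 2, 3, 4, 4].getD i 0

lemma std_card (x : ℕ) (hx : x < 5) :
    (Finset.univ.filter (fun i => std i = x)).card = cap x := by
  interval_cases x <;> decide

lemma std_lt (i : Fin 7) : std i < 5 := by revert i; decide

lemma exists_perm (p : Fin 7 → ℕ) (hp : ∀ i, p i < 5)
    (hc : ∀ x < 5, (Finset.univ.filter (fun i => p i = x)).card = cap x) :
    ∃ σ : Equiv.Perm (Fin 7), ∀ i, p (σ i) = std i := by
  classical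
  have he : ∀ x : ℕ, Nonempty ({i : Fin 7 // std i = x} ≃ {i : Fin 7 // p i = x}) := by
    intro x
    apply Fintype.card_eq.1
    rw [Fintype.card_subtype, Fintype.card_subtype]
    by_cases hx : x < 5
    · rw [std_card x hx, hc x hx]
    · rw [Finset.filter_false_of_mem, Finset.filter_false_of_mem]
      · intro i _ h
        have := hp i
        omega
      · intro i _ h
        have := std_lt i
        omega
  let e : ∀ x : ℕ, ({i : Fin 7 // std i = x} ≃ {i : Fin 7 // p i = x}) := fun x => (he x).some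
  refine ⟨(Equiv.sigmaFiberEquiv std).symm.trans
    ((Equiv.sigmaCongrRight e).trans (Equiv.sigmaFiberEquiv p)), ?_⟩
  intro i
  exact (e (std i) ⟨i, rfl⟩).2

/-- Any two caterpillars with seven leaves have at least `126` common characters. -/
lemma cat_lower (T F : SLTree 7) (hT : T.IsCaterpillar) (hF : F.IsCaterpillar) :
    126 ≤ (T.chars ∩ F.chars).ncard := by
  obtain ⟨p, hp, hpc⟩ := cat_struct T hT
  obtain ⟨q, hq, hqc⟩ := cat_struct F hF
  obtain ⟨σ, hσ⟩ := exists_perm p hp.lt hpc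
  refine le_trans ?_ (relabel_ncard T F σ)
  refine lower_std (relabel_cat hp σ) (relabel_cat hq σ) ?_ ?_
  · have : (fun i => p (σ i)) = std := funext hσ
    rw [this]
    decide
  · intro x
    rw [count_ofFn]
    have h1 : (Finset.univ.filter (fun i => q (σ i) = x)).card =
        (Finset.univ.filter (fun i => q i = x)).card := by
      apply Finset.card_bij (fun i _ => σ i)
      · intro i hi
        simpa using hi
      · intro i _ j _ h
        exact σ.injective h
      · intro j hj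
        exact ⟨σ.symm j, by simpa using hj, by simp⟩
    rw [h1]
    by_cases hx : x < 5
    · rw [hqc x hx]
    · rw [Finset.filter_false_of_mem]
      · simp
      · intro i _ h
        have := hq.lt i
        omega

lemma spine_adj (par : List ℕ) (hpar : ∀ u v : Fin 12, 7 ≤ (u : ℕ) → 7 ≤ (v : ℕ) →
    ((parG par).Adj u v ↔ ((u : ℕ) - 7 + 1 = v - 7 ∨ (v : ℕ) - 7 + 1 = u - 7)))
    (h1) (h3) : (mk7 par h1 h3).IsCaterpillar := by
  have hmem : ∀ v : Fin 12, v ∉ Set.range (mk7 par h1 h3).leaf ↔ 7 ≤ (v : ℕ) := by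
    intro v
    constructor
    · intro h
      by_contra hcon
      exact h ⟨⟨v, by omega⟩, Fin.ext rfl⟩
    · rintro h ⟨i, rfl⟩
      have h2 : ((mk7 par h1 h3).leaf i : Fin 12).val = i.val := rfl
      have := i.2
      omega
  refine ⟨5, ⟨⟨⟨fun v => ⟨(v.1 : Fin 12).val - 7, by have := (v.1 : Fin 12).2; omega⟩,
    fun x => ⟨(⟨x + 7, by have := x.2; omega⟩ : Fin 12), (hmem _).2 (by simp)⟩, ?_, ?_⟩, ?_⟩⟩⟩
  · rintro ⟨v, hv⟩
    apply Subtype.ext
    apply Fin.ext
    have := (hmem v).1 hv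
    show (v : Fin 12).val - 7 + 7 = (v : Fin 12).val
    omega
  · intro x
    apply Fin.ext
    show (x : ℕ) + 7 - 7 = x
    omega
  · rintro ⟨u, hu⟩ ⟨v, hv⟩
    have := hpar u v ((hmem u).1 hu) ((hmem v).1 hv)
    rw [SimpleGraph.pathGraph_adj]
    exact this.symm

lemma cat_T : treeT.IsCaterpillar := spine_adj parT (by decide) _ _

lemma cat_C : treeC.IsCaterpillar := spine_adj parC (by decide) _ _

theorem sMin_seven : sMin 7 ≤ 125 := by
  have h : sMin 7 ≤ (treeT.chars ∩ treeF.chars).ncard := Nat.sInf_le ⟨treeT, treeF, rfl⟩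
  exact h.trans ncard_TF

theorem cMin_seven : cMin 7 = 126 := by
  apply le_antisymm
  · have h : cMin 7 ≤ (treeT.chars ∩ treeC.chars).ncard :=
      Nat.sInf_le ⟨treeT, treeC, cat_T, cat_C, rfl⟩
    exact h.trans ncard_TC
  · have hne : {k | ∃ T F : SLTree 7, T.IsCaterpillar ∧ F.IsCaterpillar ∧
        (T.chars ∩ F.chars).ncard = k}.Nonempty := ⟨_, treeT, treeC, cat_T, cat_C, rfl⟩
    apply le_csInf hne
    rintro k ⟨T, F, hT, hF, rfl⟩
    exact cat_lower T F hT hF

end Pool.Agent.X47.CP
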