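import Mathlib

/-!
# Duplication-loss histories in a species tree: the generating functions

Species trees, the power series `H`, the radius of convergence `rho`, the growth factor `alpha`,
and the real-valued recursion that computes the values of `H` inside the disc of convergence.
-/

open PowerSeries

namespace Pool.Agent.X47.DL

/-- A species tree: a rooted binary tree (a planar representative of it). -/
inductive STree : Type
  | leaf : STree
  | node (l r : STree) : STree

/-- The size of a species tree: its number of leaves. -/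
def STree.size : STree → ℕ
  | .leaf => 1
  | .node l r => l.size + r.size

/-- The series `B(z) = (1 - √(1 - 4 z)) / 2 = ∑ catalan n * z ^ (n + 1)`. -/
noncomputable def B : PowerSeries ℝ :=
  X * PowerSeries.map (Nat.castRingHom ℝ) catalanSeries

/-- The series `H_S` at the root of the species tree `S`: `B(z)` for a leaf, and
`B(H_l H_r + H_l + H_r)` for a tree with the two subtrees `l` and `r`. -/
noncomputable def H : STree → PowerSeries ℝ
  | .leaf => B
  | .node l r => B.subst (H l * H r + H l + H r)

/-- `h_S(n)`, the number of duplication-loss histories of size `n` in `S`. -/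
noncomputable def h (S : STree) (n : ℕ) : ℝ := coeff n (H S)

/-- The radius of convergence of `H_S`. -/
noncomputable def rho (S : STree) : ℝ :=
  sSup {r : ℝ | 0 ≤ r ∧ Summable fun n => h S n * r ^ n}

/-- The exponential growth factor `alpha_S = 1 / rho_S`. -/
noncomputable def alpha (S : STree) : ℝ := (rho S)⁻¹

theorem one_le_size (S : STree) : 1 ≤ S.size := by
  induction S with
  | leaf => simp [STree.size]
  | node l r ihl ihr => simp only [STree.size]; omega

theorem B_const : constantCoeff B = 0 := by
  simp [B]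

theorem B_eq : B = X + B ^ 2 := by
  have h1 := congrArg (PowerSeries.map (Nat.castRingHom ℝ)) catalanSeries_sq_mul_X_add_one
  rw [map_add, map_mul, map_pow, map_one, PowerSeries.map_X] at h1
  unfold B
  set c := PowerSeries.map (Nat.castRingHom ℝ) catalanSeries with hc
  calc X * c = X * (c ^ 2 * X + 1) := by rw [h1]
    _ = X + (X * c) ^ 2 := by ring

theorem H_const (S : STree) : constantCoeff (H S) = 0 := by
  cases S with
  | leaf => exact B_const
  | node l r =>
    simp only [H]
    have hl : constantCoeff (H l * H r + H l + H r) = 0 := by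
      have h1 := H_const l
      have h2 := H_const r
      simp [h1, h2]
    exact constantCoeff_subst_eq_zero hl B B_const

/-- The argument of `B` at the root. -/
noncomputable def W : STree → PowerSeries ℝ
  | .leaf => X
  | .node l r => H l * H r + H l + H r

theorem W_const (S : STree) : constantCoeff (W S) = 0 := by
  cases S with
  | leaf => simp [W]
  | node l r => simp [W, H_const l, H_const r]

theorem H_eq (S : STree) : H S = W S + (H S) ^ 2 := by
  cases S with
  | leaf => simpa [H, W] using B_eq
  | node l r =>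
    have hs : HasSubst (H l * H r + H l + H r) :=
      HasSubst.of_constantCoeff_zero' (W_const (.node l r))
    have h1 : (B.subst (H l * H r + H l + H r) : PowerSeries ℝ)
        = (X + B ^ 2 : PowerSeries ℝ).subst (H l * H r + H l + H r) := by rw [← B_eq]
    rw [subst_add hs, subst_pow hs, subst_X hs] at h1
    simpa only [H, W] using h1

theorem coeff_sq_eq (f : PowerSeries ℝ) (n : ℕ) :
    coeff n (f ^ 2) = ∑ p ∈ Finset.HasAntidiagonal.antidiagonal n, coeff p.1 f * coeff p.2 f := by
  rw [sq, coeff_mul]

/-- nonnegativity of the coefficients of a solution of `F = V + F²`. -/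
theorem nonneg_of_eq {F V : PowerSeries ℝ} (hF0 : constantCoeff F = 0) (hF : F = V + F ^ 2)
    (hV : ∀ n, 0 ≤ coeff n V) : ∀ n, 0 ≤ coeff n F := by
  intro n
  induction n using Nat.strong_induction_on with
  | _ n ih =>
    have h1 : coeff n F = coeff n V + ∑ p ∈ Finset.HasAntidiagonal.antidiagonal n, coeff p.1 F * coeff p.2 F := by
      conv_lhs => rw [hF]
      rw [map_add, coeff_sq_eq]
    rw [h1]
    refine add_nonneg (hV n) (Finset.sum_nonneg ?_)
    rintro ⟨i, j⟩ hij
    rw [Finset.HasAntidiagonal.mem_antidiagonal] at hij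
    simp only at hij ⊢
    rcases Nat.eq_zero_or_pos i with hi | hi
    · subst hi; rw [coeff_zero_eq_constantCoeff_apply, hF0]; simp
    rcases Nat.eq_zero_or_pos j with hj | hj
    · subst hj; rw [coeff_zero_eq_constantCoeff_apply, hF0]; simp
    · exact mul_nonneg (ih i (by omega)) (ih j (by omega))

theorem coeff_H_nonneg (S : STree) : ∀ n, 0 ≤ coeff n (H S) := by
  induction S with
  | leaf =>
    refine nonneg_of_eq B_const B_eq ?_
    intro n; rw [coeff_X]; split_ifs <;> norm_num
  | node l r ihl ihr =>
    refine nonneg_of_eq (H_const _) (H_eq _) ?_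
    intro n
    simp only [W, map_add, coeff_mul]
    refine add_nonneg (add_nonneg (Finset.sum_nonneg fun p _ => mul_nonneg (ihl _) (ihr _)) (ihl n)) (ihr n)

theorem coeff_W_nonneg (S : STree) : ∀ n, 0 ≤ coeff n (W S) := by
  cases S with
  | leaf => intro n; simp only [W]; rw [coeff_X]; split_ifs <;> norm_num
  | node l r =>
    intro n
    simp only [W, map_add, coeff_mul]
    exact add_nonneg (add_nonneg (Finset.sum_nonneg fun p _ =>
      mul_nonneg (coeff_H_nonneg l _) (coeff_H_nonneg r _)) (coeff_H_nonneg l n)) (coeff_H_nonneg r n)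

/-- Summability of a series at `r`. -/
def Sm (f : PowerSeries ℝ) (r : ℝ) : Prop := Summable fun n => coeff n f * r ^ n

/-- The value of a series at `r`. -/
noncomputable def ev (f : PowerSeries ℝ) (r : ℝ) : ℝ := ∑' n, coeff n f * r ^ n

theorem Sm.add {f g : PowerSeries ℝ} {r : ℝ} (hf : Sm f r) (hg : Sm g r) :
    Sm (f + g) r ∧ ev (f + g) r = ev f r + ev g r := by
  have h1 : (fun n => coeff n (f + g) * r ^ n) = fun n => coeff n f * r ^ n + coeff n g * r ^ n := by
    funext n; rw [map_add]; ring
  refine ⟨?_, ?_⟩
  · unfold Sm; rw [h1]; exact Summable.add hf hg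
  · unfold ev; rw [h1]; exact Summable.tsum_add hf hg

theorem Sm.mul {f g : PowerSeries ℝ} {r : ℝ} (hr : 0 ≤ r) (f0 : ∀ n, 0 ≤ coeff n f)
    (g0 : ∀ n, 0 ≤ coeff n g) (hf : Sm f r) (hg : Sm g r) :
    Sm (f * g) r ∧ ev (f * g) r = ev f r * ev g r := by
  have hf' : Summable fun n => ‖coeff n f * r ^ n‖ := by
    refine hf.congr fun n => ?_
    rw [Real.norm_of_nonneg (mul_nonneg (f0 n) (pow_nonneg hr n))]
  have hg' : Summable fun n => ‖coeff n g * r ^ n‖ := by
    refine hg.congr fun n => ?_
    rw [Real.norm_of_nonneg (mul_nonneg (g0 n) (pow_nonneg hr n))]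
  have h1 : (fun n => coeff n (f * g) * r ^ n) = fun n => ∑ p ∈ Finset.HasAntidiagonal.antidiagonal n,
      (coeff p.1 f * r ^ p.1) * (coeff p.2 g * r ^ p.2) := by
    funext n
    rw [coeff_mul, Finset.sum_mul]
    refine Finset.sum_congr rfl fun p hp => ?_
    rw [Finset.HasAntidiagonal.mem_antidiagonal] at hp
    rw [← hp, pow_add]; ring
  refine ⟨?_, ?_⟩
  · unfold Sm; rw [h1]
    exact (summable_norm_sum_mul_antidiagonal_of_summable_norm hf' hg').of_norm
  · unfold ev; rw [h1]
    exact (tsum_mul_tsum_eq_tsum_sum_antidiagonal_of_summable_norm hf' hg').symm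

theorem Sm.of_le {f g : PowerSeries ℝ} {r : ℝ} (hr : 0 ≤ r) (f0 : ∀ n, 0 ≤ coeff n f)
    (hfg : ∀ n, coeff n f ≤ coeff n g) (hg : Sm g r) : Sm f r :=
  Summable.of_nonneg_of_le (fun n => mul_nonneg (f0 n) (pow_nonneg hr n))
    (fun n => mul_le_mul_of_nonneg_right (hfg n) (pow_nonneg hr n)) hg

/-- If `F = V + F²` and the value of `V` is at most `1/4`, then `F` converges, to at most
twice the value of `V`. -/
theorem Sm.of_eq {F V : PowerSeries ℝ} {r : ℝ} (hr : 0 ≤ r) (hF0 : constantCoeff F = 0)
    (hF : F = V + F ^ 2) (hV : ∀ n, 0 ≤ coeff n V) (hs : Sm V r) (hq : ev V r ≤ 1 / 4) :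
    Sm F r ∧ ev F r ≤ 2 * ev V r := by
  have F0 := nonneg_of_eq hF0 hF hV
  have hV0 : 0 ≤ ev V r := tsum_nonneg fun n => mul_nonneg (hV n) (pow_nonneg hr n)
  have key : ∀ N : ℕ, ∑ n ∈ Finset.range N, coeff n F * r ^ n ≤ 2 * ev V r := by
    intro N
    induction N with
    | zero => simpa using by linarith
    | succ N ih =>
      have h1 : ∀ n, coeff n F * r ^ n = coeff n V * r ^ n + ∑ p ∈ Finset.HasAntidiagonal.antidiagonal n,
          (coeff p.1 F * r ^ p.1) * (coeff p.2 F * r ^ p.2) := by
        intro n
        have : coeff n F = coeff n V + ∑ p ∈ Finset.HasAntidiagonal.antidiagonal n, coeff p.1 F * coeff p.2 F := by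
          conv_lhs => rw [hF]
          rw [map_add, coeff_sq_eq]
        rw [this, add_mul, Finset.sum_mul]
        congr 1
        refine Finset.sum_congr rfl fun p hp => ?_
        rw [Finset.HasAntidiagonal.mem_antidiagonal] at hp
        rw [← hp, pow_add]; ring
      have h2 : ∑ n ∈ Finset.range (N + 1), coeff n F * r ^ n
          = ∑ n ∈ Finset.range (N + 1), coeff n V * r ^ n + ∑ n ∈ Finset.range (N + 1),
            ∑ p ∈ Finset.HasAntidiagonal.antidiagonal n, (coeff p.1 F * r ^ p.1) * (coeff p.2 F * r ^ p.2) := by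
        rw [← Finset.sum_add_distrib]
        exact Finset.sum_congr rfl fun n _ => h1 n
      have h3 : ∑ n ∈ Finset.range (N + 1), coeff n V * r ^ n ≤ ev V r :=
        Summable.sum_le_tsum _ (fun n _ => mul_nonneg (hV n) (pow_nonneg hr n)) hs
      set a : ℕ → ℝ := fun n => coeff n F * r ^ n with ha
      have a0 : ∀ n, 0 ≤ a n := fun n => mul_nonneg (F0 n) (pow_nonneg hr n)
      have az : a 0 = 0 := by
        simp only [ha]; rw [coeff_zero_eq_constantCoeff_apply, hF0]; simp
      have h4 : ∑ n ∈ Finset.range (N + 1), ∑ p ∈ Finset.HasAntidiagonal.antidiagonal n, a p.1 * a p.2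
          ≤ (∑ n ∈ Finset.range N, a n) * (∑ n ∈ Finset.range N, a n) := by
        rw [Finset.sum_mul_sum, ← Finset.sum_product',
          Finset.sum_sigma' (Finset.range (N + 1))
            (fun n => Finset.HasAntidiagonal.antidiagonal n) (fun _ p => a p.1 * a p.2)]
        have : ∀ x ∈ (Finset.range (N + 1)).sigma fun n => Finset.HasAntidiagonal.antidiagonal n,
            a x.2.1 * a x.2.2 ≠ 0 → x.2 ∈ (Finset.range N ×ˢ Finset.range N) := by
          rintro ⟨n, i, j⟩ hx hne
          simp only [Finset.mem_sigma, Finset.mem_range, Finset.HasAntidiagonal.mem_antidiagonal] at hx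
          simp only [Finset.mem_product, Finset.mem_range]
          have hi : i ≠ 0 := by rintro rfl; simp [az] at hne
          have hj : j ≠ 0 := by rintro rfl; simp [az] at hne
          omega
        classical
        rw [← Finset.sum_filter_ne_zero]
        have hinj : Set.InjOn (fun x : (_ : ℕ) × (ℕ × ℕ) => x.2)
            (((Finset.range (N + 1)).sigma fun n => Finset.HasAntidiagonal.antidiagonal n).filter
              fun x => a x.2.1 * a x.2.2 ≠ 0) := by
          rintro ⟨n, i, j⟩ hx ⟨n', i', j'⟩ hx' heq
          simp only [Finset.coe_filter, Finset.mem_sigma, Finset.mem_range,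
            Finset.HasAntidiagonal.mem_antidiagonal, Set.mem_setOf_eq] at hx hx'
          simp only [Prod.mk.injEq] at heq
          obtain ⟨rfl, rfl⟩ := heq
          have : n = n' := by omega
          subst this; rfl
        rw [← Finset.sum_image (f := fun p : ℕ × ℕ => a p.1 * a p.2) hinj]
        refine Finset.sum_le_sum_of_subset_of_nonneg ?_ (fun p _ _ => mul_nonneg (a0 _) (a0 _))
        intro p hp
        rw [Finset.mem_image] at hp
        obtain ⟨x, hx, rfl⟩ := hp
        rw [Finset.mem_filter] at hx
        exact this x hx.1 hx.2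
      have h5 : 0 ≤ ∑ n ∈ Finset.range N, a n := Finset.sum_nonneg fun n _ => a0 n
      rw [h2]
      have h6 : (∑ n ∈ Finset.range N, a n) * (∑ n ∈ Finset.range N, a n)
          ≤ (2 * ev V r) * (2 * ev V r) := mul_le_mul ih ih h5 (by linarith)
      nlinarith [h3, h4, h6, hV0, hq]
  have hsum : Sm F r :=
    summable_of_sum_range_le (fun n => mul_nonneg (F0 n) (pow_nonneg hr n)) key
  exact ⟨hsum, Real.tsum_le_of_sum_range_le (fun n => mul_nonneg (F0 n) (pow_nonneg hr n)) key⟩

end Pool.Agent.X47.DL
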