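import Pool.Agent.X47.DL1

/-!
# Duplication-loss histories: values inside the disc of convergence

The real-valued recursion `A r S = 1 + H_S(r)` and the description of the radius of convergence.
-/

open PowerSeries Filter Topology

namespace Pool.Agent.X47.DL

/-- `phi t = (3 - √(5 - 4 t)) / 2`, so that `phi (1 + w) = 1 + (1 - √(1 - 4 w)) / 2`. -/
noncomputable def phi (t : ℝ) : ℝ := (3 - √(5 - 4 * t)) / 2

/-- The value `1 + H_S(r)`, by recursion. -/
noncomputable def A (r : ℝ) : STree → ℝ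
  | .leaf => phi (1 + r)
  | .node a b => phi (A r a * A r b)

/-- The recursion of `A` stays in the domain of the square root. -/
def Good (r : ℝ) : STree → Prop
  | .leaf => r ≤ 1 / 4
  | .node a b => Good r a ∧ Good r b ∧ A r a * A r b ≤ 5 / 4

/-- The recursion of `A` stays strictly inside the domain of the square root. -/
def SG (r : ℝ) : STree → Prop
  | .leaf => r < 1 / 4
  | .node a b => SG r a ∧ SG r b ∧ A r a * A r b < 5 / 4

theorem phi_mono : Monotone phi := by
  intro x y hxy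
  unfold phi
  have := Real.sqrt_le_sqrt (show 5 - 4 * y ≤ 5 - 4 * x by linarith)
  linarith

theorem phi_le (t : ℝ) : phi t ≤ 3 / 2 := by
  unfold phi
  have := Real.sqrt_nonneg (5 - 4 * t)
  linarith

theorem one_le_phi {t : ℝ} (ht : 1 ≤ t) : 1 ≤ phi t := by
  unfold phi
  have : √(5 - 4 * t) ≤ 1 := by
    have := Real.sqrt_le_sqrt (show 5 - 4 * t ≤ 1 by linarith)
    rwa [Real.sqrt_one] at this
  linarith

theorem phi_strict {x y : ℝ} (hxy : x < y) (hx : x < 5 / 4) : phi x < phi y := by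
  unfold phi
  have := Real.sqrt_lt_sqrt_iff_of_pos (x := 5 - 4 * y) (y := 5 - 4 * x) (by linarith) |>.2
    (by linarith)
  linarith

theorem phi_lt_iff {t : ℝ} : phi t < 3 / 2 ↔ t < 5 / 4 := by
  unfold phi
  constructor
  · intro h1
    have h2 : 0 < √(5 - 4 * t) := by linarith
    rw [Real.sqrt_pos] at h2
    linarith
  · intro h1
    have h2 : 0 < √(5 - 4 * t) := Real.sqrt_pos.2 (by linarith)
    linarith

/-- the functional equation: with `e = phi (1 + w) - 1` one has `e = w + e²`. -/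
theorem phi_eq {w : ℝ} (hw : w ≤ 1 / 4) :
    phi (1 + w) - 1 = w + (phi (1 + w) - 1) ^ 2 := by
  have h1 : √(5 - 4 * (1 + w)) ^ 2 = 5 - 4 * (1 + w) := Real.sq_sqrt (by linarith)
  unfold phi
  nlinarith [h1]

theorem phi_ge {w : ℝ} (hw0 : 0 ≤ w) (hw : w ≤ 1 / 4) : w + w ^ 2 ≤ phi (1 + w) - 1 := by
  have h1 := phi_eq hw
  have h2 : w ≤ phi (1 + w) - 1 := by
    rw [h1]; nlinarith [sq_nonneg (phi (1 + w) - 1)]
  rw [h1]
  nlinarith

theorem phi_le' {w : ℝ} (hw0 : 0 ≤ w) (hw : w ≤ 1 / 4) : phi (1 + w) - 1 ≤ w + 4 * w ^ 2 := by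
  have h1 := phi_eq hw
  have h3 : phi (1 + w) - 1 ≤ 1 / 2 := by have := phi_le (1 + w); linarith
  have h4 : 0 ≤ phi (1 + w) - 1 := by have := one_le_phi (show 1 ≤ 1 + w by linarith); linarith
  have h2 : phi (1 + w) - 1 ≤ 2 * w := by nlinarith
  rw [h1]; nlinarith

theorem phi_cont : Continuous phi := by
  unfold phi
  fun_prop

theorem one_le_A {r : ℝ} (hr : 0 ≤ r) (S : STree) : 1 ≤ A r S := by
  induction S with
  | leaf => exact one_le_phi (by linarith)
  | node a b iha ihb => exact one_le_phi (by nlinarith)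

theorem A_le (r : ℝ) (S : STree) : A r S ≤ 3 / 2 := by
  cases S <;> exact phi_le _

theorem A_cont (S : STree) : Continuous fun r => A r S := by
  induction S with
  | leaf => exact phi_cont.comp (by fun_prop)
  | node a b iha ihb => exact phi_cont.comp (iha.mul ihb)

theorem A_mono {r s : ℝ} (hr : 0 ≤ r) (hrs : r ≤ s) (S : STree) : A r S ≤ A s S := by
  induction S with
  | leaf => exact phi_mono (by linarith)
  | node a b iha ihb =>
    have h1 := one_le_A hr a
    have h2 := one_le_A hr b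
    exact phi_mono (mul_le_mul iha ihb (by linarith) (by linarith))

theorem Good.anti {r s : ℝ} (hr : 0 ≤ r) (hrs : r ≤ s) {S : STree} (h : Good s S) : Good r S := by
  induction S with
  | leaf => exact hrs.trans h
  | node a b iha ihb =>
    obtain ⟨h1, h2, h3⟩ := h
    refine ⟨iha h1, ihb h2, le_trans ?_ h3⟩
    have h4 := one_le_A hr a
    have h5 := one_le_A hr b
    exact mul_le_mul (A_mono hr hrs a) (A_mono hr hrs b) (by linarith)
      (by have := A_mono hr hrs a; linarith)

theorem Good.le {r : ℝ} {S : STree} (h : Good r S) : r ≤ 1 / 4 := by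
  induction S with
  | leaf => exact h
  | node a b iha ihb => exact iha h.1

theorem good_closed (S : STree) : IsClosed {r : ℝ | Good r S} := by
  induction S with
  | leaf => exact isClosed_Iic
  | node a b iha ihb =>
    have : {r : ℝ | Good r (.node a b)} = {r | Good r a} ∩ ({r | Good r b} ∩
        {r | A r a * A r b ≤ 5 / 4}) := by ext r; rfl
    rw [this]
    exact iha.inter (ihb.inter (isClosed_le ((A_cont a).mul (A_cont b)) continuous_const))

theorem sg_open (S : STree) : IsOpen {r : ℝ | SG r S} := by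
  induction S with
  | leaf => exact isOpen_Iio
  | node a b iha ihb =>
    have : {r : ℝ | SG r (.node a b)} = {r | SG r a} ∩ ({r | SG r b} ∩
        {r | A r a * A r b < 5 / 4}) := by ext r; rfl
    rw [this]
    exact iha.inter (ihb.inter (isOpen_lt ((A_cont a).mul (A_cont b)) continuous_const))

theorem SG.good {r : ℝ} {S : STree} (h : SG r S) : Good r S := by
  induction S with
  | leaf => exact le_of_lt h
  | node a b iha ihb => exact ⟨iha h.1, ihb h.2.1, h.2.2.le⟩

theorem Good.sg {r : ℝ} (hr : 0 ≤ r) {S : STree} (h : Good r S) (h1 : A r S < 3 / 2) : SG r S := by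
  induction S with
  | leaf =>
    simp only [A] at h1
    rw [phi_lt_iff] at h1
    simp only [SG]; linarith
  | node a b iha ihb =>
    simp only [A] at h1
    rw [phi_lt_iff] at h1
    have h4 := one_le_A hr a
    have h5 := one_le_A hr b
    exact ⟨iha h.1 (by nlinarith), ihb h.2.1 (by nlinarith), h1⟩

theorem A_zero (S : STree) : A 0 S = 1 := by
  have hp : phi 1 = 1 := by
    unfold phi
    rw [show (5 : ℝ) - 4 * 1 = 1 by norm_num, Real.sqrt_one]; norm_num
  induction S with
  | leaf => simp [A, hp]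
  | node a b iha ihb => simp [A, iha, ihb, hp]

theorem sg_zero (S : STree) : SG 0 S := by
  induction S with
  | leaf => simp only [SG]; norm_num
  | node a b iha ihb => exact ⟨iha, ihb, by rw [A_zero, A_zero]; norm_num⟩

/-- value of a solution of `F = V + F²`. -/
theorem val_of_eq {F V : PowerSeries ℝ} {r : ℝ} (hr : 0 ≤ r) (hF0 : constantCoeff F = 0)
    (hF : F = V + F ^ 2) (hV : ∀ n, 0 ≤ coeff n V) (hs : Sm V r) (hq : ev V r ≤ 1 / 4) :
    Sm F r ∧ ev F r = phi (1 + ev V r) - 1 := by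
  obtain ⟨h1, h2⟩ := Sm.of_eq hr hF0 hF hV hs hq
  have F0 := nonneg_of_eq hF0 hF hV
  refine ⟨h1, ?_⟩
  have h3 := Sm.mul hr F0 F0 h1 h1
  have h4 : ev F r = ev V r + ev F r * ev F r := by
    have h5 := (Sm.add hs h3.1).2
    rw [← sq, ← hF, sq, h3.2] at h5
    exact h5
  have h6 : √(5 - 4 * (1 + ev V r)) = 1 - 2 * ev F r := by
    rw [Real.sqrt_eq_iff_mul_self_eq (by linarith) (by linarith)]
    nlinarith
  unfold phi
  rw [h6]; ring

theorem sm_X (r : ℝ) : Sm (X : PowerSeries ℝ) r ∧ ev (X : PowerSeries ℝ) r = r := by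
  have h1 : (fun n => coeff n (X : PowerSeries ℝ) * r ^ n) = fun n => if n = 1 then r else 0 := by
    funext n
    rw [coeff_X]
    split_ifs with h
    · subst h; simp
    · simp
  refine ⟨?_, ?_⟩
  · unfold Sm; rw [h1]
    exact (hasSum_ite_eq 1 r).summable
  · unfold ev; rw [h1]; exact tsum_ite_eq 1 _

theorem Good.val {r : ℝ} (hr : 0 ≤ r) {S : STree} (h : Good r S) :
    Sm (H S) r ∧ ev (H S) r = A r S - 1 := by
  induction S with
  | leaf =>
    have h1 := sm_X r
    have h2 := val_of_eq hr (H_const .leaf) (H_eq .leaf) (coeff_W_nonneg .leaf) h1.1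
      (by show ev (X : PowerSeries ℝ) r ≤ 1 / 4; rw [h1.2]; exact h)
    refine ⟨h2.1, ?_⟩
    rw [h2.2]
    show phi (1 + ev (X : PowerSeries ℝ) r) - 1 = _
    rw [h1.2]; rfl
  | node a b iha ihb =>
    obtain ⟨a1, a2⟩ := iha h.1
    obtain ⟨b1, b2⟩ := ihb h.2.1
    obtain ⟨m1, m2⟩ := Sm.mul hr (coeff_H_nonneg a) (coeff_H_nonneg b) a1 b1
    obtain ⟨s1, s2⟩ := Sm.add m1 a1
    obtain ⟨t1, t2⟩ := Sm.add s1 b1
    have hW : ev (W (.node a b)) r = A r a * A r b - 1 := by
      show ev (H a * H b + H a + H b) r = _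
      rw [t2, s2, m2, a2, b2]; ring
    have h2 := val_of_eq hr (H_const (.node a b)) (H_eq (.node a b)) (coeff_W_nonneg (.node a b))
      t1 (by rw [hW]; linarith [h.2.2])
    refine ⟨h2.1, ?_⟩
    rw [h2.2, hW]
    show _ = phi (A r a * A r b) - 1
    rw [show 1 + (A r a * A r b - 1) = A r a * A r b by ring]

theorem good_of_sm {r : ℝ} (hr : 0 ≤ r) {S : STree} (h : Sm (H S) r) : Good r S := by
  have hWle : ∀ S : STree, ∀ n, coeff n (W S) ≤ coeff n (H S) := by
    intro S n
    have h1 : coeff n (H S) = coeff n (W S) + coeff n ((H S) ^ 2) := by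
      conv_lhs => rw [H_eq]
      rw [map_add]
    rw [h1, coeff_sq_eq]
    have : 0 ≤ ∑ p ∈ Finset.HasAntidiagonal.antidiagonal n,
        coeff p.1 (H S) * coeff p.2 (H S) :=
      Finset.sum_nonneg fun p _ => mul_nonneg (coeff_H_nonneg S _) (coeff_H_nonneg S _)
    linarith
  have hev : ∀ S : STree, Sm (H S) r → Sm (W S) r → ev (W S) r ≤ 1 / 4 := by
    intro S hS hWS
    have h3 := Sm.mul hr (coeff_H_nonneg S) (coeff_H_nonneg S) hS hS
    have h4 : ev (H S) r = ev (W S) r + ev (H S) r * ev (H S) r := by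
      have h5 := (Sm.add hWS h3.1).2
      rw [← sq, ← H_eq, sq, h3.2] at h5
      exact h5
    nlinarith [sq_nonneg (ev (H S) r - 1 / 2)]
  induction S with
  | leaf =>
    have h1 := sm_X r
    have := hev .leaf h h1.1
    show r ≤ 1 / 4
    rw [← h1.2]; exact this
  | node a b iha ihb =>
    have hW : Sm (W (.node a b)) r := Sm.of_le hr (coeff_W_nonneg _) (hWle _) h
    have hmul : ∀ n, 0 ≤ coeff n (H a * H b) := by
      intro n; rw [coeff_mul]
      exact Finset.sum_nonneg fun p _ => mul_nonneg (coeff_H_nonneg a _) (coeff_H_nonneg b _)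
    have ha : Sm (H a) r := by
      refine Sm.of_le hr (coeff_H_nonneg a) (fun n => ?_) hW
      simp only [W, map_add]
      linarith [hmul n, coeff_H_nonneg b n]
    have hb : Sm (H b) r := by
      refine Sm.of_le hr (coeff_H_nonneg b) (fun n => ?_) hW
      simp only [W, map_add]
      linarith [hmul n, coeff_H_nonneg a n]
    have ga := iha ha
    have gb := ihb hb
    refine ⟨ga, gb, ?_⟩
    obtain ⟨a1, a2⟩ := ga.val hr
    obtain ⟨b1, b2⟩ := gb.val hr
    obtain ⟨m1, m2⟩ := Sm.mul hr (coeff_H_nonneg a) (coeff_H_nonneg b) a1 b1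
    obtain ⟨s1, s2⟩ := Sm.add m1 a1
    obtain ⟨t1, t2⟩ := Sm.add s1 b1
    have hW2 : ev (W (.node a b)) r = A r a * A r b - 1 := by
      show ev (H a * H b + H a + H b) r = _
      rw [t2, s2, m2, a2, b2]; ring
    have := hev (.node a b) h hW
    rw [hW2] at this
    linarith

theorem sm_iff {r : ℝ} (hr : 0 ≤ r) (S : STree) :
    (Summable fun n => h S n * r ^ n) ↔ Good r S :=
  ⟨fun hs => good_of_sm hr hs, fun hs => (hs.val hr).1⟩

theorem rho_eq (S : STree) : rho S = sSup {r : ℝ | 0 ≤ r ∧ Good r S} := by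
  unfold rho
  congr 1
  ext r
  simp only [Set.mem_setOf_eq]
  constructor
  · rintro ⟨h1, h2⟩; exact ⟨h1, (sm_iff h1 S).1 h2⟩
  · rintro ⟨h1, h2⟩; exact ⟨h1, (sm_iff h1 S).2 h2⟩

theorem good_bdd (S : STree) : BddAbove {r : ℝ | 0 ≤ r ∧ Good r S} :=
  ⟨1 / 4, fun _ hr => hr.2.le⟩

theorem rho_mem (S : STree) : 0 ≤ rho S ∧ Good (rho S) S := by
  rw [rho_eq]
  have hc : IsClosed {r : ℝ | 0 ≤ r ∧ Good r S} := isClosed_Ici.inter (good_closed S)
  exact hc.csSup_mem ⟨0, le_refl _, (sg_zero S).good⟩ (good_bdd S)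

theorem le_rho {r : ℝ} (hr : 0 ≤ r) {S : STree} (h : Good r S) : r ≤ rho S := by
  rw [rho_eq]
  exact le_csSup (good_bdd S) ⟨hr, h⟩

theorem good_iff {r : ℝ} (hr : 0 ≤ r) (S : STree) : Good r S ↔ r ≤ rho S :=
  ⟨fun h => le_rho hr h, fun h => (rho_mem S).2.anti hr h⟩

theorem lt_rho {r : ℝ} (hr : 0 ≤ r) {S : STree} (h : SG r S) : r < rho S := by
  obtain ⟨ε, he, hb⟩ := Metric.isOpen_iff.1 (sg_open S) r h
  have h1 : r + ε / 2 ∈ Metric.ball r ε := by
    rw [Metric.mem_ball, Real.dist_eq, show r + ε / 2 - r = ε / 2 by ring, abs_of_pos (by linarith)]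
    linarith
  have h2 : SG (r + ε / 2) S := hb h1
  have := le_rho (by linarith) h2.good
  linarith

theorem rho_pos (S : STree) : 0 < rho S := lt_rho (le_refl _) (sg_zero S)

end Pool.Agent.X47.DL
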