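import Pool.Agent.X47.DL2

/-!
# Duplication-loss histories: growth factors of caterpillars and balanced trees
-/

open PowerSeries Filter Topology

namespace Pool.Agent.X47.DL

/-- The caterpillar with `k` leaves (for `k ≥ 1`): `CT 1` is a leaf, `CT k` has the two subtrees
`CT (k - 1)` and a leaf. -/
def CT : ℕ → STree
  | 0 => .leaf
  | 1 => .leaf
  | (k + 2) => .node (CT (k + 1)) .leaf

/-- A species tree is balanced if at every internal node the leaf counts of the two subtrees
differ by at most one. -/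
def Balanced : STree → Prop
  | .leaf => True
  | .node l r => l.size ≤ r.size + 1 ∧ r.size ≤ l.size + 1 ∧ Balanced l ∧ Balanced r

/-- The balanced tree with `k` leaves (for `k ≥ 1`). -/
def BT (k : ℕ) : STree :=
  if h : k ≤ 1 then .leaf else .node (BT (k / 2)) (BT (k - k / 2))
termination_by k
decreasing_by all_goals omega

theorem CT_size {k : ℕ} (hk : 1 ≤ k) : (CT k).size = k := by
  induction k with
  | zero => omega
  | succ k ih =>
    cases k with
    | zero => rfl
    | succ k => simp only [CT, STree.size]; rw [ih (by omega)]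

theorem BT_one : BT 1 = .leaf := by rw [BT]; simp

theorem BT_node {k : ℕ} (hk : 2 ≤ k) : BT k = .node (BT (k / 2)) (BT (k - k / 2)) := by
  rw [BT]; rw [dif_neg (by omega)]

theorem BT_size {k : ℕ} (hk : 1 ≤ k) : (BT k).size = k := by
  induction k using Nat.strong_induction_on with
  | _ k ih =>
    rcases Nat.lt_or_ge k 2 with h | h
    · obtain rfl : k = 1 := by omega
      rw [BT_one]; rfl
    · rw [BT_node h, STree.size, ih (k / 2) (by omega) (by omega), ih (k - k / 2) (by omega) (by omega)]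
      omega

theorem BT_balanced (k : ℕ) : Balanced (BT k) := by
  induction k using Nat.strong_induction_on with
  | _ k ih =>
    rcases Nat.lt_or_ge k 2 with h | h
    · rw [BT, dif_pos (by omega)]; trivial
    · rw [BT_node h]
      refine ⟨?_, ?_, ih _ (by omega), ih _ (by omega)⟩
      · rw [BT_size (by omega), BT_size (by omega)]; omega
      · rw [BT_size (by omega), BT_size (by omega)]; omega

/-- each leaf contributes at least `r`. -/
theorem A_ge_size {r : ℝ} (hr : 0 ≤ r) {S : STree} (h : Good r S) : 1 + S.size * r ≤ A r S := by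
  induction S with
  | leaf =>
    have := phi_ge hr h
    show 1 + ((1 : ℕ) : ℝ) * r ≤ phi (1 + r)
    push_cast
    nlinarith
  | node a b iha ihb =>
    have h1 := iha h.1
    have h2 := ihb h.2.1
    have h3 := one_le_A hr a
    have h4 := one_le_A hr b
    have hW : 0 ≤ A r a * A r b - 1 := by nlinarith
    have h5 := phi_ge hW (by linarith [h.2.2])
    rw [show 1 + (A r a * A r b - 1) = A r a * A r b by ring] at h5
    show 1 + ((a.size + b.size : ℕ) : ℝ) * r ≤ phi (A r a * A r b)
    push_cast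
    have h6 : (0 : ℝ) ≤ a.size * r := by positivity
    have h7 : (0 : ℝ) ≤ b.size * r := by positivity
    nlinarith [mul_nonneg h6 h7, sq_nonneg (A r a * A r b - 1), mul_nonneg (sub_nonneg.2 h1) (sub_nonneg.2 h4)]

/-- every species tree of size `k` has growth factor at least `2 k`. -/
theorem alpha_ge (S : STree) : 2 * (S.size : ℝ) ≤ alpha S := by
  have h1 := A_ge_size (rho_mem S).1 (rho_mem S).2
  have h2 := A_le (rho S) S
  have h3 := rho_pos S
  unfold alpha
  rw [le_inv_comm₀ (by have := one_le_size S; positivity) h3]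
  have hs : (1 : ℝ) ≤ S.size := by exact_mod_cast one_le_size S
  rw [le_inv_comm₀ h3 (by positivity), inv_eq_one_div, le_div_iff₀ h3]
  nlinarith

theorem ct_step {r : ℝ} (hr : 0 ≤ r) {k : ℕ} (hk : 1 ≤ k) (h : Good r (CT (k + 1))) :
    Good r (CT k) ∧ (A r (CT k) - 1) + r + (A r (CT k) - 1) ^ 2 ≤ A r (CT (k + 1)) - 1 := by
  obtain ⟨j, rfl⟩ : ∃ j, k = j + 1 := ⟨k - 1, by omega⟩
  have hg : Good r (CT (j + 1)) := h.1
  refine ⟨hg, ?_⟩
  have h3 := one_le_A hr (CT (j + 1))
  have h4 := A_ge_size hr (S := .leaf) h.2.1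
  simp only [STree.size, Nat.cast_one, one_mul] at h4
  have hW : 0 ≤ A r (CT (j + 1)) * A r .leaf - 1 := by nlinarith
  have h5 := phi_ge hW (by linarith [h.2.2])
  rw [show 1 + (A r (CT (j + 1)) * A r .leaf - 1) = A r (CT (j + 1)) * A r .leaf by ring] at h5
  show (A r (CT (j + 1)) - 1) + r + (A r (CT (j + 1)) - 1) ^ 2
    ≤ phi (A r (CT (j + 1)) * A r .leaf) - 1
  set x := A r (CT (j + 1)) - 1 with hx
  have hx' : A r (CT (j + 1)) = 1 + x := by rw [hx]; ring
  rw [hx'] at h5 hW ⊢
  set y := A r .leaf with hy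
  have hx0 : 0 ≤ x := by linarith
  have h6 : x + r ≤ (1 + x) * y - 1 := by nlinarith
  have h7 : x ^ 2 ≤ ((1 + x) * y - 1) ^ 2 := pow_le_pow_left₀ hx0 (by linarith) 2
  linarith

theorem ct_good_of_le {r : ℝ} (hr : 0 ≤ r) {k : ℕ} (hk : 1 ≤ k) (j : ℕ)
    (h : Good r (CT (k + j))) : Good r (CT k) := by
  induction j with
  | zero => exact h
  | succ j ih => exact ih (ct_step hr (k := k + j) (by omega) h).1

/-- reciprocal estimate -/
theorem ct_recip {r : ℝ} (hr : 0 < r) {m : ℕ} (hm : 1 ≤ m) (j : ℕ)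
    (h : Good r (CT (m + j))) :
    (A r (CT (m + j)) - 1)⁻¹ + 2 / 3 * j ≤ (A r (CT m) - 1)⁻¹ := by
  induction j with
  | zero => simp
  | succ j ih =>
    obtain ⟨h1, h2⟩ := ct_step hr.le (k := m + j) (by omega) h
    have h3 := ih h1
    have h4 := A_ge_size hr.le h1
    rw [CT_size (by omega)] at h4
    set x := A r (CT (m + j)) - 1 with hx
    have hx0 : 0 < x := by
      have : (1 : ℝ) ≤ ((m + j : ℕ) : ℝ) := by exact_mod_cast (by omega : 1 ≤ m + j)
      nlinarith
    have hx1 : x ≤ 1 / 2 := by have := A_le r (CT (m + j)); linarith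
    have h5 : (A r (CT (m + (j + 1))) - 1)⁻¹ ≤ (x * (1 + x))⁻¹ := by
      apply inv_anti₀ (by positivity)
      have : x * (1 + x) = x + x ^ 2 := by ring
      rw [this]
      have h6 : A r (CT (m + (j + 1))) = A r (CT (m + j + 1)) := by rw [add_assoc]
      rw [h6]; linarith
    have h7 : (x * (1 + x))⁻¹ = x⁻¹ - (1 + x)⁻¹ := by field_simp; ring
    have h8 : 2 / 3 ≤ (1 + x)⁻¹ := by
      rw [le_inv_comm₀ (by norm_num) (by positivity)]; norm_num; linarith
    push_cast
    rw [h7] at h5
    linarith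

/-- caterpillars: the growth factor is at least `k²/6`. -/
theorem alpha_CT_ge {k : ℕ} (hk : 1 ≤ k) : (k : ℝ) ^ 2 / 6 ≤ alpha (CT k) := by
  set r := rho (CT k) with hr
  have hr0 : 0 < r := rho_pos _
  have hg : Good r (CT k) := (rho_mem _).2
  obtain ⟨m, j, hmj, hm, hm2, hj⟩ : ∃ m j : ℕ, k = m + j ∧ 1 ≤ m ∧ k ≤ 2 * m ∧ k ≤ 2 * j + 1 :=
    ⟨k - k / 2, k / 2, by omega, by omega, by omega, by omega⟩
  have h1 := ct_recip hr0 hm j (by rw [← hmj]; exact hg)
  rw [← hmj] at h1
  have h2 := A_ge_size hr0.le (ct_good_of_le hr0.le hm j (by rw [← hmj]; exact hg))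
  rw [CT_size hm] at h2
  have h3 := A_ge_size hr0.le hg
  rw [CT_size hk] at h3
  have h4 := A_le r (CT k)
  have hk' : (1 : ℝ) ≤ k := by exact_mod_cast hk
  have hm' : (k : ℝ) ≤ 2 * m := by exact_mod_cast hm2
  have hj' : (k : ℝ) ≤ 2 * j + 1 := by exact_mod_cast hj
  have hm1 : (1 : ℝ) ≤ m := by exact_mod_cast hm
  have h5 : 2 ≤ (A r (CT k) - 1)⁻¹ := by
    rw [le_inv_comm₀ (by norm_num) (by nlinarith)]; linarith
  have h6 : (A r (CT m) - 1)⁻¹ ≤ (m * r)⁻¹ := inv_anti₀ (by positivity) (by linarith)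
  have h7 : 2 + 2 / 3 * (j : ℝ) ≤ (m * r)⁻¹ := by linarith
  have h8 : (2 + 2 / 3 * (j : ℝ)) * (m * r) ≤ 1 := by
    rw [inv_eq_one_div, le_div_iff₀ (by positivity)] at h7
    exact h7
  unfold alpha
  rw [← hr, le_inv_comm₀ (by positivity) hr0, inv_eq_one_div, le_div_iff₀ (by positivity)]
  have h9 : (k : ℝ) / 3 ≤ 2 + 2 / 3 * (j : ℝ) := by linarith
  have h10 : (k : ℝ) / 2 * r ≤ m * r := by nlinarith
  have h11 : (k : ℝ) / 3 * ((k : ℝ) / 2 * r) ≤ (2 + 2 / 3 * (j : ℝ)) * (m * r) :=
    mul_le_mul h9 h10 (by positivity) (by positivity)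
  nlinarith

/-- caterpillars: the growth factor is at most `102 k²`. -/
theorem alpha_CT_le {k : ℕ} (hk : 1 ≤ k) : alpha (CT k) ≤ 102 * (k : ℝ) ^ 2 := by
  have hk' : (1 : ℝ) ≤ k := by exact_mod_cast hk
  set r : ℝ := (102 * (k : ℝ) ^ 2)⁻¹ with hr
  have hr0 : 0 < r := by positivity
  have hrk : r * (102 * (k : ℝ) ^ 2) = 1 := by rw [hr]; field_simp
  have hr1 : r ≤ 1 / 102 := by nlinarith [sq_nonneg ((k : ℝ) - 1)]
  have hleaf : A r .leaf - 1 ≤ 2 * r := by
    have := phi_le' hr0.le (by linarith)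
    show phi (1 + r) - 1 ≤ 2 * r
    nlinarith
  have key : ∀ m : ℕ, 1 ≤ m → m ≤ k → Good r (CT m) ∧ A r (CT m) - 1 ≤ 4 * m * r := by
    intro m
    induction m with
    | zero => intro h; omega
    | succ m ih =>
      intro _ hmk
      cases m with
      | zero =>
        refine ⟨by show r ≤ 1 / 4; linarith, ?_⟩
        show A r .leaf - 1 ≤ _
        push_cast; linarith
      | succ m =>
        obtain ⟨g, e⟩ := ih (by omega) (by omega)
        set n : ℝ := ((m + 1 : ℕ) : ℝ) with hn
        have hn1 : 1 ≤ n := by rw [hn]; exact_mod_cast (by omega : 1 ≤ m + 1)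
        have hnk : n + 1 ≤ k := by rw [hn]; exact_mod_cast (by omega : m + 1 + 1 ≤ k)
        have h1 := one_le_A hr0.le (CT (m + 1))
        have h2 := one_le_A hr0.le .leaf
        have hnr : n * r ≤ 1 / 102 := by nlinarith
        have hn2 : n ^ 2 * r ≤ 1 / 102 := by nlinarith
        set x := A r (CT (m + 1)) - 1 with hx
        set y := A r .leaf - 1 with hy
        have hW : A r (CT (m + 1)) * A r .leaf - 1 = x + y + x * y := by rw [hx, hy]; ring
        have hxy : x * y ≤ (4 * n * r) * (2 * r) := mul_le_mul e hleaf (by linarith) (by positivity)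
        have hW1 : x + y + x * y ≤ 4 * n * r + 2 * r + 8 * n * r ^ 2 := by nlinarith
        have hW2 : x + y + x * y ≤ 7 * n * r := by nlinarith
        have hW0 : 0 ≤ x + y + x * y := by
          have : 0 ≤ x := by linarith
          have : 0 ≤ y := by linarith
          positivity
        have hW3 : x + y + x * y ≤ 1 / 4 := by nlinarith
        refine ⟨⟨g, by show r ≤ 1 / 4; linarith, by linarith⟩, ?_⟩
        have h5 := phi_le' hW0 hW3
        show phi (A r (CT (m + 1)) * A r .leaf) - 1 ≤ _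
        rw [show A r (CT (m + 1)) * A r .leaf = 1 + (x + y + x * y) by linarith]
        push_cast
        have h6 : (x + y + x * y) ^ 2 ≤ (7 * n * r) ^ 2 := pow_le_pow_left₀ hW0 hW2 2
        have h7 : (7 * n * r) ^ 2 ≤ 49 * r * (1 / 102) := by nlinarith
        have h8 : ((m : ℝ) + 1 + 1) = n + 1 := by rw [hn]; push_cast; ring
        rw [h8]
        nlinarith
  have := le_rho hr0.le (key k hk le_rfl).1
  unfold alpha
  rw [inv_le_comm₀ (rho_pos _) (by positivity)]
  exact this

/-- balanced trees: values. -/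
theorem bal_key {c : ℝ} (hc0 : 0 ≤ c) (T : STree) (hT : Balanced T) (hTc : T.size * c ≤ 1 / 84) :
    Good c T ∧ A c T - 1 ≤ T.size * c + 84 * (T.size * c) ^ 2 := by
  induction T with
  | leaf =>
    simp only [STree.size, Nat.cast_one, one_mul] at hTc ⊢
    have h1 := phi_le' hc0 (by linarith)
    refine ⟨by show c ≤ 1 / 4; linarith, ?_⟩
    show phi (1 + c) - 1 ≤ _
    nlinarith
  | node a b iha ihb =>
    obtain ⟨t1, t2, t3, t4⟩ := hT
    simp only [STree.size, Nat.cast_add] at hTc ⊢
    have sa : (1 : ℝ) ≤ a.size := by exact_mod_cast one_le_size a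
    have sb : (1 : ℝ) ≤ b.size := by exact_mod_cast one_le_size b
    have hab : (a.size : ℝ) ≤ 2 * b.size := by
      have := one_le_size b
      exact_mod_cast (by omega : a.size ≤ 2 * b.size)
    have hba : (b.size : ℝ) ≤ 2 * a.size := by
      have := one_le_size a
      exact_mod_cast (by omega : b.size ≤ 2 * a.size)
    set x := (a.size : ℝ) * c with hx
    set y := (b.size : ℝ) * c with hy
    have hx0 : 0 ≤ x := by positivity
    have hy0 : 0 ≤ y := by positivity
    have hxy : x ≤ 2 * y := by rw [hx, hy]; nlinarith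
    have hyx : y ≤ 2 * x := by rw [hx, hy]; nlinarith
    have hs : x + y ≤ 1 / 84 := by rw [hx, hy]; linarith
    obtain ⟨ga, ea⟩ := iha t3 (by linarith)
    obtain ⟨gb, eb⟩ := ihb t4 (by linarith)
    have h1 := one_le_A hc0 a
    have h2 := one_le_A hc0 b
    set p := A c a - 1 with hp
    set q := A c b - 1 with hq
    have hp2 : p ≤ 2 * x := by nlinarith
    have hq2 : q ≤ 2 * y := by nlinarith
    have hp0 : 0 ≤ p := by linarith
    have hq0 : 0 ≤ q := by linarith
    have hpq : p * q ≤ (2 * x) * (2 * y) := mul_le_mul hp2 hq2 hq0 (by positivity)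
    have hprod : 2 * (x + y) ^ 2 ≤ 9 * (x * y) := by nlinarith [mul_nonneg (sub_nonneg.2 hxy) (sub_nonneg.2 hyx)]
    set s := x + y with hsd
    have hs0 : 0 ≤ s := by positivity
    have hW : A c a * A c b - 1 = p + q + p * q := by rw [hp, hq]; ring
    have hW0 : 0 ≤ p + q + p * q := by positivity
    have hxy4 : 4 * (x * y) ≤ s ^ 2 := by rw [hsd]; nlinarith [sq_nonneg (x - y)]
    have hsq : x ^ 2 + y ^ 2 = s ^ 2 - 2 * (x * y) := by rw [hsd]; ring
    have hW1 : p + q + p * q ≤ s + (84 * (5 / 9) + 1) * s ^ 2 := by nlinarith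
    have hW2 : p + q + p * q ≤ 3 * s := by nlinarith
    have hW3 : p + q + p * q ≤ 1 / 4 := by linarith
    refine ⟨⟨ga, gb, by linarith⟩, ?_⟩
    have h5 := phi_le' hW0 hW3
    show phi (A c a * A c b) - 1 ≤ _
    rw [show A c a * A c b = 1 + (p + q + p * q) by linarith]
    rw [show ((a.size : ℝ) + b.size) * c = s by rw [hsd, hx, hy]; ring]
    have h6 : (p + q + p * q) ^ 2 ≤ (3 * s) ^ 2 := pow_le_pow_left₀ hW0 hW2 2
    nlinarith

/-- balanced trees: the growth factor is at most `84 k`. -/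
theorem alpha_bal_le {T : STree} (hT : Balanced T) : alpha T ≤ 84 * (T.size : ℝ) := by
  have hs : (1 : ℝ) ≤ T.size := by exact_mod_cast one_le_size T
  have h1 := (bal_key (c := (84 * (T.size : ℝ))⁻¹) (by positivity) T hT (by
    rw [mul_inv, mul_comm, mul_assoc, inv_mul_cancel₀ (by positivity)]; norm_num)).1
  have := le_rho (by positivity) h1
  unfold alpha
  rw [inv_le_comm₀ (rho_pos _) (by positivity)]
  exact this

end Pool.Agent.X47.DL
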