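import Pool.Agent.X47.DL3

/-!
# Duplication-loss histories: extremal species trees

Strict logarithmic convexity of the values of the caterpillars and of the balanced trees.
-/

open PowerSeries Filter Topology

namespace Pool.Agent.X47.DL

theorem phi_T {t : ℝ} (ht : t ≤ 5 / 4) : 3 * phi t - 1 - phi t ^ 2 = t := by
  have h1 : √(5 - 4 * t) ^ 2 = 5 - 4 * t := Real.sq_sqrt (by linarith)
  unfold phi
  nlinarith [h1]

theorem le_phi {t : ℝ} (ht : t ≤ 5 / 4) : t ≤ phi t := by
  have h1 := phi_T ht
  nlinarith [sq_nonneg (phi t - 1)]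

/-- `phi t / t` is strictly increasing on `[1, 5/4]`. -/
theorem psi_strict {x y : ℝ} (hx : 1 ≤ x) (hxy : x < y) (hy : y ≤ 5 / 4) :
    phi x * y < phi y * x := by
  have h1 := phi_T (t := x) (by linarith)
  have h2 := phi_T hy
  have h3 := one_le_phi hx
  have h4 := phi_strict hxy (by linarith)
  set e := phi x with he
  set f := phi y with hf
  rw [← h1, ← h2]
  nlinarith [mul_pos (sub_pos.2 h4) (show 0 < f + e - 2 + (e - 1) * (f - 1) by nlinarith)]

/-- the algebraic core of the logarithmic convexity of `phi`. -/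
theorem core {a b c d : ℝ} (hc : 1 ≤ c) (hca : c < a) (hcb : c < b) (had : a < d) (hbd : b < d)
    (hd : d ≤ 3 / 2)
    (h : (3 * a - 1 - a ^ 2) * (3 * b - 1 - b ^ 2) = (3 * c - 1 - c ^ 2) * (3 * d - 1 - d ^ 2)) :
    a * b < c * d := by
  by_contra hcon
  push Not at hcon
  have hb0 : 0 < b := by linarith
  set a' := c * d / b with ha'
  have hab' : a' * b = c * d := by rw [ha']; field_simp
  have h1 : a' ≤ a := by
    rw [ha', div_le_iff₀ hb0]; exact hcon
  have h1' : c ≤ a' := by
    rw [ha', le_div_iff₀ hb0]; nlinarith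
  have h2 : 3 * a' - 1 - a' ^ 2 ≤ 3 * a - 1 - a ^ 2 := by nlinarith
  have h3 : 0 < 3 * b - 1 - b ^ 2 := by nlinarith
  have h4 : (3 * a' - 1 - a' ^ 2) * (3 * b - 1 - b ^ 2) ≤
      (3 * a - 1 - a ^ 2) * (3 * b - 1 - b ^ 2) := mul_le_mul_of_nonneg_right h2 h3.le
  have h5 : a' + b < c + d := by
    have : (b - c) * (d - b) > 0 := mul_pos (by linarith) (by linarith)
    have h6 : (a' + b) * b < (c + d) * b := by nlinarith
    exact lt_of_mul_lt_mul_right h6 hb0.le
  have h7 : c + d ≤ 1 + c * d := by nlinarith [mul_nonneg (sub_nonneg.2 hc) (show (0 : ℝ) ≤ d - 1 by linarith)]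
  have h8 : (3 * a' - 1 - a' ^ 2) * (3 * b - 1 - b ^ 2)
      = (c * d) ^ 2 + 7 * (c * d) + 1 - 3 * (1 + c * d) * (a' + b) + (a' + b) ^ 2 := by
    rw [← hab']; ring
  have h9 : (3 * c - 1 - c ^ 2) * (3 * d - 1 - d ^ 2)
      = (c * d) ^ 2 + 7 * (c * d) + 1 - 3 * (1 + c * d) * (c + d) + (c + d) ^ 2 := by
    ring
  have h10 : 0 < (c + d - (a' + b)) * (3 * (1 + c * d) - (c + d) - (a' + b)) := by
    apply mul_pos (by linarith)
    have : 0 < 1 + c * d := by nlinarith
    linarith
  nlinarith

/-- strict logarithmic convexity of `s ↦ phi (exp s)`. -/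
theorem logconv {x y c : ℝ} (hx : 1 ≤ x) (hxy : x < y) (hc : 1 < c) (hcy : c * y ≤ 5 / 4) :
    phi (c * x) * phi y < phi x * phi (c * y) := by
  have hxc : x < c * x := by nlinarith
  have hyc : y < c * y := by nlinarith
  have hxy' : c * x < c * y := by nlinarith
  refine core (one_le_phi hx) (phi_strict hxc (by linarith)) (phi_strict hxy (by linarith))
    (phi_strict hxy' (by linarith)) (phi_strict hyc (by linarith)) (phi_le _) ?_
  rw [phi_T (by linarith), phi_T (by linarith), phi_T (by linarith), phi_T hcy]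
  ring

/-! ### Caterpillars -/

theorem A_leaf_gt {r : ℝ} (hr : 0 < r) (h4 : r ≤ 1 / 4) : 1 < A r .leaf := by
  have := le_phi (t := 1 + r) (by linarith)
  show 1 < phi (1 + r)
  linarith

theorem CT_succ {k : ℕ} (hk : 1 ≤ k) : CT (k + 1) = .node (CT k) .leaf := by
  obtain ⟨j, rfl⟩ : ∃ j, k = j + 1 := ⟨k - 1, by omega⟩
  rfl

theorem ct_good_le {r : ℝ} (hr : 0 ≤ r) {m n : ℕ} (hm : 1 ≤ m) (hmn : m ≤ n)
    (h : Good r (CT n)) : Good r (CT m) := by
  obtain ⟨j, rfl⟩ := Nat.exists_eq_add_of_le hmn
  exact ct_good_of_le hr hm j h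

theorem ct_lt {r : ℝ} (hr : 0 < r) {m n : ℕ} (hm : 1 ≤ m) (hmn : m < n)
    (h : Good r (CT n)) : A r (CT m) < A r (CT n) := by
  induction n with
  | zero => omega
  | succ n ih =>
    have hn : 1 ≤ n := by omega
    have hg := h
    rw [CT_succ hn] at hg ⊢
    have h1 := A_leaf_gt hr hg.2.1
    have h2 := one_le_A hr.le (CT n)
    have h3 : A r (CT n) < A r (.node (CT n) .leaf) := by
      show _ < phi (A r (CT n) * A r .leaf)
      have := le_phi hg.2.2
      nlinarith
    rcases Nat.lt_or_ge m n with h4 | h4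
    · exact (ih h4 hg.1).trans h3
    · obtain rfl : m = n := by omega
      exact h3

theorem ct_ratio {r : ℝ} (hr : 0 < r) {m n : ℕ} (hm : 1 ≤ m) (hmn : m < n)
    (h : Good r (CT (n + 1))) :
    A r (CT (m + 1)) * A r (CT n) < A r (CT (n + 1)) * A r (CT m) := by
  have hg := h
  rw [CT_succ (by omega)] at hg
  have h1 := A_leaf_gt hr hg.2.1
  have h2 := one_le_A hr.le (CT m)
  have h3 := ct_lt hr hm hmn hg.1
  have h5 := psi_strict (x := A r (CT m) * A r .leaf) (y := A r (CT n) * A r .leaf)
    (by nlinarith) (by nlinarith) hg.2.2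
  rw [CT_succ hm, CT_succ (show 1 ≤ n by omega)]
  show phi (A r (CT m) * A r .leaf) * A r (CT n) < phi (A r (CT n) * A r .leaf) * A r (CT m)
  have h6 : (phi (A r (CT m) * A r .leaf) * A r (CT n)) * A r .leaf
      < (phi (A r (CT n) * A r .leaf) * A r (CT m)) * A r .leaf := by nlinarith
  exact lt_of_mul_lt_mul_right h6 (by linarith)

theorem ct_prod {r : ℝ} (hr : 0 < r) (i : ℕ) : ∀ j : ℕ, 1 ≤ i → i ≤ j →
    Good r (CT (i + j - 1)) →
    A r (CT i) * A r (CT j) ≤ A r (CT 1) * A r (CT (i + j - 1)) ∧
    (2 ≤ i → A r (CT i) * A r (CT j) < A r (CT 1) * A r (CT (i + j - 1))) := by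
  induction i with
  | zero => intro j h; omega
  | succ i ih =>
    intro j _ hij hg
    rcases Nat.eq_zero_or_pos i with h0 | h0
    · subst h0
      refine ⟨by rw [show 0 + 1 + j - 1 = j by omega], fun h => by omega⟩
    · have h1 := ih (j + 1) h0 (by omega) (by rw [show i + (j + 1) - 1 = i + 1 + j - 1 by omega]; exact hg)
      have h2 := ct_ratio hr (m := i) (n := j) h0 (by omega)
        (ct_good_le hr.le (by omega) (by omega) hg)
      rw [show i + (j + 1) - 1 = i + 1 + j - 1 by omega] at h1
      have h3 : A r (CT (i + 1)) * A r (CT j) < A r (CT 1) * A r (CT (i + 1 + j - 1)) :=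
        lt_of_lt_of_le (by linarith [mul_comm (A r (CT (j + 1))) (A r (CT i))]) h1.1
      exact ⟨h3.le, fun _ => h3⟩

/-- a caterpillar up to the order of the subtrees. -/
def IsCat : STree → Prop
  | .leaf => True
  | .node l r => (l = .leaf ∧ IsCat r) ∨ (r = .leaf ∧ IsCat l)

theorem size_one {S : STree} (h : S.size = 1) : S = .leaf := by
  cases S with
  | leaf => rfl
  | node l r =>
    have := one_le_size l
    have := one_le_size r
    simp only [STree.size] at h; omega

theorem ct_cmp {r : ℝ} (hr : 0 < r) (S : STree) (h : Good r (CT S.size)) :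
    Good r S ∧ A r S ≤ A r (CT S.size) ∧ (¬ IsCat S → A r S < A r (CT S.size)) := by
  induction S with
  | leaf => exact ⟨h, le_refl _, fun h => absurd trivial h⟩
  | node a b iha ihb =>
    have sa := one_le_size a
    have sb := one_le_size b
    simp only [STree.size] at h ⊢
    have hk : a.size + b.size = (a.size + b.size - 1) + 1 := by omega
    have hg := h
    rw [hk, CT_succ (by omega)] at hg
    have ga := ct_good_le hr.le sa (show a.size ≤ a.size + b.size - 1 by omega) hg.1
    have gb := ct_good_le hr.le sb (show b.size ≤ a.size + b.size - 1 by omega) hg.1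
    obtain ⟨a1, a2, a3⟩ := iha ga
    obtain ⟨b1, b2, b3⟩ := ihb gb
    have pa := one_le_A hr.le a
    have pb := one_le_A hr.le b
    have h1 : A r a * A r b ≤ A r (CT a.size) * A r (CT b.size) :=
      mul_le_mul a2 b2 (by linarith) (by linarith)
    have h2 : A r (CT a.size) * A r (CT b.size)
        ≤ A r (CT 1) * A r (CT (a.size + b.size - 1)) ∧
        (2 ≤ a.size → 2 ≤ b.size → A r (CT a.size) * A r (CT b.size)
        < A r (CT 1) * A r (CT (a.size + b.size - 1))) := by
      rcases le_total a.size b.size with hle | hle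
      · obtain ⟨c1, c2⟩ := ct_prod hr a.size b.size sa hle hg.1
        exact ⟨c1, fun h _ => c2 h⟩
      · have h3 := ct_prod hr b.size a.size sb hle (by rw [add_comm]; exact hg.1)
        rw [mul_comm, add_comm b.size] at h3
        exact ⟨h3.1, fun _ h => h3.2 h⟩
    have hA : A r (CT (a.size + b.size)) = phi (A r (CT 1) * A r (CT (a.size + b.size - 1))) := by
      conv_lhs => rw [hk, CT_succ (by omega)]
      rw [mul_comm]; rfl
    have h54 : A r (CT 1) * A r (CT (a.size + b.size - 1)) ≤ 5 / 4 := by
      rw [mul_comm]; exact hg.2.2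
    refine ⟨⟨a1, b1, by linarith [h2.1]⟩, ?_, ?_⟩
    · rw [hA]
      exact phi_mono (h1.trans h2.1)
    · intro hn
      rw [hA]
      have h5 : A r a * A r b < A r (CT 1) * A r (CT (a.size + b.size - 1)) := by
        by_cases hab : 2 ≤ a.size ∧ 2 ≤ b.size
        · exact lt_of_le_of_lt h1 (h2.2 hab.1 hab.2)
        · have h6 : a.size = 1 ∨ b.size = 1 := by omega
          simp only [IsCat, not_or, not_and] at hn
          rcases h6 with h6 | h6
          · have ha := size_one h6
            have := b3 (hn.1 ha)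
            refine lt_of_lt_of_le ?_ h2.1
            exact mul_lt_mul_of_le_of_lt_of_nonneg_of_pos a2 this (by linarith)
              (by linarith [one_le_A hr.le (CT a.size)])
          · have hb := size_one h6
            have := a3 (hn.2 hb)
            refine lt_of_lt_of_le ?_ h2.1
            exact mul_lt_mul_of_lt_of_le_of_nonneg_of_pos this b2 (by linarith)
              (by linarith [one_le_A hr.le (CT b.size)])
      show phi (A r a * A r b) < _
      exact phi_strict h5 (by linarith)

theorem isCat_H {S : STree} (h : IsCat S) : H S = H (CT S.size) := by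
  induction S with
  | leaf => rfl
  | node a b iha ihb =>
    simp only [STree.size]
    rcases h with ⟨ha, hb⟩ | ⟨hb, ha⟩
    · subst ha
      have h1 := ihb hb
      rw [show STree.leaf.size + b.size = b.size + 1 by simp [STree.size, add_comm],
        CT_succ (one_le_size b)]
      simp only [H]
      rw [h1]
      congr 1; ring
    · subst hb
      have h1 := iha ha
      rw [show a.size + STree.leaf.size = a.size + 1 by simp [STree.size],
        CT_succ (one_le_size a)]
      simp only [H]
      rw [h1]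

end Pool.Agent.X47.DL
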