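import Pool.Agent.X47.DL4

/-!
# Duplication-loss histories: the balanced trees are extremal
-/

open PowerSeries Filter Topology

namespace Pool.Agent.X47.DL

theorem bt_good_pred {r : ℝ} (hr : 0 < r) (n : ℕ) : 2 ≤ n → Good r (BT n) →
    Good r (BT (n - 1)) ∧ A r (BT (n - 1)) < A r (BT n) := by
  induction n using Nat.strong_induction_on with
  | _ n ih =>
    intro hn h
    have hg := h
    rw [BT_node hn] at hg
    obtain ⟨g1, g2, g3⟩ := hg
    rcases Nat.lt_or_ge n 3 with h3 | h3
    · obtain rfl : n = 2 := by omega
      rw [BT_node (le_refl 2)]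
      simp only [show 2 - 1 = 1 by rfl, show 2 / 2 = 1 by rfl] at g1 g2 g3 ⊢
      rw [BT_one] at g1 g3 ⊢
      have h1 := A_leaf_gt hr g1
      refine ⟨g1, ?_⟩
      show A r .leaf < phi (A r .leaf * A r .leaf)
      have := le_phi g3
      nlinarith
    · rw [BT_node hn, BT_node (show 2 ≤ n - 1 by omega)]
      rcases Nat.even_or_odd' n with ⟨p, hp | hp⟩
      · -- n = 2p
        have e1 : n / 2 = p := by omega
        have e2 : n - n / 2 = p := by omega
        have e3 : (n - 1) / 2 = p - 1 := by omega
        have e4 : n - 1 - (n - 1) / 2 = p := by omega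
        rw [e2, e1] at g3
        rw [e1] at g1
        rw [e4, e3, e2, e1]
        obtain ⟨q1, q2⟩ := ih p (by omega) (by omega) g1
        have o1 := one_le_A hr.le (BT (p - 1))
        have o2 := one_le_A hr.le (BT p)
        have hlt : A r (BT (p - 1)) * A r (BT p) < A r (BT p) * A r (BT p) := by nlinarith
        exact ⟨⟨q1, g1, by linarith⟩, phi_strict hlt (by linarith)⟩
      · -- n = 2p+1
        have e1 : n / 2 = p := by omega
        have e2 : n - n / 2 = p + 1 := by omega
        have e3 : (n - 1) / 2 = p := by omega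
        have e4 : n - 1 - (n - 1) / 2 = p := by omega
        rw [e2, e1] at g3
        rw [e1] at g1
        rw [e2] at g2
        rw [e4, e3, e2, e1]
        obtain ⟨q1, q2⟩ := ih (p + 1) (by omega) (by omega) g2
        simp only [Nat.add_sub_cancel] at q1 q2
        have o1 := one_le_A hr.le (BT (p + 1))
        have o2 := one_le_A hr.le (BT p)
        have hlt : A r (BT p) * A r (BT p) < A r (BT p) * A r (BT (p + 1)) := by nlinarith
        exact ⟨⟨q1, q1, by linarith⟩, phi_strict hlt (by linarith)⟩

theorem bt_good_le {r : ℝ} (hr : 0 < r) {m n : ℕ} (hm : 1 ≤ m) (hmn : m ≤ n)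
    (h : Good r (BT n)) : Good r (BT m) := by
  obtain ⟨j, rfl⟩ := Nat.exists_eq_add_of_le hmn
  induction j with
  | zero => exact h
  | succ j ih => exact ih (by omega) (bt_good_pred hr (m + (j + 1)) (by omega) h).1

theorem bt_lt_succ {r : ℝ} (hr : 0 < r) {m : ℕ} (hm : 1 ≤ m) (h : Good r (BT (m + 1))) :
    A r (BT m) < A r (BT (m + 1)) := (bt_good_pred hr (m + 1) (by omega) h).2

theorem bt_even {m : ℕ} (hm : 1 ≤ m) : BT (2 * m) = .node (BT m) (BT m) := by
  rw [BT_node (by omega)]
  rw [show 2 * m / 2 = m by omega, show 2 * m - m = m by omega]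

theorem bt_odd {m : ℕ} (hm : 1 ≤ m) : BT (2 * m + 1) = .node (BT m) (BT (m + 1)) := by
  rw [BT_node (by omega)]
  rw [show (2 * m + 1) / 2 = m by omega, show 2 * m + 1 - m = m + 1 by omega]

/-- strict logarithmic convexity of the values of the balanced trees. -/
theorem bt_logconv {r : ℝ} (hr : 0 < r) (m : ℕ) : 1 ≤ m → Good r (BT (m + 2)) →
    A r (BT (m + 1)) ^ 2 < A r (BT m) * A r (BT (m + 2)) := by
  induction m using Nat.strong_induction_on with
  | _ m ih =>
    intro hm h
    rcases Nat.even_or_odd' m with ⟨p, hp | hp⟩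
    · -- m = 2p
      have hp1 : 1 ≤ p := by omega
      have e0 : BT m = .node (BT p) (BT p) := by rw [hp]; exact bt_even hp1
      have e1 : BT (m + 1) = .node (BT p) (BT (p + 1)) := by rw [hp]; exact bt_odd hp1
      have e2 : BT (m + 2) = .node (BT (p + 1)) (BT (p + 1)) := by
        rw [hp, show 2 * p + 2 = 2 * (p + 1) by ring]; exact bt_even (by omega)
      rw [e2] at h
      have hlt := bt_lt_succ hr hp1 h.1
      have o1 := one_le_A hr.le (BT p)
      have o2 := one_le_A hr.le (BT (p + 1))
      have h54 := h.2.2
      rw [e0, e1, e2]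
      show phi (A r (BT p) * A r (BT (p + 1))) ^ 2
        < phi (A r (BT p) * A r (BT p)) * phi (A r (BT (p + 1)) * A r (BT (p + 1)))
      set x := A r (BT p) with hx
      set y := A r (BT (p + 1)) with hy
      have hx0 : 0 < x := by linarith
      have hlc := logconv (x := x * x) (y := x * y) (c := y / x) (by nlinarith) (by nlinarith)
        (by rw [lt_div_iff₀ hx0]; linarith) (by rw [show y / x * (x * y) = y * y by field_simp]; exact h54)
      rw [show y / x * (x * x) = x * y by field_simp, show y / x * (x * y) = y * y by field_simp] at hlc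
      rw [sq]; exact hlc
    · rcases Nat.eq_zero_or_pos p with h0 | hp1
      · -- m = 1
        subst h0
        obtain rfl : m = 1 := by omega
        have e1 : BT 2 = .node (BT 1) (BT 1) := bt_even (le_refl 1)
        have e2 : BT 3 = .node (BT 1) (BT 2) := bt_odd (le_refl 1)
        have hg : Good r (.node (BT 1) (BT 2)) := by rw [← e2]; exact h
        have hlt : A r (BT 1) < A r (BT 2) := bt_lt_succ hr (le_refl 1) hg.2.1
        have o1 := one_le_A hr.le (BT 1)
        have h5 := psi_strict (x := A r (BT 1) * A r (BT 1)) (y := A r (BT 1) * A r (BT 2))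
          (by nlinarith) (by nlinarith) hg.2.2
        have f1 : phi (A r (BT 1) * A r (BT 1)) = A r (BT 2) := by rw [e1]; rfl
        have f2 : phi (A r (BT 1) * A r (BT 2)) = A r (BT 3) := by
          conv_rhs => rw [e2]
          rfl
        rw [f1, f2] at h5
        show A r (BT 2) ^ 2 < A r (BT 1) * A r (BT 3)
        have h6 : A r (BT 2) ^ 2 * A r (BT 1) < (A r (BT 1) * A r (BT 3)) * A r (BT 1) := by
          nlinarith
        exact lt_of_mul_lt_mul_right h6 (by linarith)
      · -- m = 2p+1
        have e0 : BT m = .node (BT p) (BT (p + 1)) := by rw [hp]; exact bt_odd hp1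
        have e1 : BT (m + 1) = .node (BT (p + 1)) (BT (p + 1)) := by
          rw [hp, show 2 * p + 1 + 1 = 2 * (p + 1) by ring]; exact bt_even (by omega)
        have e2 : BT (m + 2) = .node (BT (p + 1)) (BT (p + 2)) := by
          rw [hp, show 2 * p + 1 + 2 = 2 * (p + 1) + 1 by ring]; exact bt_odd (by omega)
        rw [e2] at h
        have hih := ih p (by omega) hp1 h.2.1
        have hlt := bt_lt_succ hr hp1 h.1
        have hlt2 := bt_lt_succ hr (show 1 ≤ p + 1 by omega) h.2.1
        have o1 := one_le_A hr.le (BT p)
        have o2 := one_le_A hr.le (BT (p + 1))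
        have o3 := one_le_A hr.le (BT (p + 2))
        have h54 := h.2.2
        rw [e0, e1, e2]
        show phi (A r (BT (p + 1)) * A r (BT (p + 1))) ^ 2
          < phi (A r (BT p) * A r (BT (p + 1))) * phi (A r (BT (p + 1)) * A r (BT (p + 2)))
        set x := A r (BT p) with hx
        set y := A r (BT (p + 1)) with hy
        set z := A r (BT (p + 2)) with hz
        have hx0 : 0 < x := by linarith
        have hcy : y / x * (y * y) ≤ y * z := by
          rw [div_mul_eq_mul_div, div_le_iff₀ hx0]
          nlinarith
        have hlc := logconv (x := x * y) (y := y * y) (c := y / x) (by nlinarith) (by nlinarith)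
          (by rw [lt_div_iff₀ hx0]; linarith) (by linarith)
        rw [show y / x * (x * y) = y * y by field_simp] at hlc
        have hm2 := phi_mono hcy
        have hp0 : 0 < phi (x * y) := by linarith [one_le_phi (show 1 ≤ x * y by nlinarith)]
        rw [sq]
        calc phi (y * y) * phi (y * y) < phi (x * y) * phi (y / x * (y * y)) := hlc
          _ ≤ phi (x * y) * phi (y * z) := mul_le_mul_of_nonneg_left hm2 hp0.le

theorem bt_ratio {r : ℝ} (hr : 0 < r) {m : ℕ} (hm : 1 ≤ m) (j : ℕ) (h : Good r (BT (m + j + 2))) :
    A r (BT (m + 1)) * A r (BT (m + j + 1)) < A r (BT m) * A r (BT (m + j + 2)) := by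
  induction j with
  | zero =>
    have := bt_logconv hr m hm h
    rw [add_zero]
    rw [sq] at this; exact this
  | succ j ih =>
    have hg := bt_good_le hr (show 1 ≤ m + j + 2 by omega) (show m + j + 2 ≤ m + (j + 1) + 2 by omega) h
    have h1 := ih hg
    have h2 := bt_logconv hr (m + j + 1) (by omega) (by
      rw [show m + j + 1 + 2 = m + (j + 1) + 2 by ring]; exact h)
    rw [show m + j + 1 + 1 = m + j + 2 by ring, show m + j + 1 + 2 = m + (j + 1) + 2 by ring] at h2
    rw [show m + (j + 1) + 1 = m + j + 2 by ring]
    have o1 := one_le_A hr.le (BT m)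
    have o2 := one_le_A hr.le (BT (m + 1))
    have o3 := one_le_A hr.le (BT (m + j + 1))
    have o4 := one_le_A hr.le (BT (m + j + 2))
    have o5 := one_le_A hr.le (BT (m + (j + 1) + 2))
    set x := A r (BT m)
    set x1 := A r (BT (m + 1))
    set y := A r (BT (m + j + 1))
    set z := A r (BT (m + j + 2))
    set w := A r (BT (m + (j + 1) + 2))
    have h3 : (x1 * z) * y < (x * w) * y := by
      calc (x1 * z) * y = (x1 * y) * z := by ring
        _ < (x * z) * z := mul_lt_mul_of_pos_right h1 (by linarith)
        _ = x * z ^ 2 := by ring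
        _ < x * (y * w) := mul_lt_mul_of_pos_left h2 (by linarith)
        _ = (x * w) * y := by ring
    exact lt_of_mul_lt_mul_right h3 (by linarith)

theorem bt_prod {r : ℝ} (hr : 0 < r) (d : ℕ) : ∀ i j : ℕ, 1 ≤ i → i ≤ j → j - i = d →
    Good r (BT j) →
    A r (BT ((i + j) / 2)) * A r (BT (i + j - (i + j) / 2)) ≤ A r (BT i) * A r (BT j) ∧
    (i + 2 ≤ j → A r (BT ((i + j) / 2)) * A r (BT (i + j - (i + j) / 2))
      < A r (BT i) * A r (BT j)) := by
  induction d using Nat.strong_induction_on with
  | _ d ih =>
    intro i j hi hij hd hg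
    rcases Nat.lt_or_ge d 2 with h2 | h2
    · have e1 : (i + j) / 2 = i := by omega
      have e2 : i + j - i = j := by omega
      rw [e1, e2]
      exact ⟨le_refl _, fun h => by omega⟩
    · have h3 := ih (d - 2) (by omega) (i + 1) (j - 1) (by omega) (by omega) (by omega)
        (bt_good_le hr (by omega) (by omega) hg)
      rw [show i + 1 + (j - 1) = i + j by omega] at h3
      obtain ⟨q, hq⟩ : ∃ q, j = i + q + 2 := ⟨j - i - 2, by omega⟩
      have h4 := bt_ratio hr hi q (by rw [← hq]; exact hg)
      rw [← hq, show i + q + 1 = j - 1 by omega] at h4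
      have h5 := lt_of_le_of_lt h3.1 h4
      exact ⟨h5.le, fun _ => h5⟩

theorem bt_cmp {r : ℝ} (hr : 0 < r) (S : STree) (h : Good r S) :
    Good r (BT S.size) ∧ A r (BT S.size) ≤ A r S ∧
      (¬ Balanced S → A r (BT S.size) < A r S) := by
  induction S with
  | leaf =>
    simp only [STree.size]
    rw [BT_one]
    exact ⟨h, le_refl _, fun h => absurd trivial h⟩
  | node a b iha ihb =>
    have sa := one_le_size a
    have sb := one_le_size b
    obtain ⟨g1, g2, g3⟩ := h
    obtain ⟨a1, a2, a3⟩ := iha g1
    obtain ⟨b1, b2, b3⟩ := ihb g2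
    simp only [STree.size]
    have pa := one_le_A hr.le (BT a.size)
    have pb := one_le_A hr.le (BT b.size)
    have h1 : A r (BT a.size) * A r (BT b.size) ≤ A r a * A r b :=
      mul_le_mul a2 b2 (by linarith) (by linarith)
    have key : Good r (BT ((a.size + b.size) / 2)) ∧
        Good r (BT (a.size + b.size - (a.size + b.size) / 2)) ∧
        A r (BT ((a.size + b.size) / 2)) * A r (BT (a.size + b.size - (a.size + b.size) / 2))
          ≤ A r (BT a.size) * A r (BT b.size) ∧
        (a.size + 2 ≤ b.size ∨ b.size + 2 ≤ a.size →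
        A r (BT ((a.size + b.size) / 2)) * A r (BT (a.size + b.size - (a.size + b.size) / 2))
          < A r (BT a.size) * A r (BT b.size)) := by
      rcases le_total a.size b.size with hle | hle
      · obtain ⟨c1, c2⟩ := bt_prod hr _ a.size b.size sa hle rfl b1
        exact ⟨bt_good_le hr (by omega) (by omega) b1, bt_good_le hr (by omega) (by omega) b1, c1,
          fun h => c2 (by omega)⟩
      · obtain ⟨c1, c2⟩ := bt_prod hr _ b.size a.size sb hle rfl a1
        rw [add_comm b.size a.size, mul_comm (A r (BT b.size))] at c1 c2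
        exact ⟨bt_good_le hr (by omega) (by omega) a1, bt_good_le hr (by omega) (by omega) a1, c1,
          fun h => c2 (by omega)⟩
    obtain ⟨k1, k2, k3, k4⟩ := key
    rw [BT_node (show 2 ≤ a.size + b.size by omega)]
    refine ⟨⟨k1, k2, by linarith⟩, phi_mono (by linarith), ?_⟩
    intro hn
    have h5 : A r (BT ((a.size + b.size) / 2)) * A r (BT (a.size + b.size - (a.size + b.size) / 2))
        < A r a * A r b := by
      by_cases hab : a.size + 2 ≤ b.size ∨ b.size + 2 ≤ a.size
      · exact lt_of_lt_of_le (k4 hab) h1
      · simp only [Balanced, not_and] at hn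
        have h6 := hn (by omega) (by omega)
        by_cases hba : Balanced a
        · have h7 := b3 (h6 hba)
          refine lt_of_le_of_lt k3 ?_
          exact mul_lt_mul_of_le_of_lt_of_nonneg_of_pos a2 h7 (by linarith) (by linarith)
        · have h7 := a3 hba
          refine lt_of_le_of_lt k3 ?_
          exact mul_lt_mul_of_lt_of_le_of_nonneg_of_pos h7 b2 (by linarith) (by linarith)
    show phi _ < phi _
    exact phi_strict h5 (by linarith)

theorem balanced_H {S : STree} (h : Balanced S) : H S = H (BT S.size) := by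
  induction S with
  | leaf => simp only [STree.size]; rw [BT_one]
  | node a b iha ihb =>
    obtain ⟨h1, h2, h3, h4⟩ := h
    have sa := one_le_size a
    have sb := one_le_size b
    simp only [STree.size]
    rw [BT_node (show 2 ≤ a.size + b.size by omega)]
    rcases le_total a.size b.size with hle | hle
    · rw [show (a.size + b.size) / 2 = a.size by omega, show a.size + b.size - a.size = b.size by omega]
      simp only [H]
      rw [iha h3, ihb h4]
    · rw [show (a.size + b.size) / 2 = b.size by omega, show a.size + b.size - b.size = a.size by omega]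
      simp only [H]
      rw [iha h3, ihb h4]
      congr 1; ring

end Pool.Agent.X47.DL
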