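import Pool.Agent.X47.DL5
import Mathlib.Analysis.Subadditive

/-!
# Duplication-loss histories: comparison of the coefficients
-/

open PowerSeries Filter Topology

namespace Pool.Agent.X47.DL

theorem h_zero (S : STree) : h S 0 = 0 := by
  unfold h
  rw [coeff_zero_eq_constantCoeff_apply, H_const]

theorem h_nonneg (S : STree) (n : ℕ) : 0 ≤ h S n := coeff_H_nonneg S n

theorem h_super (S : STree) (m n : ℕ) : h S m * h S n ≤ h S (m + n) := by
  unfold h
  have h1 : coeff (m + n) (H S) = coeff (m + n) (W S) + ∑ p ∈
      Finset.HasAntidiagonal.antidiagonal (m + n), coeff p.1 (H S) * coeff p.2 (H S) := by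
    conv_lhs => rw [H_eq]
    rw [map_add, coeff_sq_eq]
  rw [h1]
  have h2 : coeff m (H S) * coeff n (H S) ≤ ∑ p ∈
      Finset.HasAntidiagonal.antidiagonal (m + n), coeff p.1 (H S) * coeff p.2 (H S) :=
    Finset.single_le_sum (f := fun p : ℕ × ℕ => coeff p.1 (H S) * coeff p.2 (H S))
      (fun p _ => mul_nonneg (coeff_H_nonneg S _) (coeff_H_nonneg S _))
      (Finset.HasAntidiagonal.mem_antidiagonal.2 (rfl : (m, n).1 + (m, n).2 = m + n))
  linarith [coeff_W_nonneg S (m + n)]

theorem h_one (S : STree) : 1 ≤ h S 1 := by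
  have hle : ∀ S : STree, coeff 1 (W S) ≤ h S 1 := by
    intro S
    unfold h
    have h1 : coeff 1 (H S) = coeff 1 (W S) + coeff 1 ((H S) ^ 2) := by
      conv_lhs => rw [H_eq]
      rw [map_add]
    rw [h1, coeff_sq_eq]
    have : 0 ≤ ∑ p ∈ Finset.HasAntidiagonal.antidiagonal 1,
        coeff p.1 (H S) * coeff p.2 (H S) :=
      Finset.sum_nonneg fun p _ => mul_nonneg (coeff_H_nonneg S _) (coeff_H_nonneg S _)
    linarith
  induction S with
  | leaf => refine le_trans ?_ (hle .leaf); simp [W]
  | node a b iha ihb =>
    refine le_trans ?_ (hle (.node a b))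
    have hmul : 0 ≤ coeff 1 (H a * H b) := by
      rw [coeff_mul]
      exact Finset.sum_nonneg fun p _ => mul_nonneg (coeff_H_nonneg a _) (coeff_H_nonneg b _)
    simp only [W, map_add]
    have h1 : 1 ≤ coeff 1 (H a) := iha
    have h2 : 0 ≤ coeff 1 (H b) := coeff_H_nonneg b 1
    linarith

theorem h_ge_one (S : STree) {n : ℕ} (hn : 1 ≤ n) : 1 ≤ h S n := by
  induction n with
  | zero => omega
  | succ n ih =>
    rcases Nat.eq_zero_or_pos n with h0 | h0
    · subst h0; exact h_one S
    · have h1 := ih h0
      have h2 := h_super S n 1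
      have h3 := h_one S
      nlinarith

/-- `-log` of the coefficients. -/
noncomputable def u (S : STree) (n : ℕ) : ℝ := - Real.log (h S n)

theorem u_sub (S : STree) : Subadditive (u S) := by
  intro m n
  unfold u
  rcases Nat.eq_zero_or_pos m with hm | hm
  · subst hm; simp [h_zero]
  rcases Nat.eq_zero_or_pos n with hn | hn
  · subst hn; simp [h_zero]
  have h1 := h_ge_one S hm
  have h2 := h_ge_one S hn
  have h3 := Real.log_le_log (by positivity) (h_super S m n)
  rw [Real.log_mul (by positivity) (by positivity)] at h3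
  linarith

theorem u_lb (S : STree) {n : ℕ} (hn : 1 ≤ n) : Real.log (rho S) ≤ u S n / n := by
  have hr := rho_pos S
  have hn' : (0 : ℝ) < n := by exact_mod_cast hn
  obtain ⟨h1, h2⟩ := (rho_mem S).2.val hr.le
  have h3 : h S n * rho S ^ n ≤ 1 := by
    have h4 := h1.le_tsum n (fun j _ => mul_nonneg (coeff_H_nonneg S j) (pow_nonneg hr.le j))
    have h5 := A_le (rho S) S
    have h6 : ev (H S) (rho S) ≤ 1 / 2 := by rw [h2]; linarith
    exact h4.trans (h6.trans (by norm_num))
  have h7 := h_ge_one S hn
  have h8 : Real.log (h S n * rho S ^ n) ≤ 0 := Real.log_nonpos (by positivity) h3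
  rw [Real.log_mul (by positivity) (by positivity), Real.log_pow] at h8
  unfold u
  rw [le_div_iff₀ hn']
  linarith

theorem u_bdd (S : STree) : BddBelow (Set.range fun n => u S n / n) := by
  refine ⟨Real.log (rho S), ?_⟩
  rintro _ ⟨n, rfl⟩
  rcases Nat.eq_zero_or_pos n with hn | hn
  · subst hn
    simp only [Nat.cast_zero, div_zero]
    exact Real.log_nonpos (rho_pos S).le ((rho_mem S).2.le.trans (by norm_num))
  · exact u_lb S hn

theorem u_lim (S : STree) : (u_sub S).lim = Real.log (rho S) := by
  have hr := rho_pos S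
  apply le_antisymm
  · by_contra hcon
    push Not at hcon
    set L := (u_sub S).lim with hL
    set r := Real.exp ((L + Real.log (rho S)) / 2) with hrd
    have hr0 : 0 < r := Real.exp_pos _
    have h1 : rho S < r := by
      rw [hrd, ← Real.log_lt_iff_lt_exp hr]; linarith
    have h2 : ∀ n, 1 ≤ n → h S n ≤ Real.exp (-L) ^ n := by
      intro n hn
      have hn' : (0 : ℝ) < n := by exact_mod_cast hn
      have h3 := (u_sub S).lim_le_div (u_bdd S) (n := n) (by omega)
      rw [← hL, le_div_iff₀ hn'] at h3
      unfold u at h3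
      have h4 := h_ge_one S hn
      rw [← Real.log_le_log_iff (by positivity) (by positivity), Real.log_pow, Real.log_exp]
      linarith
    have h5 : Summable fun n => h S n * r ^ n := by
      have hq : Real.exp (-L) * r < 1 := by
        rw [hrd, ← Real.exp_add, Real.exp_lt_one_iff]; linarith
      refine Summable.of_nonneg_of_le (fun n => mul_nonneg (h_nonneg S n) (by positivity)) ?_
        (summable_geometric_of_lt_one (by positivity) hq)
      intro n
      rcases Nat.eq_zero_or_pos n with hn | hn
      · subst hn; simp [h_zero]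
      · rw [mul_pow]
        exact mul_le_mul_of_nonneg_right (h2 n hn) (by positivity)
    have := le_rho hr0.le ((sm_iff hr0.le S).1 h5)
    linarith
  · have h1 := (u_sub S).tendsto_lim (u_bdd S)
    refine ge_of_tendsto h1 ?_
    filter_upwards [eventually_ge_atTop 1] with n hn
    exact u_lb S hn

theorem u_tendsto (S : STree) : Tendsto (fun n => u S n / n) atTop (𝓝 (Real.log (rho S))) := by
  rw [← u_lim]
  exact (u_sub S).tendsto_lim (u_bdd S)

/-- `h_S(n) ^ (1 / n)` tends to the growth factor. -/
theorem root_tendsto (S : STree) :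
    Tendsto (fun n : ℕ => (h S n) ^ (1 / (n : ℝ))) atTop (𝓝 (alpha S)) := by
  have h1 := (u_tendsto S).neg
  have h2 := (Real.continuous_exp.tendsto _).comp h1
  have h3 : Real.exp (-Real.log (rho S)) = alpha S := by
    rw [Real.exp_neg, Real.exp_log (rho_pos S)]; rfl
  rw [h3] at h2
  refine h2.congr' ?_
  filter_upwards [eventually_ge_atTop 1] with n hn
  have h4 := h_ge_one S hn
  show Real.exp (-(u S n / n)) = _
  rw [Real.rpow_def_of_pos (by linarith)]
  congr 1
  unfold u; ring

theorem eventually_lt {S T : STree} (hlt : rho S < rho T) : ∀ᶠ n in atTop, h T n < h S n := by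
  have h1 : Real.log (rho S) < Real.log (rho T) := Real.log_lt_log (rho_pos S) hlt
  have h2 := (u_tendsto S).eventually_lt (u_tendsto T) h1
  filter_upwards [h2, eventually_ge_atTop 1] with n h3 hn
  have hn' : (0 : ℝ) < n := by exact_mod_cast hn
  have h4 : u S n < u T n := by
    rwa [div_lt_div_iff_of_pos_right hn'] at h3
  unfold u at h4
  have h5 := h_ge_one S hn
  have h6 := h_ge_one T hn
  exact (Real.log_lt_log_iff (by linarith) (by linarith)).1 (by linarith)

theorem rho_ct_lt {S : STree} (hS : ¬ IsCat S) : rho (CT S.size) < rho S := by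
  have hr := rho_pos (CT S.size)
  obtain ⟨h1, h2, h3⟩ := ct_cmp hr S (rho_mem _).2
  have h4 := h3 hS
  exact lt_rho hr.le (h1.sg hr.le (lt_of_lt_of_le h4 (A_le _ _)))

theorem rho_lt_bt {S : STree} (hS : ¬ Balanced S) : rho S < rho (BT S.size) := by
  have hr := rho_pos S
  obtain ⟨h1, h2, h3⟩ := bt_cmp hr S (rho_mem _).2
  have h4 := h3 hS
  exact lt_rho hr.le (h1.sg hr.le (lt_of_lt_of_le h4 (A_le _ _)))

theorem finite_size (k : ℕ) : {S : STree | S.size = k}.Finite := by
  induction k using Nat.strong_induction_on with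
  | _ k ih =>
    have : {S : STree | S.size = k} ⊆ {STree.leaf} ∪ ⋃ i ∈ Finset.range k, ⋃ j ∈ Finset.range k,
        Set.image2 STree.node {S | S.size = i} {S | S.size = j} := by
      intro S hS
      cases S with
      | leaf => left; rfl
      | node a b =>
        right
        have ha := one_le_size a
        have hb := one_le_size b
        have hk : a.size + b.size = k := hS
        simp only [Set.mem_iUnion, Finset.mem_range]
        exact ⟨a.size, by omega, b.size, by omega, a, rfl, b, rfl, rfl⟩
    refine Set.Finite.subset ?_ this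
    refine (Set.finite_singleton _).union ?_
    refine Set.Finite.biUnion (Finset.finite_toSet _) fun i hi => ?_
    refine Set.Finite.biUnion (Finset.finite_toSet _) fun j hj => ?_
    exact (ih i (by simpa using hi)).image2 _ (ih j (by simpa using hj))

/-- the extremal property of the caterpillar and the balanced tree, for one tree. -/
theorem extremal_one (S : STree) :
    ∀ᶠ n in atTop, h (BT S.size) n ≤ h S n ∧ h S n ≤ h (CT S.size) n := by
  have h1 : ∀ᶠ n in atTop, h (BT S.size) n ≤ h S n := by
    by_cases hb : Balanced S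
    · refine Eventually.of_forall fun n => ?_
      unfold h; rw [balanced_H hb]
    · filter_upwards [eventually_lt (rho_lt_bt hb)] with n hn
      exact hn.le
  have h2 : ∀ᶠ n in atTop, h S n ≤ h (CT S.size) n := by
    by_cases hb : IsCat S
    · refine Eventually.of_forall fun n => ?_
      unfold h; rw [isCat_H hb]
    · filter_upwards [eventually_lt (rho_ct_lt hb)] with n hn
      exact hn.le
  exact h1.and h2

theorem extremal (k : ℕ) : ∃ N : ℕ, ∀ n : ℕ, N ≤ n → ∀ S : STree, S.size = k →
    h (BT k) n ≤ h S n ∧ h S n ≤ h (CT k) n := by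
  have h1 : ∀ᶠ n in atTop, ∀ S ∈ {S : STree | S.size = k}, h (BT k) n ≤ h S n ∧ h S n ≤ h (CT k) n := by
    rw [eventually_all_finite (finite_size k)]
    intro S hS
    have := extremal_one S
    rw [show S.size = k from hS] at this
    exact this
  rw [eventually_atTop] at h1
  obtain ⟨N, hN⟩ := h1
  exact ⟨N, fun n hn S hS => hN n hn S hS⟩

end Pool.Agent.X47.DL
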