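import Pool.Agent.TH416.CI.Main
import Pool.Agent.TH416.CI.Comb

set_option autoImplicit false

/-!
# Weighted complete intersections: weights given by two finite sets
-/

namespace Pool.Agent.X47.QF

open Pool.Agent.TH416.CI
open scoped Pointwise

/-- The semigroup generated by a finite set `A` of positive integers with largest element `M`:
either every long window above `M` contains at least `3/2 |A|` of its elements, or it contains all
the multiples above `M` of a common divisor of the elements of `A`. -/
theorem gcl (A : Finset ℕ) (hpos : ∀ a ∈ A, 0 < a) (M : ℕ) (hMA : M ∈ A) (hM : ∀ a ∈ A, a ≤ M) :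
    (∀ (u v : ℕ) (D : Finset ℕ), M ≤ u → u + M ≤ v → Finset.Ioc u v ⊆ D → 
      ∀ W : Finset ℕ, (∀ x ∈ D, x ∈ AddSubmonoid.closure (A : Set ℕ) → x ∈ W) →
      3 * A.card ≤ 2 * W.card) ∨
    ∃ g : ℕ, 0 < g ∧ (∀ a ∈ A, g ∣ a) ∧ ∀ x, M < x → g ∣ x → x ∈ AddSubmonoid.closure (A : Set ℕ) := by
  classical
  have hM1 := hpos M hMA
  have hNZ : NeZero M := ⟨by omega⟩
  have hcrit : ∀ x a a' : ℕ, a ∈ A → a' ∈ A → M < x → (x : ZMod M) = (a : ZMod M) + a' →
      x ∈ AddSubmonoid.closure (A : Set ℕ) := by
    intro x a a' ha ha' hx hxm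
    have hle : a + a' ≤ x := by
      by_contra hlt
      push Not at hlt
      have h1 : ((a + a' - x : ℕ) : ZMod M) = 0 := by
        rw [Nat.cast_sub hlt.le, hxm, Nat.cast_add, sub_self]
      rw [ZMod.natCast_eq_zero_iff] at h1
      have h2 := Nat.le_of_dvd (by omega) h1
      have h3 := hM a ha
      have h4 := hM a' ha'
      omega
    have h1 : ((x - (a + a') : ℕ) : ZMod M) = 0 := by
      rw [Nat.cast_sub hle, hxm, Nat.cast_add, sub_self]
    rw [ZMod.natCast_eq_zero_iff] at h1
    obtain ⟨j, hj⟩ := h1
    have h2 : x = a + a' + j * M := by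
      rw [mul_comm] at hj
      omega
    rw [h2]
    have hc : ∀ y ∈ A, y ∈ AddSubmonoid.closure (A : Set ℕ) := fun y hy =>
      AddSubmonoid.subset_closure (by exact_mod_cast hy)
    refine add_mem (add_mem (hc _ ha) (hc _ ha')) ?_
    rw [← smul_eq_mul]
    exact AddSubmonoid.nsmul_mem _ (hc _ hMA) j
  set B : Finset (ZMod M) := A.image (fun a : ℕ => (a : ZMod M)) with hB
  have hBcard : B.card = A.card := by
    apply Finset.card_image_of_injOn
    intro a ha a' ha' haa
    have h1 := hpos a ha
    have h2 := hpos a' ha'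
    have h3 := hM a ha
    have h4 := hM a' ha'
    simp only at haa
    rw [ZMod.natCast_eq_natCast_iff'] at haa
    rcases h3.lt_or_eq with h3 | h3
    · rcases h4.lt_or_eq with h4 | h4
      · rwa [Nat.mod_eq_of_lt h3, Nat.mod_eq_of_lt h4] at haa
      · rw [Nat.mod_eq_of_lt h3, h4, Nat.mod_self] at haa
        omega
    · rcases h4.lt_or_eq with h4 | h4
      · rw [Nat.mod_eq_of_lt h4, h3, Nat.mod_self] at haa
        omega
      · omega
  have h0B : (0 : ZMod M) ∈ B := Finset.mem_image.2 ⟨M, hMA, by simp⟩
  by_cases hsm : 2 * (B + B).card < 3 * B.card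
  · right
    obtain ⟨g, hg, hgM, hgS⟩ := exists_gen (M := M) (by omega) (B + B)
      (by simpa using Finset.add_mem_add h0B h0B) (add_closed_of_small B h0B hsm)
    refine ⟨g, hg, ?_, ?_⟩
    · intro a ha
      rw [← hgS]
      have := Finset.add_mem_add (Finset.mem_image_of_mem (fun a : ℕ => (a : ZMod M)) ha) h0B
      simpa using this
    · intro x hx hgx
      rw [← hgS, Finset.mem_add] at hgx
      obtain ⟨b, hb, b', hb', hbb⟩ := hgx
      obtain ⟨a, ha, rfl⟩ := Finset.mem_image.1 hb
      obtain ⟨a', ha', rfl⟩ := Finset.mem_image.1 hb'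
      exact hcrit x a a' ha ha' hx hbb.symm
  · left
    intro u v D hu huv hD W hW
    have hwin : (B + B).card ≤ W.card := by
      apply Finset.card_le_card_of_injOn (fun s => v - ((v : ℕ) - s : ZMod M).val)
      · intro s hs
        have hs' : s ∈ B + B := hs
        rw [Finset.mem_add] at hs'
        obtain ⟨b, hb, b', hb', rfl⟩ := hs'
        obtain ⟨a, ha, rfl⟩ := Finset.mem_image.1 hb
        obtain ⟨a', ha', rfl⟩ := Finset.mem_image.1 hb'
        have hv := ZMod.val_lt (((v : ℕ) : ZMod M) - ((a : ZMod M) + (a' : ZMod M)))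
        rw [Finset.mem_coe]
        beta_reduce
        refine hW _ (hD (Finset.mem_Ioc.2 ⟨by omega, by omega⟩)) (hcrit _ a a' ha ha' (by omega) ?_)
        rw [Nat.cast_sub (by omega), ZMod.natCast_zmod_val]
        ring
      · intro s hs s' hs' hss
        have hv := ZMod.val_lt (((v : ℕ) : ZMod M) - s)
        have hv' := ZMod.val_lt (((v : ℕ) : ZMod M) - s')
        simp only at hss
        have h1 : (((v : ℕ) : ZMod M) - s).val = (((v : ℕ) : ZMod M) - s').val := by
          omega
        have h2 := ZMod.val_injective M h1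
        exact sub_right_injective h2
    omega

theorem three_sum (T : Finset ℕ) (hT : T.Nonempty) : 3 * T.card - 2 ≤ (T + T + T).card := by
  have h2 := cauchy_davenport_add_of_linearOrder_isCancelAdd hT hT
  have h3 := cauchy_davenport_add_of_linearOrder_isCancelAdd (hT.add hT) hT
  have h7 := hT.card_pos
  omega

theorem five_sum (T : Finset ℕ) (hT : T.Nonempty) : 5 * T.card - 4 ≤ (T + T + T + T + T).card := by
  have h2 := cauchy_davenport_add_of_linearOrder_isCancelAdd hT hT
  have h3 := cauchy_davenport_add_of_linearOrder_isCancelAdd (hT.add hT) hT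
  have h4 := cauchy_davenport_add_of_linearOrder_isCancelAdd ((hT.add hT).add hT) hT
  have h5 := cauchy_davenport_add_of_linearOrder_isCancelAdd (((hT.add hT).add hT).add hT) hT
  have h7 := hT.card_pos
  omega

open Classical in
/-- elements of `D` lying in the semigroup generated by `A` -/
noncomputable def win (D A : Finset ℕ) : Finset ℕ :=
  D.filter (fun b => b ∈ AddSubmonoid.closure (A : Set ℕ))

/-- **Criterion, with the weights given by two finite sets.** -/
theorem ci_two (S₁ S₂ D : Finset ℕ) (h1 : ∀ a ∈ S₁, 0 < a) (h2 : ∀ a ∈ S₂, 0 < a)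
    (hD : ∀ b ∈ D, 0 < b) (hcard : D.card = S₁.card + S₂.card)
    (hcond : ∀ A₁ ⊆ S₁, ∀ A₂ ⊆ S₂, A₁.card + A₂.card ≤ (win D (A₁ ∪ A₂)).card) :
    ∃ P : Polynomial ℤ, (∀ e, 0 ≤ P.coeff e) ∧
      ∏ b ∈ D, ((1 : Polynomial ℤ) - Polynomial.X ^ b) =
        P * ((∏ a ∈ S₁, ((1 : Polynomial ℤ) - Polynomial.X ^ a)) *
          ∏ a ∈ S₂, ((1 : Polynomial ℤ) - Polynomial.X ^ a)) := by
  classical
  let wt : S₁ ⊕ S₂ → ℕ := Sum.elim (fun i => i.1) (fun j => j.1)
  obtain ⟨P, hP, hPe⟩ := ci_main wt (by rintro (i | i) <;> simp only [wt, Sum.elim_inl, Sum.elim_inr]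
                                        · exact h1 _ i.2
                                        · exact h2 _ i.2)
    D.toList (by rw [Finset.length_toList, hcard]; simp)
    (fun b hb => hD b (Finset.mem_toList.1 hb)) (by
      intro I
      let A₁ : Finset ℕ := I.toLeft.image (fun i => i.1)
      let A₂ : Finset ℕ := I.toRight.image (fun i => i.1)
      have e1 : A₁.card = I.toLeft.card := Finset.card_image_of_injective _ Subtype.val_injective
      have e2 : A₂.card = I.toRight.card := Finset.card_image_of_injective _ Subtype.val_injective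
      have hA1 : A₁ ⊆ S₁ := by
        intro x hx
        obtain ⟨i, _, rfl⟩ := Finset.mem_image.1 hx
        exact i.2
      have hA2 : A₂ ⊆ S₂ := by
        intro x hx
        obtain ⟨i, _, rfl⟩ := Finset.mem_image.1 hx
        exact i.2
      have hc := hcond A₁ hA1 A₂ hA2
      rw [e1, e2, Finset.card_toLeft_add_card_toRight] at hc
      refine hc.trans ?_
      rw [List.countP_eq_length_filter,
        ← List.toFinset_card_of_nodup ((Finset.nodup_toList D).filter _)]
      apply Finset.card_le_card
      intro b hb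
      rw [win, Finset.mem_filter] at hb
      rw [List.mem_toFinset, List.mem_filter]
      refine ⟨Finset.mem_toList.2 hb.1, ?_⟩
      rw [decide_eq_true_eq]
      have hb2 := hb.2
      clear hb
      induction hb2 using AddSubmonoid.closure_induction with
      | mem x hx =>
        rw [Finset.mem_coe, Finset.mem_union] at hx
        rcases hx with hx | hx
        · obtain ⟨i, hi, rfl⟩ := Finset.mem_image.1 hx
          refine ⟨Finsupp.single (Sum.inl i) 1, ?_, ?_⟩
          · refine Finsupp.support_single_subset.trans ?_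
            simpa using hi
          · rw [Finsupp.weight_single, one_smul]
            rfl
        · obtain ⟨i, hi, rfl⟩ := Finset.mem_image.1 hx
          refine ⟨Finsupp.single (Sum.inr i) 1, ?_, ?_⟩
          · refine Finsupp.support_single_subset.trans ?_
            simpa using hi
          · rw [Finsupp.weight_single, one_smul]
            rfl
      | zero => exact ⟨0, by simp, by simp⟩
      | add x y _ _ hx hy =>
        obtain ⟨α, hα, rfl⟩ := hx
        obtain ⟨β, hβ, rfl⟩ := hy
        exact ⟨α + β, Finsupp.support_add.trans (Finset.union_subset hα hβ), by rw [map_add]⟩)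
  refine ⟨P, hP, ?_⟩
  have e1 : (D.toList.map (fun b => (1 : Polynomial ℤ) - Polynomial.X ^ b)).prod =
      ∏ b ∈ D, ((1 : Polynomial ℤ) - Polynomial.X ^ b) := Finset.prod_map_toList _ _
  have e2 : ∏ i, ((1 : Polynomial ℤ) - Polynomial.X ^ (wt i)) =
      (∏ a ∈ S₁, ((1 : Polynomial ℤ) - Polynomial.X ^ a)) *
          ∏ a ∈ S₂, ((1 : Polynomial ℤ) - Polynomial.X ^ a) := by
    rw [Fintype.prod_sum_type]
    simp only [wt, Sum.elim_inl, Sum.elim_inr]
    rw [Finset.prod_coe_sort S₁ (fun a => (1 : Polynomial ℤ) - Polynomial.X ^ a),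
      Finset.prod_coe_sort S₂ (fun a => (1 : Polynomial ℤ) - Polynomial.X ^ a)]
  rw [← e1, ← e2]
  exact hPe

end Pool.Agent.X47.QF
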