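import Pool.Agent.X47.QF1

set_option autoImplicit false

/-!
# Counting conditions for q-factorial ratios
-/

namespace Pool.Agent.X47.QF

open Pool.Agent.TH416.CI
open scoped Pointwise

/-- number of multiples of `g` in `S` -/
def cnt (g : ℕ) (S : Finset ℕ) : ℕ := (S.filter (fun x => g ∣ x)).card

theorem cnt_mono {g : ℕ} {S T : Finset ℕ} (h : S ⊆ T) : cnt g S ≤ cnt g T :=
  Finset.card_le_card (Finset.filter_subset_filter _ h)

theorem cnt_union_le (g : ℕ) (S T : Finset ℕ) : cnt g (S ∪ T) ≤ cnt g S + cnt g T := by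
  classical
  unfold cnt
  rw [Finset.filter_union]
  exact Finset.card_union_le _ _

theorem cnt_sdiff (g : ℕ) {S R : Finset ℕ} (h : R ⊆ S) : cnt g (S \ R) + cnt g R = cnt g S := by
  classical
  unfold cnt
  rw [← Finset.card_union_of_disjoint, ← Finset.filter_union, Finset.sdiff_union_of_subset h]
  rw [Finset.disjoint_left]
  intro x hx hx'
  rw [Finset.mem_filter] at hx hx'
  exact (Finset.mem_sdiff.1 hx.1).2 hx'.1

theorem cnt_Ioc (g u v : ℕ) (huv : u ≤ v) : cnt g (Finset.Ioc u v) + u / g = v / g := by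
  unfold cnt
  have h1 : (Finset.Ioc 0 v).filter (fun b => g ∣ b) =
      (Finset.Ioc 0 u).filter (fun b => g ∣ b) ∪ (Finset.Ioc u v).filter (fun b => g ∣ b) := by
    rw [← Finset.filter_union, Finset.Ioc_union_Ioc_eq_Ioc (Nat.zero_le _) huv]
  have h2 : Disjoint ((Finset.Ioc 0 u).filter (fun b => g ∣ b))
      ((Finset.Ioc u v).filter (fun b => g ∣ b)) := by
    rw [Finset.disjoint_left]
    intro x hx hx'
    rw [Finset.mem_filter, Finset.mem_Ioc] at hx hx'
    omega
  have h3 := congrArg Finset.card h1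
  rw [Finset.card_union_of_disjoint h2, Nat.Ioc_filter_dvd_card_eq_div,
    Nat.Ioc_filter_dvd_card_eq_div] at h3
  omega

theorem cnt_insert_le (g a : ℕ) (S : Finset ℕ) :
    cnt g (insert a S) ≤ (if g ∣ a then 1 else 0) + cnt g S := by
  classical
  unfold cnt
  rw [Finset.filter_insert]
  split_ifs
  · have := Finset.card_insert_le a (S.filter (fun x => g ∣ x))
    omega
  · omega

theorem cnt_singleton (g a : ℕ) : cnt g {a} = if g ∣ a then 1 else 0 := by
  classical
  unfold cnt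
  rw [Finset.filter_singleton]
  split_ifs <;> simp

theorem cnt_empty (g : ℕ) : cnt g ∅ = 0 := by simp [cnt]

/-- **The criterion in terms of counting multiples.** -/
theorem crit (S₁ S₂ D D' : Finset ℕ) (u v : ℕ)
    (hpos1 : ∀ a ∈ S₁, 0 < a) (hpos2 : ∀ a ∈ S₂, 0 < a) (hDpos : ∀ b ∈ D, 0 < b)
    (hcard : D.card = S₁.card + S₂.card) (hD' : D' ⊆ D) (huv : Finset.Ioc u v ⊆ D')
    (hM1 : ∀ a ∈ S₁, a ≠ 1 → a ≤ u ∧ u + a ≤ v ∧ ∀ d ∈ D', a < d)
    (hM2 : ∀ a ∈ S₂, a ≠ 1 → a ≤ u ∧ u + a ≤ v ∧ ∀ d ∈ D', a < d)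
    (hK : ∀ A T : Finset ℕ, T ⊆ A → (∀ x ∈ T, x ∈ S₁ ∧ x ∈ S₂ ∧ x ≠ 1) → T.Nonempty →
      3 * T.card - 2 ≤ (win D' A).card)
    (hcnt : ∀ g, 0 < g → cnt g (S₁.erase 1) + cnt g (S₂.erase 1) ≤ cnt g D') :
    ∃ P : Polynomial ℤ, (∀ e, 0 ≤ P.coeff e) ∧
      ∏ b ∈ D, ((1 : Polynomial ℤ) - Polynomial.X ^ b) =
        P * ((∏ a ∈ S₁, ((1 : Polynomial ℤ) - Polynomial.X ^ a)) *
          ∏ a ∈ S₂, ((1 : Polynomial ℤ) - Polynomial.X ^ a)) := by
  classical
  refine ci_two S₁ S₂ D hpos1 hpos2 hDpos hcard ?_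
  intro A₁ hA₁ A₂ hA₂
  set A := A₁ ∪ A₂ with hA
  by_cases h1 : 1 ∈ A
  · have h2 : win D A = D := by
      unfold win
      rw [Finset.filter_true_of_mem]
      intro b _
      have h3 : b • 1 ∈ AddSubmonoid.closure (A : Set ℕ) :=
        AddSubmonoid.nsmul_mem _ (AddSubmonoid.subset_closure (by exact_mod_cast h1)) b
      simpa using h3
    rw [h2, hcard]
    exact add_le_add (Finset.card_le_card hA₁) (Finset.card_le_card hA₂)
  have hwin : (win D' A).card ≤ (win D A).card := by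
    unfold win
    exact Finset.card_le_card (Finset.filter_subset_filter _ hD')
  refine le_trans ?_ hwin
  rcases A.eq_empty_or_nonempty with he | hne
  · have h3 : A₁ = ∅ := Finset.subset_empty.1 (he ▸ Finset.subset_union_left)
    have h4 : A₂ = ∅ := Finset.subset_empty.1 (he ▸ Finset.subset_union_right)
    rw [h3, h4]
    simp
  have hne1 : ∀ a ∈ A, a ≠ 1 := by
    rintro a ha rfl
    exact h1 ha
  have hAS : ∀ a ∈ A, 0 < a ∧ a ≤ u ∧ u + a ≤ v ∧ ∀ d ∈ D', a < d := by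
    intro a ha
    rcases Finset.mem_union.1 ha with h | h
    · exact ⟨hpos1 a (hA₁ h), hM1 a (hA₁ h) (hne1 a ha)⟩
    · exact ⟨hpos2 a (hA₂ h), hM2 a (hA₂ h) (hne1 a ha)⟩
  set T := A₁ ∩ A₂ with hT
  have hcT : A₁.card + A₂.card = A.card + T.card := by
    rw [hA, hT, Finset.card_union_add_card_inter]
  rw [hcT]
  have hTA : T ⊆ A := Finset.inter_subset_left.trans Finset.subset_union_left
  by_cases h2T : 2 * T.card ≤ A.card + 1
  · obtain ⟨M, hMA, hM⟩ : ∃ M ∈ A, ∀ a ∈ A, a ≤ M :=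
      ⟨A.max' hne, A.max'_mem hne, fun a ha => A.le_max' a ha⟩
    obtain ⟨hM0, hMu, hMv, hMd⟩ := hAS M hMA
    rcases gcl A (fun a ha => (hAS a ha).1) M hMA hM with h | ⟨g, hg, hgA, hgx⟩
    · have h5 := h u v D' hMu hMv huv (win D' A) (by
        intro x hx hx'
        rw [win, Finset.mem_filter]
        exact ⟨hx, hx'⟩)
      omega
    · have h5 : cnt g D' ≤ (win D' A).card := by
        apply Finset.card_le_card
        intro x hx
        rw [Finset.mem_filter] at hx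
        rw [win, Finset.mem_filter]
        exact ⟨hx.1, hgx x (hMd x hx.1) hx.2⟩
      refine le_trans ?_ ((hcnt g hg).trans h5)
      rw [← hcT]
      refine add_le_add (Finset.card_le_card ?_) (Finset.card_le_card ?_)
      · intro x hx
        have hxA : x ∈ A := Finset.mem_union_left _ hx
        rw [Finset.mem_filter, Finset.mem_erase]
        exact ⟨⟨hne1 x hxA, hA₁ hx⟩, hgA x hxA⟩
      · intro x hx
        have hxA : x ∈ A := Finset.mem_union_right _ hx
        rw [Finset.mem_filter, Finset.mem_erase]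
        exact ⟨⟨hne1 x hxA, hA₂ hx⟩, hgA x hxA⟩
  · have hTne : T.Nonempty := by
      rw [← Finset.card_pos]
      omega
    have h5 := hK A T hTA (by
      intro x hx
      have hx' := Finset.mem_inter.1 hx
      exact ⟨hA₁ hx'.1, hA₂ hx'.2, hne1 x (hTA hx)⟩) hTne
    omega

theorem win_three (n : ℕ) (A T : Finset ℕ) (hTA : T ⊆ A) (hT : ∀ x ∈ T, n < x ∧ x ≤ 2 * n)
    (hne : T.Nonempty) : 3 * T.card - 2 ≤ (win (Finset.Ioc (3 * n) (6 * n)) A).card := by
  classical
  refine (three_sum T hne).trans (Finset.card_le_card ?_)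
  intro x hx
  simp only [Finset.mem_add] at hx
  obtain ⟨_, ⟨a, ha, b, hb, rfl⟩, c, hc, rfl⟩ := hx
  have h1 := hT a ha
  have h2 := hT b hb
  have h3 := hT c hc
  rw [win, Finset.mem_filter, Finset.mem_Ioc]
  refine ⟨by omega, ?_⟩
  have hcl : ∀ y ∈ T, y ∈ AddSubmonoid.closure (A : Set ℕ) := fun y hy =>
    AddSubmonoid.subset_closure (by exact_mod_cast hTA hy)
  exact add_mem (add_mem (hcl _ ha) (hcl _ hb)) (hcl _ hc)

theorem win_five (n : ℕ) (D A T : Finset ℕ) (hD : Finset.Ioc (10 * n + 3) (15 * n) ⊆ D)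
    (hTA : T ⊆ A) (hT : ∀ x ∈ T, 2 * n < x ∧ x ≤ 3 * n)
    (hne : T.Nonempty) : 3 * T.card - 2 ≤ (win D A).card := by
  classical
  have h5 : 5 * T.card - 4 ≤ (win D A).card := by
    refine (five_sum T hne).trans (Finset.card_le_card ?_)
    intro x hx
    simp only [Finset.mem_add] at hx
    obtain ⟨_, ⟨_, ⟨_, ⟨a, ha, b, hb, rfl⟩, c, hc, rfl⟩, d, hd, rfl⟩, e, he, rfl⟩ := hx
    have h1 := hT a ha
    have h2 := hT b hb
    have h3 := hT c hc
    have h4 := hT d hd
    have h5 := hT e he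
    rw [win, Finset.mem_filter]
    refine ⟨hD (Finset.mem_Ioc.2 (by omega)), ?_⟩
    have hcl : ∀ y ∈ T, y ∈ AddSubmonoid.closure (A : Set ℕ) := fun y hy =>
      AddSubmonoid.subset_closure (by exact_mod_cast hTA hy)
    exact add_mem (add_mem (add_mem (add_mem (hcl _ ha) (hcl _ hb)) (hcl _ hc)) (hcl _ hd))
      (hcl _ he)
  have := hne.card_pos
  omega

/-! ### Landau inequalities -/

theorem div_sixty (n g b a : ℕ) (ha : 0 < a) (hab : a * b = 60) :
    b * n / g = (60 * n / g) / a := by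
  rw [Nat.div_div_eq_div_mul, ← hab, mul_assoc, mul_comm g a, Nat.mul_div_mul_left _ _ ha]

theorem landAB_of (n g U s : ℕ) (hU : 60 * n / g = U)
    (hs : U % 60 = s)
    (h : s = 5 ∨ s = 17 ∨ s = 41 ∨ s = 53 ∨ s = 4 ∨ s = 16 ∨ s = 40 ∨ s = 52) :
    10 * n / g + 4 * n / g + 3 * n / g + 1 ≤ 15 * n / g + 2 * n / g := by
  rw [div_sixty n g 10 6 (by norm_num) rfl, div_sixty n g 4 15 (by norm_num) rfl,
    div_sixty n g 3 20 (by norm_num) rfl, div_sixty n g 15 4 (by norm_num) rfl,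
    div_sixty n g 2 30 (by norm_num) rfl, hU]
  omega

theorem k_mod (g k c : ℕ) (hc : c = 1 ∨ c = 3) (h : (g * k) % 10 = c) :
    k % 10 = 1 ∨ k % 10 = 3 ∨ k % 10 = 7 ∨ k % 10 = 9 := by
  rw [Nat.mul_mod] at h
  have h1 : g % 10 < 10 := Nat.mod_lt _ (by norm_num)
  have h2 : k % 10 < 10 := Nat.mod_lt _ (by norm_num)
  have key : ∀ a < 10, ∀ b < 10, (a * b % 10 = 1 ∨ a * b % 10 = 3) →
      (b = 1 ∨ b = 3 ∨ b = 7 ∨ b = 9) := by decide
  exact key _ h1 _ h2 (by rcases hc with rfl | rfl <;> simp [h])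

theorem landA1 (n g : ℕ) (hg : 2 ≤ g) (h : g ∣ 10 * n + 1) :
    10 * n / g + 4 * n / g + 3 * n / g + 1 ≤ 15 * n / g + 2 * n / g := by
  rcases Nat.lt_or_ge g 6 with h6 | h6
  · interval_cases g <;> omega
  · obtain ⟨k, hk⟩ := h
    have hkm := k_mod g k 1 (Or.inl rfl) (by omega)
    have hk1 : 1 ≤ k := by
      rcases Nat.eq_zero_or_pos k with rfl | h
      · omega
      · exact h
    have hU : 60 * n / g = 6 * k - 1 := by
      have e : 60 * n = g * (6 * k - 1) + (g - 6) := by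
        obtain ⟨j, rfl⟩ : ∃ j, k = j + 1 := ⟨k - 1, by omega⟩
        have e1 : 6 * (j + 1) - 1 = 6 * j + 5 := by omega
        rw [e1]
        obtain ⟨i, rfl⟩ : ∃ i, g = i + 6 := ⟨g - 6, by omega⟩
        have : i + 6 - 6 = i := by omega
        rw [this]
        nlinarith
      rw [e, Nat.mul_add_div (by omega), Nat.div_eq_of_lt (by omega), add_zero]
    refine landAB_of n g (6 * k - 1) _ hU rfl ?_
    omega

theorem landB1 (n g : ℕ) (hg1 : g ≠ 1) (hg3 : g ≠ 3) (hg7 : g ≠ 7) (h : g ∣ 10 * n + 3) :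
    10 * n / g + 4 * n / g + 3 * n / g + 1 ≤ 15 * n / g + 2 * n / g := by
  obtain ⟨k, hk⟩ := h
  have hkm := k_mod g k 3 (Or.inr rfl) (by omega)
  have hg0 : g ≠ 0 := by rintro rfl; omega
  have hg9 : 9 ≤ g := by
    by_contra hlt
    push Not at hlt
    interval_cases g <;> omega
  have hk1 : 1 ≤ k := by omega
  obtain ⟨j, rfl⟩ : ∃ j, k = j + 1 := ⟨k - 1, by omega⟩
  rcases Nat.lt_or_ge g 18 with h6 | h6
  · have hU : 60 * n / g = 6 * j + 4 := by
      have e : 60 * n = g * (6 * j + 4) + (2 * g - 18) := by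
        obtain ⟨i, rfl⟩ : ∃ i, g = i + 9 := ⟨g - 9, by omega⟩
        have : 2 * (i + 9) - 18 = 2 * i := by omega
        rw [this]
        nlinarith
      rw [e, Nat.mul_add_div (by omega), Nat.div_eq_of_lt (by omega), add_zero]
    refine landAB_of n g _ _ hU rfl ?_
    omega
  · have hU : 60 * n / g = 6 * j + 5 := by
      have e : 60 * n = g * (6 * j + 5) + (g - 18) := by
        obtain ⟨i, rfl⟩ : ∃ i, g = i + 18 := ⟨g - 18, by omega⟩
        have : i + 18 - 18 = i := by omega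
        rw [this]
        nlinarith
      rw [e, Nat.mul_add_div (by omega), Nat.div_eq_of_lt (by omega), add_zero]
    refine landAB_of n g _ _ hU rfl ?_
    omega

theorem div_six (n g b a : ℕ) (ha : 0 < a) (hab : a * b = 6) :
    b * n / g = (6 * n / g) / a := by
  rw [Nat.div_div_eq_div_mul, ← hab, mul_assoc, mul_comm g a, Nat.mul_div_mul_left _ _ ha]

theorem landF (n g : ℕ) : 3 * n / g + 2 * (2 * n / g) ≤ 6 * n / g + n / g := by
  have h1 : n / g = (6 * n / g) / 6 := by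
    have := div_six n g 1 6 (by norm_num) rfl
    rwa [one_mul] at this
  rw [div_six n g 3 2 (by norm_num) rfl, div_six n g 2 3 (by norm_num) rfl, h1]
  omega

theorem landF1 (n g c : ℕ) (hc : c % 2 = 1) (h : g ∣ 2 * n + c) (h2 : 3 * c ≤ 2 * g) :
    3 * n / g + 2 * (2 * n / g) + 1 ≤ 6 * n / g + n / g := by
  obtain ⟨k, hk⟩ := h
  have h1 : n / g = (6 * n / g) / 6 := by
    have := div_six n g 1 6 (by norm_num) rfl
    rwa [one_mul] at this
  have hkodd : k % 2 = 1 := by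
    have h3 : (g * k) % 2 = 1 := by omega
    rw [Nat.mul_mod] at h3
    have h4 : k % 2 < 2 := Nat.mod_lt _ (by norm_num)
    interval_cases hk2 : k % 2
    · simp at h3
    · rfl
  obtain ⟨j, rfl⟩ : ∃ j, k = j + 1 := ⟨k - 1, by omega⟩
  have hg0 : 0 < g := by omega
  rw [div_six n g 3 2 (by norm_num) rfl, div_six n g 2 3 (by norm_num) rfl, h1]
  rcases Nat.lt_or_ge g (3 * c) with h6 | h6
  · have hU : 6 * n / g = 3 * j + 1 := by
      have e : 6 * n = g * (3 * j + 1) + (2 * g - 3 * c) := by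
        obtain ⟨i, hi⟩ : ∃ i, 2 * g = i + 3 * c := ⟨2 * g - 3 * c, by omega⟩
        have : 2 * g - 3 * c = i := by omega
        rw [this]
        nlinarith
      rw [e, Nat.mul_add_div (by omega), Nat.div_eq_of_lt (by omega), add_zero]
    rw [hU]
    omega
  · have hU : 6 * n / g = 3 * j + 2 := by
      have e : 6 * n = g * (3 * j + 2) + (g - 3 * c) := by
        obtain ⟨i, hi⟩ : ∃ i, g = i + 3 * c := ⟨g - 3 * c, by omega⟩
        have : g - 3 * c = i := by omega
        rw [this]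
        nlinarith
      rw [e, Nat.mul_add_div (by omega), Nat.div_eq_of_lt (by omega), add_zero]
    rw [hU]
    omega

end Pool.Agent.X47.QF
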