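import Pool.Agent.X47.QF2

set_option autoImplicit false

/-!
# The two families of q-factorial ratios
-/

namespace Pool.Agent.X47.QF

open Polynomial

/-- `∏ (1 - X ^ a)` over a finite set. -/
noncomputable def G (S : Finset ℕ) : ℤ[X] := ∏ a ∈ S, (1 - X ^ a)

/-- `[m]! = (1 - X) (1 - X ^ 2) ⋯ (1 - X ^ m)`. -/
noncomputable def qfac (m : ℕ) : ℤ[X] := ∏ i ∈ Finset.Icc 1 m, (1 - X ^ i)

theorem qfac_eq (m : ℕ) : qfac m = G (Finset.Icc 1 m) := rfl

theorem G_singleton (a : ℕ) : G {a} = 1 - X ^ a := by simp [G]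

theorem G_insert {a : ℕ} {S : Finset ℕ} (h : a ∉ S) : G (insert a S) = (1 - X ^ a) * G S := by
  classical
  exact Finset.prod_insert h

theorem G_union {S T : Finset ℕ} (h : Disjoint S T) : G (S ∪ T) = G S * G T := by
  classical
  exact Finset.prod_union h

theorem G_sdiff {S R : Finset ℕ} (h : R ⊆ S) : G (S \ R) * G R = G S := by
  classical
  exact Finset.prod_sdiff h

theorem qfac_split (u v : ℕ) (huv : u ≤ v) : qfac v = qfac u * G (Finset.Ioc u v) := by
  classical
  rw [qfac_eq, qfac_eq, ← G_union]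
  · congr 1
    ext x
    simp only [Finset.mem_union, Finset.mem_Icc, Finset.mem_Ioc]
    omega
  · rw [Finset.disjoint_left]
    intro x hx hx'
    rw [Finset.mem_Icc] at hx
    rw [Finset.mem_Ioc] at hx'
    omega

theorem qfac_succ (u : ℕ) : qfac (u + 1) = qfac u * (1 - X ^ (u + 1)) := by
  rw [qfac_split u (u + 1) (by omega), ← G_singleton]
  congr 2
  ext x
  simp only [Finset.mem_singleton, Finset.mem_Ioc]
  omega

/-- `N / Q` is a polynomial with nonnegative integer coefficients. -/
def Nonneg (N Q : ℤ[X]) : Prop := ∃ P : ℤ[X], (∀ k, 0 ≤ P.coeff k) ∧ N = P * Q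

/-- The family `[6n]! [n]! / ([3n]! [2n]!^2)` with modifications. -/
theorem famF (n : ℕ) (hn : 0 < n) (R E Z : Finset ℕ) (hR : R ⊆ Finset.Icc 1 (2 * n))
    (hE : E ⊆ Finset.Ioc (2 * n) (3 * n)) (hZ : Z ⊆ Finset.Icc 1 (3 * n))
    (hcard : E.card = R.card + Z.card) (hE1 : E.card ≤ (R.erase 1).card + 1)
    (hc : ∀ g, 2 ≤ g → 3 * n / g + 2 * (2 * n / g) + cnt g E ≤
      6 * n / g + n / g + cnt g (R.erase 1)) :
    Nonneg (G Z * G R * qfac (6 * n) * qfac n) (G E * qfac (3 * n) * qfac (2 * n) ^ 2) := by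
  classical
  set S₀ := Finset.Icc 1 (2 * n) \ R with hS₀
  have hS₀E : Disjoint S₀ E := by
    rw [Finset.disjoint_left]
    intro x hx hx'
    have h1 := (Finset.mem_sdiff.1 hx).1
    have h2 := hE hx'
    rw [Finset.mem_Icc] at h1
    rw [Finset.mem_Ioc] at h2
    omega
  have hZD : Disjoint Z (Finset.Ioc (3 * n) (6 * n)) := by
    rw [Finset.disjoint_left]
    intro x hx hx'
    have h1 := hZ hx
    rw [Finset.mem_Icc] at h1
    rw [Finset.mem_Ioc] at hx'
    omega
  have hS1 : ∀ a ∈ S₀ ∪ E, 0 < a ∧ a ≤ 3 * n := by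
    intro a ha
    rcases Finset.mem_union.1 ha with h | h
    · have h1 := (Finset.mem_sdiff.1 h).1
      rw [Finset.mem_Icc] at h1
      omega
    · have h2 := hE h
      rw [Finset.mem_Ioc] at h2
      omega
  have hcS₀ : S₀.card + R.card = 2 * n := by
    rw [hS₀, Finset.card_sdiff_add_card_eq_card hR, Nat.card_Icc]
    omega
  obtain ⟨P, hP, hPe⟩ := crit (S₀ ∪ E) (Finset.Ioc n (2 * n)) (Z ∪ Finset.Ioc (3 * n) (6 * n))
    (Finset.Ioc (3 * n) (6 * n)) (3 * n) (6 * n)
    (fun a ha => (hS1 a ha).1)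
    (fun a ha => by rw [Finset.mem_Ioc] at ha; omega)
    (by
      intro b hb
      rcases Finset.mem_union.1 hb with h | h
      · have h1 := hZ h
        rw [Finset.mem_Icc] at h1
        omega
      · rw [Finset.mem_Ioc] at h
        omega)
    (by
      rw [Finset.card_union_of_disjoint hZD, Finset.card_union_of_disjoint hS₀E, Nat.card_Ioc,
        Nat.card_Ioc]
      omega)
    Finset.subset_union_right (Finset.Subset.refl _)
    (by
      intro a ha _
      have := hS1 a ha
      refine ⟨by omega, by omega, fun d hd => ?_⟩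
      rw [Finset.mem_Ioc] at hd
      omega)
    (by
      intro a ha _
      rw [Finset.mem_Ioc] at ha
      refine ⟨by omega, by omega, fun d hd => ?_⟩
      rw [Finset.mem_Ioc] at hd
      omega)
    (by
      intro A T hTA hT hne
      refine win_three n A T hTA (fun x hx => ?_) hne
      have := (hT x hx).2.1
      rwa [Finset.mem_Ioc] at this)
    (by
      intro g hg
      have h1 : cnt g ((S₀ ∪ E).erase 1) ≤ cnt g (Finset.Ioc 1 (2 * n) \ R.erase 1) + cnt g E := by
        refine (cnt_mono ?_).trans (cnt_union_le g _ _)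
        intro x hx
        rw [Finset.mem_erase, Finset.mem_union, hS₀, Finset.mem_sdiff, Finset.mem_Icc] at hx
        rw [Finset.mem_union, Finset.mem_sdiff, Finset.mem_Ioc, Finset.mem_erase]
        obtain ⟨hx1, hx2 | hx2⟩ := hx
        · left
          exact ⟨by omega, fun h => hx2.2 h.2⟩
        · right
          exact hx2
      have h2 : cnt g (Finset.Ioc 1 (2 * n) \ R.erase 1) + cnt g (R.erase 1) =
          cnt g (Finset.Ioc 1 (2 * n)) := by
        apply cnt_sdiff
        intro x hx
        rw [Finset.mem_erase] at hx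
        have h3 := hR hx.2
        rw [Finset.mem_Icc] at h3
        rw [Finset.mem_Ioc]
        omega
      have h3 := cnt_Ioc g 1 (2 * n) (by omega)
      have h4 : cnt g ((Finset.Ioc n (2 * n)).erase 1) ≤ cnt g (Finset.Ioc n (2 * n)) :=
        cnt_mono (Finset.erase_subset _ _)
      have h5 := cnt_Ioc g n (2 * n) (by omega)
      have h6 := cnt_Ioc g (3 * n) (6 * n) (by omega)
      rcases Nat.lt_or_ge g 2 with hg2 | hg2
      · have hg1 : g = 1 := by omega
        subst hg1
        have h7 : cnt 1 E = E.card := by simp [cnt]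
        have h8 : cnt 1 (R.erase 1) = (R.erase 1).card := by simp [cnt]
        simp only [Nat.div_one] at h3 h5 h6
        omega
      · have h7 := hc g hg2
        have h8 : 1 / g = 0 := Nat.div_eq_of_lt (by omega)
        rw [h8] at h3
        omega)
  refine ⟨P, hP, ?_⟩
  have hPe' : G Z * G (Finset.Ioc (3 * n) (6 * n)) = P * ((G S₀ * G E) * G (Finset.Ioc n (2 * n))) := by
    rw [← G_union hZD, ← G_union hS₀E]
    exact hPe
  have e1 := qfac_split (3 * n) (6 * n) (by omega)
  have e2 := qfac_split n (2 * n) (by omega)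
  have e3 : G S₀ * G R = qfac (2 * n) := G_sdiff hR
  calc G Z * G R * qfac (6 * n) * qfac n
      = (G Z * G (Finset.Ioc (3 * n) (6 * n))) * (G R * qfac (3 * n) * qfac n) := by
        rw [e1]; ring
    _ = P * (G E * qfac (3 * n) * ((G S₀ * G R) * (qfac n * G (Finset.Ioc n (2 * n))))) := by
        rw [hPe']; ring
    _ = P * (G E * qfac (3 * n) * qfac (2 * n) ^ 2) := by
        rw [e3, ← e2]; ring

/-! ### The modifications of the second family -/

theorem P1 (n : ℕ) (hn : 0 < n) :
    Nonneg ((1 - X) * (qfac (6 * n) * qfac n))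
      ((1 - X ^ (2 * n + 1)) * (qfac (3 * n) * qfac (2 * n) ^ 2)) := by
  have h := famF n hn {1} {2 * n + 1} ∅ (by simp; omega) (by simp; omega) (by simp) (by simp)
    (by simp) (by
      intro g hg
      rw [cnt_singleton]
      split_ifs with h
      · have := landF1 n g 1 rfl h (by omega)
        omega
      · have := landF n g
        omega)
  simpa [G, mul_assoc] using h

theorem P2' (n : ℕ) (hn : 3 ≤ n) :
    Nonneg ((1 - X ^ 3) * (qfac (6 * n) * qfac n))
      ((1 - X ^ (2 * n + 3)) * (qfac (3 * n) * qfac (2 * n) ^ 2)) := by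
  have h := famF n (by omega) {3} {2 * n + 3} ∅ (by simp; omega) (by simp; omega) (by simp)
    (by simp) (by simp) (by
      intro g hg
      have e : (({3} : Finset ℕ).erase 1) = {3} := by decide
      rw [e, cnt_singleton, cnt_singleton]
      have h0 := landF n g
      by_cases h : g ∣ 2 * n + 3
      · rw [if_pos h]
        rcases Nat.lt_or_ge g 5 with h5 | h5
        · have hg3 : g = 3 := by
            interval_cases g <;> omega
          subst hg3
          simp
          omega
        · have := landF1 n g 3 rfl h (by omega)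
          omega
      · rw [if_neg h]
        omega)
  simpa [G, mul_assoc] using h

theorem two_dvd_aux {g a c : ℕ} (h1 : g ∣ a) (h2 : g ∣ a + c) : g ∣ c :=
  (Nat.dvd_add_right h1).1 h2

theorem P3' (n : ℕ) (hn : 3 ≤ n) :
    Nonneg ((1 - X) * (1 - X ^ 3) * (qfac (6 * n) * qfac n))
      ((1 - X ^ (2 * n + 1)) * (1 - X ^ (2 * n + 3)) * (qfac (3 * n) * qfac (2 * n) ^ 2)) := by
  have h := famF n (by omega) {1, 3} {2 * n + 1, 2 * n + 3} ∅
    (by intro x hx; simp only [Finset.mem_insert, Finset.mem_singleton] at hx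
        rw [Finset.mem_Icc]; omega)
    (by intro x hx; simp only [Finset.mem_insert, Finset.mem_singleton] at hx
        rw [Finset.mem_Ioc]; omega) (by simp)
    (by rw [Finset.card_pair (by omega)]; rfl)
    (by rw [Finset.card_pair (by omega)]; decide) (by
      intro g hg
      have e : (({1, 3} : Finset ℕ).erase 1) = {3} := by decide
      have h9 := cnt_insert_le g (2 * n + 1) {2 * n + 3}
      rw [cnt_singleton] at h9
      rw [e, cnt_singleton]
      have h0 := landF n g
      by_cases h1 : g ∣ 2 * n + 1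
      · have h3 : ¬ g ∣ 2 * n + 3 := by
          intro h3
          have h4 : g ∣ 2 := two_dvd_aux h1 (by simpa [add_assoc] using h3)
          have h5 := Nat.le_of_dvd (by norm_num) h4
          have : g = 2 := by omega
          subst this
          omega
        rw [if_pos h1, if_neg h3] at h9
        have := landF1 n g 1 rfl h1 (by omega)
        omega
      · rw [if_neg h1] at h9
        by_cases h : g ∣ 2 * n + 3
        · rw [if_pos h] at h9
          rcases Nat.lt_or_ge g 5 with h5 | h5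
          · have hg3 : g = 3 := by
              interval_cases g <;> omega
            subst hg3
            simp
            omega
          · have := landF1 n g 3 rfl h (by omega)
            omega
        · rw [if_neg h] at h9
          omega)
  have e1 : G {1, 3} = (1 - X) * (1 - X ^ 3) := by
    rw [G_insert (by decide), G_singleton, pow_one]
  have e2 : G {2 * n + 1, 2 * n + 3} = (1 - X ^ (2 * n + 1)) * (1 - X ^ (2 * n + 3)) := by
    rw [G_insert (by simp), G_singleton]
  rw [e1, e2] at h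
  simpa [G, mul_assoc] using h

/-- Counting for the sets `{2n+3, 2n+5, 2n+7}` and `{2n+1, 2n+3, 2n+5, 2n+7}`. -/
theorem cnt45 (n : ℕ) (hn9 : n % 9 ≠ 1) (g : ℕ) (hg : 2 ≤ g) :
    3 * n / g + 2 * (2 * n / g) + cnt g {2 * n + 1, 2 * n + 3, 2 * n + 5, 2 * n + 7} ≤
      6 * n / g + n / g + cnt g {3, 5, 7} ∧
    3 * n / g + 2 * (2 * n / g) + cnt g {2 * n + 3, 2 * n + 5, 2 * n + 7} ≤
      6 * n / g + n / g + cnt g {3, 5, 7} := by
  have hmono : cnt g {2 * n + 3, 2 * n + 5, 2 * n + 7} ≤
      cnt g {2 * n + 1, 2 * n + 3, 2 * n + 5, 2 * n + 7} := cnt_mono (by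
    intro x hx
    exact Finset.mem_insert_of_mem hx)
  suffices h : 3 * n / g + 2 * (2 * n / g) + cnt g {2 * n + 1, 2 * n + 3, 2 * n + 5, 2 * n + 7} ≤
      6 * n / g + n / g + cnt g {3, 5, 7} from ⟨h, by omega⟩
  have h9 := cnt_insert_le g (2 * n + 1) {2 * n + 3, 2 * n + 5, 2 * n + 7}
  have h10 := cnt_insert_le g (2 * n + 3) {2 * n + 5, 2 * n + 7}
  have h11 := cnt_insert_le g (2 * n + 5) {2 * n + 7}
  rw [cnt_singleton] at h11
  have h0 := landF n g
  rcases Nat.lt_or_ge g 8 with h8 | h8
  · interval_cases g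
    · simp only [show ¬ 2 ∣ 2 * n + 1 by omega, show ¬ 2 ∣ 2 * n + 3 by omega,
        show ¬ 2 ∣ 2 * n + 5 by omega, show ¬ 2 ∣ 2 * n + 7 by omega, if_false] at h9 h10 h11
      omega
    · have e : cnt 3 {3, 5, 7} = 1 := by decide
      rw [e]
      split_ifs at h9 h10 h11 <;> omega
    · simp only [show ¬ 4 ∣ 2 * n + 1 by omega, show ¬ 4 ∣ 2 * n + 3 by omega,
        show ¬ 4 ∣ 2 * n + 5 by omega, show ¬ 4 ∣ 2 * n + 7 by omega, if_false] at h9 h10 h11
      omega
    · have e : cnt 5 {3, 5, 7} = 1 := by decide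
      rw [e]
      split_ifs at h9 h10 h11 <;> omega
    · simp only [show ¬ 6 ∣ 2 * n + 1 by omega, show ¬ 6 ∣ 2 * n + 3 by omega,
        show ¬ 6 ∣ 2 * n + 5 by omega, show ¬ 6 ∣ 2 * n + 7 by omega, if_false] at h9 h10 h11
      omega
    · have e : cnt 7 {3, 5, 7} = 1 := by decide
      rw [e]
      split_ifs at h9 h10 h11 <;> omega
  · have key : ∀ a c : ℕ, 0 < c → c < 8 → g ∣ a → ¬ g ∣ a + c := by
      intro a c hc hc8 h1 h2
      have h4 := Nat.le_of_dvd hc (two_dvd_aux h1 h2)
      omega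
    by_cases h1 : g ∣ 2 * n + 1
    · have k3 : ¬ g ∣ 2 * n + 3 := key _ 2 (by norm_num) (by norm_num) h1
      have k5 : ¬ g ∣ 2 * n + 5 := key _ 4 (by norm_num) (by norm_num) h1
      have k7 : ¬ g ∣ 2 * n + 7 := key _ 6 (by norm_num) (by norm_num) h1
      rw [if_pos h1] at h9
      rw [if_neg k3] at h10
      rw [if_neg k5, if_neg k7] at h11
      have := landF1 n g 1 rfl h1 (by omega)
      omega
    rw [if_neg h1] at h9
    by_cases h3 : g ∣ 2 * n + 3
    · have k5 : ¬ g ∣ 2 * n + 5 := key _ 2 (by norm_num) (by norm_num) h3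
      have k7 : ¬ g ∣ 2 * n + 7 := key _ 4 (by norm_num) (by norm_num) h3
      rw [if_pos h3] at h10
      rw [if_neg k5, if_neg k7] at h11
      have := landF1 n g 3 rfl h3 (by omega)
      omega
    rw [if_neg h3] at h10
    by_cases h5 : g ∣ 2 * n + 5
    · have k7 : ¬ g ∣ 2 * n + 7 := key _ 2 (by norm_num) (by norm_num) h5
      rw [if_pos h5, if_neg k7] at h11
      have := landF1 n g 5 rfl h5 (by omega)
      omega
    rw [if_neg h5] at h11
    by_cases h7 : g ∣ 2 * n + 7
    · rw [if_pos h7] at h11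
      have hg11 : 11 ≤ g := by
        by_contra hlt
        push Not at hlt
        interval_cases g <;> omega
      have := landF1 n g 7 rfl h7 (by omega)
      omega
    · rw [if_neg h7] at h11
      omega

theorem P4' (n : ℕ) (hn : 7 ≤ n) (hn9 : n % 9 ≠ 1) :
    Nonneg ((1 - X ^ 3) * (1 - X ^ 5) * (1 - X ^ 7) * (qfac (6 * n) * qfac n))
      ((1 - X ^ (2 * n + 3)) * (1 - X ^ (2 * n + 5)) * (1 - X ^ (2 * n + 7)) *
        (qfac (3 * n) * qfac (2 * n) ^ 2)) := by
  have h := famF n (by omega) {3, 5, 7} {2 * n + 3, 2 * n + 5, 2 * n + 7} ∅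
    (by intro x hx; simp only [Finset.mem_insert, Finset.mem_singleton] at hx
        rw [Finset.mem_Icc]; omega)
    (by intro x hx; simp only [Finset.mem_insert, Finset.mem_singleton] at hx
        rw [Finset.mem_Ioc]; omega) (by simp)
    (by rw [Finset.card_eq_three.2 ⟨_, _, _, by omega, by omega, by omega, rfl⟩]; rfl)
    (by rw [Finset.card_eq_three.2 ⟨_, _, _, by omega, by omega, by omega, rfl⟩]; decide) (by
      intro g hg
      have e : (({3, 5, 7} : Finset ℕ).erase 1) = {3, 5, 7} := by decide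
      rw [e]
      exact (cnt45 n hn9 g hg).2)
  have e1 : G {3, 5, 7} = (1 - X ^ 3) * (1 - X ^ 5) * (1 - X ^ 7) := by
    rw [G_insert (by decide), G_insert (by decide), G_singleton, mul_assoc]
  have e2 : G {2 * n + 3, 2 * n + 5, 2 * n + 7} =
      (1 - X ^ (2 * n + 3)) * (1 - X ^ (2 * n + 5)) * (1 - X ^ (2 * n + 7)) := by
    rw [G_insert (by simp), G_insert (by simp), G_singleton, mul_assoc]
  rw [e1, e2] at h
  simpa [G, mul_assoc] using h

theorem P5' (n : ℕ) (hn : 7 ≤ n) (hn9 : n % 9 ≠ 1) :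
    Nonneg ((1 - X ^ 3) ^ 2 * (1 - X ^ 5) * (1 - X ^ 7) * (qfac (6 * n) * qfac n))
      ((1 - X ^ (2 * n + 1)) * (1 - X ^ (2 * n + 3)) * (1 - X ^ (2 * n + 5)) *
        (1 - X ^ (2 * n + 7)) * (qfac (3 * n) * qfac (2 * n) ^ 2)) := by
  have hc4 : ({2 * n + 1, 2 * n + 3, 2 * n + 5, 2 * n + 7} : Finset ℕ).card = 4 := by
    rw [Finset.card_insert_of_notMem (by simp),
      Finset.card_eq_three.2 ⟨_, _, _, by omega, by omega, by omega, rfl⟩]
  have h := famF n (by omega) {3, 5, 7} {2 * n + 1, 2 * n + 3, 2 * n + 5, 2 * n + 7} {3}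
    (by intro x hx; simp only [Finset.mem_insert, Finset.mem_singleton] at hx
        rw [Finset.mem_Icc]; omega)
    (by intro x hx; simp only [Finset.mem_insert, Finset.mem_singleton] at hx
        rw [Finset.mem_Ioc]; omega) (by simp; omega)
    (by rw [hc4]; rfl)
    (by rw [hc4]; decide) (by
      intro g hg
      have e : (({3, 5, 7} : Finset ℕ).erase 1) = {3, 5, 7} := by decide
      rw [e]
      exact (cnt45 n hn9 g hg).1)
  have e1 : G {3, 5, 7} = (1 - X ^ 3) * (1 - X ^ 5) * (1 - X ^ 7) := by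
    rw [G_insert (by decide), G_insert (by decide), G_singleton, mul_assoc]
  have e2 : G {2 * n + 1, 2 * n + 3, 2 * n + 5, 2 * n + 7} =
      (1 - X ^ (2 * n + 1)) * (1 - X ^ (2 * n + 3)) * (1 - X ^ (2 * n + 5)) *
        (1 - X ^ (2 * n + 7)) := by
    rw [G_insert (by simp), G_insert (by simp), G_insert (by simp), G_singleton]
    ring
  rw [e1, e2, G_singleton] at h
  have e3 : (1 - X ^ 3 : ℤ[X]) ^ 2 * (1 - X ^ 5) * (1 - X ^ 7) * (qfac (6 * n) * qfac n) =
      (1 - X ^ 3) * ((1 - X ^ 3) * (1 - X ^ 5) * (1 - X ^ 7)) * qfac (6 * n) * qfac n := by ring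
  rw [e3, ← mul_assoc _ (qfac (3 * n)) _]
  exact h

end Pool.Agent.X47.QF
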