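import Pool.Agent.X47.QF3

set_option autoImplicit false

/-!
# The ratio `[15n]! [2n]! / ([10n]! [4n]! [3n]!)` with modifications
-/

namespace Pool.Agent.X47.QF

open Polynomial Pool.Agent.TH416.CI

theorem A1 (n : ℕ) (hn : 0 < n) :
    Nonneg ((1 - X) * (qfac (15 * n) * qfac (2 * n)))
      ((1 - X ^ (10 * n + 1)) * (qfac (10 * n) * qfac (4 * n) * qfac (3 * n))) := by
  classical
  obtain ⟨P, hP, hPe⟩ := crit (Finset.Ioc 1 (4 * n)) (Finset.Ioc (2 * n) (3 * n))
    (Finset.Ioc (10 * n + 1) (15 * n)) (Finset.Ioc (10 * n + 1) (15 * n)) (10 * n + 1) (15 * n)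
    (fun a ha => by rw [Finset.mem_Ioc] at ha; omega)
    (fun a ha => by rw [Finset.mem_Ioc] at ha; omega)
    (fun a ha => by rw [Finset.mem_Ioc] at ha; omega)
    (by rw [Nat.card_Ioc, Nat.card_Ioc, Nat.card_Ioc]; omega)
    (Finset.Subset.refl _) (Finset.Subset.refl _)
    (by
      intro a ha _
      rw [Finset.mem_Ioc] at ha
      refine ⟨by omega, by omega, fun d hd => ?_⟩
      rw [Finset.mem_Ioc] at hd
      omega)
    (by
      intro a ha _
      rw [Finset.mem_Ioc] at ha
      refine ⟨by omega, by omega, fun d hd => ?_⟩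
      rw [Finset.mem_Ioc] at hd
      omega)
    (by
      intro A T hTA hT hne
      refine win_five n _ A T (Finset.Ioc_subset_Ioc_left (by omega)) hTA (fun x hx => ?_) hne
      have := (hT x hx).2.1
      rwa [Finset.mem_Ioc] at this)
    (by
      intro g hg
      have h1 : cnt g ((Finset.Ioc 1 (4 * n)).erase 1) ≤ cnt g (Finset.Ioc 1 (4 * n)) :=
        cnt_mono (Finset.erase_subset _ _)
      have h2 : cnt g ((Finset.Ioc (2 * n) (3 * n)).erase 1) ≤
          cnt g (Finset.Ioc (2 * n) (3 * n)) := cnt_mono (Finset.erase_subset _ _)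
      have h3 := cnt_Ioc g 1 (4 * n) (by omega)
      have h4 := cnt_Ioc g (2 * n) (3 * n) (by omega)
      have h5 := cnt_Ioc g (10 * n + 1) (15 * n) (by omega)
      rcases Nat.lt_or_ge g 2 with hg2 | hg2
      · have hg1 : g = 1 := by omega
        subst hg1
        simp only [Nat.div_one] at h3 h4 h5
        omega
      · have h8 : 1 / g = 0 := Nat.div_eq_of_lt (by omega)
        rw [h8] at h3
        rw [Nat.succ_div] at h5
        have h6 := landau n g
        split_ifs at h5 with h7
        · have := landA1 n g hg2 h7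
          omega
        · omega)
  refine ⟨P, hP, ?_⟩
  have hPe' : G (Finset.Ioc (10 * n + 1) (15 * n)) =
    P * (G (Finset.Ioc 1 (4 * n)) * G (Finset.Ioc (2 * n) (3 * n))) := hPe
  have e1 := qfac_split (10 * n + 1) (15 * n) (by omega)
  rw [qfac_succ] at e1
  have e2 := qfac_split 1 (4 * n) (by omega)
  have e2' : qfac 1 = 1 - X := by
    rw [qfac_eq, Finset.Icc_self, G_singleton, pow_one]
  rw [e2'] at e2
  have e3 := qfac_split (2 * n) (3 * n) (by omega)
  rw [e1, e2, e3, hPe']
  ring

theorem B1' (n : ℕ) (hn : 3 ≤ n) :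
    Nonneg ((1 - X ^ 3) * (1 - X ^ 7) * (qfac (15 * n) * qfac (2 * n)))
      ((1 - X) * (1 - X ^ (10 * n + 3)) * (qfac (10 * n) * qfac (4 * n) * qfac (3 * n))) := by
  classical
  have hR : ({3, 7} : Finset ℕ) ⊆ Finset.Icc 1 (4 * n) := by
    intro x hx
    simp only [Finset.mem_insert, Finset.mem_singleton] at hx
    rw [Finset.mem_Icc]
    omega
  have hR' : ({3, 7} : Finset ℕ) ⊆ Finset.Ioc 1 (4 * n) := by
    intro x hx
    simp only [Finset.mem_insert, Finset.mem_singleton] at hx
    rw [Finset.mem_Ioc]
    omega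
  have hQ : ({10 * n + 3} : Finset ℕ) ⊆ Finset.Ioc (10 * n) (15 * n) := by
    intro x hx
    simp only [Finset.mem_singleton] at hx
    rw [Finset.mem_Ioc]
    omega
  have h1n : 1 ∉ Finset.Ioc (2 * n) (3 * n) := by
    rw [Finset.mem_Ioc]
    omega
  have c1 : (Finset.Icc 1 (4 * n) \ {3, 7}).card + 2 = 4 * n := by
    have := Finset.card_sdiff_add_card_eq_card hR
    rw [Nat.card_Icc] at this
    have e : ({3, 7} : Finset ℕ).card = 2 := rfl
    omega
  have c2 : (Finset.Ioc (10 * n) (15 * n) \ {10 * n + 3}).card + 1 = 5 * n := by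
    have := Finset.card_sdiff_add_card_eq_card hQ
    rw [Nat.card_Ioc, Finset.card_singleton] at this
    omega
  obtain ⟨P, hP, hPe⟩ := crit (Finset.Icc 1 (4 * n) \ {3, 7})
    (insert 1 (Finset.Ioc (2 * n) (3 * n)))
    (Finset.Ioc (10 * n) (15 * n) \ {10 * n + 3}) (Finset.Ioc (10 * n) (15 * n) \ {10 * n + 3})
    (10 * n + 3) (15 * n)
    (fun a ha => by
      have := (Finset.mem_sdiff.1 ha).1
      rw [Finset.mem_Icc] at this
      omega)
    (fun a ha => by rw [Finset.mem_insert, Finset.mem_Ioc] at ha; omega)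
    (fun a ha => by
      have := (Finset.mem_sdiff.1 ha).1
      rw [Finset.mem_Ioc] at this
      omega)
    (by
      rw [Finset.card_insert_of_notMem h1n, Nat.card_Ioc]
      omega)
    (Finset.Subset.refl _)
    (by
      intro x hx
      rw [Finset.mem_Ioc] at hx
      rw [Finset.mem_sdiff, Finset.mem_Ioc, Finset.mem_singleton]
      omega)
    (by
      intro a ha _
      have h1 := (Finset.mem_sdiff.1 ha).1
      rw [Finset.mem_Icc] at h1
      refine ⟨by omega, by omega, fun d hd => ?_⟩
      have h2 := (Finset.mem_sdiff.1 hd).1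
      rw [Finset.mem_Ioc] at h2
      omega)
    (by
      intro a ha _
      rw [Finset.mem_insert, Finset.mem_Ioc] at ha
      refine ⟨by omega, by omega, fun d hd => ?_⟩
      have h2 := (Finset.mem_sdiff.1 hd).1
      rw [Finset.mem_Ioc] at h2
      omega)
    (by
      intro A T hTA hT hne
      refine win_five n _ A T ?_ hTA (fun x hx => ?_) hne
      · intro x hx
        rw [Finset.mem_Ioc] at hx
        rw [Finset.mem_sdiff, Finset.mem_Ioc, Finset.mem_singleton]
        omega
      · have h1 := (hT x hx).2.1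
        have h2 := (hT x hx).2.2
        rw [Finset.mem_insert, Finset.mem_Ioc] at h1
        omega)
    (by
      intro g hg
      have h1 : cnt g ((Finset.Icc 1 (4 * n) \ {3, 7}).erase 1) ≤
          cnt g (Finset.Ioc 1 (4 * n) \ {3, 7}) := cnt_mono (by
        intro x hx
        rw [Finset.mem_erase, Finset.mem_sdiff, Finset.mem_Icc] at hx
        rw [Finset.mem_sdiff, Finset.mem_Ioc]
        exact ⟨by omega, hx.2.2⟩)
      have h2 : cnt g ((insert 1 (Finset.Ioc (2 * n) (3 * n))).erase 1) ≤
          cnt g (Finset.Ioc (2 * n) (3 * n)) := cnt_mono (by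
        intro x hx
        rw [Finset.mem_erase, Finset.mem_insert] at hx
        rcases hx.2 with h | h
        · exact absurd h hx.1
        · exact h)
      have h3 := cnt_Ioc g 1 (4 * n) (by omega)
      have h3' := cnt_sdiff g hR'
      have h4 := cnt_Ioc g (2 * n) (3 * n) (by omega)
      have h5 := cnt_Ioc g (10 * n) (15 * n) (by omega)
      have h5' := cnt_sdiff g hQ
      rw [cnt_singleton] at h5'
      have h6 := landau n g
      rcases Nat.lt_or_ge g 2 with hg2 | hg2
      · have hg1 : g = 1 := by omega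
        subst hg1
        simp only [Nat.div_one, isUnit_one, IsUnit.dvd, if_true] at h3 h4 h5 h5'
        have e : cnt 1 {3, 7} = 2 := by decide
        omega
      · have h8 : 1 / g = 0 := Nat.div_eq_of_lt (by omega)
        rw [h8] at h3
        by_cases h7 : g ∣ 10 * n + 3
        · rw [if_pos h7] at h5'
          by_cases h33 : g = 3
          · subst h33
            have e : cnt 3 {3, 7} = 1 := by decide
            omega
          by_cases h77 : g = 7
          · subst h77
            have e : cnt 7 {3, 7} = 1 := by decide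
            omega
          have := landB1 n g (by omega) h33 h77 h7
          omega
        · rw [if_neg h7] at h5'
          omega)
  refine ⟨P, hP, ?_⟩
  have hPe' : G (Finset.Ioc (10 * n) (15 * n) \ {10 * n + 3}) =
    P * (G (Finset.Icc 1 (4 * n) \ {3, 7}) * G (insert 1 (Finset.Ioc (2 * n) (3 * n)))) := hPe
  have e1 := qfac_split (10 * n) (15 * n) (by omega)
  have e1' := G_sdiff hQ
  rw [G_singleton] at e1'
  have e2 : G (Finset.Icc 1 (4 * n) \ {3, 7}) * G {3, 7} = qfac (4 * n) := G_sdiff hR
  rw [G_insert (by decide), G_singleton] at e2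
  have e3 := qfac_split (2 * n) (3 * n) (by omega)
  rw [G_insert h1n, pow_one] at hPe'
  rw [e1, ← e1', ← e2, e3, hPe']
  ring

/-! ### Finite verification -/

/-- The polynomial with a given list of coefficients. -/
noncomputable def toP : List ℤ → ℤ[X]
  | [] => 0
  | a :: l => C a + X * toP l

/-- Multiplication of a list of coefficients by `1 - X ^ w`. -/
def mulL (l : List ℤ) (w : ℕ) : List ℤ :=
  List.zipWith (fun a b => a - b) (l ++ List.replicate w 0) (List.replicate w 0 ++ l)

theorem toP_zip : ∀ l l' : List ℤ, l.length = l'.length →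
    toP (List.zipWith (fun a b => a - b) l l') = toP l - toP l'
  | [], [], _ => by simp [toP]
  | [], b :: l', h => by simp at h
  | a :: l, [], h => by simp at h
  | a :: l, b :: l', h => by
    rw [List.zipWith_cons_cons, toP, toP, toP, toP_zip l l' (by simpa using h)]
    simp only [map_sub]
    ring

theorem toP_app_zero (l : List ℤ) (w : ℕ) : toP (l ++ List.replicate w 0) = toP l := by
  induction l with
  | nil =>
    induction w with
    | zero => rfl
    | succ w ih =>
      rw [List.nil_append] at ih
      rw [List.nil_append, List.replicate_succ]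
      change C 0 + X * toP (List.replicate w 0) = toP []
      rw [ih]
      simp [toP]
  | cons a l ih => rw [List.cons_append, toP, ih, toP]

theorem toP_zero_app (l : List ℤ) (w : ℕ) : toP (List.replicate w 0 ++ l) = X ^ w * toP l := by
  induction w with
  | zero => simp
  | succ w ih =>
    rw [List.replicate_succ, List.cons_append, toP, ih, pow_succ]
    simp
    ring

theorem toP_mulL (l : List ℤ) (w : ℕ) : toP (mulL l w) = toP l * (1 - X ^ w) := by
  rw [mulL, toP_zip _ _ (by simp [add_comm]), toP_app_zero, toP_zero_app]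
  ring

theorem toP_foldl (ws : List ℕ) : ∀ l : List ℤ,
    toP (ws.foldl mulL l) = toP l * (ws.map (fun w => (1 : ℤ[X]) - X ^ w)).prod := by
  induction ws with
  | nil => intro l; simp
  | cons w ws ih =>
    intro l
    rw [List.foldl_cons, ih, toP_mulL, List.map_cons, List.prod_cons]
    ring

theorem toP_nonneg : ∀ l : List ℤ, (∀ a ∈ l, 0 ≤ a) → ∀ k, 0 ≤ (toP l).coeff k
  | [], _, k => by simp [toP]
  | a :: l, h, k => by
    rw [toP]
    cases k with
    | zero => simpa using h a (by simp)
    | succ k =>
      rw [coeff_add, coeff_C_succ, coeff_X_mul, zero_add]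
      exact toP_nonneg l (fun b hb => h b (List.mem_cons_of_mem _ hb)) k

/-- The list `1, …, m`. -/
def rg (m : ℕ) : List ℕ := (List.range m).map (· + 1)

theorem prod_rg (m : ℕ) : ((rg m).map (fun w => (1 : ℤ[X]) - X ^ w)).prod = qfac m := by
  induction m with
  | zero => simp [rg, qfac]
  | succ m ih =>
    rw [qfac_succ, ← ih, rg, rg, List.range_succ]
    simp

/-- The check: all entries are nonnegative and the products agree. -/
def chk (P : List ℤ) (ds ws : List ℕ) : Bool :=
  P.all (fun a => decide (0 ≤ a)) && decide (ds.foldl mulL [1] = ws.foldl mulL P)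

theorem of_chk (P : List ℤ) (ds ws : List ℕ) (h : chk P ds ws = true) :
    Nonneg (ds.map (fun w => (1 : ℤ[X]) - X ^ w)).prod
      (ws.map (fun w => (1 : ℤ[X]) - X ^ w)).prod := by
  rw [chk, Bool.and_eq_true, List.all_eq_true, decide_eq_true_eq] at h
  refine ⟨toP P, toP_nonneg P (fun a ha => by simpa using h.1 a ha), ?_⟩
  have h1 := toP_foldl ds [1]
  have h2 := toP_foldl ws P
  rw [h.2, h2] at h1
  rw [h1]
  simp [toP]

end Pool.Agent.X47.QF
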