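import Pool.Agent.X47.QF5

set_option autoImplicit false

/-!
# The exceptional case `n ≡ 1 (mod 9)`
-/

namespace Pool.Agent.X47.QF

open Polynomial

/-- A primitive ninth root of unity. -/
noncomputable def zeta : ℂ := Complex.exp (2 * Real.pi * Complex.I / (9 : ℕ))

theorem zeta_prim : IsPrimitiveRoot zeta 9 := Complex.isPrimitiveRoot_exp 9 (by norm_num)

/-- Multiplicity at `zeta`. -/
noncomputable def rm (p : ℤ[X]) : ℕ := (p.map (Int.castRingHom ℂ)).rootMultiplicity zeta

theorem map_ne {p : ℤ[X]} (h : p ≠ 0) : p.map (Int.castRingHom ℂ) ≠ 0 :=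
  (Polynomial.map_ne_zero_iff (RingHom.injective_int _)).2 h

theorem rm_mul {p q : ℤ[X]} (hp : p ≠ 0) (hq : q ≠ 0) : rm (p * q) = rm p + rm q := by
  unfold rm
  rw [Polynomial.map_mul, rootMultiplicity_mul (mul_ne_zero (map_ne hp) (map_ne hq))]

theorem one_sub_ne (i : ℕ) (hi : 0 < i) : (1 - X ^ i : ℤ[X]) ≠ 0 := by
  intro h
  have := congrArg (fun p => Polynomial.coeff p 0) h
  simp [hi.ne] at this

theorem rm_one (i : ℕ) (hi : 0 < i) : rm (1 - X ^ i) = if 9 ∣ i then 1 else 0 := by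
  unfold rm
  have e : (1 - X ^ i : ℤ[X]).map (Int.castRingHom ℂ) = 1 - X ^ i := by simp
  rw [e]
  have hroot : IsRoot (1 - X ^ i : ℂ[X]) zeta ↔ 9 ∣ i := by
    rw [IsRoot.def, ← zeta_prim.pow_eq_one_iff_dvd]
    simp only [eval_sub, eval_one, eval_pow, eval_X]
    constructor
    · intro h
      exact (sub_eq_zero.1 h).symm
    · intro h
      rw [h, sub_self]
  have hne : (1 - X ^ i : ℂ[X]) ≠ 0 := by
    rw [← e]
    exact map_ne (one_sub_ne i hi)
  split_ifs with h
  · have h1 : 0 < rootMultiplicity zeta (1 - X ^ i : ℂ[X]) :=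
      (rootMultiplicity_pos hne).2 (hroot.2 h)
    have hsep : (1 - X ^ i : ℂ[X]).Separable := by
      have h2 : (X ^ i - 1 : ℂ[X]).Separable := by
        rw [X_pow_sub_one_separable_iff]
        exact_mod_cast hi.ne'
      refine h2.of_dvd ?_
      rw [← neg_sub, neg_dvd]
    have h3 := rootMultiplicity_le_one_of_separable hsep zeta
    omega
  · exact rootMultiplicity_eq_zero (fun h' => h (hroot.1 h'))

theorem qfac_ne (m : ℕ) : qfac m ≠ 0 := by
  unfold qfac
  rw [Finset.prod_ne_zero_iff]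
  intro i hi
  rw [Finset.mem_Icc] at hi
  exact one_sub_ne i (by omega)

theorem rm_qfac (m : ℕ) : rm (qfac m) = m / 9 := by
  induction m with
  | zero => simp [qfac, rm]
  | succ m ih =>
    rw [qfac_succ, rm_mul (qfac_ne m) (one_sub_ne _ (by omega)), ih, rm_one _ (by omega),
      Nat.succ_div]

theorem not_poly_of {N Q : ℤ[X]} (hN : N ≠ 0) (hQ : Q ≠ 0) (h : rm N < rm Q) :
    ¬ ∃ P : ℚ[X], N.map (Int.castRingHom ℚ) = P * Q.map (Int.castRingHom ℚ) := by
  rintro ⟨P, hP⟩
  have h1 := congrArg (Polynomial.map (algebraMap ℚ ℂ)) hP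
  rw [Polynomial.map_mul, Polynomial.map_map, Polynomial.map_map] at h1
  have e : (algebraMap ℚ ℂ).comp (Int.castRingHom ℚ) = Int.castRingHom ℂ := by
    ext
    simp
  rw [e] at h1
  have h2 : N.map (Int.castRingHom ℂ) ≠ 0 := map_ne hN
  rw [h1] at h2
  have h3 := rootMultiplicity_mul h2 (x := zeta)
  rw [← h1] at h3
  unfold rm at h
  omega

/-- A quotient which is not a polynomial but becomes one after multiplication by `1 + X^3 + X^6`
has negative coefficients in its power series expansion. -/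
theorem neg_of (N Q T : ℤ[X]) (hQ : Q.coeff 0 = 1) (hT : (1 + X ^ 3 + X ^ 6) * N = T * Q)
    (hnp : ¬ ∃ P : ℤ[X], N = P * Q) :
    ∃ S : PowerSeries ℤ, (N : PowerSeries ℤ) = S * (Q : PowerSeries ℤ) ∧
      ∃ m, PowerSeries.coeff m S < 0 := by
  have hQ1 : PowerSeries.constantCoeff (Q : PowerSeries ℤ) = ((1 : ℤˣ) : ℤ) := by
    rw [← PowerSeries.coeff_zero_eq_constantCoeff_apply, Polynomial.coeff_coe, hQ]
    rfl
  have hinv := PowerSeries.invOfUnit_mul (Q : PowerSeries ℤ) 1 hQ1
  set S : PowerSeries ℤ := (N : PowerSeries ℤ) * PowerSeries.invOfUnit (Q : PowerSeries ℤ) 1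
    with hS
  have hNS : (N : PowerSeries ℤ) = S * (Q : PowerSeries ℤ) := by
    rw [hS, mul_assoc, hinv, mul_one]
  refine ⟨S, hNS, ?_⟩
  by_contra hcon
  push Not at hcon
  have hQ0 : (Q : PowerSeries ℤ) ≠ 0 := by
    intro h
    have := congrArg (PowerSeries.coeff 0) h
    rw [Polynomial.coeff_coe, hQ] at this
    simp at this
  have hST : S * (1 + PowerSeries.X ^ 3 + PowerSeries.X ^ 6) = (T : PowerSeries ℤ) := by
    apply mul_right_cancel₀ hQ0
    have h1 := congrArg (fun p : ℤ[X] => (p : PowerSeries ℤ)) hT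
    simp only [Polynomial.coe_mul, Polynomial.coe_add, Polynomial.coe_one, Polynomial.coe_pow,
      Polynomial.coe_X] at h1
    rw [← h1, hNS]
    ring
  have hz : ∀ m, T.natDegree + 6 < m → PowerSeries.coeff m S = 0 := by
    intro m hm
    have h1 := congrArg (PowerSeries.coeff m) hST
    rw [Polynomial.coeff_coe, Polynomial.coeff_eq_zero_of_natDegree_lt (by omega), mul_add, mul_add,
      mul_one, map_add, map_add] at h1
    obtain ⟨j, rfl⟩ : ∃ j, m = j + 6 := ⟨m - 6, by omega⟩
    have e3 : PowerSeries.coeff (j + 6) (S * PowerSeries.X ^ 3) = PowerSeries.coeff (j + 3) S :=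
      PowerSeries.coeff_mul_X_pow S 3 (j + 3)
    have e6 : PowerSeries.coeff (j + 6) (S * PowerSeries.X ^ 6) = PowerSeries.coeff j S :=
      PowerSeries.coeff_mul_X_pow S 6 j
    rw [e3, e6] at h1
    have h2 := hcon (j + 6)
    have h3 := hcon (j + 3)
    have h4 := hcon j
    omega
  apply hnp
  refine ⟨PowerSeries.trunc (T.natDegree + 7) S, ?_⟩
  have hP : ((PowerSeries.trunc (T.natDegree + 7) S : ℤ[X]) : PowerSeries ℤ) = S := by
    ext m
    rw [Polynomial.coeff_coe, PowerSeries.coeff_trunc]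
    split_ifs with h
    · rfl
    · exact (hz m (by omega)).symm
  apply Polynomial.coe_injective
  rw [Polynomial.coe_mul, hP]
  exact hNS

/-- Counting for `{5, 7, 9}`: no exception. -/
theorem cnt45b (n : ℕ) (g : ℕ) (hg : 2 ≤ g) :
    3 * n / g + 2 * (2 * n / g) + cnt g {2 * n + 1, 2 * n + 3, 2 * n + 5, 2 * n + 7} ≤
      6 * n / g + n / g + cnt g {5, 7, 9} ∧
    3 * n / g + 2 * (2 * n / g) + cnt g {2 * n + 3, 2 * n + 5, 2 * n + 7} ≤
      6 * n / g + n / g + cnt g {5, 7, 9} := by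
  have hmono : cnt g {2 * n + 3, 2 * n + 5, 2 * n + 7} ≤
      cnt g {2 * n + 1, 2 * n + 3, 2 * n + 5, 2 * n + 7} := cnt_mono (by
    intro x hx
    exact Finset.mem_insert_of_mem hx)
  suffices h : 3 * n / g + 2 * (2 * n / g) + cnt g {2 * n + 1, 2 * n + 3, 2 * n + 5, 2 * n + 7} ≤
      6 * n / g + n / g + cnt g {5, 7, 9} from ⟨h, by omega⟩
  by_cases h9 : n % 9 = 1
  · have h9' := cnt_insert_le g (2 * n + 1) {2 * n + 3, 2 * n + 5, 2 * n + 7}
    have h10 := cnt_insert_le g (2 * n + 3) {2 * n + 5, 2 * n + 7}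
    have h11 := cnt_insert_le g (2 * n + 5) {2 * n + 7}
    rw [cnt_singleton] at h11
    have h0 := landF n g
    rcases Nat.lt_or_ge g 10 with h8 | h8
    · interval_cases g
      · simp only [show ¬ 2 ∣ 2 * n + 1 by omega, show ¬ 2 ∣ 2 * n + 3 by omega,
          show ¬ 2 ∣ 2 * n + 5 by omega, show ¬ 2 ∣ 2 * n + 7 by omega, if_false] at h9' h10 h11
        omega
      · have e : cnt 3 {5, 7, 9} = 1 := by decide
        rw [e]
        split_ifs at h9' h10 h11 <;> omega
      · simp only [show ¬ 4 ∣ 2 * n + 1 by omega, show ¬ 4 ∣ 2 * n + 3 by omega,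
          show ¬ 4 ∣ 2 * n + 5 by omega, show ¬ 4 ∣ 2 * n + 7 by omega, if_false] at h9' h10 h11
        omega
      · have e : cnt 5 {5, 7, 9} = 1 := by decide
        rw [e]
        split_ifs at h9' h10 h11 <;> omega
      · simp only [show ¬ 6 ∣ 2 * n + 1 by omega, show ¬ 6 ∣ 2 * n + 3 by omega,
          show ¬ 6 ∣ 2 * n + 5 by omega, show ¬ 6 ∣ 2 * n + 7 by omega, if_false] at h9' h10 h11
        omega
      · have e : cnt 7 {5, 7, 9} = 1 := by decide
        rw [e]
        split_ifs at h9' h10 h11 <;> omega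
      · simp only [show ¬ 8 ∣ 2 * n + 1 by omega, show ¬ 8 ∣ 2 * n + 3 by omega,
          show ¬ 8 ∣ 2 * n + 5 by omega, show ¬ 8 ∣ 2 * n + 7 by omega, if_false] at h9' h10 h11
        omega
      · have e : cnt 9 {5, 7, 9} = 1 := by decide
        rw [e]
        split_ifs at h9' h10 h11 <;> omega
    · have key : ∀ a c : ℕ, 0 < c → c < 8 → g ∣ a → ¬ g ∣ a + c := by
        intro a c hc hc8 h1 h2
        have h4 := Nat.le_of_dvd hc (two_dvd_aux h1 h2)
        omega
      by_cases h1 : g ∣ 2 * n + 1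
      · have k3 : ¬ g ∣ 2 * n + 3 := key _ 2 (by norm_num) (by norm_num) h1
        have k5 : ¬ g ∣ 2 * n + 5 := key _ 4 (by norm_num) (by norm_num) h1
        have k7 : ¬ g ∣ 2 * n + 7 := key _ 6 (by norm_num) (by norm_num) h1
        rw [if_pos h1] at h9'
        rw [if_neg k3] at h10
        rw [if_neg k5, if_neg k7] at h11
        have := landF1 n g 1 rfl h1 (by omega)
        omega
      rw [if_neg h1] at h9'
      by_cases h3 : g ∣ 2 * n + 3
      · have k5 : ¬ g ∣ 2 * n + 5 := key _ 2 (by norm_num) (by norm_num) h3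
        have k7 : ¬ g ∣ 2 * n + 7 := key _ 4 (by norm_num) (by norm_num) h3
        rw [if_pos h3] at h10
        rw [if_neg k5, if_neg k7] at h11
        have := landF1 n g 3 rfl h3 (by omega)
        omega
      rw [if_neg h3] at h10
      by_cases h5 : g ∣ 2 * n + 5
      · have k7 : ¬ g ∣ 2 * n + 7 := key _ 2 (by norm_num) (by norm_num) h5
        rw [if_pos h5, if_neg k7] at h11
        have := landF1 n g 5 rfl h5 (by omega)
        omega
      rw [if_neg h5] at h11
      by_cases h7 : g ∣ 2 * n + 7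
      · rw [if_pos h7] at h11
        have hg11 : 11 ≤ g := by
          by_contra hlt
          push Not at hlt
          interval_cases g
          omega
        have := landF1 n g 7 rfl h7 (by omega)
        omega
      · rw [if_neg h7] at h11
        omega
  · have h1 := (cnt45 n h9 g hg).1
    have h2 : cnt g {3, 5, 7} ≤ cnt g {5, 7, 9} := by
      have a1 := cnt_insert_le g 3 {5, 7}
      have a2 : cnt g {5, 7} + (if g ∣ 9 then 1 else 0) = cnt g {5, 7, 9} := by
        classical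
        rw [← cnt_singleton]
        unfold cnt
        rw [← Finset.card_union_of_disjoint, ← Finset.filter_union]
        · congr 1
        · rw [Finset.disjoint_left]
          intro x hx hx'
          rw [Finset.mem_filter] at hx hx'
          have b1 := hx.1
          have b2 := hx'.1
          simp only [Finset.mem_insert, Finset.mem_singleton] at b1 b2
          omega
      have a3 : (if g ∣ 3 then 1 else 0) ≤ (if g ∣ 9 then 1 else 0) := by
        split_ifs with c1 c2 <;> try omega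
        exact absurd (c1.trans (by norm_num)) c2
      omega
    omega

theorem T4 (n : ℕ) (hn : 7 ≤ n) : ∃ T : ℤ[X],
    (1 + X ^ 3 + X ^ 6) * ((1 - X ^ 3) * (1 - X ^ 5) * (1 - X ^ 7) * (qfac (6 * n) * qfac n)) =
      T * ((1 - X ^ (2 * n + 3)) * (1 - X ^ (2 * n + 5)) * (1 - X ^ (2 * n + 7)) *
        (qfac (3 * n) * qfac (2 * n) ^ 2)) := by
  obtain ⟨P, -, h⟩ := famF n (by omega) {5, 7, 9} {2 * n + 3, 2 * n + 5, 2 * n + 7} ∅
    (by intro x hx; simp only [Finset.mem_insert, Finset.mem_singleton] at hx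
        rw [Finset.mem_Icc]; omega)
    (by intro x hx; simp only [Finset.mem_insert, Finset.mem_singleton] at hx
        rw [Finset.mem_Ioc]; omega) (by simp)
    (by rw [Finset.card_eq_three.2 ⟨_, _, _, by omega, by omega, by omega, rfl⟩]; rfl)
    (by rw [Finset.card_eq_three.2 ⟨_, _, _, by omega, by omega, by omega, rfl⟩]; decide) (by
      intro g hg
      have e : (({5, 7, 9} : Finset ℕ).erase 1) = {5, 7, 9} := by decide
      rw [e]
      exact (cnt45b n g hg).2)
  have e1 : G {5, 7, 9} = (1 - X ^ 5) * (1 - X ^ 7) * (1 - X ^ 9) := by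
    rw [G_insert (by decide), G_insert (by decide), G_singleton, mul_assoc]
  have e2 : G {2 * n + 3, 2 * n + 5, 2 * n + 7} =
      (1 - X ^ (2 * n + 3)) * (1 - X ^ (2 * n + 5)) * (1 - X ^ (2 * n + 7)) := by
    rw [G_insert (by simp), G_insert (by simp), G_singleton, mul_assoc]
  have e0 : G ∅ = 1 := by simp [G]
  rw [e1, e2, e0] at h
  refine ⟨P, ?_⟩
  rw [← mul_assoc _ (qfac (3 * n)) _, ← h]
  ring

theorem T5 (n : ℕ) (hn : 7 ≤ n) : ∃ T : ℤ[X],
    (1 + X ^ 3 + X ^ 6) *
      ((1 - X ^ 3) ^ 2 * (1 - X ^ 5) * (1 - X ^ 7) * (qfac (6 * n) * qfac n)) =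
      T * ((1 - X ^ (2 * n + 1)) * (1 - X ^ (2 * n + 3)) * (1 - X ^ (2 * n + 5)) *
        (1 - X ^ (2 * n + 7)) * (qfac (3 * n) * qfac (2 * n) ^ 2)) := by
  have hc4 : ({2 * n + 1, 2 * n + 3, 2 * n + 5, 2 * n + 7} : Finset ℕ).card = 4 := by
    rw [Finset.card_insert_of_notMem (by simp),
      Finset.card_eq_three.2 ⟨_, _, _, by omega, by omega, by omega, rfl⟩]
  obtain ⟨P, -, h⟩ := famF n (by omega) {5, 7, 9}
    {2 * n + 1, 2 * n + 3, 2 * n + 5, 2 * n + 7} {3}
    (by intro x hx; simp only [Finset.mem_insert, Finset.mem_singleton] at hx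
        rw [Finset.mem_Icc]; omega)
    (by intro x hx; simp only [Finset.mem_insert, Finset.mem_singleton] at hx
        rw [Finset.mem_Ioc]; omega) (by simp; omega)
    (by rw [hc4]; rfl)
    (by rw [hc4]; decide) (by
      intro g hg
      have e : (({5, 7, 9} : Finset ℕ).erase 1) = {5, 7, 9} := by decide
      rw [e]
      exact (cnt45b n g hg).1)
  have e1 : G {5, 7, 9} = (1 - X ^ 5) * (1 - X ^ 7) * (1 - X ^ 9) := by
    rw [G_insert (by decide), G_insert (by decide), G_singleton, mul_assoc]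
  have e2 : G {2 * n + 1, 2 * n + 3, 2 * n + 5, 2 * n + 7} =
      (1 - X ^ (2 * n + 1)) * (1 - X ^ (2 * n + 3)) * (1 - X ^ (2 * n + 5)) *
        (1 - X ^ (2 * n + 7)) := by
    rw [G_insert (by simp), G_insert (by simp), G_insert (by simp), G_singleton]
    ring
  rw [e1, e2, G_singleton] at h
  refine ⟨P, ?_⟩
  rw [← mul_assoc _ (qfac (3 * n)) _, ← h]
  ring

end Pool.Agent.X47.QF
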