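import Pool.Agent.Y546.SG.Main

/-!
# Norms modulo a totally ramified prime
-/

set_option autoImplicit false

namespace Pool.Agent.X47.SR

open NumberField IsDedekindDomain Pool.Agent.Y546.SG

/-- if a power with exponent prime to `p` is a `p`-th power, so is the element -/
theorem isPw_of_pow {F : Type*} [Field F] {p m : ℕ} (hp : 1 < p) (hpm : Nat.Coprime m p) {a : F}
    (h : IsPw p (a ^ m)) : IsPw p a := by
  by_cases h0 : a = 0
  · rw [h0]
    exact ⟨0, zero_pow (by omega)⟩
  obtain ⟨k, -, hk⟩ := Nat.exists_mul_mod_eq_one_of_coprime hpm hp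
  have h1 : IsPw p ((a ^ m) ^ k / (a ^ (m * k / p)) ^ p) := (h.pow k).div ⟨_, rfl⟩
  have e : (a ^ m) ^ k / (a ^ (m * k / p)) ^ p = a := by
    rw [div_eq_iff (pow_ne_zero _ (pow_ne_zero _ h0)), ← pow_mul, ← pow_mul]
    have h2 : m * k = 1 + m * k / p * p := by
      have := Nat.mod_add_div (m * k) p
      rw [hk] at this
      rw [mul_comm (m * k / p) p]
      exact this.symm
    nth_rewrite 1 [h2]
    rw [pow_add, pow_one]
  rwa [e] at h1

variable {K : Type*} [Field K] [NumberField K]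

/-- the norm modulo a totally ramified prime is the power of the residue -/
theorem norm_mod {q m : ℕ} [Fact q.Prime] (hm : Module.finrank ℚ K = m) (ρ : 𝓞 K →+* ZMod q)
    (hker : ∀ v : 𝓞 K, ρ v = 0 → (q : 𝓞 K) ∣ v ^ m) (w : 𝓞 K) :
    ((Algebra.norm ℤ w : ℤ) : ZMod q) = ρ w ^ m := by
  classical
  have hfr : Module.finrank ℤ (𝓞 K) = m := by rw [RingOfIntegers.rank, hm]
  let b : Module.Basis (Fin m) ℤ (𝓞 K) := Module.finBasisOfFinrankEq ℤ (𝓞 K) hfr
  obtain ⟨c, hc⟩ := ZMod.intCast_surjective (ρ w)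
  have hv : ρ (w - (c : 𝓞 K)) = 0 := by
    rw [map_sub, map_intCast, hc, sub_self]
  obtain ⟨t, ht⟩ := hker _ hv
  let f : ℤ →+* ZMod q := Int.castRingHom (ZMod q)
  let M : Matrix (Fin m) (Fin m) ℤ := Algebra.leftMulMatrix b (w - (c : 𝓞 K))
  have hM : M ^ m = (q : Matrix (Fin m) (Fin m) ℤ) * Algebra.leftMulMatrix b t := by
    have h1 : M ^ m = Algebra.leftMulMatrix b ((w - (c : 𝓞 K)) ^ m) := (map_pow _ _ _).symm
    rw [h1, ht, map_mul, map_natCast]
  let N : Matrix (Fin m) (Fin m) (ZMod q) := f.mapMatrix M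
  have hN : N ^ m = 0 := by
    have h1 : N ^ m = f.mapMatrix (M ^ m) := (map_pow _ _ _).symm
    rw [h1, hM, map_mul, map_natCast]
    have h2 : (q : Matrix (Fin m) (Fin m) (ZMod q)) = 0 := by
      have h3 : ((q : ℕ) : Matrix (Fin m) (Fin m) (ZMod q)) =
          Matrix.scalar (Fin m) ((q : ℕ) : ZMod q) := (map_natCast (Matrix.scalar (Fin m)) q).symm
      rw [h3, CharP.cast_eq_zero, map_zero]
    rw [h2, zero_mul]
  have hnil : IsNilpotent (-N) := by
    refine ⟨m, ?_⟩
    rw [neg_pow, hN, mul_zero]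
  have hch : (-N).charpoly = Polynomial.X ^ m := by
    have h1 := Matrix.isNilpotent_charpoly_sub_pow_of_isNilpotent hnil
    rw [Fintype.card_fin] at h1
    exact sub_eq_zero.1 h1.eq_zero
  have hdet : (Matrix.scalar (Fin m) (c : ZMod q) - (-N)).det = (c : ZMod q) ^ m := by
    rw [← Matrix.eval_charpoly, hch]
    simp
  have hw : Algebra.leftMulMatrix b w = Matrix.scalar (Fin m) c + M := by
    have h1 : Algebra.leftMulMatrix b w =
        Algebra.leftMulMatrix b ((algebraMap ℤ (𝓞 K) c) + (w - (c : 𝓞 K))) := by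
      congr 1
      simp
    rw [h1, map_add, AlgHom.commutes]
    rfl
  rw [Algebra.norm_eq_matrix_det b w, hw]
  have h4 : (((Matrix.scalar (Fin m) c + M).det : ℤ) : ZMod q) =
      (f.mapMatrix (Matrix.scalar (Fin m) c + M)).det := RingHom.map_det f _
  rw [h4, map_add, ← hc]
  have h5 : f.mapMatrix (Matrix.scalar (Fin m) c) = Matrix.scalar (Fin m) (c : ZMod q) := by
    ext i j
    simp [Matrix.scalar_apply, f]
  rw [h5, ← hdet, sub_neg_eq_add]

end Pool.Agent.X47.SR
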