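import Pool.Agent.X47.SR1

/-!
# The first case over number fields at a totally ramified auxiliary prime
-/

set_option autoImplicit false

namespace Pool.Agent.X47.SR

open NumberField IsDedekindDomain Pool.Agent.Y546.SG

section loc

variable {F : Type*} [Field F]

/-- the norm classes at a totally ramified prime -/
def Dt (p m : ℕ) (g y z : F) : Prop :=
  IsPw p ((y + z) ^ m / g) ∧ IsPw p (phi p y z ^ m / g ^ (p - 1))

theorem loc0 {p m : ℕ} (hp : Odd p) (hp1 : 1 < p) (hpm : Nat.Coprime m p) (hG : Germ1 F p)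
    (hP : ¬ IsPw p (p : F)) {g y z : F} (hg : g ≠ 0) (h : y ^ p + z ^ p = 0)
    (hn : ¬ (y = 0 ∧ z = 0)) (hA : Dt p m g y z) (hB : Dt p m g z 0) (hC : Dt p m g 0 y) :
    False := by
  have hz : z ≠ 0 := fun h0 => hn ⟨eq_zero_of hp h h0, h0⟩
  have hB1 := hB.1
  have hC1 := hC.1
  rw [add_zero] at hB1
  rw [zero_add] at hC1
  have hu : (-y / z) ^ p = 1 := root_one hp hz h
  have hu1 : IsPw p (-y / z) := by
    apply isPw_of_pow hp1 hpm
    have h4 := hC1.div hB1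
    have e : y ^ m / g / (z ^ m / g) = (y / z) ^ m := by
      rw [div_pow]
      field_simp
    rw [e] at h4
    have e2 : (-y / z) ^ m = (-1) ^ m * (y / z) ^ m := by
      rw [← mul_pow]
      congr 1
      ring
    rw [e2]
    refine IsPw.mul ?_ h4
    exact IsPw.pow ⟨-1, hp.neg_one_pow⟩ m
  have hu2 : IsPw p (1 - -y / z) := by
    apply isPw_of_pow hp1 hpm
    have h4 := hA.1.div hB1
    have e : (y + z) ^ m / g / (z ^ m / g) = (1 - -y / z) ^ m := by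
      have e1 : (1 - -y / z) = (y + z) / z := by
        field_simp
        ring
      rw [e1, div_pow]
      field_simp
    rwa [e] at h4
  by_cases h1 : -y / z = 1
  · have hy : z = -y := by
      rw [div_eq_one_iff_eq hz] at h1
      exact h1.symm
    have hy0 : y ≠ 0 := by
      rintro rfl
      apply hz
      rw [hy, neg_zero]
    obtain ⟨-, h3⟩ := hA
    rw [hy, phi_neg] at h3
    apply hP
    apply isPw_of_pow hp1 hpm
    have h4 := h3.div (hC1.pow (p - 1))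
    have e : ((p : F) * y ^ (p - 1)) ^ m / g ^ (p - 1) / (y ^ m / g) ^ (p - 1) = (p : F) ^ m := by
      rw [div_pow, mul_pow, ← pow_mul, ← pow_mul, mul_comm (p - 1) m]
      field_simp
    rwa [e] at h4
  · obtain ⟨s, hs⟩ := hu1
    obtain ⟨t, ht⟩ := hu2
    have h8 : (-1 : F) ^ p + s ^ p + t ^ p = 0 := by
      rw [hs, ht, hp.neg_one_pow]
      ring
    rcases hG _ _ _ h8 with h9 | h9 | h9
    · exact one_ne_zero (neg_eq_zero.1 h9)
    · rw [h9, zero_pow hp.pos.ne'] at hs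
      rw [← hs, zero_pow hp.pos.ne'] at hu
      exact zero_ne_one hu
    · rw [h9, zero_pow hp.pos.ne'] at ht
      exact h1 (sub_eq_zero.1 ht.symm).symm

theorem loc {p m : ℕ} (hp : Odd p) (hp1 : 1 < p) (hpm : Nat.Coprime m p) (hG : Germ1 F p)
    (hP : ¬ IsPw p (p : F)) {g x y z : F} (hg : g ≠ 0) (h : x ^ p + y ^ p + z ^ p = 0)
    (hn : ¬ (x = 0 ∧ y = 0 ∧ z = 0)) (hA : Dt p m g y z) (hB : Dt p m g z x)
    (hC : Dt p m g x y) : False := by
  have hp0 : p ≠ 0 := hp.pos.ne'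
  rcases hG x y z h with h0 | h0 | h0 <;> subst h0
  · rw [zero_pow hp0, zero_add] at h
    exact loc0 hp hp1 hpm hG hP hg h (fun hh => hn ⟨rfl, hh⟩) hA hB hC
  · rw [zero_pow hp0, add_zero] at h
    exact loc0 hp hp1 hpm hG hP hg (by rw [add_comm]; exact h) (fun hh => hn ⟨hh.2, rfl, hh.1⟩)
      hB hC hA
  · rw [zero_pow hp0, add_zero] at h
    exact loc0 hp hp1 hpm hG hP hg h (fun hh => hn ⟨hh.1, hh.2, rfl⟩) hC hA hB

end loc

variable {K : Type*} [Field K] [NumberField K]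

theorem dt_of {p q m : ℕ} (hp : Odd p) [Fact q.Prime] (ρ : 𝓞 K →+* ZMod q)
    (hN : ∀ a : 𝓞 K, ((Algebra.norm ℤ a : ℤ) : ZMod q) = ρ a ^ m)
    {X Y Z : 𝓞 K} (hX : X ≠ 0) (h : X ^ p + Y ^ p + Z ^ p = 0) (G : Ideal (𝓞 K))
    (hG : G = Ideal.span {X, Y, Z}) (hg : ((Ideal.absNorm G : ℕ) : ZMod q) ≠ 0)
    (hcase : ∀ P : Ideal (𝓞 K), P.IsPrime → ((p : ℕ) : 𝓞 K) ∈ P → X ∉ P * G) :
    Dt p m ((Ideal.absNorm G : ℕ) : ZMod q) (ρ Y) (ρ Z) := by
  obtain ⟨⟨a, ha⟩, b, hb⟩ := ideal_pow hp hX h G hG hcase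
  obtain ⟨s, hs⟩ := norm_of_ideal hp _ _ _ ha
  obtain ⟨t, ht⟩ := norm_of_ideal hp _ _ _ hb
  refine ⟨⟨(s : ZMod q), ?_⟩, ⟨(t : ZMod q), ?_⟩⟩
  · rw [← map_add, ← hN, hs]
    push_cast
    rw [mul_div_cancel_left₀ _ hg]
  · rw [← phi_map, ← hN, ht, map_pow]
    push_cast
    rw [mul_div_cancel_left₀ _ (pow_ne_zero _ hg)]

theorem main {m : ℕ} (hK : Module.finrank ℚ K = m) {p q : ℕ} (hp : Odd p) (hp1 : 1 < p)
    [Fact q.Prime] (hpm : Nat.Coprime m p) (ρ : 𝓞 K →+* ZMod q)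
    (hker : ∀ v : 𝓞 K, ρ v = 0 → (q : 𝓞 K) ∣ v ^ m) (hG : Germ1 (ZMod q) p)
    (hP : ¬ IsPw p (p : ZMod q))
    {x y z : K} (hx : x ≠ 0) (hy : y ≠ 0) (hz : z ≠ 0) (h : x ^ p + y ^ p + z ^ p = 0)
    (hv : ∀ v : HeightOneSpectrum (𝓞 K), ((p : ℕ) : 𝓞 K) ∈ v.asIdeal →
      v.valuation K x = v.valuation K y ∧ v.valuation K y = v.valuation K z) : False := by
  have hN := norm_mod hK ρ hker
  obtain ⟨a, X, Y, Z, hXa, hYa, hZa, hn⟩ := scale1 (y := y) (z := z) hx (RingHom.ker ρ)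
    (RingHom.ker_ne_top _)
  simp only [RingHom.mem_ker] at hn
  have ha : a ≠ 0 := by
    rintro rfl
    rw [zero_mul] at hXa hYa hZa
    have h1 : X = 0 := RingOfIntegers.coe_injective (by rw [map_zero]; exact hXa)
    have h2 : Y = 0 := RingOfIntegers.coe_injective (by rw [map_zero]; exact hYa)
    have h3 : Z = 0 := RingOfIntegers.coe_injective (by rw [map_zero]; exact hZa)
    apply hn
    rw [h1, h2, h3, map_zero]
    exact ⟨rfl, rfl, rfl⟩
  have hX0 : X ≠ 0 := by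
    rintro rfl
    rw [map_zero] at hXa
    exact mul_ne_zero ha hx hXa.symm
  have hY0 : Y ≠ 0 := by
    rintro rfl
    rw [map_zero] at hYa
    exact mul_ne_zero ha hy hYa.symm
  have hZ0 : Z ≠ 0 := by
    rintro rfl
    rw [map_zero] at hZa
    exact mul_ne_zero ha hz hZa.symm
  have hXYZ : X ^ p + Y ^ p + Z ^ p = 0 := by
    apply RingOfIntegers.coe_injective
    rw [map_zero, map_add, map_add, map_pow, map_pow, map_pow]
    have e : a ^ p * (x ^ p + y ^ p + z ^ p) = 0 := by rw [h, mul_zero]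
    rw [hXa, hYa, hZa, mul_pow, mul_pow, mul_pow]
    linear_combination e
  obtain ⟨G, hGd⟩ : ∃ G : Ideal (𝓞 K), G = Ideal.span {X, Y, Z} := ⟨_, rfl⟩
  have hGd2 : G = Ideal.span {Y, Z, X} := by
    rw [hGd]
    congr 1
    ext t
    simp only [Set.mem_insert_iff, Set.mem_singleton_iff]
    tauto
  have hGd3 : G = Ideal.span {Z, X, Y} := by
    rw [hGd]
    congr 1
    ext t
    simp only [Set.mem_insert_iff, Set.mem_singleton_iff]
    tauto
  -- valuations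
  have hval : ∀ P : Ideal (𝓞 K), P.IsPrime → ((p : ℕ) : 𝓞 K) ∈ P → ∀ n : ℕ,
      (X ∈ P ^ n ↔ Y ∈ P ^ n) ∧ (Y ∈ P ^ n ↔ Z ∈ P ^ n) := by
    intro P hPp hPm n
    have hP0 : P ≠ ⊥ := by
      rintro rfl
      rw [Ideal.mem_bot, Nat.cast_eq_zero] at hPm
      exact hp.pos.ne' hPm
    obtain ⟨h1, h2⟩ := hv ⟨P, hPp, hP0⟩ hPm
    have e : ∀ (w : K) (W : 𝓞 K), algebraMap (𝓞 K) K W = a * w →
        (⟨P, hPp, hP0⟩ : HeightOneSpectrum (𝓞 K)).intValuation W =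
          (⟨P, hPp, hP0⟩ : HeightOneSpectrum (𝓞 K)).valuation K a *
            (⟨P, hPp, hP0⟩ : HeightOneSpectrum (𝓞 K)).valuation K w := by
      intro w W hW
      rw [← map_mul, ← hW]
      exact (HeightOneSpectrum.valuation_of_algebraMap _ _).symm
    have hXY : (⟨P, hPp, hP0⟩ : HeightOneSpectrum (𝓞 K)).intValuation X =
        (⟨P, hPp, hP0⟩ : HeightOneSpectrum (𝓞 K)).intValuation Y := by
      rw [e x X hXa, e y Y hYa, h1]
    have hYZ : (⟨P, hPp, hP0⟩ : HeightOneSpectrum (𝓞 K)).intValuation Y =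
        (⟨P, hPp, hP0⟩ : HeightOneSpectrum (𝓞 K)).intValuation Z := by
      rw [e y Y hYa, e z Z hZa, h2]
    have m : ∀ W : 𝓞 K, W ∈ P ^ n ↔
        (⟨P, hPp, hP0⟩ : HeightOneSpectrum (𝓞 K)).intValuation W ≤ WithZero.exp (-(n : ℤ)) :=
      fun W => ((⟨P, hPp, hP0⟩ : HeightOneSpectrum (𝓞 K)).intValuation_le_pow_iff_mem W n).symm
    rw [m X, m Y, m Z, hXY, hYZ]
    exact ⟨Iff.rfl, Iff.rfl⟩
  -- the norm of the common divisor is not divisible by q
  have hg : ((Ideal.absNorm G : ℕ) : ZMod q) ≠ 0 := by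
    have hXG : X ∈ G := by rw [hGd]; exact Ideal.subset_span (by simp)
    have hYG : Y ∈ G := by rw [hGd]; exact Ideal.subset_span (by simp)
    have hZG : Z ∈ G := by rw [hGd]; exact Ideal.subset_span (by simp)
    obtain ⟨s, hs, hs1⟩ := SetLike.not_le_iff_exists.1
      (fun hle : G ≤ RingHom.ker ρ => hn ⟨(RingHom.mem_ker).1 (hle hXG),
        (RingHom.mem_ker).1 (hle hYG), (RingHom.mem_ker).1 (hle hZG)⟩)
    rw [RingHom.mem_ker] at hs1
    intro h0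
    obtain ⟨I, hI⟩ := Ideal.dvd_span_singleton.2 hs
    obtain ⟨t, ht⟩ := norm_of_ideal (p := 1) odd_one s G I (by rw [pow_one]; exact hI)
    have h1 := hN s
    rw [ht] at h1
    push_cast at h1
    rw [h0, zero_mul] at h1
    exact pow_ne_zero _ hs1 h1.symm
  have hc1 : ∀ P : Ideal (𝓞 K), P.IsPrime → ((p : ℕ) : 𝓞 K) ∈ P → X ∉ P * G :=
    fun P hPp hPm => case_of_val hX0 G hGd P hPp (hval P hPp hPm)
  have hc2 : ∀ P : Ideal (𝓞 K), P.IsPrime → ((p : ℕ) : 𝓞 K) ∈ P → Y ∉ P * G :=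
    fun P hPp hPm => case_of_val hY0 G hGd2 P hPp fun n =>
      ⟨(hval P hPp hPm n).2, (hval P hPp hPm n).2.symm.trans (hval P hPp hPm n).1.symm⟩
  have hc3 : ∀ P : Ideal (𝓞 K), P.IsPrime → ((p : ℕ) : 𝓞 K) ∈ P → Z ∉ P * G :=
    fun P hPp hPm => case_of_val hZ0 G hGd3 P hPp fun n =>
      ⟨(hval P hPp hPm n).2.symm.trans (hval P hPp hPm n).1.symm, (hval P hPp hPm n).1⟩
  have hr : ρ X ^ p + ρ Y ^ p + ρ Z ^ p = 0 := by
    rw [← map_pow, ← map_pow, ← map_pow, ← map_add, ← map_add, hXYZ, map_zero]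
  exact loc hp hp1 hpm hG hP hg hr hn (dt_of hp ρ hN hX0 hXYZ G hGd hg hc1)
    (dt_of hp ρ hN hY0 (by linear_combination hXYZ) G hGd2 hg hc2)
    (dt_of hp ρ hN hZ0 (by linear_combination hXYZ) G hGd3 hg hc3)

/-- the residue map of an ideal whose power is generated by the prime -/
theorem residue {q m : ℕ} [Fact q.Prime] (hK : Module.finrank ℚ K = m) (Q : Ideal (𝓞 K))
    (hQ : Q ^ m = Ideal.span {((q : ℕ) : 𝓞 K)}) :
    ∃ ρ : 𝓞 K →+* ZMod q, ∀ v : 𝓞 K, ρ v = 0 → ((q : ℕ) : 𝓞 K) ∣ v ^ m := by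
  classical
  have hq : q.Prime := Fact.out
  have hm0 : m ≠ 0 := by
    rw [← hK]
    exact Module.finrank_pos.ne'
  have hnorm : Ideal.absNorm Q = q := by
    have h1 : Ideal.absNorm Q ^ m = q ^ m := by
      rw [← map_pow, hQ, Ideal.absNorm_span_singleton]
      have h2 : Algebra.norm ℤ ((q : ℕ) : 𝓞 K) = (q : ℤ) ^ m := by
        have h3 := Algebra.norm_algebraMap_of_basis (R := ℤ)
          (Module.finBasisOfFinrankEq ℤ (𝓞 K) (n := m) (by rw [RingOfIntegers.rank, hK])) (q : ℤ)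
        rw [Fintype.card_fin] at h3
        rw [← h3]
        simp
      rw [h2, Int.natAbs_pow, Int.natAbs_natCast]
    exact Nat.pow_left_injective hm0 h1
  have hcard : Nat.card (𝓞 K ⧸ Q) = q := by
    rw [← hnorm]
    rfl
  have : Finite (𝓞 K ⧸ Q) := Nat.finite_of_card_ne_zero (by rw [hcard]; exact hq.ne_zero)
  have := Fintype.ofFinite (𝓞 K ⧸ Q)
  have hcard' : Fintype.card (𝓞 K ⧸ Q) = q := by
    rw [← Nat.card_eq_fintype_card, hcard]
  refine ⟨((ZMod.ringEquivOfPrime (𝓞 K ⧸ Q) hq hcard').symm : (𝓞 K ⧸ Q) →+* ZMod q).comp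
    (Ideal.Quotient.mk Q), fun v hv => ?_⟩
  rw [RingHom.comp_apply] at hv
  have h1 : Ideal.Quotient.mk Q v = 0 := by
    apply (ZMod.ringEquivOfPrime (𝓞 K ⧸ Q) hq hcard').symm.injective
    rw [map_zero]
    exact hv
  rw [Ideal.Quotient.eq_zero_iff_mem] at h1
  rw [← Ideal.mem_span_singleton, ← hQ]
  exact Ideal.pow_mem_pow h1 m

end Pool.Agent.X47.SR
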