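import Pool.Agent.X47.SR5

/-!
# The auxiliary prime 2 p + 1
-/

set_option autoImplicit false

namespace Pool.Agent.X47.SR

open Pool.Agent.Y546.SG

section twop

variable {p q : ℕ} [hqF : Fact q.Prime] (hp : p.Prime) (hp2 : p ≠ 2) (hq : q = 2 * p + 1)
include hp hp2 hq

omit hqF in
theorem seven_le : 7 ≤ q := by
  have := hp.two_le
  omega

theorem natCast_ne {n : ℕ} (h0 : 0 < n) (hn : n < 7) : (n : ZMod q) ≠ 0 := by
  rw [Ne, ZMod.natCast_eq_zero_iff]
  intro h
  have := Nat.le_of_dvd h0 h
  have := seven_le hp hp2 hq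
  omega

omit hp2 in
theorem pow_cases (t : ZMod q) : t ^ p = 0 ∨ t ^ p = 1 ∨ t ^ p = -1 := by
  by_cases ht : t = 0
  · left
    rw [ht, zero_pow hp.ne_zero]
  · right
    have h1 : t ^ (q - 1) = 1 := ZMod.pow_card_sub_one_eq_one ht
    have h2 : q - 1 = p * 2 := by omega
    rw [h2, pow_mul] at h1
    have : (t ^ p - 1) * (t ^ p + 1) = 0 := by linear_combination h1
    rcases mul_eq_zero.1 this with h | h
    · left; exact sub_eq_zero.1 h
    · right; exact eq_neg_of_add_eq_zero_left h

omit hp2 in
theorem isPw_cases {a : ZMod q} (ha : IsPw p a) : a = 0 ∨ a = 1 ∨ a = -1 := by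
  obtain ⟨t, rfl⟩ := ha
  exact pow_cases hp hq t

theorem germ : Germ1 (ZMod q) p := by
  intro a b c h
  by_contra hcon
  push Not at hcon
  obtain ⟨ha, hb, hc⟩ := hcon
  have h1 : (1 : ZMod q) ≠ 0 := one_ne_zero
  have h3 : (3 : ZMod q) ≠ 0 := by exact_mod_cast natCast_ne hp hp2 hq (n := 3) (by norm_num) (by norm_num)
  have A := (pow_cases hp hq a).resolve_left (pow_ne_zero _ ha)
  have B := (pow_cases hp hq b).resolve_left (pow_ne_zero _ hb)
  have C := (pow_cases hp hq c).resolve_left (pow_ne_zero _ hc)
  rcases A with A | A <;> rcases B with B | B <;> rcases C with C | C <;> rw [A, B, C] at h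
  · exact h3 (by linear_combination h)
  · exact h1 (by linear_combination h)
  · exact h1 (by linear_combination h)
  · exact h1 (by linear_combination -h)
  · exact h1 (by linear_combination h)
  · exact h1 (by linear_combination -h)
  · exact h1 (by linear_combination -h)
  · exact h3 (by linear_combination -h)

omit hp hp2 in
theorem two_p : (2 : ZMod q) * p = -1 := by
  have h : ((q : ℕ) : ZMod q) = 0 := ZMod.natCast_self q
  have h' : ((2 * p + 1 : ℕ) : ZMod q) = 0 := by rw [← hq]; exact h
  push_cast at h'
  linear_combination h'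

theorem not_pow : ¬ IsPw p (p : ZMod q) := by
  intro h
  have h1 : (1 : ZMod q) ≠ 0 := one_ne_zero
  have h3 : (3 : ZMod q) ≠ 0 := by exact_mod_cast natCast_ne hp hp2 hq (n := 3) (by norm_num) (by norm_num)
  have h2 := two_p hq
  rcases isPw_cases hp hq h with h | h | h <;> rw [h] at h2
  · exact h1 (by linear_combination h2)
  · exact h3 (by linear_combination h2)
  · exact h1 (by linear_combination -h2)

theorem not_sq_five (h5 : q % 5 = 2 ∨ q % 5 = 3) (s : ZMod q) : s ^ 2 ≠ 5 := by
  intro hs
  have d2 : ¬ IsSquare ((2 : ℕ) : ZMod 5) := by decide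
  have d3 : ¬ IsSquare ((3 : ℕ) : ZMod 5) := by decide
  have h5p : Fact (Nat.Prime 5) := ⟨by norm_num⟩
  have hq2 : q ≠ 2 := by
    have := seven_le hp hp2 hq
    omega
  have h := (ZMod.exists_sq_eq_prime_iff_of_mod_four_eq_one (p := 5) (q := q) (by norm_num) hq2).2
    ⟨s, by rw [← sq, hs]; norm_num⟩
  have e : (q : ZMod 5) = ((q % 5 : ℕ) : ZMod 5) := (ZMod.natCast_mod q 5).symm
  rw [e] at h
  rcases h5 with h5 | h5 <;> rw [h5] at h
  · exact d2 h
  · exact d3 h

theorem no_six {u : ZMod q} (hu : u ^ p = 1) (h : u ^ 2 - u + 1 = 0) : False := by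
  have h3 : u ^ 3 = -1 := by linear_combination (u + 1) * h
  have h2 : (2 : ZMod q) ≠ 0 := by
    exact_mod_cast natCast_ne hp hp2 hq (n := 2) (by norm_num) (by norm_num)
  have hodd : Odd p := hp.odd_of_ne_two hp2
  have h4 : (u ^ p) ^ 3 = (u ^ 3) ^ p := by rw [← pow_mul, ← pow_mul, mul_comm]
  rw [hu, h3, hodd.neg_one_pow] at h4
  exact h2 (by linear_combination h4)

theorem apart (h5 : q % 5 = 2 ∨ q % 5 = 3) : Apart (ZMod q) p := by
  have n1 : (1 : ZMod q) ≠ 0 := one_ne_zero
  have n2 : (2 : ZMod q) ≠ 0 := by
    exact_mod_cast natCast_ne hp hp2 hq (n := 2) (by norm_num) (by norm_num)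
  have n3 : (3 : ZMod q) ≠ 0 := by
    exact_mod_cast natCast_ne hp hp2 hq (n := 3) (by norm_num) (by norm_num)
  have n5 : (5 : ZMod q) ≠ 0 := by
    exact_mod_cast natCast_ne hp hp2 hq (n := 5) (by norm_num) (by norm_num)
  have hodd : Odd p := hp.odd_of_ne_two hp2
  have h2p := two_p hq
  have five := not_sq_five hp hp2 hq h5
  have edge : ∀ v : ZMod q, v ^ p = 1 → v ≠ 1 → IsPw p ((1 - v) / v) →
      IsPw p ((p : ZMod q) * (1 - v)) → False := by
    intro v hv hv1 hA hB
    have hv0 : v ≠ 0 := by
      rintro rfl
      rw [zero_pow hp.ne_zero] at hv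
      exact n1 hv.symm
    have hA' := isPw_cases hp hq hA
    rw [div_eq_iff hv0, div_eq_iff hv0, div_eq_iff hv0] at hA'
    rcases hA' with h | h | h
    · exact hv1 (by linear_combination -h)
    · rcases isPw_cases hp hq hB with h' | h' | h'
      · exact n1 (by linear_combination (-4 : ZMod q) * h' + 2 * (1 - v) * h2p - h)
      · exact n5 (by linear_combination (-4 : ZMod q) * h' + 2 * (1 - v) * h2p - h)
      · exact n3 (by linear_combination (4 : ZMod q) * h' - 2 * (1 - v) * h2p + h)
    · exact n1 (by linear_combination h)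
  intro u v hu hv huv
  have hu0 : u ≠ 0 := by
    rintro rfl
    rw [zero_pow hp.ne_zero] at hu
    exact n1 hu.symm
  have hv0 : v ≠ 0 := by
    rintro rfl
    rw [zero_pow hp.ne_zero] at hv
    exact n1 hv.symm
  have hw0 : u * v ≠ 0 := mul_ne_zero hu0 hv0
  constructor
  · rintro ⟨hA, hB⟩
    have huv1 : u * v = 1 := by
      rcases isPw_cases hp hq hA with h | h | h
      · exact absurd h hw0
      · exact h
      · exfalso
        have h4 : (u * v) ^ p = 1 := by rw [mul_pow, hu, hv, one_mul]
        rw [h, hodd.neg_one_pow] at h4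
        exact n2 (by linear_combination -h4)
    rcases isPw_cases hp hq hB with h | h | h
    · rcases mul_eq_zero.1 h with h | h
      · have : u = 1 := by linear_combination -h
        rw [this, one_mul] at huv1
        rcases huv with h' | h'
        · exact h' this
        · exact h' huv1
      · have : v = 1 := by linear_combination -h
        rw [this, mul_one] at huv1
        rcases huv with h' | h'
        · exact h' huv1
        · exact h' this
    · exact no_six hp hp2 hq hu (by linear_combination -u * h + (u - 1) * huv1)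
    · exact five (2 * u - 3) (by linear_combination -4 * u * h + 4 * (u - 1) * huv1)
  · rintro ⟨hA, hB, hU, hV⟩
    by_cases hu1 : u = 1
    · have hv1 : v ≠ 1 := by
        rcases huv with h | h
        · exact absurd hu1 h
        · exact h
      rw [hu1, one_mul] at hB
      exact edge v hv hv1 hB (hU hu1)
    by_cases hv1 : v = 1
    · rw [hv1, mul_one] at hA
      exact edge u hu hu1 hA (hV hv1)
    have hA' := isPw_cases hp hq hA
    have hB' := isPw_cases hp hq hB
    rw [div_eq_iff hw0, div_eq_iff hw0, div_eq_iff hw0] at hA' hB'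
    rcases hA' with h | h | h
    · exact hu1 (by linear_combination -h)
    · rcases hB' with h' | h' | h'
      · exact hv1 (by linear_combination -h')
      · have e : u = v := by linear_combination h' - h
        rw [← e] at h
        exact five (2 * u + 1) (by linear_combination -4 * h)
      · exact five (2 * (u * v) + 1) (by linear_combination -4 * v * h - 4 * (1 - u * v) * h')
    · rcases hB' with h' | h' | h'
      · exact hv1 (by linear_combination -h')
      · exact five (2 * (u * v) + 1) (by linear_combination -4 * v * h - 4 * (1 + u * v) * h')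
      · have e : u = v := by linear_combination h' - h
        rw [← e] at h
        exact no_six hp hp2 hq hu (by linear_combination h)

end twop

end Pool.Agent.X47.SR
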