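import Mathlib

/-!
# Norms modulo a prime which is a power of a product of two prime ideals of degree one
-/

set_option autoImplicit false

namespace Pool.Agent.X47.SR

open NumberField

/-- reduction of determinants -/
theorem det_red {m q : ℕ} [Fact q.Prime] {M V : Type*} [AddCommGroup M] [AddCommGroup V]
    [Module (ZMod q) V] (b : Module.Basis (Fin m) ℤ M) (π : M →+ V)
    (hs : Function.Surjective π) (hk : ∀ x, π x = 0 → ∃ y, x = (q : ℤ) • y)
    (f : M →ₗ[ℤ] M) (g : V →ₗ[ZMod q] V) (hg : ∀ x, g (π x) = π (f x)) :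
    LinearMap.det g = ((LinearMap.det f : ℤ) : ZMod q) := by
  classical
  have hsm : ∀ (c : ℤ) (x : M), π (c • x) = (c : ZMod q) • π x := by
    intro c x
    rw [map_zsmul, Int.cast_smul_eq_zsmul]
  have hsum : ∀ c : Fin m → ℤ, π (∑ i, c i • b i) = ∑ i, (c i : ZMod q) • π (b i) := by
    intro c
    rw [map_sum]
    exact Finset.sum_congr rfl fun i _ => hsm _ _
  have hli : LinearIndependent (ZMod q) (fun i => π (b i)) := by
    rw [Fintype.linearIndependent_iff]
    intro a ha i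
    choose c hc using fun i => ZMod.intCast_surjective (a i)
    have h1 : π (∑ i, c i • b i) = 0 := by
      rw [hsum, ← ha]
      exact Finset.sum_congr rfl fun i _ => by rw [hc]
    obtain ⟨y, hy⟩ := hk _ h1
    have h2 : b.repr (∑ i, c i • b i) i = b.repr ((q : ℤ) • y) i := by rw [hy]
    rw [b.repr_sum_self, map_smul, Finsupp.smul_apply, smul_eq_mul] at h2
    rw [← hc, h2]
    push_cast
    rw [CharP.cast_eq_zero, zero_mul]
  have hsp : ⊤ ≤ Submodule.span (ZMod q) (Set.range fun i => π (b i)) := by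
    intro v _
    obtain ⟨x, rfl⟩ := hs v
    rw [← b.sum_repr x, hsum]
    exact Submodule.sum_mem _ fun i _ => Submodule.smul_mem _ _ (Submodule.subset_span ⟨i, rfl⟩)
  let b' : Module.Basis (Fin m) (ZMod q) V := Module.Basis.mk hli hsp
  have hb' : ∀ i, b' i = π (b i) := fun i => Module.Basis.mk_apply hli hsp i
  rw [← LinearMap.det_toMatrix b', ← LinearMap.det_toMatrix b]
  have h1 : (((LinearMap.toMatrix b b f).det : ℤ) : ZMod q) =
      ((Int.castRingHom (ZMod q)).mapMatrix (LinearMap.toMatrix b b f)).det :=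
    RingHom.map_det (Int.castRingHom (ZMod q)) _
  rw [h1]
  congr 1
  ext i j
  rw [LinearMap.toMatrix_apply, RingHom.mapMatrix_apply, Matrix.map_apply,
    LinearMap.toMatrix_apply, hb', hg]
  have h2 : f (b j) = ∑ i, (b.repr (f (b j)) i) • b i := (b.sum_repr _).symm
  nth_rewrite 1 [h2]
  rw [hsum]
  have h3 : (∑ i, ((b.repr (f (b j)) i : ℤ) : ZMod q) • π (b i)) =
      ∑ i, ((b.repr (f (b j)) i : ℤ) : ZMod q) • b' i :=
    Finset.sum_congr rfl fun i _ => by rw [hb']
  rw [h3, b'.repr_sum_self]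
  rfl

/-- the determinant of a scalar plus a nilpotent map -/
theorem det_nil {F V : Type*} [Field F] [AddCommGroup V] [Module F V] [Module.Finite F V]
    (g : Module.End F V) (c : F) (k : ℕ) (h : (g - algebraMap F (Module.End F V) c) ^ k = 0) :
    LinearMap.det g = c ^ Module.finrank F V := by
  have hn : IsNilpotent (algebraMap F (Module.End F V) c - g) := by
    refine ⟨k, ?_⟩
    have e : algebraMap F (Module.End F V) c - g = -(g - algebraMap F (Module.End F V) c) := by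
      abel
    rw [e, neg_pow, h, mul_zero]
  have h1 := LinearMap.eval_charpoly (algebraMap F (Module.End F V) c - g) c
  rw [hn.charpoly_eq_X_pow_finrank, sub_sub_cancel] at h1
  rw [← h1]
  simp

section act

variable {R : Type*} [CommRing R]

/-- multiplication by an element on a quotient killed by `q` -/
theorem zero_smul_of {q : ℕ} (I : Ideal R) (hI : ((q : ℕ) : R) ∈ I) (x : R ⧸ I) : q • x = 0 := by
  rw [nsmul_eq_mul]
  have : ((q : ℕ) : R ⧸ I) = 0 := by
    rw [← map_natCast (Ideal.Quotient.mk I)]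
    exact Ideal.Quotient.eq_zero_iff_mem.2 hI
  rw [this, zero_mul]

/-- multiplication by an element on a quotient killed by `q` -/
def act (q : ℕ) (I : Ideal R) [Module (ZMod q) (R ⧸ I)] (w : R) : Module.End (ZMod q) (R ⧸ I) :=
  (AddMonoidHom.mulLeft (Ideal.Quotient.mk I w)).toZModLinearMap q

theorem act_apply (q : ℕ) (I : Ideal R) [Module (ZMod q) (R ⧸ I)] (w : R) (x : R ⧸ I) :
    act q I w x = Ideal.Quotient.mk I w * x := rfl

theorem act_pow (q : ℕ) (I : Ideal R) [Module (ZMod q) (R ⧸ I)] (w : R) (k : ℕ) :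
    act q I w ^ k = act q I (w ^ k) := by
  induction k with
  | zero =>
    ext x
    simp [act_apply]
  | succ k ih =>
    rw [pow_succ, ih]
    ext x
    rw [Module.End.mul_apply, act_apply, act_apply, act_apply, map_pow, map_pow, pow_succ]
    ring

theorem act_sub (q : ℕ) (I : Ideal R) [Module (ZMod q) (R ⧸ I)] (w : R) (c : ℤ) :
    act q I w - algebraMap (ZMod q) _ (c : ZMod q) = act q I (w - (c : R)) := by
  ext x
  rw [LinearMap.sub_apply, act_apply, act_apply, Module.algebraMap_end_apply,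
    Int.cast_smul_eq_zsmul, map_sub, sub_mul, map_intCast, zsmul_eq_mul]

theorem det_act {q e : ℕ} [Fact q.Prime] (Q : Ideal R) [Module (ZMod q) (R ⧸ Q ^ e)]
    (hcard : Nat.card (R ⧸ Q ^ e) = q ^ e) (w : R) (c : ℤ) (hw : w - (c : R) ∈ Q) :
    LinearMap.det (act q (Q ^ e) w) = (c : ZMod q) ^ e := by
  have hq : q.Prime := Fact.out
  have hfin : Finite (R ⧸ Q ^ e) :=
    Nat.finite_of_card_ne_zero (by rw [hcard]; exact pow_ne_zero _ hq.ne_zero)
  have : Module.Finite (ZMod q) (R ⧸ Q ^ e) := Module.Finite.of_finite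
  have h1 : (act q (Q ^ e) w - algebraMap (ZMod q) _ (c : ZMod q)) ^ e = 0 := by
    rw [act_sub, act_pow]
    ext x
    rw [act_apply, Ideal.Quotient.eq_zero_iff_mem.2 (Ideal.pow_mem_pow hw e), zero_mul]
    rfl
  rw [det_nil _ _ _ h1]
  congr 1
  have h2 := Module.natCard_eq_pow_finrank (K := ZMod q) (V := R ⧸ Q ^ e)
  rw [hcard, Nat.card_zmod] at h2
  exact (Nat.pow_right_injective hq.two_le h2).symm

theorem det_crt {q : ℕ} [Fact q.Prime] (I J : Ideal R) [Module (ZMod q) (R ⧸ I)]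
    [Module (ZMod q) (R ⧸ J)] [Module (ZMod q) (R ⧸ I * J)] (h : IsCoprime I J)
    [Finite (R ⧸ I)] [Finite (R ⧸ J)] (w : R) :
    LinearMap.det (act q (I * J) w) = LinearMap.det (act q I w) * LinearMap.det (act q J w) := by
  have : Module.Finite (ZMod q) (R ⧸ I) := Module.Finite.of_finite
  have : Module.Finite (ZMod q) (R ⧸ J) := Module.Finite.of_finite
  let E : (R ⧸ I * J) ≃+* (R ⧸ I) × (R ⧸ J) := Ideal.quotientMulEquivQuotientProd I J h
  have hE : ∀ x : R, E (Ideal.Quotient.mk (I * J) x) =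
      (Ideal.Quotient.mk I x, Ideal.Quotient.mk J x) := fun x => rfl
  let E' : (R ⧸ I * J) ≃ₗ[ZMod q] (R ⧸ I) × (R ⧸ J) :=
    LinearEquiv.ofBijective ((E : (R ⧸ I * J) →+ (R ⧸ I) × (R ⧸ J)).toZModLinearMap q) E.bijective
  rw [← LinearMap.det_prodMap, ← LinearMap.det_conj (act q (I * J) w) E']
  congr 1
  apply LinearMap.ext
  intro y
  obtain ⟨x, rfl⟩ := E'.surjective y
  obtain ⟨r, rfl⟩ := Ideal.Quotient.mk_surjective x
  rw [LinearMap.comp_apply, LinearMap.comp_apply, LinearEquiv.coe_coe, LinearEquiv.coe_coe,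
    LinearEquiv.symm_apply_apply, act_apply, ← map_mul]
  have h1 : ∀ x : R, E' (Ideal.Quotient.mk (I * J) x) =
      (Ideal.Quotient.mk I x, Ideal.Quotient.mk J x) := fun x => rfl
  rw [h1, h1, LinearMap.prodMap_apply, act_apply, act_apply, map_mul, map_mul]

theorem norm_mod_gen {m q e : ℕ} [Fact q.Prime] (b : Module.Basis (Fin m) ℤ R) (Q Q' : Ideal R)
    (hcop : IsCoprime Q Q') (he : Q ^ e * Q' ^ e = Ideal.span {((q : ℕ) : R)})
    (hc1 : Nat.card (R ⧸ Q ^ e) = q ^ e) (hc2 : Nat.card (R ⧸ Q' ^ e) = q ^ e) (w : R) (c c' : ℤ)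
    (hc : w - (c : R) ∈ Q) (hc' : w - (c' : R) ∈ Q') :
    ((Algebra.norm ℤ w : ℤ) : ZMod q) = ((c : ZMod q) * (c' : ZMod q)) ^ e := by
  have hq : q.Prime := Fact.out
  have hcop2 : IsCoprime (Q ^ e) (Q' ^ e) := hcop.pow
  have hqm : ((q : ℕ) : R) ∈ Q ^ e * Q' ^ e := by
    rw [he]
    exact Ideal.mem_span_singleton_self _
  have hqm1 : ((q : ℕ) : R) ∈ Q ^ e := Ideal.mul_le_left hqm
  have hqm2 : ((q : ℕ) : R) ∈ Q' ^ e := Ideal.mul_le_right hqm
  let i1 : Module (ZMod q) (R ⧸ Q ^ e) := AddCommGroup.zmodModule (zero_smul_of _ hqm1)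
  let i2 : Module (ZMod q) (R ⧸ Q' ^ e) := AddCommGroup.zmodModule (zero_smul_of _ hqm2)
  let i3 : Module (ZMod q) (R ⧸ Q ^ e * Q' ^ e) := AddCommGroup.zmodModule (zero_smul_of _ hqm)
  have f1 : Finite (R ⧸ Q ^ e) :=
    Nat.finite_of_card_ne_zero (by rw [hc1]; exact pow_ne_zero _ hq.ne_zero)
  have f2 : Finite (R ⧸ Q' ^ e) :=
    Nat.finite_of_card_ne_zero (by rw [hc2]; exact pow_ne_zero _ hq.ne_zero)
  have h1 := det_crt (q := q) (Q ^ e) (Q' ^ e) hcop2 w
  rw [det_act Q hc1 w c hc, det_act Q' hc2 w c' hc'] at h1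
  rw [mul_pow, ← h1]
  have h2 : LinearMap.det (act q (Q ^ e * Q' ^ e) w) =
      ((LinearMap.det (Algebra.lmul ℤ R w) : ℤ) : ZMod q) := by
    refine det_red (q := q) b
      ((Ideal.Quotient.mk (Q ^ e * Q' ^ e)) : R →+ R ⧸ Q ^ e * Q' ^ e)
      Ideal.Quotient.mk_surjective ?_ (Algebra.lmul ℤ R w) (act q (Q ^ e * Q' ^ e) w) ?_
    · intro x hx
      have h3 : x ∈ Q ^ e * Q' ^ e := Ideal.Quotient.eq_zero_iff_mem.1 hx
      rw [he, Ideal.mem_span_singleton] at h3
      obtain ⟨y, hy⟩ := h3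
      exact ⟨y, by rw [hy, zsmul_eq_mul]; push_cast; ring⟩
    · intro x
      rw [act_apply]
      exact (map_mul (Ideal.Quotient.mk (Q ^ e * Q' ^ e)) w x).symm
  rw [h2, Algebra.norm_apply]

end act

end Pool.Agent.X47.SR
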