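import Pool.Agent.X47.SR2
import Pool.Agent.X47.SR4

/-!
# The first case when the auxiliary prime is a power of a product of two primes of degree one
-/

set_option autoImplicit false

namespace Pool.Agent.X47.SR

open NumberField IsDedekindDomain Pool.Agent.Y546.SG

variable {K : Type*} [Field K] [NumberField K]

/-- the residue map at an ideal of prime norm -/
theorem residue1 {q : ℕ} [Fact q.Prime] (Q : Ideal (𝓞 K)) (hQ : Ideal.absNorm Q = q) :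
    ∃ ρ : 𝓞 K →+* ZMod q, ∀ v : 𝓞 K, ρ v = 0 → v ∈ Q := by
  classical
  have hq : q.Prime := Fact.out
  have hcard : Nat.card (𝓞 K ⧸ Q) = q := by
    rw [← hQ]
    rfl
  have : Finite (𝓞 K ⧸ Q) := Nat.finite_of_card_ne_zero (by rw [hcard]; exact hq.ne_zero)
  have := Fintype.ofFinite (𝓞 K ⧸ Q)
  have hcard' : Fintype.card (𝓞 K ⧸ Q) = q := by
    rw [← Nat.card_eq_fintype_card, hcard]
  refine ⟨((ZMod.ringEquivOfPrime (𝓞 K ⧸ Q) hq hcard').symm : (𝓞 K ⧸ Q) →+* ZMod q).comp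
    (Ideal.Quotient.mk Q), fun v hv => ?_⟩
  rw [RingHom.comp_apply] at hv
  have h1 : Ideal.Quotient.mk Q v = 0 := by
    apply (ZMod.ringEquivOfPrime (𝓞 K ⧸ Q) hq hcard').symm.injective
    rw [map_zero]
    exact hv
  rwa [Ideal.Quotient.eq_zero_iff_mem] at h1

theorem norm_mod2 {q e : ℕ} [Fact q.Prime] (Q Q' : Ideal (𝓞 K)) (hQ : Ideal.absNorm Q = q)
    (hQ' : Ideal.absNorm Q' = q) (hne : Q ≠ Q')
    (he : (Q * Q') ^ e = Ideal.span {((q : ℕ) : 𝓞 K)}) (w : 𝓞 K) (c c' : ℤ)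
    (hc : w - (c : 𝓞 K) ∈ Q) (hc' : w - (c' : 𝓞 K) ∈ Q') :
    ((Algebra.norm ℤ w : ℤ) : ZMod q) = ((c : ZMod q) * (c' : ZMod q)) ^ e := by
  have hq : q.Prime := Fact.out
  have hpr : ∀ P : Ideal (𝓞 K), Ideal.absNorm P = q → P.IsMaximal := by
    intro P hP
    have h1 : P.IsPrime := Ideal.isPrime_of_irreducible_absNorm (by rw [hP]; exact hq)
    refine h1.isMaximal ?_
    rintro rfl
    rw [Ideal.absNorm_bot] at hP
    exact hq.ne_zero hP.symm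
  have hcop : IsCoprime Q Q' := by
    rw [Ideal.isCoprime_iff_sup_eq]
    exact Ideal.IsMaximal.coprime_of_ne (hpr Q hQ) (hpr Q' hQ') hne
  rw [mul_pow] at he
  have hcc : ∀ P : Ideal (𝓞 K), Ideal.absNorm P = q → Nat.card (𝓞 K ⧸ P ^ e) = q ^ e := by
    intro P hP
    rw [← hP, ← map_pow]
    exact (Submodule.cardQuot_apply _).symm
  have hfr : Module.finrank ℤ (𝓞 K) = Module.finrank ℚ K := RingOfIntegers.rank K
  exact norm_mod_gen (Module.finBasisOfFinrankEq ℤ (𝓞 K) hfr) Q Q' hcop he (hcc Q hQ) (hcc Q' hQ')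
    w c c' hc hc'

/-- the class of an element is determined by the class of a power -/
theorem isPw_root {F : Type*} [Field F] {p e k j : ℕ} (hk : e * k = 1 + j * p) {a g : F}
    (n : ℕ) (h : IsPw p (a ^ e / g ^ n)) : IsPw p (a / (g ^ k) ^ n) := by
  by_cases h0 : a = 0
  · rw [h0, zero_div]
    obtain ⟨t, ht⟩ := h
    by_cases hp : p = 0
    · subst hp
      exfalso
      rw [h0] at ht
      have he : e ≠ 0 := by
        rintro rfl
        simp at hk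
      rw [zero_pow he, zero_div, pow_zero] at ht
      exact one_ne_zero ht
    · exact ⟨0, zero_pow hp⟩
  have h1 : IsPw p ((a ^ e / g ^ n) ^ k / (a ^ j) ^ p) := (h.pow k).div ⟨_, rfl⟩
  have e1 : (a ^ e / g ^ n) ^ k / (a ^ j) ^ p = a / (g ^ k) ^ n := by
    rw [div_pow, ← pow_mul, hk, pow_add, pow_one, pow_mul, ← pow_mul g n k, mul_comm n k,
      pow_mul g k n]
    have h2 : (a ^ j) ^ p ≠ 0 := pow_ne_zero _ (pow_ne_zero _ h0)
    rw [div_div, mul_comm ((g ^ k) ^ n), ← div_div, mul_div_assoc, div_self h2, mul_one]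
  rwa [e1] at h1

theorem dat_of2 {p q e k j : ℕ} (hp : Odd p) [Fact q.Prime] (hk : e * k = 1 + j * p)
    (ρ ρ' : 𝓞 K →+* ZMod q)
    (hN : ∀ a : 𝓞 K, ((Algebra.norm ℤ a : ℤ) : ZMod q) = (ρ a * ρ' a) ^ e)
    {X Y Z : 𝓞 K} (hX : X ≠ 0) (h : X ^ p + Y ^ p + Z ^ p = 0) (G : Ideal (𝓞 K))
    (hG : G = Ideal.span {X, Y, Z}) (hg : ((Ideal.absNorm G : ℕ) : ZMod q) ≠ 0)
    (hcase : ∀ P : Ideal (𝓞 K), P.IsPrime → ((p : ℕ) : 𝓞 K) ∈ P → X ∉ P * G) :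
    Dat p (((Ideal.absNorm G : ℕ) : ZMod q) ^ k) (ρ Y) (ρ Z) (ρ' Y) (ρ' Z) := by
  obtain ⟨⟨a, ha⟩, b, hb⟩ := ideal_pow hp hX h G hG hcase
  obtain ⟨s, hs⟩ := norm_of_ideal hp _ _ _ ha
  obtain ⟨t, ht⟩ := norm_of_ideal hp _ _ _ hb
  constructor
  · have h1 : IsPw p (((ρ Y + ρ Z) * (ρ' Y + ρ' Z)) ^ e / ((Ideal.absNorm G : ℕ) : ZMod q) ^ 1) := by
      refine ⟨(s : ZMod q), ?_⟩
      rw [← map_add, ← map_add, ← hN, hs, pow_one]
      push_cast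
      rw [mul_div_cancel_left₀ _ hg]
    have h2 := isPw_root hk 1 h1
    rwa [pow_one] at h2
  · have h1 : IsPw p ((phi p (ρ Y) (ρ Z) * phi p (ρ' Y) (ρ' Z)) ^ e /
        ((Ideal.absNorm G : ℕ) : ZMod q) ^ (p - 1)) := by
      refine ⟨(t : ZMod q), ?_⟩
      rw [← phi_map, ← phi_map, ← hN, ht, map_pow]
      push_cast
      rw [mul_div_cancel_left₀ _ (pow_ne_zero _ hg)]
    exact isPw_root hk (p - 1) h1

theorem main2 {p q e : ℕ} (hp : Odd p) (hp1 : 1 < p)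
    [Fact q.Prime] (hpe : Nat.Coprime e p) (ρ ρ' : 𝓞 K →+* ZMod q)
    (hN : ∀ a : 𝓞 K, ((Algebra.norm ℤ a : ℤ) : ZMod q) = (ρ a * ρ' a) ^ e)
    (hG : Germ1 (ZMod q) p) (hP : ¬ IsPw p (p : ZMod q)) (hA : Apart (ZMod q) p)
    {x y z : K} (hx : x ≠ 0) (hy : y ≠ 0) (hz : z ≠ 0) (h : x ^ p + y ^ p + z ^ p = 0)
    (hv : ∀ v : HeightOneSpectrum (𝓞 K), ((p : ℕ) : 𝓞 K) ∈ v.asIdeal →
      v.valuation K x = v.valuation K y ∧ v.valuation K y = v.valuation K z) : False := by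
  obtain ⟨k, -, hk0⟩ := Nat.exists_mul_mod_eq_one_of_coprime hpe hp1
  have hk : e * k = 1 + e * k / p * p := by
    have := Nat.mod_add_div (e * k) p
    rw [hk0] at this
    rw [mul_comm (e * k / p) p]
    exact this.symm
  obtain ⟨a, X, Y, Z, hXa, hYa, hZa, hn, hn'⟩ := scale2 (y := y) (z := z) hx (RingHom.ker ρ)
    (RingHom.ker ρ') (RingHom.ker_ne_top _) (RingHom.ker_ne_top _)
  simp only [RingHom.mem_ker] at hn hn'
  have ha : a ≠ 0 := by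
    rintro rfl
    rw [zero_mul] at hXa hYa hZa
    have h1 : X = 0 := RingOfIntegers.coe_injective (by rw [map_zero]; exact hXa)
    have h2 : Y = 0 := RingOfIntegers.coe_injective (by rw [map_zero]; exact hYa)
    have h3 : Z = 0 := RingOfIntegers.coe_injective (by rw [map_zero]; exact hZa)
    apply hn
    rw [h1, h2, h3, map_zero]
    exact ⟨rfl, rfl, rfl⟩
  have hX0 : X ≠ 0 := by
    rintro rfl
    rw [map_zero] at hXa
    exact mul_ne_zero ha hx hXa.symm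
  have hY0 : Y ≠ 0 := by
    rintro rfl
    rw [map_zero] at hYa
    exact mul_ne_zero ha hy hYa.symm
  have hZ0 : Z ≠ 0 := by
    rintro rfl
    rw [map_zero] at hZa
    exact mul_ne_zero ha hz hZa.symm
  have hXYZ : X ^ p + Y ^ p + Z ^ p = 0 := by
    apply RingOfIntegers.coe_injective
    rw [map_zero, map_add, map_add, map_pow, map_pow, map_pow]
    have e : a ^ p * (x ^ p + y ^ p + z ^ p) = 0 := by rw [h, mul_zero]
    rw [hXa, hYa, hZa, mul_pow, mul_pow, mul_pow]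
    linear_combination e
  obtain ⟨G, hGd⟩ : ∃ G : Ideal (𝓞 K), G = Ideal.span {X, Y, Z} := ⟨_, rfl⟩
  have hGd2 : G = Ideal.span {Y, Z, X} := by
    rw [hGd]
    congr 1
    ext t
    simp only [Set.mem_insert_iff, Set.mem_singleton_iff]
    tauto
  have hGd3 : G = Ideal.span {Z, X, Y} := by
    rw [hGd]
    congr 1
    ext t
    simp only [Set.mem_insert_iff, Set.mem_singleton_iff]
    tauto
  have hval : ∀ P : Ideal (𝓞 K), P.IsPrime → ((p : ℕ) : 𝓞 K) ∈ P → ∀ n : ℕ,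
      (X ∈ P ^ n ↔ Y ∈ P ^ n) ∧ (Y ∈ P ^ n ↔ Z ∈ P ^ n) := by
    intro P hPp hPm n
    have hP0 : P ≠ ⊥ := by
      rintro rfl
      rw [Ideal.mem_bot, Nat.cast_eq_zero] at hPm
      exact hp.pos.ne' hPm
    obtain ⟨h1, h2⟩ := hv ⟨P, hPp, hP0⟩ hPm
    have e : ∀ (w : K) (W : 𝓞 K), algebraMap (𝓞 K) K W = a * w →
        (⟨P, hPp, hP0⟩ : HeightOneSpectrum (𝓞 K)).intValuation W =
          (⟨P, hPp, hP0⟩ : HeightOneSpectrum (𝓞 K)).valuation K a *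
            (⟨P, hPp, hP0⟩ : HeightOneSpectrum (𝓞 K)).valuation K w := by
      intro w W hW
      rw [← map_mul, ← hW]
      exact (HeightOneSpectrum.valuation_of_algebraMap _ _).symm
    have hXY : (⟨P, hPp, hP0⟩ : HeightOneSpectrum (𝓞 K)).intValuation X =
        (⟨P, hPp, hP0⟩ : HeightOneSpectrum (𝓞 K)).intValuation Y := by
      rw [e x X hXa, e y Y hYa, h1]
    have hYZ : (⟨P, hPp, hP0⟩ : HeightOneSpectrum (𝓞 K)).intValuation Y =
        (⟨P, hPp, hP0⟩ : HeightOneSpectrum (𝓞 K)).intValuation Z := by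
      rw [e y Y hYa, e z Z hZa, h2]
    have m : ∀ W : 𝓞 K, W ∈ P ^ n ↔
        (⟨P, hPp, hP0⟩ : HeightOneSpectrum (𝓞 K)).intValuation W ≤ WithZero.exp (-(n : ℤ)) :=
      fun W => ((⟨P, hPp, hP0⟩ : HeightOneSpectrum (𝓞 K)).intValuation_le_pow_iff_mem W n).symm
    rw [m X, m Y, m Z, hXY, hYZ]
    exact ⟨Iff.rfl, Iff.rfl⟩
  have hg : ((Ideal.absNorm G : ℕ) : ZMod q) ≠ 0 := by
    have hXG : X ∈ G := by rw [hGd]; exact Ideal.subset_span (by simp)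
    have hYG : Y ∈ G := by rw [hGd]; exact Ideal.subset_span (by simp)
    have hZG : Z ∈ G := by rw [hGd]; exact Ideal.subset_span (by simp)
    obtain ⟨s, hs, hs1, hs2⟩ := avoid G (RingHom.ker ρ) (RingHom.ker ρ')
      (fun hle => hn ⟨(RingHom.mem_ker).1 (hle hXG), (RingHom.mem_ker).1 (hle hYG),
        (RingHom.mem_ker).1 (hle hZG)⟩)
      (fun hle => hn' ⟨(RingHom.mem_ker).1 (hle hXG), (RingHom.mem_ker).1 (hle hYG),
        (RingHom.mem_ker).1 (hle hZG)⟩)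
    rw [RingHom.mem_ker] at hs1 hs2
    intro h0
    obtain ⟨I, hI⟩ := Ideal.dvd_span_singleton.2 hs
    obtain ⟨t, ht⟩ := norm_of_ideal (p := 1) odd_one s G I (by rw [pow_one]; exact hI)
    have h1 := hN s
    rw [ht] at h1
    push_cast at h1
    rw [h0, zero_mul] at h1
    exact pow_ne_zero _ (mul_ne_zero hs1 hs2) h1.symm
  have hc1 : ∀ P : Ideal (𝓞 K), P.IsPrime → ((p : ℕ) : 𝓞 K) ∈ P → X ∉ P * G :=
    fun P hPp hPm => case_of_val hX0 G hGd P hPp (hval P hPp hPm)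
  have hc2 : ∀ P : Ideal (𝓞 K), P.IsPrime → ((p : ℕ) : 𝓞 K) ∈ P → Y ∉ P * G :=
    fun P hPp hPm => case_of_val hY0 G hGd2 P hPp fun n =>
      ⟨(hval P hPp hPm n).2, (hval P hPp hPm n).2.symm.trans (hval P hPp hPm n).1.symm⟩
  have hc3 : ∀ P : Ideal (𝓞 K), P.IsPrime → ((p : ℕ) : 𝓞 K) ∈ P → Z ∉ P * G :=
    fun P hPp hPm => case_of_val hZ0 G hGd3 P hPp fun n =>
      ⟨(hval P hPp hPm n).2.symm.trans (hval P hPp hPm n).1.symm, (hval P hPp hPm n).1⟩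
  have hF : Full p (((Ideal.absNorm G : ℕ) : ZMod q) ^ k) (ρ X) (ρ Y) (ρ Z)
      (ρ' X) (ρ' Y) (ρ' Z) :=
    ⟨dat_of2 hp hk ρ ρ' hN hX0 hXYZ G hGd hg hc1,
      dat_of2 hp hk ρ ρ' hN hY0 (by linear_combination hXYZ) G hGd2 hg hc2,
      dat_of2 hp hk ρ ρ' hN hZ0 (by linear_combination hXYZ) G hGd3 hg hc3⟩
  have hr : ρ X ^ p + ρ Y ^ p + ρ Z ^ p = 0 := by
    rw [← map_pow, ← map_pow, ← map_pow, ← map_add, ← map_add, hXYZ, map_zero]
  have hr' : ρ' X ^ p + ρ' Y ^ p + ρ' Z ^ p = 0 := by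
    rw [← map_pow, ← map_pow, ← map_pow, ← map_add, ← map_add, hXYZ, map_zero]
  exact local_split hp hG hP hA (pow_ne_zero k hg) hr hr' hn hn' hF

theorem main2' {p q e : ℕ} (hp : Odd p) (hp1 : 1 < p)
    [Fact q.Prime] (hpe : Nat.Coprime e p) (Q Q' : Ideal (𝓞 K)) (hQ : Ideal.absNorm Q = q)
    (hQ' : Ideal.absNorm Q' = q) (hne : Q ≠ Q')
    (he : (Q * Q') ^ e = Ideal.span {((q : ℕ) : 𝓞 K)})
    (hG : Germ1 (ZMod q) p) (hP : ¬ IsPw p (p : ZMod q)) (hA : Apart (ZMod q) p)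
    {x y z : K} (hx : x ≠ 0) (hy : y ≠ 0) (hz : z ≠ 0) (h : x ^ p + y ^ p + z ^ p = 0)
    (hv : ∀ v : HeightOneSpectrum (𝓞 K), ((p : ℕ) : 𝓞 K) ∈ v.asIdeal →
      v.valuation K x = v.valuation K y ∧ v.valuation K y = v.valuation K z) : False := by
  obtain ⟨ρ, hρ⟩ := residue1 Q hQ
  obtain ⟨ρ', hρ'⟩ := residue1 Q' hQ'
  refine main2 hp hp1 hpe ρ ρ' (fun w => ?_) hG hP hA hx hy hz h hv
  obtain ⟨c, hc⟩ := ZMod.intCast_surjective (ρ w)
  obtain ⟨c', hc'⟩ := ZMod.intCast_surjective (ρ' w)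
  have h1 : w - (c : 𝓞 K) ∈ Q := by
    apply hρ
    rw [map_sub, map_intCast, hc, sub_self]
  have h2 : w - (c' : 𝓞 K) ∈ Q' := by
    apply hρ'
    rw [map_sub, map_intCast, hc', sub_self]
  rw [norm_mod2 Q Q' hQ hQ' hne he w c c' h1 h2, hc, hc']

end Pool.Agent.X47.SR
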