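import Mathlib

/-!
# Orthogonality relations for the coefficients of the Legendre polynomials
-/

set_option autoImplicit false

namespace Pool.Agent.X47.TG

open Polynomial Finset

/-- alternating binomial sums of polynomials of small degree -/
theorem alt_sum (m : ℕ) (Q : ℝ[X]) (hQ : Q.natDegree < m) :
    ∑ k ∈ range (m + 1), (-1 : ℝ) ^ k * (m.choose k) * Q.eval (k : ℝ) = 0 := by
  have h := congrFun (Polynomial.fwdDiff_iter_eq_zero_of_degree_lt hQ) (0 : ℝ)
  rw [fwdDiff_iter_eq_sum_shift] at h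
  have h2 : (-1 : ℝ) ^ m * ∑ k ∈ range (m + 1), (-1 : ℝ) ^ k * (m.choose k) * Q.eval (k : ℝ) = 0 := by
    rw [mul_sum]
    rw [← show _ = (0 : ℝ) from h]
    refine sum_congr rfl fun k hk => ?_
    rw [mem_range] at hk
    have e : (-1 : ℝ) ^ (m - k) = (-1) ^ m * (-1) ^ k := by
      have h3 : (-1 : ℝ) ^ (m - k) * ((-1) ^ k * (-1) ^ k) = (-1) ^ m * (-1) ^ k := by
        rw [← mul_assoc, ← pow_add]
        congr 2
        omega
      rw [← mul_pow] at h3
      simpa using h3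
    rw [zsmul_eq_mul]
    push_cast
    rw [e, zero_add, nsmul_eq_mul, mul_one]
    ring
  exact (mul_eq_zero.1 h2).resolve_left (pow_ne_zero _ (by norm_num))

/-- product of consecutive odd numbers -/
noncomputable def hh (m e k : ℕ) : ℝ := ∏ i ∈ range m, (2 * ((m : ℝ) + e + i) + 1 - 2 * k)

theorem hh_succ (m e k : ℕ) : hh m e (k + 1) * (4 * m + 2 * e - 1 - 2 * k) =
    hh m e k * (2 * m + 2 * e - 1 - 2 * k) := by
  have h1 := prod_range_succ (fun i : ℕ => (2 * ((m : ℝ) + e + i) - 1 - 2 * k)) m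
  have h2 := prod_range_succ' (fun i : ℕ => (2 * ((m : ℝ) + e + i) - 1 - 2 * k)) m
  have e1 : hh m e (k + 1) = ∏ i ∈ range m, (2 * ((m : ℝ) + e + i) - 1 - 2 * k) := by
    unfold hh
    refine prod_congr rfl fun i _ => ?_
    push_cast
    ring
  have e2 : hh m e k = ∏ i ∈ range m, (2 * ((m : ℝ) + e + ((i + 1 : ℕ) : ℝ)) - 1 - 2 * k) := by
    unfold hh
    refine prod_congr rfl fun i _ => ?_
    push_cast
    ring
  rw [h1] at h2
  rw [e1, e2]
  have e3 : (4 * (m : ℝ) + 2 * e - 1 - 2 * k) = 2 * ((m : ℝ) + e + m) - 1 - 2 * k := by ring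
  rw [e3, h2]
  push_cast
  ring

theorem fpos {m e k i : ℕ} (hk : k ≤ m) : (0 : ℝ) < 2 * ((m : ℝ) + e + i) + 1 - 2 * k := by
  have h1 : (k : ℝ) ≤ m := by exact_mod_cast hk
  have h2 : (0 : ℝ) ≤ e := Nat.cast_nonneg e
  have h3 : (0 : ℝ) ≤ i := Nat.cast_nonneg i
  linarith

/-- the coefficients of the Legendre polynomials -/
noncomputable def lk (n k : ℕ) : ℝ := ((n - k).centralBinom : ℝ) * ((n - k).choose k : ℝ)

theorem lk_succ {n k : ℕ} (h : 2 * k + 2 ≤ n) :
    lk n (k + 1) * (2 * (2 * n - 2 * k - 1) * (k + 1)) =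
      lk n k * ((n - 2 * k) * (n - 2 * k - 1)) := by
  obtain ⟨N, hN⟩ : ∃ N, n = N + k + 1 := ⟨n - k - 1, by omega⟩
  have hkN : k + 1 ≤ N := by omega
  have e1 : n - (k + 1) = N := by omega
  have e2 : n - k = N + 1 := by omega
  have h1 : ((N : ℝ) + 1) * ((N + 1).centralBinom : ℝ) = 2 * (2 * N + 1) * (N.centralBinom : ℝ) := by
    exact_mod_cast Nat.succ_mul_centralBinom_succ N
  have h2 : (N.choose (k + 1) : ℝ) * (k + 1) = (N.choose k : ℝ) * (N - k) := by
    have := Nat.choose_succ_right_eq N k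
    have h3 : ((N.choose (k + 1) * (k + 1) : ℕ) : ℝ) = ((N.choose k * (N - k) : ℕ) : ℝ) := by
      rw [this]
    push_cast [Nat.cast_sub (show k ≤ N by omega)] at h3
    exact h3
  have h3 : ((N + 1).choose k : ℝ) * (N + 1 - k) = (N.choose k : ℝ) * (N + 1) := by
    have := Nat.choose_mul_succ_eq N k
    have h4 : ((N.choose k * (N + 1) : ℕ) : ℝ) = (((N + 1).choose k * (N + 1 - k) : ℕ) : ℝ) := by
      rw [this]
    push_cast [Nat.cast_sub (show k ≤ N + 1 by omega)] at h4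
    exact h4.symm
  have hn : (n : ℝ) = N + k + 1 := by exact_mod_cast hN
  unfold lk
  rw [e1, e2, hn]
  have hN0 : (N : ℝ) + 1 ≠ 0 := by positivity
  apply mul_left_cancel₀ hN0
  linear_combination (2 * (2 * (N : ℝ) + 1) * (N.centralBinom : ℝ)) * (N + 1) * h2
    - (2 * (2 * (N : ℝ) + 1) * (N.centralBinom : ℝ)) * (N - k) * h3
    - ((N + 1).choose k : ℝ) * (N + 1 - k) * (N - k) * h1

theorem lk_prop {n m e : ℕ} (hn : n = 2 * m + e) (he : e = 0 ∨ e = 1) {k : ℕ} (hk : k ≤ m) :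
    lk n k * hh m e 0 = lk n 0 * (m.choose k * hh m e k) := by
  induction k with
  | zero => simp
  | succ k ih =>
    have ih := ih (by omega)
    have h1 := lk_succ (n := n) (k := k) (by omega)
    have h2 := hh_succ m e k
    have h3 : (m.choose (k + 1) : ℝ) * (k + 1) = (m.choose k : ℝ) * (m - k) := by
      have := Nat.choose_succ_right_eq m k
      have h3 : ((m.choose (k + 1) * (k + 1) : ℕ) : ℝ) = ((m.choose k * (m - k) : ℕ) : ℝ) := by
        rw [this]
      push_cast [Nat.cast_sub (show k ≤ m by omega)] at h3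
      exact h3
    have hnr : (n : ℝ) = 2 * m + e := by exact_mod_cast hn
    have hkm : (k : ℝ) + 1 ≤ m := by exact_mod_cast hk
    have he0 : (0 : ℝ) ≤ e := Nat.cast_nonneg e
    have hk0 : (0 : ℝ) ≤ k := Nat.cast_nonneg k
    have hpos : (2 * (2 * (n : ℝ) - 2 * k - 1) * (k + 1)) ≠ 0 := by
      rw [hnr]
      have h5 : 0 < 2 * (2 * (m : ℝ) + e) - 2 * k - 1 := by linarith
      positivity
    have hq : ((n : ℝ) - 2 * k) * (n - 2 * k - 1) = 2 * (m - k) * (2 * m + 2 * e - 1 - 2 * k) := by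
      rw [hnr]
      rcases he with rfl | rfl
      · push_cast
        ring
      · push_cast
        ring
    apply mul_right_cancel₀ hpos
    rw [hnr] at h1 hq ⊢
    calc lk n (k + 1) * hh m e 0 * (2 * (2 * (2 * (m : ℝ) + e) - 2 * k - 1) * (k + 1))
        = (lk n (k + 1) * (2 * (2 * (2 * (m : ℝ) + e) - 2 * k - 1) * (k + 1))) * hh m e 0 := by ring
      _ = (lk n k * hh m e 0) * ((2 * (m : ℝ) + e - 2 * k) * (2 * m + e - 2 * k - 1)) := by
          rw [h1]; ring
      _ = lk n 0 * (m.choose k * hh m e k) * (2 * (m - k) * (2 * m + 2 * e - 1 - 2 * k)) := by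
          rw [ih, hq]
      _ = lk n 0 * 2 * ((m.choose k : ℝ) * (m - k)) * (hh m e k * (2 * m + 2 * e - 1 - 2 * k)) := by
          ring
      _ = lk n 0 * 2 * ((m.choose (k + 1) : ℝ) * (k + 1)) *
            (hh m e (k + 1) * (4 * m + 2 * e - 1 - 2 * k)) := by rw [h3, h2]
      _ = lk n 0 * (m.choose (k + 1) * hh m e (k + 1)) *
            (2 * (2 * (2 * (m : ℝ) + e) - 2 * k - 1) * (k + 1)) := by ring

theorem hh_pos (m e : ℕ) : 0 < hh m e 0 := prod_pos fun _ _ => fpos (Nat.zero_le m)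

/-- orthogonality -/
theorem orth {n m e : ℕ} (hn : n = 2 * m + e) (he : e = 0 ∨ e = 1) {i : ℕ} (hi : i < m) :
    ∑ k ∈ range (m + 1), (-1 : ℝ) ^ k * lk n k / (2 * ((m : ℝ) + e + i) + 1 - 2 * k) = 0 := by
  let Q : ℝ[X] := ∏ l ∈ (range m).erase i, (C (2 * ((m : ℝ) + e + l) + 1) - C 2 * X)
  have hQ : Q.natDegree < m := by
    have h1 : Q.natDegree ≤ ∑ l ∈ (range m).erase i,
        (C (2 * ((m : ℝ) + e + l) + 1) - C 2 * X : ℝ[X]).natDegree := natDegree_prod_le _ _
    have h2 : ∑ l ∈ (range m).erase i,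
        (C (2 * ((m : ℝ) + e + l) + 1) - C 2 * X : ℝ[X]).natDegree ≤
        ∑ l ∈ (range m).erase i, 1 := by
      refine sum_le_sum fun l _ => ?_
      refine (natDegree_sub_le _ _).trans ?_
      rw [natDegree_C]
      exact max_le (Nat.zero_le _) ((natDegree_C_mul_le _ _).trans natDegree_X_le)
    rw [sum_const, card_erase_of_mem (mem_range.2 hi), card_range, smul_eq_mul, mul_one] at h2
    omega
  have h1 := alt_sum m Q hQ
  have h2 : hh m e 0 * ∑ k ∈ range (m + 1), (-1 : ℝ) ^ k * lk n k /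
      (2 * ((m : ℝ) + e + i) + 1 - 2 * k) = lk n 0 * 0 := by
    rw [← h1, mul_sum, mul_sum]
    refine sum_congr rfl fun k hk => ?_
    rw [mem_range] at hk
    have hkm : k ≤ m := by omega
    have hp := lk_prop hn he hkm
    have hf := fpos (e := e) (i := i) hkm
    have hQk : Q.eval (k : ℝ) * (2 * ((m : ℝ) + e + i) + 1 - 2 * k) = hh m e k := by
      unfold hh
      rw [← mul_prod_erase (range m) _ (mem_range.2 hi), mul_comm]
      congr 1
      rw [eval_prod]
      refine prod_congr rfl fun l _ => ?_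
      simp
    rw [mul_div_assoc', div_eq_iff hf.ne']
    calc hh m e 0 * ((-1 : ℝ) ^ k * lk n k) = (-1) ^ k * (lk n k * hh m e 0) := by ring
      _ = _ := by rw [hp, ← hQk]; ring
  rw [mul_zero] at h2
  exact (mul_eq_zero.1 h2).resolve_left (hh_pos m e).ne'

end Pool.Agent.X47.TG
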