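import Pool.Agent.X47.TG1

/-!
# Counting the zeros of the antiderivative of a Legendre polynomial by orthogonality
-/

set_option autoImplicit false

namespace Pool.Agent.X47.TG

open Polynomial Finset

/-- a moment functional -/
noncomputable def T (e : ℕ) (p : ℝ[X]) : ℝ := ∫ x in (0 : ℝ)..1, x ^ (2 * e) * p.eval (x ^ 2)

theorem cont (e : ℕ) (p : ℝ[X]) : Continuous fun x : ℝ => x ^ (2 * e) * p.eval (x ^ 2) :=
  (continuous_pow _).mul (p.continuous.comp (continuous_pow 2))

theorem T_add (e : ℕ) (p r : ℝ[X]) : T e (p + r) = T e p + T e r := by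
  unfold T
  rw [← intervalIntegral.integral_add ((cont e p).intervalIntegrable _ _)
    ((cont e r).intervalIntegrable _ _)]
  congr 1
  ext x
  rw [eval_add]
  ring

theorem T_smul (e : ℕ) (c : ℝ) (p : ℝ[X]) : T e (C c * p) = c * T e p := by
  unfold T
  rw [← intervalIntegral.integral_const_mul]
  congr 1
  ext x
  rw [eval_mul, eval_C]
  ring

theorem T_neg (e : ℕ) (p : ℝ[X]) : T e (-p) = -T e p := by
  have h := T_smul e (-1) p
  rw [show (C (-1 : ℝ) * p) = -p by simp] at h
  rw [h]
  ring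

theorem T_zero (e : ℕ) : T e 0 = 0 := by
  unfold T
  simp

theorem T_sum (e : ℕ) {ι : Type*} (s : Finset ι) (f : ι → ℝ[X]) :
    T e (∑ i ∈ s, f i) = ∑ i ∈ s, T e (f i) := by
  classical
  induction s using Finset.induction_on with
  | empty => simp [T_zero]
  | insert a s ha ih => rw [sum_insert ha, sum_insert ha, T_add, ih]

theorem T_pow (e i : ℕ) : T e (X ^ i) = 1 / (2 * ((i : ℝ) + e) + 1) := by
  unfold T
  have h : ∀ x : ℝ, x ^ (2 * e) * (X ^ i : ℝ[X]).eval (x ^ 2) = x ^ (2 * (i + e)) := by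
    intro x
    rw [eval_pow, eval_X, ← pow_mul, ← pow_add]
    congr 1
    ring
  simp_rw [h]
  rw [integral_pow]
  push_cast
  simp

theorem T_mul (e : ℕ) (q K : ℝ[X]) :
    T e (q * K) = ∑ i ∈ range (q.natDegree + 1), q.coeff i * T e (X ^ i * K) := by
  have h : q * K = ∑ i ∈ range (q.natDegree + 1), C (q.coeff i) * (X ^ i * K) := by
    conv_lhs => rw [q.as_sum_range_C_mul_X_pow, sum_mul]
    exact sum_congr rfl fun i _ => by ring
  rw [h, T_sum]
  exact sum_congr rfl fun i _ => T_smul _ _ _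

theorem eval_prod_pos (s : Multiset ℝ) (hs : ∀ r ∈ s, 0 < r ∧ r < 1) {y : ℝ} (hy : 1 ≤ y) :
    0 < ((s.map fun r => X - C r).prod : ℝ[X]).eval y := by
  induction s using Multiset.induction_on with
  | empty => simp
  | cons a s ih =>
    rw [Multiset.map_cons, Multiset.prod_cons, eval_mul]
    refine mul_pos ?_ (ih fun r hr => hs r (Multiset.mem_cons_of_mem hr))
    have := (hs a (Multiset.mem_cons_self a s)).2
    rw [eval_sub, eval_X, eval_C]
    linarith

theorem key (K K2 : ℝ[X]) (m e : ℕ) (s : Multiset ℝ) (hs : ∀ r ∈ s, 0 < r ∧ r < 1)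
    (hK : K = (s.map fun r => X - C r).prod * K2) (hcard : Multiset.card s < m)
    (hpos : ∀ x : ℝ, 0 < x → x < 1 → 0 < K2.eval x)
    (hrel : ∀ i < m, T e (X ^ i * K) = -(K.eval 1) / (2 * ((m : ℝ) - i) + 1)) : False := by
  obtain ⟨q, hq⟩ : ∃ q : ℝ[X], q = (s.map fun r => X - C r).prod := ⟨_, rfl⟩
  rw [← hq] at hK
  have hqm : q.Monic := by
    rw [hq]
    exact monic_multiset_prod_of_monic _ _ fun r _ => monic_X_sub_C r
  have hdeg : q.natDegree = Multiset.card s := by
    rw [hq, natDegree_multiset_prod_X_sub_C_eq_card]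
  have hq1 : ∀ y : ℝ, 1 ≤ y → 0 < q.eval y := fun y hy => by
    rw [hq]
    exact eval_prod_pos s hs hy
  have hK21 : 0 ≤ K2.eval 1 := by
    by_contra hneg
    push Not at hneg
    have hh : (0 : ℝ) < K2.eval (1 / 2) := hpos _ (by norm_num) (by norm_num)
    have h1 := intermediate_value_Icc' (a := (1 / 2 : ℝ)) (b := 1) (by norm_num)
      (K2.continuous.continuousOn (s := Set.Icc (1 / 2 : ℝ) 1))
    obtain ⟨c, hc, hc0⟩ := h1 ⟨hneg.le, hh.le⟩
    have hc1 : c ≠ 1 := by
      rintro rfl
      simp only at hc0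
      linarith
    have := hpos c (by linarith [hc.1]) (lt_of_le_of_ne hc.2 hc1)
    simp only at hc0
    linarith
  have hK1 : 0 ≤ K.eval 1 := by
    rw [hK, eval_mul]
    exact mul_nonneg (hq1 1 le_rfl).le hK21
  -- the tail
  have htail : 0 ≤ ∑ i ∈ range (q.natDegree + 1), q.coeff i / (2 * ((m : ℝ) - i) + 1) := by
    have h1 : ∑ i ∈ range (q.natDegree + 1), q.coeff i / (2 * ((m : ℝ) - i) + 1) =
        ∫ x in (0 : ℝ)..1, ∑ i ∈ range (q.natDegree + 1), q.coeff i * x ^ (2 * (m - i)) := by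
      rw [intervalIntegral.integral_finsetSum]
      · refine sum_congr rfl fun i hi => ?_
        rw [mem_range] at hi
        rw [intervalIntegral.integral_const_mul, integral_pow]
        push_cast [Nat.cast_sub (show i ≤ m by omega)]
        simp [div_eq_mul_inv]
      · intro i _
        exact (continuous_const.mul (continuous_pow _)).intervalIntegrable _ _
    rw [h1]
    refine intervalIntegral.integral_nonneg_of_ae_restrict (by norm_num) ?_
    rw [Filter.EventuallyLE, MeasureTheory.ae_restrict_iff' measurableSet_Icc]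
    have h0 : ∀ᵐ x : ℝ, x ≠ 0 := by
      simp [MeasureTheory.ae_iff]
    filter_upwards [h0] with x hx0 hx
    have hx' : 0 < x := lt_of_le_of_ne hx.1 (Ne.symm hx0)
    have h2 : ∑ i ∈ range (q.natDegree + 1), q.coeff i * x ^ (2 * (m - i)) =
        x ^ (2 * m) * q.eval ((x ^ 2)⁻¹) := by
      rw [eval_eq_sum_range, mul_sum]
      refine sum_congr rfl fun i hi => ?_
      rw [mem_range] at hi
      have h3 : x ^ (2 * m) = x ^ (2 * (m - i)) * (x ^ 2) ^ i := by
        rw [← pow_mul, ← pow_add]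
        congr 1
        omega
      rw [h3, inv_pow]
      have h4 : (x ^ 2) ^ i ≠ 0 := pow_ne_zero _ (pow_ne_zero _ hx0)
      field_simp
    show (0 : ℝ) ≤ _
    rw [h2]
    refine mul_nonneg (pow_nonneg hx.1 _) (hq1 _ ?_).le
    rw [one_le_inv₀ (by positivity)]
    exact pow_le_one₀ hx.1 hx.2
  -- positivity of the moment
  have hT : 0 < T e (q * K) := by
    obtain ⟨c, hc, hcn⟩ := (Set.Ioo_infinite (show (0 : ℝ) < 1 by norm_num)).exists_notMem_finset
      (q.comp (X ^ 2)).roots.toFinset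
    have hcomp : (q.comp (X ^ 2)).Monic := hqm.comp (monic_X_pow 2) (by simp)
    have hqc : q.eval (c ^ 2) ≠ 0 := by
      intro h0
      apply hcn
      rw [Multiset.mem_toFinset, mem_roots hcomp.ne_zero, IsRoot.def, eval_comp, eval_pow, eval_X]
      exact h0
    have hform : ∀ x : ℝ, x ^ (2 * e) * (q * K).eval (x ^ 2) =
        (x ^ 2) ^ e * ((q.eval (x ^ 2)) ^ 2 * K2.eval (x ^ 2)) := by
      intro x
      rw [hK, eval_mul, eval_mul, pow_mul]
      ring
    refine intervalIntegral.integral_pos (by norm_num) (cont e (q * K)).continuousOn ?_ ?_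
    · intro x hx
      rw [hform]
      have hK2 : 0 ≤ K2.eval (x ^ 2) := by
        rcases eq_or_lt_of_le hx.2 with h1 | h1
        · rw [h1, one_pow]
          exact hK21
        · exact (hpos _ (by have := hx.1; positivity)
            (pow_lt_one₀ hx.1.le h1 (by norm_num))).le
      positivity
    · refine ⟨c, ⟨hc.1.le, hc.2.le⟩, ?_⟩
      rw [hform]
      have h1 : 0 < K2.eval (c ^ 2) := hpos _ (by have := hc.1; positivity)
        (pow_lt_one₀ hc.1.le hc.2 (by norm_num))
      have h2 : 0 < (c ^ 2) ^ e := by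
        have := hc.1
        positivity
      have h3 : 0 < (q.eval (c ^ 2)) ^ 2 := by positivity
      positivity
  rw [T_mul] at hT
  have h5 : ∑ i ∈ range (q.natDegree + 1), q.coeff i * T e (X ^ i * K) =
      -(K.eval 1) * ∑ i ∈ range (q.natDegree + 1), q.coeff i / (2 * ((m : ℝ) - i) + 1) := by
    rw [mul_sum]
    refine sum_congr rfl fun i hi => ?_
    rw [mem_range] at hi
    rw [hrel i (by omega)]
    ring
  rw [h5] at hT
  have := mul_nonneg hK1 htail
  linarith

/-- if the moments of `K` are as in the case of the antiderivative of a Legendre polynomial, then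
`K` has at least `m` zeros in the unit interval -/
theorem count (K : ℝ[X]) (hK0 : K ≠ 0) (m e : ℕ)
    (hrel : ∀ i < m, T e (X ^ i * K) = -(K.eval 1) / (2 * ((m : ℝ) - i) + 1)) :
    m ≤ Multiset.card K.roots := by
  classical
  obtain ⟨s, hs⟩ : ∃ s : Multiset ℝ, s = K.roots.filter (fun r => 0 < r ∧ r < 1) := ⟨_, rfl⟩
  have hsle : s ≤ K.roots := by
    rw [hs]
    exact Multiset.filter_le _ _
  refine le_trans ?_ (Multiset.card_le_card hsle)
  by_contra hcard
  push Not at hcard
  have hs01 : ∀ r ∈ s, 0 < r ∧ r < 1 := by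
    intro r hr
    rw [hs, Multiset.mem_filter] at hr
    exact hr.2
  obtain ⟨K2, hK2⟩ := (Multiset.prod_X_sub_C_dvd_iff_le_roots hK0 s).2 hsle
  have hK20 : K2 ≠ 0 := by
    rintro rfl
    rw [mul_zero] at hK2
    exact hK0 hK2
  have hroots : K.roots = s + K2.roots := by
    conv_lhs => rw [hK2]
    rw [roots_mul (by rw [← hK2]; exact hK0), roots_multiset_prod_X_sub_C]
  have hnone : ∀ r : ℝ, 0 < r → r < 1 → K2.eval r ≠ 0 := by
    intro r h0 h1 h2
    have h3 : r ∈ K2.roots := (mem_roots hK20).2 h2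
    have h4 : Multiset.count r K.roots = Multiset.count r s + Multiset.count r K2.roots := by
      rw [hroots, Multiset.count_add]
    have h5 : Multiset.count r s = Multiset.count r K.roots := by
      rw [hs]
      exact Multiset.count_filter_of_pos ⟨h0, h1⟩
    have h6 : 0 < Multiset.count r K2.roots := Multiset.count_pos.2 h3
    omega
  have hsign : (∀ x : ℝ, 0 < x → x < 1 → 0 < K2.eval x) ∨
      (∀ x : ℝ, 0 < x → x < 1 → 0 < (-K2).eval x) := by
    have hivt : ∀ a b : ℝ, a ∈ Set.Ioo (0 : ℝ) 1 → b ∈ Set.Ioo (0 : ℝ) 1 →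
        ¬ (K2.eval a ≤ 0 ∧ 0 ≤ K2.eval b) := by
      rintro a b ha hb ⟨h1, h2⟩
      obtain ⟨c, hc, hc0⟩ := isPreconnected_Ioo.intermediate_value ha hb
        (K2.continuous.continuousOn (s := Set.Ioo (0 : ℝ) 1)) ⟨h1, h2⟩
      exact hnone c hc.1 hc.2 hc0
    have hhalf : (1 / 2 : ℝ) ∈ Set.Ioo (0 : ℝ) 1 := ⟨by norm_num, by norm_num⟩
    rcases le_total 0 (K2.eval (1 / 2)) with h | h
    · left
      intro x h0 h1
      by_contra hc
      push Not at hc
      exact hivt x (1 / 2) ⟨h0, h1⟩ hhalf ⟨hc, h⟩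
    · right
      intro x h0 h1
      by_contra hc
      rw [eval_neg] at hc
      push Not at hc
      exact hivt (1 / 2) x hhalf ⟨h0, h1⟩ ⟨h, by linarith⟩
  rcases hsign with h | h
  · exact key K K2 m e s hs01 hK2 hcard h hrel
  · refine key (-K) (-K2) m e s hs01 (by rw [mul_neg, ← hK2]) hcard h fun i hi => ?_
    rw [mul_neg, T_neg, hrel i hi, eval_neg]
    ring

end Pool.Agent.X47.TG
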