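import Pool.Agent.X47.TG2

/-!
# Real-rootedness for j = 0
-/

set_option autoImplicit false

namespace Pool.Agent.X47.TG

open Polynomial Finset

/-- the coefficients for `j = 0` -/
noncomputable def aa (n k : ℕ) : ℝ := (catalan (n - k) : ℝ) * ((n - k).choose k : ℝ)

theorem aa_mul {n k : ℕ} (h : k ≤ n) : aa n k * ((n : ℝ) - k + 1) = lk n k := by
  have h1 : (((n - k + 1) * catalan (n - k) : ℕ) : ℝ) = ((n - k).centralBinom : ℝ) := by
    rw [succ_mul_catalan_eq_centralBinom]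
  push_cast [Nat.cast_sub h] at h1
  unfold aa lk
  rw [← h1]
  ring

/-- the reversed polynomial for `j = 0` -/
noncomputable def KK (n m : ℕ) : ℝ[X] :=
  ∑ k ∈ range (m + 1), C ((-1 : ℝ) ^ k * aa n k) * X ^ (m - k)

theorem KK_eval (n m : ℕ) : (KK n m).eval 1 = ∑ k ∈ range (m + 1), (-1 : ℝ) ^ k * aa n k := by
  unfold KK
  rw [eval_finsetSum]
  refine sum_congr rfl fun k _ => ?_
  simp

theorem KK_moment (n m e i : ℕ) : T e (X ^ i * KK n m) =
    ∑ k ∈ range (m + 1), (-1 : ℝ) ^ k * aa n k / (2 * ((m : ℝ) + e + i) + 1 - 2 * k) := by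
  unfold KK
  rw [mul_sum, T_sum]
  refine sum_congr rfl fun k hk => ?_
  rw [mem_range] at hk
  have e1 : (X ^ i * (C ((-1 : ℝ) ^ k * aa n k) * X ^ (m - k)) : ℝ[X]) =
      C ((-1 : ℝ) ^ k * aa n k) * X ^ (i + (m - k)) := by
    rw [pow_add]
    ring
  rw [e1, T_smul, T_pow]
  push_cast [Nat.cast_sub (show k ≤ m by omega)]
  rw [mul_one_div]
  congr 1
  ring

theorem KK_rel {n m e : ℕ} (hn : n = 2 * m + e) (he : e = 0 ∨ e = 1) (i : ℕ) (hi : i < m) :
    T e (X ^ i * KK n m) = -((KK n m).eval 1) / (2 * ((m : ℝ) - i) + 1) := by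
  have him : (i : ℝ) < m := by exact_mod_cast hi
  have hG : (0 : ℝ) < 2 * ((m : ℝ) - i) + 1 := by linarith
  have hnr : (n : ℝ) = 2 * m + e := by exact_mod_cast hn
  rw [KK_moment, KK_eval, eq_div_iff hG.ne']
  have h1 := orth hn he hi
  have h2 : 2 * ∑ k ∈ range (m + 1), (-1 : ℝ) ^ k * lk n k / (2 * ((m : ℝ) + e + i) + 1 - 2 * k) =
      ∑ k ∈ range (m + 1), (-1 : ℝ) ^ k * aa n k +
      (∑ k ∈ range (m + 1), (-1 : ℝ) ^ k * aa n k / (2 * ((m : ℝ) + e + i) + 1 - 2 * k)) *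
        (2 * ((m : ℝ) - i) + 1) := by
    rw [mul_sum, sum_mul, ← sum_add_distrib]
    refine sum_congr rfl fun k hk => ?_
    rw [mem_range] at hk
    have hf := fpos (m := m) (e := e) (i := i) (k := k) (by omega)
    rw [← aa_mul (show k ≤ n by omega), hnr]
    field_simp
    ring
  rw [h1, mul_zero] at h2
  linarith

theorem KK_natDegree (n m : ℕ) : (KK n m).natDegree ≤ m := by
  unfold KK
  refine natDegree_sum_le_of_forall_le _ _ fun k _ => ?_
  refine (natDegree_C_mul_X_pow_le _ _).trans (by omega)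

theorem catalan_pos (n : ℕ) : 0 < catalan n := by
  have h := succ_mul_catalan_eq_centralBinom n
  have h2 := Nat.centralBinom_pos n
  by_contra h3
  have h4 : catalan n = 0 := by omega
  rw [h4, mul_zero] at h
  omega

theorem KK_ne (n m : ℕ) : KK n m ≠ 0 := by
  intro h
  have h1 : (KK n m).coeff m = aa n 0 := by
    unfold KK
    rw [finsetSum_coeff, sum_eq_single 0]
    · simp
    · intro k hk hk0
      rw [mem_range] at hk
      rw [coeff_C_mul, coeff_X_pow, if_neg (by omega), mul_zero]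
    · intro h0
      simp at h0
  rw [h, coeff_zero] at h1
  unfold aa at h1
  have h2 : (0 : ℝ) < (catalan n : ℝ) := by exact_mod_cast catalan_pos n
  simp at h1
  linarith

theorem real_of_card (p : ℝ[X]) (hp : p ≠ 0) (h : p.natDegree ≤ Multiset.card p.roots) (z : ℂ)
    (hz : aeval z p = 0) : z.im = 0 := by
  have hc : Multiset.card p.roots = p.natDegree := le_antisymm (card_roots' p) h
  rw [← C_leadingCoeff_mul_prod_multiset_X_sub_C hc, map_mul, mul_eq_zero] at hz
  rcases hz with hz | hz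
  · rw [aeval_C] at hz
    have h1 : p.leadingCoeff = 0 := by
      have h2 := (map_eq_zero (algebraMap ℝ ℂ)).1 hz
      exact h2
    exact absurd h1 (leadingCoeff_ne_zero.2 hp)
  · rw [map_multiset_prod, Multiset.map_map, Multiset.prod_eq_zero_iff, Multiset.mem_map] at hz
    obtain ⟨r, -, hr⟩ := hz
    rw [Function.comp_apply, map_sub, aeval_X, aeval_C, sub_eq_zero] at hr
    rw [hr]
    exact Complex.ofReal_im r

theorem KK_real {n m e : ℕ} (hn : n = 2 * m + e) (he : e = 0 ∨ e = 1) (z : ℂ)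
    (hz : aeval z (KK n m) = 0) : z.im = 0 :=
  real_of_card _ (KK_ne n m) ((KK_natDegree n m).trans
    (count (KK n m) (KK_ne n m) m e (KK_rel hn he))) z hz

/-- from the reversed variable back -/
theorem im_of_inv {z : ℂ} (h : ((1 - z)⁻¹).im = 0) : z.im = 0 := by
  have h1 : (1 - z)⁻¹ = (((1 - z)⁻¹).re : ℂ) := by
    apply Complex.ext
    · simp
    · rw [h]
      simp
  have h2 : 1 - z = ((((1 - z)⁻¹).re)⁻¹ : ℝ) := by
    rw [Complex.ofReal_inv, ← h1, inv_inv]
  have h3 : z = ((1 - (((1 - z)⁻¹).re)⁻¹ : ℝ) : ℂ) := by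
    rw [Complex.ofReal_sub, ← h2]
    simp
  rw [h3]
  exact Complex.ofReal_im _

theorem zero_case {n : ℕ} (z : ℂ)
    (hz : ∑ k ∈ range (n / 2 + 1), (aa n k : ℂ) * (z - 1) ^ k = 0) : z.im = 0 := by
  have hz1 : 1 - z ≠ 0 := by
    intro h
    have h1 : z - 1 = 0 := by linear_combination -h
    rw [h1, sum_eq_single 0] at hz
    · rw [pow_zero, mul_one] at hz
      have h2 : aa n 0 = 0 := by exact_mod_cast hz
      unfold aa at h2
      simp at h2
      exact absurd h2 (catalan_pos n).ne'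
    · intro k _ hk
      rw [zero_pow hk, mul_zero]
    · intro h0
      simp at h0
  apply im_of_inv
  apply KK_real (n := n) (m := n / 2) (e := n % 2) (by omega) (by omega)
  unfold KK
  rw [map_sum]
  have h2 : ∑ k ∈ range (n / 2 + 1), aeval ((1 - z)⁻¹) (C ((-1 : ℝ) ^ k * aa n k) * X ^ (n / 2 - k)) =
      ((1 - z)⁻¹) ^ (n / 2) * ∑ k ∈ range (n / 2 + 1), (aa n k : ℂ) * (z - 1) ^ k := by
    rw [mul_sum]
    refine sum_congr rfl fun k hk => ?_
    rw [mem_range] at hk
    rw [map_mul, aeval_C, map_pow, aeval_X]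
    have h3 : ((1 - z)⁻¹) ^ (n / 2) = ((1 - z)⁻¹) ^ (n / 2 - k) * ((1 - z)⁻¹) ^ k := by
      rw [← pow_add]
      congr 1
      omega
    have h4 : ((1 - z)⁻¹) ^ k * (z - 1) ^ k = (-1) ^ k := by
      rw [← mul_pow]
      congr 1
      rw [show z - 1 = -(1 - z) by ring, mul_neg, inv_mul_cancel₀ hz1]
    have h5 : (algebraMap ℝ ℂ) ((-1) ^ k * aa n k) = (-1) ^ k * (aa n k : ℂ) := by
      simp
    rw [h5, h3]
    linear_combination (-(aa n k : ℂ) * ((1 - z)⁻¹) ^ (n / 2 - k)) * h4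
  rw [h2, hz, mul_zero]

end Pool.Agent.X47.TG
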