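import Pool.Agent.X47.TG3

/-!
# Real-rootedness for j > 0 by the theorem of Gauss and Lucas
-/

set_option autoImplicit false

namespace Pool.Agent.X47.TG

open Polynomial Finset

/-- all complex zeros are real -/
def AR (P : ℂ[X]) : Prop := ∀ z : ℂ, P.eval z = 0 → z.im = 0

theorem AR_derivative {P : ℂ[X]} (hd : 0 < P.degree) (h : AR P) : AR (derivative P) := by
  intro z hz
  have hne : derivative P ≠ 0 := by
    intro h0
    have h1 := natDegree_eq_zero_of_derivative_eq_zero h0
    rw [← natDegree_pos_iff_degree_pos, h1] at hd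
    exact lt_irrefl _ hd
  have h1 : z ∈ (derivative P).rootSet ℂ := by
    rw [mem_rootSet]
    exact ⟨hne, by rw [coe_aeval_eq_eval]; exact hz⟩
  have h2 := rootSet_derivative_subset_convexHull_rootSet hd h1
  have hconv : Convex ℝ {w : ℂ | w.im = 0} := by
    intro x hx y hy a b _ _ _
    simp only [Set.mem_setOf_eq] at hx hy ⊢
    simp [hx, hy]
  have hsub : P.rootSet ℂ ⊆ {w : ℂ | w.im = 0} := by
    intro w hw
    rw [mem_rootSet] at hw
    exact h w (by rw [← coe_aeval_eq_eval]; exact hw.2)
  exact convexHull_min hsub hconv h2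

theorem AR_iterate {P : ℂ[X]} (h : AR P) (k : ℕ) (hk : k ≤ P.natDegree) :
    AR (derivative^[k] P) := by
  induction k with
  | zero => exact h
  | succ k ih =>
    rw [Function.iterate_succ_apply']
    refine AR_derivative ?_ (ih (by omega))
    have h1 : (derivative^[k] P).coeff (P.natDegree - k) ≠ 0 := by
      rw [coeff_iterate_derivative, Nat.sub_add_cancel (by omega), nsmul_eq_mul]
      refine mul_ne_zero ?_ ?_
      · rw [Nat.cast_ne_zero]
        intro h0
        rw [Nat.descFactorial_eq_zero_iff_lt] at h0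
        omega
      · rw [coeff_natDegree, Ne, leadingCoeff_eq_zero]
        rintro rfl
        simp at hk
    have h2 := le_natDegree_of_ne_zero h1
    rw [← natDegree_pos_iff_degree_pos]
    omega

theorem AR_base (N : ℕ) : AR ((X ^ 2 - 1) ^ N) := by
  intro z hz
  rw [eval_pow] at hz
  have h1 : (X ^ 2 - 1 : ℂ[X]).eval z = 0 := by
    by_contra h0
    exact pow_ne_zero _ h0 hz
  simp only [eval_sub, eval_pow, eval_X, eval_one] at h1
  have h2 : (z - 1) * (z + 1) = 0 := by linear_combination h1
  rcases mul_eq_zero.1 h2 with h3 | h3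
  · rw [sub_eq_zero.1 h3]
    simp
  · rw [eq_neg_of_add_eq_zero_left h3]
    simp

theorem natDegree_base (N : ℕ) : ((X ^ 2 - 1 : ℂ[X]) ^ N).natDegree = 2 * N := by
  have h : (X ^ 2 - 1 : ℂ[X]).natDegree = 2 := by
    have := natDegree_X_pow_sub_C (n := 2) (r := (1 : ℂ))
    simpa using this
  rw [natDegree_pow, h, mul_comm]

theorem expand (N : ℕ) : ((X ^ 2 - 1 : ℂ[X]) ^ N) =
    ∑ l ∈ range (N + 1), C ((-1 : ℂ) ^ (N - l) * (N.choose l : ℂ)) * X ^ (2 * l) := by
  rw [sub_eq_add_neg, add_pow]
  refine sum_congr rfl fun l _ => ?_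
  rw [← pow_mul, map_mul, map_pow, map_neg, map_one, map_natCast]
  ring

theorem iter_sum {ι : Type*} (s : Finset ι) (f : ι → ℂ[X]) (k : ℕ) :
    derivative^[k] (∑ i ∈ s, f i) = ∑ i ∈ s, derivative^[k] (f i) := by
  induction k generalizing f with
  | zero => rfl
  | succ k ih =>
    rw [Function.iterate_succ_apply, derivative_sum, ih]
    exact sum_congr rfl fun i _ => by rw [Function.iterate_succ_apply]

theorem iter_mono (c : ℂ) (a k : ℕ) :
    derivative^[k] (C c * X ^ a : ℂ[X]) = C (c * (a.descFactorial k : ℂ)) * X ^ (a - k) := by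
  rw [iterate_derivative_C_mul, iterate_derivative_X_pow_eq_natCast_mul, map_mul, map_natCast]
  ring

/-- the first polynomial in the reversed variable -/
noncomputable def RR (n j : ℕ) : ℂ[X] := ∑ l ∈ range (n - j + 1),
  C ((-1 : ℂ) ^ (n - j - l) * ((n - j).choose l : ℂ) * ((2 * l).descFactorial (n - 2 * j) : ℂ)) *
    X ^ (l + j)

theorem RR_sq {n j : ℕ} (hj : 2 * j ≤ n) (x : ℂ) : (RR n j).eval (x ^ 2) =
    x ^ n * (derivative^[n - 2 * j] ((X ^ 2 - 1 : ℂ[X]) ^ (n - j))).eval x := by
  rw [expand, iter_sum]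
  unfold RR
  rw [eval_finsetSum, eval_finsetSum, mul_sum]
  refine sum_congr rfl fun l hl => ?_
  rw [mem_range] at hl
  rw [iter_mono]
  simp only [eval_mul, eval_C, eval_pow, eval_X]
  by_cases h : n - 2 * j ≤ 2 * l
  · have e : (x ^ 2) ^ (l + j) = x ^ n * x ^ (2 * l - (n - 2 * j)) := by
      rw [← pow_mul, ← pow_add]
      congr 1
      omega
    rw [e]
    ring
  · have h0 : (2 * l).descFactorial (n - 2 * j) = 0 :=
      Nat.descFactorial_eq_zero_iff_lt.2 (by omega)
    rw [h0]
    simp

theorem RR_AR {n j : ℕ} (hj : 2 * j ≤ n) : AR (RR n j) := by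
  intro z hz
  obtain ⟨x, hx⟩ := IsAlgClosed.exists_pow_nat_eq z (n := 2) (by norm_num)
  rw [← hx, RR_sq hj] at hz
  have hxr : x.im = 0 := by
    rcases mul_eq_zero.1 hz with h | h
    · have : x = 0 := by
        by_contra h0
        exact pow_ne_zero _ h0 h
      rw [this]
      simp
    · refine AR_iterate (AR_base (n - j)) (n - 2 * j) ?_ x h
      rw [natDegree_base]
      omega
  rw [← hx, sq, Complex.mul_im, hxr]
  ring

theorem coeff_id {n j l : ℕ} (hj1 : 1 ≤ j) (hj : 2 * j ≤ n) (hl : l ≤ n - j) :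
    (n - j).choose l * (2 * l).descFactorial (n - 2 * j) * (l + j).descFactorial (j - 1) =
      (n - j).factorial * (catalan l * (l + j).choose (n - j - l)) := by
  by_cases h : n - 2 * j ≤ 2 * l
  · have h1 := Nat.choose_mul_factorial_mul_factorial hl
    have h2 := Nat.factorial_mul_descFactorial h
    have h3 := Nat.factorial_mul_descFactorial (show j - 1 ≤ l + j by omega)
    have e3 : l + j - (j - 1) = l + 1 := by omega
    rw [e3] at h3
    have h4 := Nat.choose_mul_factorial_mul_factorial (show n - j - l ≤ l + j by omega)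
    have e4 : l + j - (n - j - l) = 2 * l - (n - 2 * j) := by omega
    rw [e4] at h4
    have h5 : catalan l * (l + 1).factorial * l.factorial = (2 * l).factorial := by
      have h6 := succ_mul_catalan_eq_centralBinom l
      have h7 := Nat.choose_mul_factorial_mul_factorial (show l ≤ 2 * l by omega)
      have e7 : 2 * l - l = l := by omega
      rw [e7, ← Nat.centralBinom_eq_two_mul_choose, ← h6] at h7
      rw [← h7, Nat.factorial_succ]
      ring
    have hpos : 0 < l.factorial * (n - j - l).factorial * (2 * l - (n - 2 * j)).factorial *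
        (l + 1).factorial := by positivity
    apply Nat.eq_of_mul_eq_mul_right hpos
    calc (n - j).choose l * (2 * l).descFactorial (n - 2 * j) * (l + j).descFactorial (j - 1) *
          (l.factorial * (n - j - l).factorial * (2 * l - (n - 2 * j)).factorial *
            (l + 1).factorial)
        = ((n - j).choose l * l.factorial * (n - j - l).factorial) *
          ((2 * l - (n - 2 * j)).factorial * (2 * l).descFactorial (n - 2 * j)) *
          ((l + 1).factorial * (l + j).descFactorial (j - 1)) := by ring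
      _ = (n - j).factorial * (2 * l).factorial * (l + j).factorial := by rw [h1, h2, h3]
      _ = (n - j).factorial * (catalan l * (l + 1).factorial * l.factorial) *
          ((l + j).choose (n - j - l) * (n - j - l).factorial *
            (2 * l - (n - 2 * j)).factorial) := by rw [h5, h4]
      _ = _ := by ring
  · have h0 : (2 * l).descFactorial (n - 2 * j) = 0 :=
      Nat.descFactorial_eq_zero_iff_lt.2 (by omega)
    have h1 : (l + j).choose (n - j - l) = 0 := Nat.choose_eq_zero_of_lt (by omega)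
    rw [h0, h1]
    simp

/-- the reversed polynomial for `j > 0` -/
noncomputable def SS (n j : ℕ) : ℂ[X] := ∑ l ∈ range (n - j + 1),
  C ((-1 : ℂ) ^ (n - j - l) * ((catalan l : ℂ) * ((l + j).choose (n - j - l) : ℂ))) * X ^ (l + 1)

theorem iter_RR {n j : ℕ} (hj1 : 1 ≤ j) (hj : 2 * j ≤ n) :
    derivative^[j - 1] (RR n j) = C ((n - j).factorial : ℂ) * SS n j := by
  unfold RR SS
  rw [iter_sum, mul_sum]
  refine sum_congr rfl fun l hl => ?_
  rw [mem_range] at hl
  rw [iter_mono, ← mul_assoc, ← C_mul]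
  have e : l + j - (j - 1) = l + 1 := by omega
  rw [e]
  congr 2
  have h := coeff_id hj1 hj (show l ≤ n - j by omega)
  have h' : (((n - j).choose l * (2 * l).descFactorial (n - 2 * j) *
      (l + j).descFactorial (j - 1) : ℕ) : ℂ) =
      (((n - j).factorial * (catalan l * (l + j).choose (n - j - l)) : ℕ) : ℂ) := by rw [h]
  push_cast at h'
  linear_combination ((-1 : ℂ) ^ (n - j - l)) * h'

theorem natDegree_RR {n j : ℕ} (hj : 2 * j ≤ n) : n ≤ (RR n j).natDegree := by
  apply le_natDegree_of_ne_zero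
  unfold RR
  rw [finsetSum_coeff, sum_eq_single (n - j)]
  · rw [coeff_C_mul, coeff_X_pow, if_pos (by omega), mul_one]
    simp only [Nat.sub_self, pow_zero, one_mul, Nat.choose_self, Nat.cast_one]
    rw [Nat.cast_ne_zero]
    intro h0
    rw [Nat.descFactorial_eq_zero_iff_lt] at h0
    omega
  · intro l hl hl0
    rw [mem_range] at hl
    rw [coeff_C_mul, coeff_X_pow, if_neg (by omega), mul_zero]
  · intro h0
    simp at h0

theorem SS_AR {n j : ℕ} (hj1 : 1 ≤ j) (hj : 2 * j ≤ n) : AR (SS n j) := by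
  intro z hz
  have h1 := AR_iterate (RR_AR hj) (j - 1) ((show j - 1 ≤ n by omega).trans (natDegree_RR hj)) z
  rw [iter_RR hj1 hj] at h1
  apply h1
  rw [eval_mul, hz, mul_zero]

theorem pos_case {n j : ℕ} (hj1 : 1 ≤ j) (hj : 2 * j ≤ n) (z : ℂ)
    (hz : ∑ k ∈ range (n - j + 1), ((catalan (n - k - j) : ℂ) * ((n - k).choose k : ℂ)) *
      (z - 1) ^ k = 0) : z.im = 0 := by
  have hz1 : 1 - z ≠ 0 := by
    intro h
    have h1 : z - 1 = 0 := by linear_combination -h
    rw [h1, sum_eq_single 0] at hz
    · rw [pow_zero, mul_one] at hz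
      simp at hz
      exact absurd hz (catalan_pos (n - j)).ne'
    · intro k _ hk
      rw [zero_pow hk, mul_zero]
    · intro h0
      simp at h0
  apply im_of_inv
  apply SS_AR hj1 hj
  unfold SS
  rw [eval_finsetSum, ← sum_range_reflect]
  have h2 : ∑ k ∈ range (n - j + 1), eval ((1 - z)⁻¹)
      (C ((-1 : ℂ) ^ (n - j - (n - j + 1 - 1 - k)) * ((catalan (n - j + 1 - 1 - k) : ℂ) *
        ((n - j + 1 - 1 - k + j).choose (n - j - (n - j + 1 - 1 - k)) : ℂ))) *
          X ^ (n - j + 1 - 1 - k + 1)) =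
      ((1 - z)⁻¹) ^ (n - j + 1) * ∑ k ∈ range (n - j + 1),
        ((catalan (n - k - j) : ℂ) * ((n - k).choose k : ℂ)) * (z - 1) ^ k := by
    rw [mul_sum]
    refine sum_congr rfl fun k hk => ?_
    rw [mem_range] at hk
    have e1 : n - j - (n - j + 1 - 1 - k) = k := by omega
    have e2 : n - j + 1 - 1 - k = n - k - j := by omega
    rw [e1, e2]
    have e3 : n - k - j + j = n - k := by omega
    rw [e3]
    simp only [eval_mul, eval_C, eval_pow, eval_X]
    have h3 : ((1 - z)⁻¹) ^ (n - j + 1) = ((1 - z)⁻¹) ^ (n - k - j + 1) * ((1 - z)⁻¹) ^ k := by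
      rw [← pow_add]
      congr 1
      omega
    have h4 : ((1 - z)⁻¹) ^ k * (z - 1) ^ k = (-1) ^ k := by
      rw [← mul_pow]
      congr 1
      rw [show z - 1 = -(1 - z) by ring, mul_neg, inv_mul_cancel₀ hz1]
    rw [h3]
    linear_combination (-((catalan (n - k - j) : ℂ) * ((n - k).choose k : ℂ)) *
      ((1 - z)⁻¹) ^ (n - k - j + 1)) * h4
  rw [h2, hz, mul_zero]

end Pool.Agent.X47.TG
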